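import Pool.Agent.Helper48.WL.Defs

/-!
W01. Elementary rules in a `GA`.

All proofs are short. `s a = a` for `a ∈ Hm g`, `g` even (`Even.neg_one_zpow`), `s a = -a` for `g` odd
(`Odd.neg_one_zpow`). `D 1 = 0`: `D (1*1) = D 1 * 1 + s 1 * D 1`. Powers: induction, `F` commutes with
everything by `even_comm`. Inverses: differentiate `u * u⁻¹ = 1` (units of `G.A`; `s`, `τ` map inverses to
inverses). `pow_mul_mem_I`: `a^κ * r ∈ I^κ`: induction, `pow_succ`, `Submodule.mul_mem_mul`; for the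
factor `r` use `κ = κ' + 1`, `a^κ' * (a * r)`, `a * r ∈ I` by `I_mul`.
-/

set_option autoImplicit false

namespace AnWL
variable {M : Type} {xd : M → ℤ} {N : ℕ} (G : GA M xd N)

private theorem der_one (δ : G.A →ₗ[ℚ] G.A)
    (hδ : ∀ a b, δ (a * b) = δ a * b + G.s a * δ b) : δ 1 = 0 := by
  have h := hδ 1 1
  rw [mul_one, mul_one, map_one G.s, one_mul] at h
  have h2 : δ 1 + 0 = δ 1 + δ 1 := by rw [add_zero]; exact h
  exact (add_left_cancel h2).symm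

private theorem der_pow (δ : G.A →ₗ[ℚ] G.A)
    (hδ : ∀ a b, δ (a * b) = δ a * b + G.s a * δ b) {F : G.A} (hF : G.s F = F) (k : ℕ) :
    δ (F ^ (k + 1)) = ((k + 1 : ℕ) : ℚ) • (F ^ k * δ F) := by
  induction k with
  | zero => simp
  | succ n ih =>
    rw [pow_succ F (n + 1), hδ, ih, map_pow, hF, smul_mul_assoc, mul_assoc,
      ← G.even_comm F (δ F) hF, ← mul_assoc, ← pow_succ]
    push_cast
    rw [add_smul ((n : ℚ) + 1) 1, one_smul]

private theorem der_zpow (δ : G.A →ₗ[ℚ] G.A)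
    (hδ : ∀ a b, δ (a * b) = δ a * b + G.s a * δ b) (u : G.Aˣ) (hu : G.s (u : G.A) = u)
    (hpow : ∀ k : ℤ, G.s ((u ^ k : G.Aˣ) : G.A) = ((u ^ k : G.Aˣ) : G.A)) (k : ℤ) :
    δ ((u ^ k : G.Aˣ) : G.A) = (k : ℚ) • (((u ^ (k - 1) : G.Aˣ) : G.A) * δ u) := by
  have key : ∀ k : ℤ, δ ((u ^ (k + 1) : G.Aˣ) : G.A)
      = δ ((u ^ k : G.Aˣ) : G.A) * u + ((u ^ k : G.Aˣ) : G.A) * δ u := by
    intro k
    rw [zpow_add_one, Units.val_mul, hδ, hpow]
  have hc : ∀ b : G.A, (u : G.A) * b = b * u := fun b => G.even_comm _ b hu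
  induction k using Int.induction_on with
  | zero => simp [der_one G δ hδ]
  | succ n ih =>
    rw [key, ih, smul_mul_assoc, mul_assoc, ← hc, ← mul_assoc, ← Units.val_mul, ← zpow_add_one,
      sub_add_cancel, add_sub_cancel_right]
    push_cast
    rw [add_smul, one_smul]
  | pred n ih =>
    have h := key (-(n : ℤ) - 1)
    rw [sub_add_cancel, ih] at h
    have h2 : δ ((u ^ (-(n : ℤ) - 1) : G.Aˣ) : G.A) * u
        = ((-(n : ℤ) - 1 : ℤ) : ℚ) • (((u ^ (-(n : ℤ) - 1) : G.Aˣ) : G.A) * δ u) := by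
      rw [eq_sub_of_add_eq h.symm]
      push_cast
      rw [sub_smul, one_smul]
    have h3 : δ ((u ^ (-(n : ℤ) - 1) : G.Aˣ) : G.A)
        = (((-(n : ℤ) - 1 : ℤ) : ℚ) • (((u ^ (-(n : ℤ) - 1) : G.Aˣ) : G.A) * δ u))
          * ((u⁻¹ : G.Aˣ) : G.A) := by
      rw [← h2, mul_assoc, Units.mul_inv, mul_one]
    have hci : δ (u : G.A) * ((u⁻¹ : G.Aˣ) : G.A) = ((u⁻¹ : G.Aˣ) : G.A) * δ (u : G.A) := by
      have h5 := hpow (-1)
      rw [zpow_neg_one] at h5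
      exact (G.even_comm _ _ h5).symm
    rw [h3, smul_mul_assoc, mul_assoc, hci, ← mul_assoc, ← Units.val_mul, ← zpow_sub_one]

private theorem map_inv (φ : G.A →ₐ[ℚ] G.A) (u : G.Aˣ) {c : ℚ} (hc : c ≠ 0)
    (h : φ (u : G.A) = c • (u : G.A)) :
    φ ((u⁻¹ : G.Aˣ) : G.A) = c⁻¹ • ((u⁻¹ : G.Aˣ) : G.A) := by
  have h1 : φ ((u⁻¹ : G.Aˣ) : G.A) * (c • (u : G.A)) = 1 := by
    rw [← h, ← map_mul, Units.inv_mul, map_one]
  rw [mul_smul_comm] at h1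
  have h2 : φ ((u⁻¹ : G.Aˣ) : G.A) * (u : G.A) = c⁻¹ • (1 : G.A) := by
    rw [← h1, smul_smul, inv_mul_cancel₀ hc, one_smul]
  calc φ ((u⁻¹ : G.Aˣ) : G.A)
      = (φ ((u⁻¹ : G.Aˣ) : G.A) * (u : G.A)) * ((u⁻¹ : G.Aˣ) : G.A) := by
        rw [mul_assoc, Units.mul_inv, mul_one]
    _ = c⁻¹ • ((u⁻¹ : G.Aˣ) : G.A) := by rw [h2, smul_mul_assoc, one_mul]

theorem D_one : G.D 1 = 0 := der_one G G.D G.D_mul

theorem pd_one (i : M) : G.pd i 1 = 0 := der_one G (G.pd i) (G.pd_mul i)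

theorem Hm_s_even {g : ℤ} (hg : Even g) {a : G.A} (ha : a ∈ G.Hm g) : G.s a = a := by
  have h := ha.2
  rw [hg.neg_one_zpow, one_smul] at h
  exact h

theorem Hm_s_odd {g : ℤ} (hg : Odd g) {a : G.A} (ha : a ∈ G.Hm g) : G.s a = -a := by
  have h := ha.2
  rw [hg.neg_one_zpow, neg_smul, one_smul] at h
  exact h

theorem Hm_one : (1 : G.A) ∈ G.Hm 0 := by
  refine ⟨?_, ?_⟩
  · rw [map_one, zpow_zero, one_smul]
  · rw [map_one, zpow_zero, one_smul]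

theorem Hm_mul {g g' : ℤ} {a b : G.A} (ha : a ∈ G.Hm g) (hb : b ∈ G.Hm g') :
    a * b ∈ G.Hm (g + g') := by
  refine ⟨?_, ?_⟩
  · rw [map_mul, ha.1, hb.1, smul_mul_smul_comm, zpow_add₀ (by norm_num : (2 : ℚ) ≠ 0)]
  · rw [map_mul, ha.2, hb.2, smul_mul_smul_comm, zpow_add₀ (by norm_num : (-1 : ℚ) ≠ 0)]

theorem Hm_pow {g : ℤ} {a : G.A} (ha : a ∈ G.Hm g) (k : ℕ) : a ^ k ∈ G.Hm (k * g) := by
  induction k with
  | zero => simpa using Hm_one G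
  | succ n ih =>
    have h := Hm_mul G ih ha
    rw [← pow_succ] at h
    have e : (n : ℤ) * g + g = ((n + 1 : ℕ) : ℤ) * g := by push_cast; ring
    rw [e] at h
    exact h

theorem Hm_D {g : ℤ} {a : G.A} (ha : a ∈ G.Hm g) : G.D a ∈ G.Hm (g + 1) := by
  refine ⟨?_, ?_⟩
  · rw [G.τ_D, ha.1, map_smul, smul_smul, zpow_add_one₀ (by norm_num : (2 : ℚ) ≠ 0), mul_comm]
  · rw [G.s_D, ha.2, map_smul, zpow_add_one₀ (by norm_num : (-1 : ℚ) ≠ 0), mul_neg_one, neg_smul]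

theorem Hm_pd {g : ℤ} {a : G.A} (ha : a ∈ G.Hm g) (i : M) : G.pd i a ∈ G.Hm (g - xd i) := by
  refine ⟨?_, ?_⟩
  · rw [G.τ_pd, ha.1, map_smul, smul_smul, sub_eq_add_neg, zpow_add₀ (by norm_num : (2 : ℚ) ≠ 0),
      mul_comm]
  · rw [G.s_pd, ha.2, map_smul, sub_eq_add_neg, zpow_add₀ (by norm_num : (-1 : ℚ) ≠ 0),
      (G.xd_odd i).neg.neg_one_zpow, mul_neg_one, neg_smul]

theorem Hm_X (j : M) : G.X j ∈ G.Hm (xd j) := by
  refine ⟨G.τ_X j, ?_⟩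
  rw [G.s_X, (G.xd_odd j).neg_one_zpow, neg_smul, one_smul]

theorem Hm_Y (j : M) : G.Y j ∈ G.Hm ((N : ℤ) * (xd j + 1) - 1) := by
  refine ⟨G.τ_Y j, ?_⟩
  have ho : Odd ((N : ℤ) * (xd j + 1) - 1) := by
    have he : Even ((N : ℤ) * (xd j + 1)) := (Odd.add_one (G.xd_odd j)).mul_left _
    exact he.sub_odd odd_one
  rw [G.s_Y, ho.neg_one_zpow, neg_smul, one_smul]

/-- Homogeneous elements of even degree are central. -/
theorem Hm_comm {g : ℤ} (hg : Even g) {a : G.A} (ha : a ∈ G.Hm g) (b : G.A) : a * b = b * a :=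
  G.even_comm a b (Hm_s_even G hg ha)

theorem Hm_anti {g g' : ℤ} (hg : Odd g) (hg' : Odd g') {a b : G.A} (ha : a ∈ G.Hm g)
    (hb : b ∈ G.Hm g') : a * b = -(b * a) :=
  G.odd_anti a b (Hm_s_odd G hg ha) (Hm_s_odd G hg' hb)

theorem Hm_sq {g : ℤ} (hg : Odd g) {a : G.A} (ha : a ∈ G.Hm g) : a * a = 0 := by
  have h := Hm_anti G hg hg ha ha
  have h2 : (2 : ℚ) • (a * a) = 0 := by
    rw [two_smul]
    nth_rewrite 2 [h]
    exact add_neg_cancel _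
  calc a * a = (1 / 2 : ℚ) • ((2 : ℚ) • (a * a)) := by
        rw [smul_smul]; norm_num
    _ = 0 := by rw [h2, smul_zero]

/-- An odd element against an arbitrary one. -/
theorem odd_comm {a : G.A} (ha : G.s a = -a) (b : G.A) : a * b = G.s b * a := by
  have h0 : G.s (b + G.s b) = b + G.s b := by rw [map_add, G.s_s, add_comm]
  have h1 : G.s (b - G.s b) = -(b - G.s b) := by rw [map_sub, G.s_s, neg_sub]
  have e0 := G.even_comm _ a h0
  have e1 := G.odd_anti a _ ha h1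
  have hsum : (2 : ℚ) • (a * b) = (2 : ℚ) • (G.s b * a) := by
    have e2 : (2 : ℚ) • (a * b) = a * (b + G.s b) + a * (b - G.s b) := by
      rw [two_smul, mul_add, mul_sub]; abel
    rw [e2, ← e0, e1, two_smul, add_mul, sub_mul]; abel
  calc a * b = (1 / 2 : ℚ) • ((2 : ℚ) • (a * b)) := by rw [smul_smul]; norm_num
    _ = (1 / 2 : ℚ) • ((2 : ℚ) • (G.s b * a)) := by rw [hsum]
    _ = G.s b * a := by rw [smul_smul]; norm_num

theorem D_pow {F : G.A} (hF : G.s F = F) (k : ℕ) :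
    G.D (F ^ (k + 1)) = ((k + 1 : ℕ) : ℚ) • (F ^ k * G.D F) :=
  der_pow G G.D G.D_mul hF k

theorem pd_pow (i : M) {F : G.A} (hF : G.s F = F) (k : ℕ) :
    G.pd i (F ^ (k + 1)) = ((k + 1 : ℕ) : ℚ) • (F ^ k * G.pd i F) :=
  der_pow G (G.pd i) (G.pd_mul i) hF k

/-- Inverses of homogeneous even units. -/
theorem inv_even {g : ℤ} (hg : Even g) (u : G.Aˣ) (hu : (u : G.A) ∈ G.Hm g) :
    ((u⁻¹ : G.Aˣ) : G.A) ∈ G.Hm (-g) := by
  refine ⟨?_, ?_⟩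
  · rw [zpow_neg]
    exact map_inv G G.τ u (zpow_ne_zero _ (by norm_num)) hu.1
  · rw [zpow_neg]
    exact map_inv G G.s u (zpow_ne_zero _ (by norm_num)) hu.2

theorem zpow_even {g : ℤ} (hg : Even g) (u : G.Aˣ) (hu : (u : G.A) ∈ G.Hm g) (k : ℤ) :
    ((u ^ k : G.Aˣ) : G.A) ∈ G.Hm (k * g) := by
  cases k with
  | ofNat n =>
    have h := Hm_pow G hu n
    rw [Int.ofNat_eq_natCast, zpow_natCast, Units.val_pow_eq_pow_val]
    exact h
  | negSucc n =>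
    have h := Hm_pow G (inv_even G hg u hu) (n + 1)
    rw [zpow_negSucc, ← inv_pow, Units.val_pow_eq_pow_val]
    have e : ((n + 1 : ℕ) : ℤ) * -g = Int.negSucc n * g := by
      rw [Int.negSucc_eq]; push_cast; ring
    rw [e] at h
    exact h

private theorem s_zpow {g : ℤ} (hg : Even g) (u : G.Aˣ) (hu : (u : G.A) ∈ G.Hm g) (k : ℤ) :
    G.s ((u ^ k : G.Aˣ) : G.A) = ((u ^ k : G.Aˣ) : G.A) :=
  Hm_s_even G (hg.mul_left k) (zpow_even G hg u hu k)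

theorem D_zpow {g : ℤ} (hg : Even g) (u : G.Aˣ) (hu : (u : G.A) ∈ G.Hm g) (k : ℤ) :
    G.D ((u ^ k : G.Aˣ) : G.A) = (k : ℚ) • (((u ^ (k - 1) : G.Aˣ) : G.A) * G.D u) :=
  der_zpow G G.D G.D_mul u (Hm_s_even G hg hu) (s_zpow G hg u hu) k

theorem pd_zpow (i : M) {g : ℤ} (hg : Even g) (u : G.Aˣ) (hu : (u : G.A) ∈ G.Hm g) (k : ℤ) :
    G.pd i ((u ^ k : G.Aˣ) : G.A) = (k : ℚ) • (((u ^ (k - 1) : G.Aˣ) : G.A) * G.pd i u) :=
  der_zpow G (G.pd i) (G.pd_mul i) u (Hm_s_even G hg hu) (s_zpow G hg u hu) k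

theorem Lv_one (L : Finset M) : G.Lv L 1 := fun j _ => pd_one G j

theorem Lv_mul {L : Finset M} {a b : G.A} (ha : G.Lv L a) (hb : G.Lv L b) : G.Lv L (a * b) := by
  intro j hj
  rw [G.pd_mul, ha j hj, hb j hj, zero_mul, mul_zero, add_zero]

theorem Lv_add {L : Finset M} {a b : G.A} (ha : G.Lv L a) (hb : G.Lv L b) : G.Lv L (a + b) := by
  intro j hj
  rw [map_add, ha j hj, hb j hj, add_zero]

theorem Lv_sub {L : Finset M} {a b : G.A} (ha : G.Lv L a) (hb : G.Lv L b) : G.Lv L (a - b) := by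
  intro j hj
  rw [map_sub, ha j hj, hb j hj, sub_zero]

theorem Lv_smul {L : Finset M} (r : ℚ) {a : G.A} (ha : G.Lv L a) : G.Lv L (r • a) := by
  intro j hj
  rw [map_smul, ha j hj, smul_zero]

theorem Lv_pow {L : Finset M} {a : G.A} (ha : G.Lv L a) (k : ℕ) : G.Lv L (a ^ k) := by
  induction k with
  | zero => rw [pow_zero]; exact Lv_one G L
  | succ n ih => rw [pow_succ]; exact Lv_mul G ih ha

theorem Lv_sum {L : Finset M} {α : Type} (t : Finset α) (x : α → G.A) (h : ∀ i ∈ t, G.Lv L (x i)) :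
    G.Lv L (∑ i ∈ t, x i) := by
  intro j hj
  rw [map_sum]
  exact Finset.sum_eq_zero fun i hi => h i hi j hj

theorem Lv_D {L : Finset M} {a : G.A} (ha : G.Lv L a) : G.Lv L (G.D a) := by
  intro j hj
  rw [G.pd_D, ha j hj, map_zero, neg_zero]

theorem Lv_pd {L : Finset M} {a : G.A} (ha : G.Lv L a) (i : M) : G.Lv L (G.pd i a) := by
  intro j hj
  rw [G.pd_pd, ha j hj, map_zero, neg_zero]

theorem Lv_zpow {L : Finset M} {g : ℤ} (hg : Even g) (u : G.Aˣ) (hu : (u : G.A) ∈ G.Hm g)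
    (h : G.Lv L u) (k : ℤ) : G.Lv L ((u ^ k : G.Aˣ) : G.A) := by
  intro j hj
  rw [pd_zpow G j hg u hu k, h j hj, mul_zero, smul_zero]

theorem Lv_X [DecidableEq M] {L : Finset M} {j : M} (hj : j ∈ L) : G.Lv L (G.X j) := by
  intro i hi
  exact G.pd_X_ne i j (fun h => hi (h ▸ hj))

theorem Lv_DX (L : Finset M) (j : M) : G.Lv L (G.D (G.X j)) := by
  intro i _
  rw [G.pd_D]
  by_cases h : i = j
  · subst h
    rw [G.pd_X, D_one, neg_zero]
  · rw [G.pd_X_ne i j h, map_zero, neg_zero]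

theorem Lv_Y (L : Finset M) (j : M) : G.Lv L (G.Y j) := fun i _ => G.pd_Y i j

theorem pow_mul_mem_I {κ : ℕ} (hκ : 1 ≤ κ) {a r : G.A} (ha : a ∈ G.I) (hr : r ∈ G.R) :
    a ^ κ * r ∈ G.I ^ κ := by
  induction κ, hκ using Nat.le_induction with
  | base => rw [pow_one, pow_one]; exact G.I_mul a ha r hr
  | succ n _ ih =>
    rw [pow_succ', pow_succ', mul_assoc]
    exact Submodule.mul_mem_mul ha ih

theorem I_pow_mem {k : ℕ} (hk : 1 ≤ k) {a : G.A} (ha : a ∈ G.I) : a ^ k ∈ G.I := by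
  induction k, hk using Nat.le_induction with
  | base => rw [pow_one]; exact ha
  | succ n _ ih => rw [pow_succ]; exact G.I_mul _ ih a (G.I_le a ha)

theorem Nl_of_sq {r : G.A} (hr : r ∈ G.R) (h : r * r = 0) : r ∈ G.Nl := by
  apply G.pow_Nl r hr 2
  rw [pow_two, h]
  exact G.Nl.zero_mem

theorem Nl_of_nil {r : G.A} (hr : r ∈ G.R) (h : IsNilpotent r) : r ∈ G.Nl := by
  obtain ⟨n, hn⟩ := h
  apply G.pow_Nl r hr n
  rw [hn]
  exact G.Nl.zero_mem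

/-- `e^μ + t ∈ Nl`, `t² = 0` imply `e ∈ Nl`. -/
theorem Nl_of_add {e t : G.A} (he : e ∈ G.R) (ht : t ∈ G.R) (h2 : t * t = 0) {μ : ℕ}
    (h : e ^ μ + t ∈ G.Nl) : e ∈ G.Nl := by
  apply G.pow_Nl e he μ
  have h3 := G.Nl.sub_mem h (Nl_of_sq G ht h2)
  rwa [add_sub_cancel_right] at h3

end AnWL
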