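import Pool.Agent.Helper48.WL.W06a

/-!
W07. Lemma A. `ε' = e^2 * rho ε`, `ε'^P η` regular, `D η = 1`, `D e = ε^Λ w`, `w` regular, `P ≤ Λ`.

`μ = 2P + 4`, `Ω = e^μ + μ e^(μ-1) D e η = D (e^μ η)` (`D_pow`; `e^μ` even). So `D Ω = 0`.
`∂_k (D e) = -D (∂_k e) = 0`, so `D e = rho (D e) = (rho ε)^Λ rho w` (`rho_of_pd`, `rho_mul`, `rho_pow`).
`e^(μ-1) D e η = e^(μ-1) (rho ε)^Λ rho w ε'^(-P) r`, `r = ε'^P η ∈ R`, `ε'^(-P) = e^(-2P) (rho ε)^(-P)`:
`= e^(μ-1-2P-2) (e rho (ε^(Λ-P))) (e rho w) r = e * (regular) * ..`, `μ - 3 - 2P = 1`. To avoid inverses: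
multiply by `ε'^P` (a unit) and compare. So `t = μ e^(μ-1) D e η ∈ I` (`e ∈ I`), `e^μ ∈ I`.
`t * t = 0`: `D e` is odd (`D e * D e = 0`), `e`, `η` commute up to sign with it.
Level: `Lv_mul`, `Lv_D`, `Lv_erase` for `e`. Degree: `e^μ ∈ Hm (μ g)`, `t ∈ Hm ((μ-1) g + (g+1) - 1)`.
-/

set_option autoImplicit false

namespace AnWL
variable {M : Type} {xd : M → ℤ} {N : ℕ} (G : GA M xd N)

theorem lemA [DecidableEq M] {L : Finset M} {k : M} {e v ε η w : G.A} {g ed : ℤ} {P Λ : ℕ}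
    (h : Elim G L k e v g) (hu : IsUnit ε) (hR : ε ∈ G.R) (hed : Even ed) (hh : ε ∈ G.Hm ed)
    (hL : G.Lv L ε) (hw : w ∈ G.R) (hDe : G.D e = ε ^ Λ * w) (hP : P ≤ Λ)
    (hη : η ∈ G.Hm (-1)) (hηL : G.Lv (L.erase k) η) (hDη : G.D η = 1)
    (hηP : (e ^ 2 * G.rho k v ε) ^ P * η ∈ G.R) :
    ∃ (μ : ℕ) (t : G.A), t ∈ G.I ∧ t * t = 0 ∧ e ^ μ + t ∈ G.I ∧ e ^ μ + t ∈ G.Hm (μ * g) ∧
      G.D (e ^ μ + t) = 0 ∧ G.Lv (L.erase k) (e ^ μ + t) := by
  have hs : G.s e = e := Hm_s_even G h.g_even h.e_hm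
  have hce : ∀ a, e * a = a * e := Hm_comm G h.g_even h.e_hm
  have hcr : ∀ a, G.rho k v ε * a = a * G.rho k v ε :=
    Hm_comm G hed (rho_hm G h.v_hm hh)
  have hpd : G.pd k (G.D e) = 0 := by rw [G.pd_D, h.pd_e, map_zero, neg_zero]
  have hDe' : G.D e = G.rho k v ε ^ Λ * G.rho k v w := by
    rw [← rho_of_pd G (k := k) (v := v) hpd, hDe, rho_mul G h.v_s, rho_pow G h.v_s]
  have hDodd : G.s (G.D e) = -G.D e := by rw [G.s_D, hs]
  have hηodd : G.s η = -η := Hm_s_odd G (by decide) hη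
  have ht0 : G.D (e ^ (2 * P + 4) * η) =
      e ^ (2 * P + 4) + ((2 * P + 4 : ℕ) : ℚ) • (e ^ (2 * P + 3) * G.D e * η) := by
    have h1 := D_pow G hs (2 * P + 3)
    rw [G.D_mul, h1, map_pow, hs, hDη, mul_one, smul_mul_assoc, add_comm]
  have hmem : e ^ (2 * P + 3) * G.D e * η ∈ G.I := by
    obtain ⟨Q, rfl⟩ := Nat.exists_eq_add_of_le hP
    have h1 : e ^ (2 * P + 3) * G.D e * η =
        e * ((e * G.rho k v (ε ^ Q)) * ((e * G.rho k v w) *
          ((e ^ 2 * G.rho k v ε) ^ P * η))) := by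
      have hC : Commute e (G.rho k v ε) := hce _
      have hx : (e ^ 2 * G.rho k v ε) ^ P = e ^ (2 * P) * G.rho k v ε ^ P := by
        rw [(hC.pow_left 2).mul_pow, ← pow_mul]
      have hcx : ∀ a, e ^ (2 * P) * a = a * e ^ (2 * P) := fun a =>
        (Commute.pow_left (show Commute e a from hce a) (2 * P)).eq
      have hcy : ∀ a, G.rho k v ε ^ P * a = a * G.rho k v ε ^ P := fun a =>
        (Commute.pow_left (show Commute (G.rho k v ε) a from hcr a) P).eq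
      have lft : ∀ c : G.A, (∀ a, c * a = a * c) → ∀ a b, a * (c * b) = c * (a * b) := by
        intro c hc a b
        rw [← mul_assoc, ← hc a, mul_assoc]
      rw [hDe', rho_pow G h.v_s, hx, pow_add e (2 * P) 3, pow_add (G.rho k v ε) P Q]
      generalize e ^ (2 * P) = E at hcx ⊢
      generalize G.rho k v ε ^ P = R1 at hcy ⊢
      generalize G.rho k v ε ^ Q = R2
      generalize G.rho k v w = W
      have e3 : e ^ 3 = e * (e * e) := by rw [pow_succ, pow_two, mul_assoc]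
      rw [e3]
      simp only [mul_assoc]
      rw [lft E hcx W (R1 * η), lft R1 hcy W η]
      rw [lft E hcx e (R1 * (W * η)), lft E hcx R2 (e * (R1 * (W * η))),
        lft E hcx e (R2 * (e * (R1 * (W * η)))), lft E hcx e (e * (R2 * (e * (R1 * (W * η))))),
        lft e hce R2 (R1 * (W * η)), lft R1 hcy R2 (W * η)]
    rw [h1]
    exact G.I_mul e h.e_I _ (G.R.mul_mem (h.he _ (G.R.pow_mem hR Q))
      (G.R.mul_mem (h.he _ hw) hηP))
  have hLe : G.Lv (L.erase k) e := Lv_erase G h.e_lv h.pd_e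
  have hdeg : e ^ (2 * P + 3) * G.D e * η ∈ G.Hm (((2 * P + 4 : ℕ) : ℤ) * g) := by
    have h1 := Hm_mul G (Hm_mul G (Hm_pow G h.e_hm (2 * P + 3)) (Hm_D G h.e_hm)) hη
    have h2 : ((2 * P + 3 : ℕ) : ℤ) * g + (g + 1) + -1 = ((2 * P + 4 : ℕ) : ℤ) * g := by
      push_cast; ring
    rwa [h2] at h1
  have hsq : e ^ (2 * P + 3) * G.D e * η * (e ^ (2 * P + 3) * G.D e * η) = 0 := by
    have hcx : ∀ a, e ^ (2 * P + 3) * a = a * e ^ (2 * P + 3) := fun a =>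
      (Commute.pow_left (show Commute e a from hce a) (2 * P + 3)).eq
    have h2 : G.D e * G.D e = 0 := odd_sq G hDodd
    have h3 : η * G.D e = -(G.D e * η) := G.odd_anti _ _ hηodd hDodd
    generalize e ^ (2 * P + 3) = E at hcx ⊢
    have h4 : E * G.D e * η * (E * G.D e * η) = E * (E * (G.D e * (η * G.D e) * η)) := by
      rw [mul_assoc E (G.D e) η, mul_assoc E (G.D e * η), ← mul_assoc (G.D e * η) E,
        ← hcx (G.D e * η)]
      simp only [mul_assoc]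
    rw [h4, h3, mul_neg, ← mul_assoc (G.D e), h2, zero_mul, neg_zero, zero_mul, mul_zero,
      mul_zero]
  refine ⟨2 * P + 4, ((2 * P + 4 : ℕ) : ℚ) • (e ^ (2 * P + 3) * G.D e * η),
    G.I.smul_mem _ hmem, ?_, ?_, ?_, ?_, ?_⟩
  · rw [smul_mul_smul_comm, hsq, smul_zero]
  · exact G.I.add_mem (I_pow_mem G (by omega) h.e_I) (G.I.smul_mem _ hmem)
  · exact (G.Hm _).add_mem (Hm_pow G h.e_hm _) ((G.Hm _).smul_mem _ hdeg)
  · rw [← ht0, G.D_D]
  · exact Lv_add G (Lv_pow G hLe _) (Lv_smul G _ (Lv_mul G (Lv_mul G (Lv_pow G hLe _)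
      (Lv_D G hLe)) hηL))

end AnWL
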