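import Pool.Agent.Helper48.WL.W06
import Pool.Agent.Helper48.WL.W07

/-!
W08. `KL(ℓ+1)` from `WL(ℓ)` and `S(ℓ)`; `KL(0)` is empty; transport of worlds along morphisms.

`KL(ℓ+1)`: `n = card M`. `child n (dd n (ℓ+1)) m q (bb n (ℓ+1)) (dd n ℓ)`: `dd n ℓ ≤ dd n (ℓ+1)` and
`dd n ℓ + n ≤ bb n (ℓ+1) = 3 bb n ℓ + 1 + n` hold. It gives `m'`, `q'`; `WL(ℓ) m' q'` gives `P'`. Put
`P = P' + n`. Given the world, `z`, `l`: `l = k :: l₀`, `|l₀|` even, `|l₀| + 1 ≤ n` (`List.Nodup.length_le_card`).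
`e = ∂_k (pdl l₀ z) = pdl l z` is regular, homogeneous of even degree (`pdl_hm`, `sum_xd_parity`):
`unit_or_nil`. If nilpotent: `H = G`, `Nl_of_nil`. If invertible: the child world on `L.erase k`, whose
cardinality is `ℓ`, `ε' ∈ I`, so `WL(ℓ)` gives `H₁`, `φ₁` tame, `η`. `D e = -pdl l (D z) = -pdl l (ε^P w)`
(`pdl_D`) `= ε^(P - |l|) w'` (`pdl_eps`), `P - |l| ≥ P'`. Everything is transported to `H₁` by `φ₁`
(`Elim_map`, `φ₁ (rho ..) = rho ..`), `lemA` in `H₁` gives `Ω = e^μ + t`. `unit_or_nil` for `Ω`: if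
nilpotent, `Ω ∈ Nl` and `Nl_of_add`, `H = H₁`. If invertible: `S(ℓ)` gives `H₂`, `φ₂` tame, `D z' = φ₂ (Ω^R₀)`, so
`φ₂(Ω)^R₀ ∈ Nl` (`D_Nl`), `φ₂ Ω ∈ Nl` (`pow_Nl`), `Nl_of_add`. `H = H₂`, `φ = φ₁.comp φ₂` tame (`Tame_comp`).
-/

set_option autoImplicit false

namespace AnWL
variable {M : Type} {xd : M → ℤ} {N : ℕ}

theorem Tame_id (G : GA M xd N) : (Mor.id G).Tame := by
  intro g hg
  exact Or.inl ⟨g, hg, rfl⟩

theorem Tame_comp {G H K : GA M xd N} {φ : Mor G H} {ψ : Mor H K} (h : φ.Tame) (h' : ψ.Tame) :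
    (φ.comp ψ).Tame := by
  intro g hg
  rcases h' g hg with ⟨g1, hg1, rfl⟩ | h1
  · rcases h g1 hg1 with ⟨g2, hg2, rfl⟩ | h2
    · exact Or.inl ⟨g2, hg2, rfl⟩
    · exact Or.inr (ψ.Nl _ h2)
  · exact Or.inr h1

theorem Mor_hm {G H : GA M xd N} (φ : Mor G H) {g : ℤ} {a : G.A} (h : a ∈ G.Hm g) :
    φ.f a ∈ H.Hm g := by
  obtain ⟨h1, h2⟩ := h
  refine ⟨?_, ?_⟩
  · rw [φ.τ, h1, map_smul]
  · rw [φ.s, h2, map_smul]

theorem Mor_lv {G H : GA M xd N} (φ : Mor G H) {L : Finset M} {a : G.A} (h : G.Lv L a) :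
    H.Lv L (φ.f a) := by
  intro j hj
  rw [φ.pd, h j hj, map_zero]

theorem Mor_pdl {G H : GA M xd N} (φ : Mor G H) (l : List M) (a : G.A) :
    H.pdl l (φ.f a) = φ.f (G.pdl l a) := by
  induction l with
  | nil => rfl
  | cons k l ih =>
    have h1 : H.pdl (k :: l) (φ.f a) = H.pd k (H.pdl l (φ.f a)) := rfl
    have h2 : G.pdl (k :: l) a = G.pd k (G.pdl l a) := rfl
    rw [h1, h2, ih, φ.pd]

theorem Mor_rho {G H : GA M xd N} (φ : Mor G H) (k : M) (v a : G.A) :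
    H.rho k (φ.f v) (φ.f a) = φ.f (G.rho k v a) := by
  unfold GA.rho
  rw [map_sub, map_mul, φ.pd]

private theorem Mor_pl {G H : GA M xd N} (φ : Mor G H) {ε w : G.A} {q : ℕ} (h : G.Pl ε q w) :
    H.Pl (φ.f ε) q (φ.f w) := by
  unfold GA.Pl at h ⊢
  rw [← map_pow, ← map_mul]
  exact φ.R _ h

theorem Mor_world {G H : GA M xd N} (φ : Mor G H) {L : Finset M} {d m q : ℕ} {F ε y : G.A}
    {f e : ℤ} (h : World G L d m q F ε y f e) :
    World H L d m q (φ.f F) (φ.f ε) (φ.f y) f e := by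
  obtain ⟨u1, hu1, hu1'⟩ := h.DF
  obtain ⟨u2, hu2, hu2'⟩ := h.Dε
  exact
    { F_unit := h.F_unit.map φ.f
      f_even := h.f_even
      F_hm := Mor_hm φ h.F_hm
      F_lv := Mor_lv φ h.F_lv
      ε_unit := h.ε_unit.map φ.f
      ε_mem := φ.R _ h.ε_mem
      e_even := h.e_even
      ε_hm := Mor_hm φ h.ε_hm
      ε_lv := Mor_lv φ h.ε_lv
      y_hm := Mor_hm φ h.y_hm
      y_lv := Mor_lv φ h.y_lv
      Dy := by rw [φ.D, h.Dy, map_one]
      F_pl := Mor_pl φ h.F_pl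
      DF := ⟨φ.f u1, Mor_pl φ hu1, by rw [φ.D, hu1', map_mul, map_pow]⟩
      Dε := ⟨φ.f u2, Mor_pl φ hu2, by rw [φ.D, hu2', map_mul, map_pow]⟩
      y_pl := by
        have h1 := Mor_pl φ h.y_pl
        rwa [map_mul, map_pow] at h1 }

/-- The regularity of `e * rho r` for all regular `r` follows from `e v ∈ R`, `e ∈ R`. -/
theorem Elim_map [DecidableEq M] {G H : GA M xd N} (φ : Mor G H) {L : Finset M} {k : M}
    {e v : G.A} {g : ℤ} (h : Elim G L k e v g) : Elim H L k (φ.f e) (φ.f v) g := by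
  exact
    { mem_L := h.mem_L
      e_unit := h.e_unit.map φ.f
      e_R := φ.R _ h.e_R
      e_I := φ.I _ h.e_I
      g_even := h.g_even
      e_hm := Mor_hm φ h.e_hm
      e_lv := Mor_lv φ h.e_lv
      pd_e := by rw [φ.pd, h.pd_e, map_zero]
      v_hm := Mor_hm φ h.v_hm
      v_s := by rw [φ.s, h.v_s, map_neg]
      v_lv := Mor_lv φ h.v_lv
      pd_v := by rw [φ.pd, h.pd_v, map_one]
      ev := by rw [← map_mul]; exact φ.R _ h.ev
      he := by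
        intro r hr
        unfold GA.rho
        rw [mul_sub, ← mul_assoc, ← map_mul]
        exact H.R.sub_mem (H.R.mul_mem (φ.R _ h.e_R) hr)
          (H.R.mul_mem (φ.R _ h.ev) (H.pd_mem k r hr)) }

theorem KL_zero (n : ℕ) (K : Set (GA M xd N)) : KLc n K 0 := by
  intro m q
  refine ⟨0, ?_⟩
  intro G hG L hL F ε y f e W g z ψ w hg hzI hz hzL hψ hDz hw hDz' l hnd hodd hmem
  exfalso
  rw [Finset.card_eq_zero] at hL
  subst hL
  cases l with
  | nil => simp at hodd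
  | cons k l₀ => exact absurd (hmem k List.mem_cons_self) (Finset.notMem_empty k)

theorem KL_succ [Fintype M] [DecidableEq M] (K : Set (GA M xd N)) (ℓ : ℕ)
    (hW : WLc (Fintype.card M) K ℓ) (hS : SSc K ℓ) : KLc (Fintype.card M) K (ℓ + 1) := by
  intro m q
  have hbb : bb (Fintype.card M) (ℓ + 1) = 3 * bb (Fintype.card M) ℓ + 1 + Fintype.card M := rfl
  have hd : dd (Fintype.card M) ℓ ≤ dd (Fintype.card M) (ℓ + 1) := by
    unfold dd
    rw [hbb]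
    omega
  have hT : dd (Fintype.card M) ℓ + Fintype.card M ≤ bb (Fintype.card M) (ℓ + 1) := by
    unfold dd
    rw [hbb]
  obtain ⟨m', q', hch⟩ := child (M := M) (xd := xd) (N := N) (Fintype.card M)
    (dd (Fintype.card M) (ℓ + 1)) m q (bb (Fintype.card M) (ℓ + 1)) (dd (Fintype.card M) ℓ) hd hT
  obtain ⟨P', hP'⟩ := hW m' q'
  obtain ⟨R₀, hR₀, hS'⟩ := hS
  refine ⟨P' + Fintype.card M, ?_⟩
  intro G hG L hL F ε y f ed W g z ψ w hg hzI hz hzL hψ hDz hw hDz' l hnd hodd hmem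
  cases l with
  | nil => simp at hodd
  | cons k l₀ =>
    have hlen : (k :: l₀).length ≤ Fintype.card M := hnd.length_le_card
    have hev0 : Even l₀.length := by
      rw [List.length_cons, Nat.odd_add_one, Nat.not_odd_iff_even] at hodd
      exact hodd
    have hk : k ∈ L := hmem k List.mem_cons_self
    have hpdl : G.pdl (k :: l₀) z = G.pd k (G.pdl l₀ z) := rfl
    have heI : G.pdl (k :: l₀) z ∈ G.I := pdl_memI G hzI (k :: l₀)
    have heR : G.pdl (k :: l₀) z ∈ G.R := G.I_le _ heI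
    have hpar := sum_xd_parity G.xd_odd (k :: l₀)
    have hsum : Odd (((k :: l₀).map xd).sum) := by
      have h1 : Odd (((k :: l₀).length : ℤ)) := by exact_mod_cast hodd
      have h2 := hpar.add_odd h1
      rwa [sub_add_cancel] at h2
    have hgeven : Even (g - 1 - ((k :: l₀).map xd).sum) := (hg.sub_odd odd_one).sub_odd hsum
    have heh : G.pdl (k :: l₀) z ∈ G.Hm (g - 1 - ((k :: l₀).map xd).sum) := pdl_hm G hz (k :: l₀)
    rcases G.unit_or_nil _ heR _ hgeven (Hm_s_even G hgeven heh) heh.1 with hu | hn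
    · rw [hpdl] at hu
      have hcard : (L.erase k).card = ℓ := by
        rw [Finset.card_erase_of_mem hk, hL]
        rfl
      obtain ⟨v, y', ge, hE, hW', hεI⟩ := hch G L F ε y f ed W k l₀ g z ψ hk
        (by rw [List.length_cons] at hlen; exact hlen) hev0 hg hzI hz hzL hψ hDz hu
      obtain ⟨H₁, hH₁, φ₁, hφ₁, η, hη, hηL, hDη, hηP⟩ := hP' G hG (L.erase k) hcard _ _ _ _ _ hW' hεI
      obtain ⟨χ, hχ, hχ'⟩ := pdl_eps G W.ε_mem W.e_even W.ε_hm hw (k :: l₀)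
        (le_trans hlen (Nat.le_add_left _ P'))
      have hDe : G.D (G.pd k (G.pdl l₀ z)) =
          ε ^ (P' + Fintype.card M - (k :: l₀).length) * (((-1 : ℚ) ^ (k :: l₀).length) • χ) := by
        rw [← hpdl, pdl_D, hDz', hχ', mul_smul_comm]
      have hDe' : H₁.D (φ₁.f (G.pd k (G.pdl l₀ z))) =
          φ₁.f ε ^ (P' + Fintype.card M - (k :: l₀).length) *
            φ₁.f (((-1 : ℚ) ^ (k :: l₀).length) • χ) := by
        rw [φ₁.D, hDe, map_mul, map_pow]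
      have hηP' : (φ₁.f (G.pd k (G.pdl l₀ z)) ^ 2 * H₁.rho k (φ₁.f v) (φ₁.f ε)) ^ P' * η ∈ H₁.R := by
        rw [Mor_rho, ← map_pow φ₁.f (G.pd k (G.pdl l₀ z)) 2, ← map_mul]
        exact hηP
      have hE₁ := Elim_map φ₁ hE
      obtain ⟨μ, t, htI, htt, hΩI, hΩh, hΩD, hΩL⟩ := lemA H₁ hE₁ (W.ε_unit.map φ₁.f)
        (φ₁.R _ W.ε_mem) W.e_even (Mor_hm φ₁ W.ε_hm) (Mor_lv φ₁ W.ε_lv)
        (φ₁.R _ (G.R.smul_mem hχ _)) hDe' (by omega) hη hηL hDη hηP'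
      have hμ : Even ((μ : ℤ) * ge) := hE.g_even.mul_left _
      rcases H₁.unit_or_nil _ (H₁.I_le _ hΩI) _ hμ (Hm_s_even H₁ hμ hΩh) hΩh.1 with hu₁ | hn₁
      · obtain ⟨H₂, hH₂, φ₂, hφ₂, z', hz'R, _, _, _, hDz₂⟩ := hS' H₁ hH₁ (L.erase k) hcard _ _ hμ
          hΩI hΩh hΩD hΩL hu₁
        refine ⟨H₂, hH₂, φ₁.comp φ₂, Tame_comp hφ₁ hφ₂, ?_⟩
        have h1 : φ₂.f (φ₁.f (G.pd k (G.pdl l₀ z)) ^ μ + t) ^ R₀ ∈ H₂.Nl := by
          rw [← map_pow, ← hDz₂]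
          exact H₂.D_Nl _ hz'R
        have h2 := H₂.pow_Nl _ (φ₂.R _ (H₁.I_le _ hΩI)) R₀ h1
        rw [map_add, map_pow] at h2
        exact Nl_of_add H₂ (φ₂.R _ hE₁.e_R) (φ₂.R _ (H₁.I_le _ htI))
          (by rw [← map_mul, htt, map_zero]) h2
      · refine ⟨H₁, hH₁, φ₁, hφ₁, ?_⟩
        exact Nl_of_add H₁ hE₁.e_R (H₁.I_le _ htI) htt (Nl_of_nil H₁ (H₁.I_le _ hΩI) hn₁)
    · exact ⟨G, hG, Mor.id G, Tame_id G, Nl_of_nil G heR hn⟩

/-- Finitely many elements can be killed one after the other. -/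
theorem kill_all (K : Set (GA M xd N)) {G : GA M xd N} (hG : G ∈ K) {α : Type} (E : Finset α)
    (x : α → G.A)
    (h : ∀ a ∈ E, ∀ H ∈ K, ∀ ψ : Mor G H, ∃ H' ∈ K, ∃ χ : Mor H H', χ.Tame ∧
      χ.f (ψ.f (x a)) ∈ H'.Nl) :
    ∃ H ∈ K, ∃ φ : Mor G H, φ.Tame ∧ ∀ a ∈ E, φ.f (x a) ∈ H.Nl := by
  classical
  induction E using Finset.induction_on with
  | empty => exact ⟨G, hG, Mor.id G, Tame_id G, fun a ha => absurd ha (Finset.notMem_empty a)⟩
  | insert a s _ ih =>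
    obtain ⟨H, hH, φ, hφ, hk⟩ := ih (fun b hb => h b (Finset.mem_insert_of_mem hb))
    obtain ⟨H', hH', χ, hχ, hχ'⟩ := h a (Finset.mem_insert_self a s) H hH φ
    refine ⟨H', hH', φ.comp χ, Tame_comp hφ hχ, ?_⟩
    intro b hb
    rcases Finset.mem_insert.mp hb with rfl | hb
    · exact hχ'
    · exact χ.Nl _ (hk b hb)

end AnWL
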