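import Pool.Agent.Helper48.WL.W08

/-!
W14. `S(ℓ)` from `KL(ℓ)`.

`R₀ = bb n ℓ + κ`. Given `F`: `w = F^R₀ = F^κ F^(bb n ℓ) ∈ I^κ` (`pow_mul_mem_I`), closed (`D_pow`), of degree
`R₀ f`. `EXT` gives `H`, `φ`, `z`. Put `F₁ = φ F`, `y = z (F₁^R₀)⁻¹`: `D y = 1` (`D (F₁⁻¹) = 0`, `D z = F₁^R₀`).
`World H L (dd n ℓ) R₀ 0 F₁ 1 y f 0`: `u = 0` in both clauses, `F₁^R₀ y = z ∈ R`. `KL(ℓ) R₀ 0` gives `P`, with
`ψ = F₁^κ`, `w = F₁^R₀`, `ε = 1`. In every extension `H' ∈ K` of `H` each `∂_l z` (`l` nodup, odd, in `L`) can be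
killed (`Mor_world`, `Mor_pdl`), so `kill_all` (finitely many nodup lists) gives `H₁`, `φ₁` tame over `H` with
`φ₁ (∂_l z) ∈ Nl` for all `l`. `φ.comp φ₁` is tame: for `t ∈ H₁.Gen`, `t ∉ Nl`: `t = φ₁ t'`, `t' ∈ H.Gen`, and the
last clause of `EXT` with `ψ = φ₁`.
-/

set_option autoImplicit false

namespace AnWL
variable {M : Type} {xd : M → ℤ} {N : ℕ}

theorem SS_of [Fintype M] [DecidableEq M] (K : Set (GA M xd N)) {κ : ℕ} (hκ : 1 ≤ κ)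
    (hK : EXT K κ) (ℓ : ℕ) (hKL : KLc (Fintype.card M) K ℓ) : SSc K ℓ := by
  classical
  obtain ⟨b, hb⟩ : ∃ b, b = bb (Fintype.card M) ℓ := ⟨_, rfl⟩
  obtain ⟨P, hP⟩ := hKL (b + κ) 0
  refine ⟨b + κ, by omega, ?_⟩
  intro G hG L hL f F hf hFI hF hDF hFL hFu
  have hFs : G.s F = F := Hm_s_even G hf hF
  have hge : Even (((b + κ : ℕ) : ℤ) * f) := hf.mul_left _
  have hwh : F ^ (b + κ) ∈ G.Hm (((b + κ : ℕ) : ℤ) * f) := Hm_pow G hF _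
  have hwI : F ^ (b + κ) ∈ G.I ^ κ := by
    rw [add_comm b κ, pow_add]
    exact pow_mul_mem_I G hκ hFI (G.R.pow_mem (G.I_le _ hFI) b)
  have hDw : G.D (F ^ (b + κ)) = 0 := by
    obtain ⟨k, hk⟩ : ∃ k, b + κ = k + 1 := ⟨b + κ - 1, by omega⟩
    rw [hk, D_pow G hFs k, hDF, mul_zero, smul_zero]
  obtain ⟨H, hH, φ, z, hzR, hzI, hzh, hzL, hDz, hcl⟩ :=
    hK G hG L _ _ hge hwh hwI hDw (Lv_pow G hFL _)
  -- the world
  obtain ⟨u, hu⟩ : IsUnit (φ.f F) := hFu.map φ.f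
  have hu1 : φ.f F ∈ H.Hm f := Mor_hm φ hF
  have hu2 : (u : H.A) ∈ H.Hm f := by rw [hu]; exact hu1
  have hu3 : H.Lv L (u : H.A) := by rw [hu]; exact Mor_lv φ hFL
  have hDu : H.D (u : H.A) = 0 := by rw [hu, φ.D, hDF, map_zero]
  obtain ⟨v, hv⟩ : ∃ v : H.Aˣ, v = u ^ (-((b + κ : ℕ) : ℤ)) := ⟨_, rfl⟩
  have hvh : (v : H.A) ∈ H.Hm (-((b + κ : ℕ) : ℤ) * f) := by
    rw [hv]; exact zpow_even H hf u hu2 _
  have hvL : H.Lv L (v : H.A) := by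
    rw [hv]; exact Lv_zpow H hf u hu2 hu3 _
  have hDv : H.D (v : H.A) = 0 := by
    rw [hv, D_zpow H hf u hu2, hDu, mul_zero, smul_zero]
  have huv : φ.f F ^ (b + κ) * (v : H.A) = 1 := by
    rw [← hu, ← Units.val_pow_eq_pow_val, ← Units.val_mul, hv, zpow_neg, zpow_natCast,
      mul_inv_cancel, Units.val_one]
  have hcen : ∀ a : H.A, φ.f F ^ (b + κ) * a = a * φ.f F ^ (b + κ) := by
    intro a
    exact Hm_comm H (hf.mul_left ((b + κ : ℕ) : ℤ)) (Hm_pow H hu1 (b + κ)) a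
  have hyh : z * (v : H.A) ∈ H.Hm (-1) := by
    have h := Hm_mul H hzh hvh
    have h2 : ((b + κ : ℕ) : ℤ) * f - 1 + -((b + κ : ℕ) : ℤ) * f = -1 := by ring
    rwa [h2] at h
  have hDy : H.D (z * (v : H.A)) = 1 := by
    rw [H.D_mul, hDv, mul_zero, add_zero, hDz, map_pow, huv]
  have hFz : φ.f F ^ (b + κ) * (z * (v : H.A)) = z := by
    rw [← mul_assoc, hcen, mul_assoc, huv, mul_one]
  have hW : World H L (dd (Fintype.card M) ℓ) (b + κ) 0 (φ.f F) 1 (z * (v : H.A)) f 0 :=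
    { F_unit := hFu.map φ.f
      f_even := hf
      F_hm := hu1
      F_lv := Mor_lv φ hFL
      ε_unit := isUnit_one
      ε_mem := H.R.one_mem
      e_even := ⟨0, by ring⟩
      ε_hm := Hm_one H
      ε_lv := Lv_one H L
      y_hm := hyh
      y_lv := Lv_mul H hzL hvL
      Dy := hDy
      F_pl := by
        unfold GA.Pl
        rw [pow_zero, one_mul]
        exact φ.R _ (G.I_le _ hFI)
      DF := by
        refine ⟨0, ?_, ?_⟩
        · unfold GA.Pl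
          rw [mul_zero]
          exact H.R.zero_mem
        · rw [φ.D, hDF, map_zero, mul_zero]
      Dε := by
        refine ⟨0, ?_, ?_⟩
        · unfold GA.Pl
          rw [mul_zero]
          exact H.R.zero_mem
        · rw [D_one H, mul_zero]
      y_pl := by
        unfold GA.Pl
        rw [hFz, pow_zero, one_mul]
        exact hzR }
  -- killing the components
  obtain ⟨H₁, hH₁, φ₁, hφ₁, hkill⟩ := kill_all K hH
    (Finset.univ.filter (fun l : {l : List M // l.Nodup} =>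
      Odd l.1.length ∧ ∀ x ∈ l.1, x ∈ L)) (fun l => H.pdl l.1 z) (by
      intro l hl H' hH' ψ
      rw [Finset.mem_filter] at hl
      have hW' := Mor_world ψ hW
      have h1 : H'.D (ψ.f z) = (ψ.f (φ.f F)) ^ bb (Fintype.card M) ℓ * (ψ.f (φ.f F)) ^ κ := by
        rw [ψ.D, hDz, ← hb, ← pow_add, map_pow, map_pow]
      have h2 : H'.D (ψ.f z) = (ψ.f 1) ^ P * (ψ.f (φ.f F)) ^ (b + κ) := by
        rw [ψ.D, hDz, map_one, one_pow, one_mul, map_pow, map_pow]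
      have hR' : ψ.f (φ.f F) ∈ H'.R := ψ.R _ (φ.R _ (G.I_le _ hFI))
      obtain ⟨H'', hH'', χ, hχ, hχ'⟩ := hP H' hH' L hL _ _ _ _ _ hW' _ (ψ.f z) _ _ hge
        (ψ.I _ hzI) (Mor_hm ψ hzh) (Mor_lv ψ hzL) (H'.R.pow_mem hR' κ) h1
        (H'.R.pow_mem hR' (b + κ)) h2 l.1 l.2 hl.2.1 hl.2.2
      refine ⟨H'', hH'', χ, hχ, ?_⟩
      rw [← Mor_pdl]
      exact hχ')
  refine ⟨H₁, hH₁, φ.comp φ₁, ?_, φ₁.f z, φ₁.R _ hzR, φ₁.I _ hzI, Mor_hm φ₁ hzh,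
    Mor_lv φ₁ hzL, ?_⟩
  · intro t ht
    rcases hφ₁ t ht with ⟨t', ht', rfl⟩ | h
    · rcases hcl t' ht' with ⟨t'', ht'', rfl⟩ | h
      · exact Or.inl ⟨t'', ht'', rfl⟩
      · refine Or.inr (h H₁ hH₁ φ₁ ?_)
        intro l hnd hodd hmem
        exact hkill ⟨l, hnd⟩ (Finset.mem_filter.2 ⟨Finset.mem_univ _, hodd, hmem⟩)
    · exact Or.inr h
  · rw [φ₁.D, hDz]
    rfl

end AnWL
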