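import Pool.Agent.Helper48.WL.W13
import Pool.Agent.Helper48.WL.W14

/-!
W15. The main theorem of the abstract part.

`all_levels`: induction on `ℓ`: `KL(0)` (`KL_zero`), `KL(ℓ+1)` from `WL(ℓ)`, `S(ℓ)` (`KL_succ`); `S(ℓ)` from `KL(ℓ)`
(`SS_of`); `WL(ℓ)` from `KL(ℓ)`, `S(ℓ)` (`WL_of`).
`kill_closed`: `kill_all`; for one closed `x ∈ I` of even degree in `G ∈ K`: `unit_or_nil`; nilpotent:
`Nl_of_nil`, `H = G`; unit: `SSc K (card M)` with `L = univ` (`Lv univ` is empty): `D z = φ (x^R₀)`, so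
`φ x ^ R₀ ∈ Nl` (`D_Nl`), `pow_Nl`.
-/

set_option autoImplicit false

namespace AnWL
variable {M : Type} {xd : M → ℤ} {N : ℕ}

theorem all_levels [Fintype M] [DecidableEq M] (K : Set (GA M xd N)) {κ : ℕ} (hκ : 1 ≤ κ)
    (hK : EXT K κ) (ℓ : ℕ) :
    SSc K ℓ ∧ WLc (Fintype.card M) K ℓ ∧ KLc (Fintype.card M) K ℓ := by
  have h : ∀ ℓ : ℕ, KLc (Fintype.card M) K ℓ := by
    intro ℓ
    induction ℓ with
    | zero => exact KL_zero _ K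
    | succ ℓ ih =>
      have hS : SSc K ℓ := SS_of K hκ hK ℓ ih
      exact KL_succ K ℓ (WL_of K hκ hK ℓ ih hS) hS
  have hS : SSc K ℓ := SS_of K hκ hK ℓ (h ℓ)
  exact ⟨hS, WL_of K hκ hK ℓ (h ℓ) hS, h ℓ⟩

/-- Finitely many closed homogeneous elements of `I` of even degree can be killed by an extension all of
whose new generators are killed. -/
theorem kill_closed [Fintype M] [DecidableEq M] (K : Set (GA M xd N)) {κ : ℕ} (hκ : 1 ≤ κ)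
    (hK : EXT K κ) {G : GA M xd N} (hG : G ∈ K) {α : Type} (E : Finset α) (x : α → G.A)
    (f : α → ℤ) (hf : ∀ a ∈ E, Even (f a)) (hx : ∀ a ∈ E, x a ∈ G.I)
    (hh : ∀ a ∈ E, x a ∈ G.Hm (f a)) (hD : ∀ a ∈ E, G.D (x a) = 0) :
    ∃ H ∈ K, ∃ φ : Mor G H, φ.Tame ∧ ∀ a ∈ E, φ.f (x a) ∈ H.Nl := by
  obtain ⟨R₀, _, hS⟩ := (all_levels K hκ hK (Fintype.card M)).1
  refine kill_all K hG E x ?_
  intro a ha H hH ψ
  have hI : ψ.f (x a) ∈ H.I := ψ.I _ (hx a ha)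
  have hR : ψ.f (x a) ∈ H.R := H.I_le _ hI
  have hh' : ψ.f (x a) ∈ H.Hm (f a) := Mor_hm ψ (hh a ha)
  have hD' : H.D (ψ.f (x a)) = 0 := by rw [ψ.D, hD a ha, map_zero]
  have hs : H.s (ψ.f (x a)) = ψ.f (x a) := Hm_s_even H (hf a ha) hh'
  rcases H.unit_or_nil _ hR _ (hf a ha) hs hh'.1 with hu | hn
  · obtain ⟨H', hH', χ, hχ, z, hz, _, _, _, hDz⟩ := hS H hH Finset.univ Finset.card_univ (f a)
      (ψ.f (x a)) (hf a ha) hI hh' hD' (fun j hj => absurd (Finset.mem_univ j) hj) hu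
    refine ⟨H', hH', χ, hχ, ?_⟩
    refine H'.pow_Nl _ (χ.R _ hR) R₀ ?_
    rw [← map_pow, ← hDz]
    exact H'.D_Nl _ hz
  · exact ⟨H, hH, Mor.id H, Tame_id H, Nl_of_nil H hR hn⟩

end AnWL
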