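import Pool.Agent.Helper48.WL.C08c

/-!
C08d. New values of `D` on the letters `X_j`.

`redoD = der ..` with the values of `T.D` on `inl i`, `inr (inl u)` and `at' j` on `inr (inr j)`. `redoD a = T.D a` for `a` free of `X` (`TS.free`; induction on monomials, `der_mul`, `d_mul`; the values of `T.D` on the
letters `inl i`, `inr (inl u)` are free of `X`: `ext`, `Dt`). So `redoD ∘ redoD = 0` on the generators (`der_sq`): `T.D (T.D ..) = 0` and `T.D (at' j) = 0`, all arguments being free of `X`.
-/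

set_option autoImplicit false

namespace AnWL
open Anick2
variable {P : Par}

section
variable (T : TS P) (at' : P.M → Lam T.dt) (hhom : ∀ j, at' j ∈ hom T.dt (P.dm j + 1))

/-- The values on the letters. -/
noncomputable def redoVal : T.ι ⊕ (P.U ⊕ P.M) → Lam T.dt :=
  Sum.elim (fun i => T.D (T.gW i)) (Sum.elim (fun u => T.D (T.gU u)) at')

include hhom in
theorem redoVal_mem (x : T.ι ⊕ (P.U ⊕ P.M)) : redoVal T at' x ∈ hom T.dt (T.dt x + 1) := by
  rcases x with i | u | j
  · exact T.diff.map_hom _ _ (gen_mem_hom T.dt (Sum.inl i))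
  · exact T.diff.map_hom _ _ (gen_mem_hom T.dt (Sum.inr (Sum.inl u)))
  · exact hhom j

/-- The new differential. -/
noncomputable def redoD : Lam T.dt →ₗ[ℚ] Lam T.dt :=
  der T.dt (redoVal T at') (redoVal_mem T at' hhom)

private theorem redoD_gen (x : T.ι ⊕ (P.U ⊕ P.M)) :
    redoD T at' hhom (gen T.dt x) = redoVal T at' x := der_gen _ _ _ _

private theorem redoD_mon (l : List (T.ι ⊕ (P.U ⊕ P.M)))
    (hl : ∀ j' : P.M, Sum.inr (Sum.inr j') ∉ l) :
    redoD T at' hhom (mon T.dt l) = T.D (mon T.dt l) := by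
  induction l with
  | nil =>
    rw [mon_nil, d_one T.diff]
    exact der_one _ _ _
  | cons x l ih =>
    have h1 : redoD T at' hhom (gen T.dt x * mon T.dt l) =
        redoD T at' hhom (gen T.dt x) * mon T.dt l +
          sgn T.dt (gen T.dt x) * redoD T at' hhom (mon T.dt l) := der_mul _ _ _ _ _
    have h2 : redoVal T at' x = T.D (gen T.dt x) := by
      rcases x with i | u | j
      · rfl
      · rfl
      · exact absurd List.mem_cons_self (hl j)
    rw [mon_cons, h1, redoD_gen, h2, ih (fun j hj => hl j (List.mem_cons_of_mem _ hj)),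
      d_mul T.diff]

theorem redoD_free {a : Lam T.dt} (ha : T.free a) : redoD T at' hhom a = T.D a := by
  unfold TS.free SP at ha
  induction ha using Submodule.span_induction with
  | mem x hx =>
    obtain ⟨l, hl, rfl⟩ := hx
    exact redoD_mon T at' hhom l hl
  | zero => rw [map_zero, map_zero]
  | add y z _ _ hy hz => rw [map_add, map_add, hy, hz]
  | smul r y _ hy => rw [map_smul, map_smul, hy]

theorem redoD_gX (j : P.M) : redoD T at' hhom (T.gX j) = at' j :=
  redoD_gen T at' hhom (Sum.inr (Sum.inr j))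

private theorem free_of_SP {a : Lam T.dt}
    (ha : a ∈ SP T.dt (fun l => 1 ≤ cW l ∧ ∀ j' : P.M, Sum.inr (Sum.inr j') ∉ l)) : T.free a :=
  Submodule.span_mono (by rintro _ ⟨l, hl, rfl⟩; exact ⟨l, hl.2, rfl⟩) ha

private theorem iL_free (a : Lam T.deg) : T.free (iL T.deg P.dq a) := by
  unfold TS.free
  induction a using Lam.induction with
  | hm l =>
    have e : iL T.deg P.dq (mon T.deg l) = mon T.dt (l.map Sum.inl) := mapL_mon _ l
    rw [e]
    refine Submodule.subset_span ⟨_, ?_, rfl⟩
    intro j hj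
    obtain ⟨i, -, hi⟩ := List.mem_map.1 hj
    exact Sum.inl_ne_inr hi
  | h0 => rw [map_zero]; exact zero_mem _
  | hadd a b ha hb => rw [map_add]; exact add_mem ha hb
  | hsmul r a ha => rw [map_smul]; exact Submodule.smul_mem _ _ ha

private theorem iL_gen (i : T.ι) : iL T.deg P.dq (gen T.deg i) = T.gW i := mapL_gen _ i

private theorem redoD_sq (hD : ∀ j, T.D (at' j) = 0)
    (hI : ∀ j, at' j ∈ SP T.dt (fun l => 1 ≤ cW l ∧ ∀ j' : P.M, Sum.inr (Sum.inr j') ∉ l))
    (a : Lam T.dt) : redoD T at' hhom (redoD T at' hhom a) = 0 := by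
  refine der_sq _ _ _ ?_ a
  intro x
  show redoD T at' hhom (redoVal T at' x) = 0
  rcases x with i | u | j
  · show redoD T at' hhom (T.D (T.gW i)) = 0
    have h1 : T.free (T.D (T.gW i)) := by
      rw [← iL_gen, T.ext]
      exact iL_free T _
    rw [redoD_free T at' hhom h1, T.diff.d_d]
  · show redoD T at' hhom (T.D (T.gU u)) = 0
    rw [redoD_free T at' hhom (free_of_SP T (T.Dt (Sum.inl u))), T.diff.d_d]
  · show redoD T at' hhom (at' j) = 0
    rw [redoD_free T at' hhom (free_of_SP T (hI j)), hD]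

/-- The new total system. -/
noncomputable def TS.redo (hD : ∀ j, T.D (at' j) = 0)
    (hI : ∀ j, at' j ∈ SP T.dt (fun l => 1 ≤ cW l ∧ ∀ j' : P.M, Sum.inr (Sum.inr j') ∉ l))
    (Y : P.M → Lam T.dt) (hY : ∀ j, Y j ∈ hom T.dt (P.N * (P.dm j + 1) - 1))
    (hYf : ∀ j, T.free (Y j)) (hDY : ∀ j, T.D (Y j) = at' j ^ P.N) : TS P where
  ι := T.ι
  fin := T.fin
  deg := T.deg
  S := T.S
  D := redoD T at' hhom
  diff := ⟨fun _ _ ha => der_mem _ _ _ ha, fun _ _ ha b => der_leibniz _ _ _ ha b,
    redoD_sq T at' hhom hD hI⟩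
  ext := fun a => by rw [redoD_free T at' hhom (iL_free T a)]; exact T.ext a
  Dt := by
    rintro (u | j)
    · have h1 : redoD T at' hhom (gen T.dt (Sum.inr (Sum.inl u))) =
          T.D (gen T.dt (Sum.inr (Sum.inl u))) := redoD_gen T at' hhom _
      exact h1.symm ▸ T.Dt (Sum.inl u)
    · have h1 : redoD T at' hhom (gen T.dt (Sum.inr (Sum.inr j))) = at' j :=
        redoD_gen T at' hhom _
      exact h1.symm ▸ hI j
  Y := Y
  Y_hom := hY
  Y_free := hYf
  D_Y := fun j => by
    rw [redoD_free T at' hhom (hYf j), hDY]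
    have h1 : redoD T at' hhom (gen T.dt (Sum.inr (Sum.inr j))) = at' j :=
      redoD_gen T at' hhom _
    exact congrArg (fun x => x ^ P.N) h1.symm

end

end AnWL
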