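import Pool.Agent.Helper48.WL.C06a

/-!
C06b. The matrix `c` of `D` on the basis and its flatness; the coefficients of a closed element.

`exists_c`: `Bas_expand` with `k = 1`, `n = e b + 1` for `T.D (iR (ω b))`: it lies in `SP (1 ≤ cW)` and does not involve any `X_j`, `j ∉ L`
(`T.p_D`, `T.p j (iR (ω b)) = 0` by `pdv_zero_of_SP`); `1 ≤ cW`: product rule on monomials of `ω b` and `T.Dt` (`SP_mul_left`; on `D 1 = 0`).
`flat`: `0 = D (D (iR (ω b))) = ∑_a (iL (d c_{ba}) * iR (ω a) + iL (sgn c_{ba}) * D (iR (ω a)))` and `Bas_uniq`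
(`sgn (iL x) = iL (sgn x)`, `mapL_sgn`). `closed`: the same for `D a = 0`, `a = ∑ iL (G b) * iR (ω b)`.
-/

set_option autoImplicit false

namespace AnWL
open Anick2
variable {P : Par}

/-- The matrix of `D`. -/
structure Mtx (T : TS P) {L : Finset P.M} {Q : ℕ} (B : Bas P L Q)
    (c : B.B → B.B → Lam T.deg) : Prop where
  mem : ∀ b b', c b b' ∈ FW T.deg (fun _ => 1) 1
  deg : ∀ b b', c b b' = 0 ∨ ∃ m, m + B.e b' = B.e b + 1 ∧ c b b' ∈ hom T.deg m
  eq : ∀ b, T.D (iR T.deg P.dq (B.ω b)) =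
    ∑ b', iL T.deg P.dq (c b b') * iR T.deg P.dq (B.ω b')
  flat : ∀ b b', T.S.d (c b b') + ∑ a, sgn T.deg (c b a) * c a b' = 0

attribute [local irreducible] instRingLam

private theorem c06b_mon_SP {κ : Type} {dg : κ → ℕ} {p : List κ → Prop} {l : List κ} (hl : p l) :
    mon dg l ∈ SP dg p := Submodule.subset_span ⟨l, hl, rfl⟩

private theorem c06b_SP_mono {κ : Type} {dg : κ → ℕ} {p q : List κ → Prop}
    (h : ∀ l, p l → q l) : SP dg p ≤ SP dg q := by
  unfold SP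
  refine Submodule.span_mono ?_
  rintro _ ⟨l, hl, rfl⟩
  exact ⟨l, h l hl, rfl⟩

private theorem c06b_D_iR_SP (T : TS P) (a : Lam P.dq) :
    T.D (iR T.deg P.dq a) ∈ SP T.dt (fun l => 1 ≤ cW l) := by
  have hgen : ∀ i, iR T.deg P.dq (gen P.dq i) = gen T.dt (Sum.inr i) := fun i => mapL_gen _ i
  have h1 : ∀ i, T.D (iR T.deg P.dq (gen P.dq i)) ∈ SP T.dt (fun l => 1 ≤ cW l) := by
    intro i
    rw [hgen]
    exact c06b_SP_mono (fun l hl => hl.1) (T.Dt i)
  induction a using Lam.induction with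
  | hm l =>
    induction l with
    | nil => rw [mon_nil, map_one, d_one T.diff]; exact zero_mem _
    | cons i l ih =>
      rw [mon_cons, map_mul, T.leib]
      refine add_mem ?_ ?_
      · exact SP_mul_left (k := 1) (m := 0) (h1 i) (SP_zero_top _ _)
      · have h2 := SP_mul_left (k := 0) (m := 1)
          (SP_zero_top _ (sgn T.dt (iR T.deg P.dq (gen P.dq i)))) ih
        simpa only [Nat.zero_add] using h2
  | h0 => rw [map_zero, map_zero]; exact zero_mem _
  | hadd a b ha hb => rw [map_add, map_add]; exact add_mem ha hb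
  | hsmul r a ha => rw [map_smul, map_smul]; exact Submodule.smul_mem _ _ ha

private theorem c06b_p_iR (T : TS P) {L : Finset P.M} {n : ℕ} {a : Lam P.dq}
    (ha : a ∈ homS P.dq (tL P L) n) {j : P.M} (hj : j ∉ L) : T.p j (iR T.deg P.dq a) = 0 := by
  refine pdv_zero_of_SP (T.odd j) ?_
  refine homS_induction P.dq (C := fun a => iR T.deg P.dq a ∈
    SP T.dt (fun l => Sum.inr (Sum.inr j) ∉ l)) (fun l hl hn => ?_) ?_
    (fun a b ha hb => by rw [map_add]; exact add_mem ha hb)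
    (fun r a ha => by rw [map_smul]; exact Submodule.smul_mem _ _ ha) ha
  · have h1 : iR T.deg P.dq (mon P.dq l) = mon T.dt (l.map Sum.inr) := mapL_mon _ l
    rw [h1]
    refine c06b_mon_SP ?_
    intro hc
    obtain ⟨t, ht, ht'⟩ := List.mem_map.1 hc
    have h2 : t = Sum.inr j := Sum.inr_injective ht'
    exact hj (hl t ht j h2)
  · rw [map_zero]; exact zero_mem _

private theorem c06b_D_sum (T : TS P) {L : Finset P.M} {Q : ℕ} (B : Bas P L Q)
    {c : B.B → B.B → Lam T.deg}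
    (hc : ∀ b, T.D (iR T.deg P.dq (B.ω b)) =
      ∑ b', iL T.deg P.dq (c b b') * iR T.deg P.dq (B.ω b')) (G : B.B → Lam T.deg) :
    T.D (∑ b, iL T.deg P.dq (G b) * iR T.deg P.dq (B.ω b)) =
      ∑ b', iL T.deg P.dq (T.S.d (G b') + ∑ a, sgn T.deg (G a) * c a b') *
        iR T.deg P.dq (B.ω b') := by
  have hs : ∀ x, sgn T.dt (iL T.deg P.dq x) = iL T.deg P.dq (sgn T.deg x) :=
    fun x => (mapL_sgn _ x).symm
  have h1 : ∀ b, T.D (iL T.deg P.dq (G b) * iR T.deg P.dq (B.ω b)) =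
      iL T.deg P.dq (T.S.d (G b)) * iR T.deg P.dq (B.ω b) +
        ∑ b', iL T.deg P.dq (sgn T.deg (G b) * c b b') * iR T.deg P.dq (B.ω b') := by
    intro b
    rw [T.leib, T.ext, hs, hc b, Finset.mul_sum]
    congr 1
    refine Finset.sum_congr rfl fun b' _ => ?_
    rw [map_mul, mul_assoc]
  rw [map_sum, Finset.sum_congr rfl (fun b _ => h1 b), Finset.sum_add_distrib, Finset.sum_comm,
    ← Finset.sum_add_distrib]
  refine Finset.sum_congr rfl fun b' _ => ?_
  rw [map_add, add_mul, map_sum, Finset.sum_mul]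

private theorem c06b_coeff (T : TS P) {L : Finset P.M} {Q : ℕ} (B : Bas P L Q)
    {c : B.B → B.B → Lam T.deg}
    (hc : ∀ b, T.D (iR T.deg P.dq (B.ω b)) =
      ∑ b', iL T.deg P.dq (c b b') * iR T.deg P.dq (B.ω b')) (G : B.B → Lam T.deg)
    (h : T.D (∑ b, iL T.deg P.dq (G b) * iR T.deg P.dq (B.ω b)) = 0) (b : B.B) :
    T.S.d (G b) + ∑ a, sgn T.deg (G a) * c a b = 0 := by
  refine Bas_uniq T B (x := fun b => T.S.d (G b) + ∑ a, sgn T.deg (G a) * c a b)
    (y := fun _ => 0) ?_ b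
  rw [← c06b_D_sum T B hc G, h]
  symm
  refine Finset.sum_eq_zero fun b' _ => ?_
  rw [map_zero, zero_mul]

theorem exists_c (T : TS P) {L : Finset P.M} {Q : ℕ} (B : Bas P L Q) : ∃ c, Mtx T B c := by
  have h : ∀ b : B.B, ∃ x : B.B → Lam T.deg, (∀ b', x b' ∈ FW T.deg (fun _ => 1) 1) ∧
      (∀ b', x b' = 0 ∨ ∃ m, m + B.e b' = B.e b + 1 ∧ x b' ∈ hom T.deg m) ∧
      T.D (iR T.deg P.dq (B.ω b)) =
        ∑ b', iL T.deg P.dq (x b') * iR T.deg P.dq (B.ω b') := by
    intro b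
    refine Bas_expand T B (n := B.e b + 1) (k := 1) ?_ ?_ ?_ ?_
    · have := B.le b
      omega
    · exact T.diff.map_hom _ _ (mapL_hom _ (homS_le _ _ _ (B.mem b)))
    · exact c06b_D_iR_SP T _
    · intro j hj
      rw [T.p_D, c06b_p_iR T (B.mem b) hj, map_zero, neg_zero]
  choose c h1 h2 h3 using h
  refine ⟨c, h1, h2, h3, ?_⟩
  intro b b'
  refine c06b_coeff T B h3 (c b) ?_ b'
  rw [← h3 b]
  exact T.diff.d_d _

theorem closed_coeff (T : TS P) {L : Finset P.M} {Q : ℕ} (B : Bas P L Q)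
    {c : B.B → B.B → Lam T.deg} (hc : Mtx T B c) (G : B.B → Lam T.deg)
    (h : T.D (∑ b, iL T.deg P.dq (G b) * iR T.deg P.dq (B.ω b)) = 0) (b : B.B) :
    T.S.d (G b) + ∑ a, sgn T.deg (G a) * c a b = 0 :=
  c06b_coeff T B hc.eq G h b

end AnWL
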