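import Pool.Agent.Helper98.RD.Core

/-!
C06c. Extension of a minimal Sullivan algebra by a matrix of generators.

`S'.d = der` with the values `iL (S.d (gen i))` on `inl i` and `val b = iL (G b) - ∑ a, sgn (gen (inr a)) * iL (c a b)` on `inr b`. Degrees: `hG1`, `hc1`,
`g - 1 - e a + (e a + 1 - e b) = g - e b`. First `der (iL a) = iL (S.d a)`. `der_sq`: on `inl i` from `S.d ∘ S.d = 0`; on `inr b`:
`d (val b) = iL (S.d (G b)) - ∑_a (d (sgn z_a) * iL c_{ab} + z_a * iL (S.d c_{ab}))`, `d (sgn z_a) = - sgn (d z_a)` (`sgn_d`),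
`sgn (d z_a) = iL (sgn (G a)) - ∑_e z_e * iL (sgn c_{ea})`, so
`d (val b) = iL (S.d (G b) + ∑_a sgn (G a) * c_{ab}) - ∑_e z_e * iL (S.d c_{eb} + ∑_a sgn c_{ea} * c_{ab}) = 0`.
Minimality: `hG2` (words of length `≥ 2`), `z_a * iL c_{ab}` with `c_{ab} ∈ FW 1 1`. Sullivan condition: it follows from minimality and the degrees:
a word of length `≥ 2` of total degree `deg + 1` in letters of degree `≥ 2` has only letters of degree `≤ deg - 1` (apply `pr`
to pass to homogeneous words).
-/

set_option autoImplicit false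

namespace AnWL
open Anick2

attribute [local irreducible] instRingLam

private theorem mon_mem_adjX {ι : Type} (deg : ι → ℕ) (T : Set ι) (l : List ι)
    (hl : ∀ i ∈ l, i ∈ T) : mon deg l ∈ Algebra.adjoin ℚ (gen deg '' T) := by
  induction l with
  | nil => exact one_mem _
  | cons i l ih =>
    rw [mon_cons]
    exact mul_mem (Algebra.subset_adjoin ⟨i, hl i (by simp), rfl⟩)
      (ih (fun j hj => hl j (by simp [hj])))

private theorem mem_adjX {ι : Type} {deg : ι → ℕ} (h2 : ∀ i, 2 ≤ deg i) {m : ℕ} {a : Lam deg}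
    (ha : a ∈ hom deg (m + 1)) (hw : a ∈ FW deg (fun _ => 1) 2) :
    a ∈ Algebra.adjoin ℚ (gen deg '' {j | deg j < m}) := by
  have h1 : pr deg (m + 1) a = a := by rw [pr_hom deg ha, if_pos rfl]
  rw [← h1]
  clear h1 ha
  unfold FW at hw
  induction hw using Submodule.span_induction with
  | mem x hx =>
    obtain ⟨l, hl, rfl⟩ := hx
    rw [pr_hom deg (mon_mem_hom deg l)]
    split
    · rename_i hs
      refine mon_mem_adjX deg _ l fun j hj => ?_
      obtain ⟨s, t, rfl⟩ := List.append_of_mem hj
      rw [degSum_append, degSum_cons] at hs hl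
      have h4 : 2 * s.length ≤ degSum deg s := by
        clear hs hl hj
        induction s with
        | nil => simp
        | cons i s ih => rw [degSum_cons, List.length_cons]; have := h2 i; omega
      have h5 : 2 * t.length ≤ degSum deg t := by
        clear hs hl hj
        induction t with
        | nil => simp
        | cons i t ih => rw [degSum_cons, List.length_cons]; have := h2 i; omega
      have h6 : ∀ l : List ι, degSum (fun _ => 1) l = l.length := fun l => by simp [degSum]
      rw [h6, h6] at hl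
      show deg j < m
      omega
    · exact zero_mem _
  | zero => rw [map_zero]; exact zero_mem _
  | add y z _ _ hy hz => rw [map_add]; exact add_mem hy hz
  | smul r y _ hy => rw [map_smul]; exact Subalgebra.smul_mem _ hy _

private theorem iL_derX {ι κ : Type} {deg : ι → ℕ} {dk : κ → ℕ} (S : MinimalSullivan deg)
    (D : ι ⊕ κ → Lam (Sum.elim deg dk))
    (hD : ∀ i, D i ∈ hom (Sum.elim deg dk) (Sum.elim deg dk i + 1))
    (h : ∀ i, D (Sum.inl i) = iL deg dk (S.d (gen deg i))) (a : Lam deg) :
    der (Sum.elim deg dk) D hD (iL deg dk a) = iL deg dk (S.d a) := by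
  have : (der (Sum.elim deg dk) D hD).comp (iL deg dk).toLinearMap =
      (iL deg dk).toLinearMap.comp S.d := by
    refine Lam.linearMap_ext _ fun l => ?_
    rw [LinearMap.comp_apply, LinearMap.comp_apply, AlgHom.toLinearMap_apply,
      AlgHom.toLinearMap_apply]
    induction l with
    | nil =>
      rw [mon_nil, map_one, der_one, d_one S.isDifferential, map_zero]
    | cons i l ih =>
      have h0 : iL deg dk (gen deg i) = gen (Sum.elim deg dk) (Sum.inl i) :=
        mapL_gen _ i
      have h2 : iL deg dk (sgn deg (gen deg i)) =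
          sgn (Sum.elim deg dk) (gen (Sum.elim deg dk) (Sum.inl i)) := by
        rw [← h0]
        exact mapL_sgn _ _
      rw [mon_cons, map_mul, h0, der_mul, der_gen, ih, d_mul S.isDifferential, map_add, map_mul,
        map_mul, h2, h]
  exact congrArg (fun g : Lam deg →ₗ[ℚ] Lam (Sum.elim deg dk) => g a) this

theorem exists_matExt {ι : Type} [Finite ι] {deg : ι → ℕ} (S : MinimalSullivan deg) {B : Type}
    [Fintype B] (e : B → ℕ) (g : ℕ) (hg : ∀ b, e b + 3 ≤ g) (c : B → B → Lam deg)
    (hc1 : ∀ b b', c b b' = 0 ∨ ∃ m, m + e b' = e b + 1 ∧ c b b' ∈ hom deg m)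
    (hc2 : ∀ b b', c b b' ∈ FW deg (fun _ => 1) 1)
    (hflat : ∀ b b', S.d (c b b') + ∑ a, sgn deg (c b a) * c a b' = 0) (G : B → Lam deg)
    (hG1 : ∀ b, G b = 0 ∨ ∃ m, m + e b = g ∧ G b ∈ hom deg m)
    (hG2 : ∀ b, G b ∈ FW deg (fun _ => 1) 2)
    (hGc : ∀ b, S.d (G b) + ∑ a, sgn deg (G a) * c a b = 0) :
    ∃ S' : MinimalSullivan (Sum.elim deg (fun b => g - 1 - e b)),
      (∀ a, S'.d (iL deg (fun b => g - 1 - e b) a) = iL deg (fun b => g - 1 - e b) (S.d a)) ∧
      ∀ b, S'.d (gen (Sum.elim deg (fun b => g - 1 - e b)) (Sum.inr b)) =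
        iL deg (fun b => g - 1 - e b) (G b) -
          ∑ a, sgn (Sum.elim deg (fun b => g - 1 - e b))
            (gen (Sum.elim deg (fun b => g - 1 - e b)) (Sum.inr a)) *
              iL deg (fun b => g - 1 - e b) (c a b) := by
  have hz2 : ∀ b, 2 ≤ g - 1 - e b := fun b => by have := hg b; omega
  have hiL : ∀ {m : ℕ} {a : Lam deg}, a ∈ hom deg m →
      iL deg (fun b => g - 1 - e b) a ∈ hom (Sum.elim deg (fun b => g - 1 - e b)) m :=
    fun ha => mapL_hom _ ha
  have hsL : ∀ a : Lam deg, iL deg (fun b => g - 1 - e b) (sgn deg a) =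
      sgn (Sum.elim deg (fun b => g - 1 - e b)) (iL deg (fun b => g - 1 - e b) a) :=
    fun a => mapL_sgn _ a
  have hFL : ∀ {k : ℕ} {a : Lam deg}, a ∈ FW deg (fun _ => 1) k →
      iL deg (fun b => g - 1 - e b) a ∈
        FW (Sum.elim deg (fun b => g - 1 - e b)) (fun _ => 1) k :=
    fun ha => mapL_FW (wt := fun _ => 1) _ ha
  let dg : ι ⊕ B → ℕ := Sum.elim deg (fun b => g - 1 - e b)
  let vb : B → Lam dg := fun b => iL deg (fun b => g - 1 - e b) (G b) -
          ∑ a, sgn dg (gen dg (Sum.inr a)) * iL deg (fun b => g - 1 - e b) (c a b)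
  let D : ι ⊕ B → Lam dg := Sum.elim (fun i => iL deg (fun b => g - 1 - e b) (S.d (gen deg i))) vb
  have hsgnz : ∀ a : B, sgn dg (gen dg (Sum.inr a)) ∈ hom dg (g - 1 - e a) := fun a => by
    rw [sgn_gen]
    exact Submodule.smul_mem _ _ (gen_mem_hom dg (Sum.inr a))
  have hvb : ∀ b, vb b ∈ hom dg (g - 1 - e b + 1) := by
    intro b
    refine sub_mem ?_ (Submodule.sum_mem _ fun a _ => ?_)
    · rcases hG1 b with h | ⟨m, hm, h⟩
      · rw [h, map_zero]; exact zero_mem _
      · have h1 := hiL h
        have h2 : m = g - 1 - e b + 1 := by have := hg b; omega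
        rw [h2] at h1
        exact h1
    · rcases hc1 a b with h | ⟨m, hm, h⟩
      · rw [h, map_zero, mul_zero]; exact zero_mem _
      · have h1 := mul_mem_hom dg (hsgnz a) (hiL h)
        have h2 : g - 1 - e a + m = g - 1 - e b + 1 := by
          have := hg b; have := hg a; omega
        rw [h2] at h1
        exact h1
  have hD : ∀ i, D i ∈ hom dg (dg i + 1) := by
    rintro (i | b)
    · exact hiL (S.isDifferential.map_hom _ _ (gen_mem_hom deg i))
    · exact hvb b
  have hdL : ∀ a, der dg D hD (iL deg (fun b => g - 1 - e b) a) =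
      iL deg (fun b => g - 1 - e b) (S.d a) := fun a => iL_derX S D hD (fun _ => rfl) a
  have hsg : ∀ a : B, sgn dg (sgn dg (gen dg (Sum.inr a))) = gen dg (Sum.inr a) := fun a =>
    sgn_sgn _
  have hdz : ∀ a : B, der dg D hD (sgn dg (gen dg (Sum.inr a))) = -sgn dg (vb a) := by
    intro a
    have h1 : der dg D hD (gen dg (Sum.inr a)) = vb a := der_gen dg D hD _
    rw [sgn_gen, map_smul, h1, sgn_hom dg (hvb a), pow_succ, mul_neg, mul_one, neg_smul, neg_neg]
    rfl
  have hsv : ∀ a : B, sgn dg (vb a) = iL deg (fun b => g - 1 - e b) (sgn deg (G a)) -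
      ∑ f, gen dg (Sum.inr f) * iL deg (fun b => g - 1 - e b) (sgn deg (c f a)) := by
    intro a
    show sgn dg (iL deg (fun b => g - 1 - e b) (G a) -
          ∑ f, sgn dg (gen dg (Sum.inr f)) * iL deg (fun b => g - 1 - e b) (c f a)) = _
    rw [map_sub, map_sum, hsL]
    congr 1
    refine Finset.sum_congr rfl fun f _ => ?_
    rw [map_mul, hsg, hsL]
  have hDD : ∀ i, der dg D hD (D i) = 0 := by
    rintro (i | b)
    · show der dg D hD (iL deg (fun b => g - 1 - e b) (S.d (gen deg i))) = 0
      rw [hdL, S.isDifferential.d_d, map_zero]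
    · show der dg D hD (iL deg (fun b => g - 1 - e b) (G b) -
          ∑ a, sgn dg (gen dg (Sum.inr a)) * iL deg (fun b => g - 1 - e b) (c a b)) = 0
      have e1 : ∀ a : B, der dg D hD (sgn dg (gen dg (Sum.inr a)) *
          iL deg (fun b => g - 1 - e b) (c a b)) =
          -(iL deg (fun b => g - 1 - e b) (sgn deg (G a) * c a b)) +
          ∑ f, gen dg (Sum.inr f) * iL deg (fun b => g - 1 - e b) (sgn deg (c f a) * c a b) +
          gen dg (Sum.inr a) * iL deg (fun b => g - 1 - e b) (S.d (c a b)) := by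
        intro a
        rw [der_mul, hdz, hsg, hdL, hsv, neg_mul, sub_mul, neg_sub, Finset.sum_mul, map_mul]
        simp only [map_mul, mul_assoc]
        abel
      rw [map_sub, map_sum, hdL]
      simp only [e1]
      have h3 : ∀ f : B, ∑ a, gen dg (Sum.inr f) *
          iL deg (fun b => g - 1 - e b) (sgn deg (c f a) * c a b) =
          -(gen dg (Sum.inr f) * iL deg (fun b => g - 1 - e b) (S.d (c f b))) := by
        intro f
        rw [← Finset.mul_sum, ← map_sum, ← mul_neg, ← map_neg]
        congr 2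
        exact (neg_eq_of_add_eq_zero_right (hflat f b)).symm
      have h4 : ∑ a, iL deg (fun b => g - 1 - e b) (sgn deg (G a) * c a b) =
          -(iL deg (fun b => g - 1 - e b) (S.d (G b))) := by
        rw [← map_sum, ← map_neg]
        congr 1
        exact (neg_eq_of_add_eq_zero_right (hGc b)).symm
      rw [Finset.sum_add_distrib, Finset.sum_add_distrib, Finset.sum_neg_distrib, h4,
        Finset.sum_comm, Finset.sum_congr rfl (fun f _ => h3 f), Finset.sum_neg_distrib]
      abel
  have hraise : ∀ i, D i ∈ FW dg (fun _ => 1) 2 := by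
    rintro (i | b)
    · exact hFL ((dat_of_minimal S).raise i)
    · refine sub_mem (hFL (hG2 b)) (Submodule.sum_mem _ fun a _ => ?_)
      have h1 : sgn dg (gen dg (Sum.inr a)) ∈ FW dg (fun _ => 1) 1 := by
        rw [sgn_gen]
        exact Submodule.smul_mem _ _ (gen_mem_FW (deg := dg) (wt := fun _ => 1) (Sum.inr a))
      have h2 : iL deg (fun b => g - 1 - e b) (c a b) ∈ FW dg (fun _ => 1) 1 := hFL (hc2 a b)
      have h3 : sgn dg (gen dg (Sum.inr a)) * iL deg (fun b => g - 1 - e b) (c a b) ∈
          FW dg (fun _ => 1) (1 + 1) := FW_mul h1 h2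
      exact h3
  have htwo : ∀ i, 2 ≤ dg i := by
    rintro (i | b)
    · exact S.two_le i
    · exact hz2 b
  obtain ⟨S', hS'⟩ := exists_minimal (deg := dg) (wt := fun _ => 1) (d := der dg D hD)
    { two_le := htwo
      one_le := fun _ => le_rfl
      diff :=
        { map_hom := fun n a ha => der_mem dg D hD ha
          leibniz := fun n a ha b => der_leibniz dg D hD ha b
          d_d := fun a => der_sq dg D hD hDD a }
      sull := fun i => by
        rw [der_gen]
        exact mem_adjX htwo (hD i) (hraise i)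
      raise := fun i => by
        rw [der_gen]
        exact hraise i }
  refine ⟨S', fun a => ?_, fun b => ?_⟩
  · rw [hS']
    exact hdL a
  · rw [hS']
    exact der_gen dg D hD (Sum.inr b)


end AnWL
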