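import Pool.Agent.Helper48.WL.C05a
import Pool.Agent.Helper48.WL.C06b
import Pool.Agent.Helper48.WL.C06c

/-!
C06d. The superfield extension.

`Q = g - 1 - n₀`. If `w = 0` the statement is used with care: for `w ≠ 0` (`hw0`) we have `g ≥ 2 (n₀ + 2)` (a monomial of degree `g` with at least `n₀ + 2`
letters of `W`). `exists_Bas`, `exists_c`, `Bas_expand` with `k = n₀ + 2`, `n = g` (`g ≤ Q + 2 (n₀ + 2)`), `closed_coeff`, `exists_matExt` (`hg`: `e b ≤ Q`,
`n₀ ≥ 2`), `T.extend`, `T.extendHom`, `ζ = Sum.inr`. `D z = ∑ b, D (gW (ζ b)) * iR ω_b + sgn (gW (ζ b)) * D (iR ω_b)`; `D (iR ω_b)` in the extension is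
`extMap (T.D (iR ω_b)) = ∑ c_{bb'} ω_{b'}`; the terms cancel.
-/

set_option autoImplicit false

namespace AnWL
open Anick2
variable {P : Par}

/-- The superfield with components the letters `i b`. -/
noncomputable def TS.fld (T : TS P) {L : Finset P.M} {Q : ℕ} (B : Bas P L Q) (i : B.B → T.ι) :
    Lam T.dt := ∑ b, T.gW (i b) * iR T.deg P.dq (B.ω b)

section

attribute [local irreducible] instRingLam

private theorem C06d_cW_cons_inl {ι κ : Type} (i : ι) (l : List (ι ⊕ κ)) :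
    cW (Sum.inl i :: l) = cW l + 1 := rfl

private theorem C06d_cW_cons_inr {ι κ : Type} (t : κ) (l : List (ι ⊕ κ)) :
    cW (Sum.inr t :: l) = cW l := rfl

private theorem C06d_deg (T : TS P) (l : List (T.ι ⊕ (P.U ⊕ P.M))) :
    2 * cW l ≤ degSum T.dt l := by
  induction l with
  | nil => exact Nat.zero_le _
  | cons x l ih =>
    rcases x with i | t
    · have h := T.S.two_le i
      rw [C06d_cW_cons_inl, degSum_cons]
      have h1 : T.dt (Sum.inl i) = T.deg i := rfl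
      omega
    · rw [C06d_cW_cons_inr, degSum_cons]
      omega

private theorem C06d_ge (T : TS P) {k g : ℕ} {w : Lam T.dt} (hw0 : w ≠ 0) (hw : w ∈ hom T.dt g)
    (hκ : w ∈ SP T.dt (fun l => k ≤ cW l)) : 2 * k ≤ g := by
  by_contra hlt
  apply hw0
  have h1 : pr T.dt g w = w := by rw [pr_hom T.dt hw, if_pos rfl]
  rw [← h1]
  clear h1 hw hw0
  unfold SP at hκ
  induction hκ using Submodule.span_induction with
  | mem x hx =>
    obtain ⟨l, hl, rfl⟩ := hx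
    have h2 := C06d_deg T l
    rw [pr_hom T.dt (mon_mem_hom T.dt l), if_neg]
    intro h3
    have hl' : k ≤ cW l := hl
    omega
  | zero => rw [map_zero]
  | add y z _ _ hy hz => rw [map_add, hy, hz, add_zero]
  | smul r y _ hy => rw [map_smul, hy, smul_zero]

private theorem C06d_iR {T T' : TS P} (h : T.Hom T') (a : Lam P.dq) :
    h.Φ (iR T.deg P.dq a) = iR T'.deg P.dq a := by
  have : (h.Φ).comp (iR T.deg P.dq) = iR T'.deg P.dq := by
    refine Lam.algHom_ext _ fun t => ?_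
    have e1 : iR T.deg P.dq (gen P.dq t) = gen T.dt (Sum.inr t) := mapL_gen (fun _ => rfl) t
    have e2 : iR T'.deg P.dq (gen P.dq t) = gen T'.dt (Sum.inr t) := mapL_gen (fun _ => rfl) t
    rw [AlgHom.comp_apply, e1, e2, Φ_inr]
  exact congrArg (fun g : Lam P.dq →ₐ[ℚ] Lam T'.dt => g a) this

private theorem C06d_iL {T T' : TS P} (h : T.Hom T') (j : Lam T.deg →ₐ[ℚ] Lam T'.deg)
    (hj : ∀ i, j (gen T.deg i) = gen T'.deg (h.f i)) (a : Lam T.deg) :
    h.Φ (iL T.deg P.dq a) = iL T'.deg P.dq (j a) := by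
  have : (h.Φ).comp (iL T.deg P.dq) = (iL T'.deg P.dq).comp j := by
    refine Lam.algHom_ext _ fun i => ?_
    have e1 : iL T.deg P.dq (gen T.deg i) = T.gW i := mapL_gen (fun _ => rfl) i
    have e3 : iL T'.deg P.dq (gen T'.deg (h.f i)) = T'.gW (h.f i) :=
      mapL_gen (fun _ => rfl) (h.f i)
    rw [AlgHom.comp_apply, AlgHom.comp_apply, e1, hj, e3, Φ_gW]
  exact congrArg (fun g : Lam T.deg →ₐ[ℚ] Lam T'.dt => g a) this

private theorem C06d_calc {T T' : TS P} (h : T.Hom T') (j : Lam T.deg →ₐ[ℚ] Lam T'.deg)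
    (hj : ∀ x, h.Φ (iL T.deg P.dq x) = iL T'.deg P.dq (j x)) {L : Finset P.M} {Q : ℕ}
    (B : Bas P L Q) (ζ : B.B → T'.ι) (c : B.B → B.B → Lam T.deg) (G : B.B → Lam T.deg)
    (hc : ∀ b, T.D (iR T.deg P.dq (B.ω b)) =
      ∑ b', iL T.deg P.dq (c b b') * iR T.deg P.dq (B.ω b'))
    (hz : ∀ b, T'.S.d (gen T'.deg (ζ b)) =
      j (G b) - ∑ a, sgn T'.deg (gen T'.deg (ζ a)) * j (c a b)) :
    T'.D (T'.fld B ζ) = h.Φ (∑ b, iL T.deg P.dq (G b) * iR T.deg P.dq (B.ω b)) := by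
  have hg : ∀ b, iL T'.deg P.dq (gen T'.deg (ζ b)) = T'.gW (ζ b) := fun b =>
    mapL_gen (fun _ => rfl) (ζ b)
  have hs : ∀ b, iL T'.deg P.dq (sgn T'.deg (gen T'.deg (ζ b))) = sgn T'.dt (T'.gW (ζ b)) := by
    intro b
    rw [← hg b]
    exact mapL_sgn (fun _ => rfl) _
  have h1 : ∀ b, T'.D (T'.gW (ζ b)) = iL T'.deg P.dq (j (G b)) -
      ∑ a, sgn T'.dt (T'.gW (ζ a)) * iL T'.deg P.dq (j (c a b)) := by
    intro b
    rw [← hg b, T'.ext, hz b, map_sub, map_sum]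
    congr 1
    refine Finset.sum_congr rfl fun a _ => ?_
    rw [map_mul, hs]
  have h2 : ∀ b, T'.D (iR T'.deg P.dq (B.ω b)) =
      ∑ b', iL T'.deg P.dq (j (c b b')) * iR T'.deg P.dq (B.ω b') := by
    intro b
    rw [← C06d_iR h, Φ_D, hc b, map_sum]
    refine Finset.sum_congr rfl fun b' _ => ?_
    rw [map_mul, hj, C06d_iR]
  have h3 : h.Φ (∑ b, iL T.deg P.dq (G b) * iR T.deg P.dq (B.ω b)) =
      ∑ b, iL T'.deg P.dq (j (G b)) * iR T'.deg P.dq (B.ω b) := by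
    rw [map_sum]
    refine Finset.sum_congr rfl fun b _ => ?_
    rw [map_mul, hj, C06d_iR]
  have h4 : T'.D (T'.fld B ζ) = ∑ b, (T'.D (T'.gW (ζ b)) * iR T'.deg P.dq (B.ω b) +
      sgn T'.dt (T'.gW (ζ b)) * T'.D (iR T'.deg P.dq (B.ω b))) := by
    unfold TS.fld
    rw [map_sum]
    exact Finset.sum_congr rfl fun b _ => T'.leib _ _
  rw [h3, h4, Finset.sum_add_distrib]
  have h5 : ∑ b, T'.D (T'.gW (ζ b)) * iR T'.deg P.dq (B.ω b) =
      ∑ b, iL T'.deg P.dq (j (G b)) * iR T'.deg P.dq (B.ω b) -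
        ∑ b, ∑ a, sgn T'.dt (T'.gW (ζ a)) * iL T'.deg P.dq (j (c a b)) *
          iR T'.deg P.dq (B.ω b) := by
    rw [← Finset.sum_sub_distrib]
    refine Finset.sum_congr rfl fun b _ => ?_
    rw [h1 b, sub_mul, Finset.sum_mul]
  have h6 : ∑ b, sgn T'.dt (T'.gW (ζ b)) * T'.D (iR T'.deg P.dq (B.ω b)) =
      ∑ b, ∑ b', sgn T'.dt (T'.gW (ζ b)) * iL T'.deg P.dq (j (c b b')) *
          iR T'.deg P.dq (B.ω b') := by
    refine Finset.sum_congr rfl fun b _ => ?_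
    rw [h2 b, Finset.mul_sum]
    exact Finset.sum_congr rfl fun b' _ => (mul_assoc _ _ _).symm
  rw [h5, h6, Finset.sum_comm, sub_add_cancel]

end

theorem exists_superfield (T : TS P) (L : Finset P.M) (n₀ : ℕ) (hn₀ : 2 ≤ n₀) (g : ℕ)
    (w : Lam T.dt) (hw0 : w ≠ 0) (hw : w ∈ hom T.dt g)
    (hκ : w ∈ SP T.dt (fun l => n₀ + 2 ≤ cW l)) (hD : T.D w = 0)
    (hL : ∀ j, j ∉ L → T.p j w = 0) :
    ∃ (T' : TS P) (h : T.Hom T') (Q : ℕ) (B : Bas P L Q) (ζ : B.B → T'.ι),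
      (∀ i, i ∈ Set.range h.f ∨ ∃ b, i = ζ b) ∧ (∀ b, n₀ ≤ T'.deg (ζ b)) ∧
      (∀ b, T'.deg (ζ b) + B.e b + 1 = g) ∧ T'.D (T'.fld B ζ) = h.Φ w := by
  have hge := C06d_ge T hw0 hw hκ
  obtain ⟨B⟩ := exists_Bas P L (g - 1 - n₀)
  obtain ⟨c, hc⟩ := exists_c T B
  obtain ⟨G, hG1, hG2, hG3⟩ := Bas_expand T B (n := g) (k := n₀ + 2) (by omega) hw hκ hL
  have hGc := closed_coeff T B hc G (by rw [← hG3]; exact hD)
  have hle : ∀ b, B.e b + 1 + n₀ ≤ g := fun b => by have := B.le b; omega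
  have := T.fin
  obtain ⟨S', hS1, hS2⟩ := exists_matExt T.S B.e g (fun b => by have := hle b; omega) c hc.deg
    hc.mem hc.flat G hG2 (fun b => FW_anti (by omega) (hG1 b)) hGc
  have : Finite B.B := Finite.of_fintype _
  refine ⟨T.extend (fun b => g - 1 - B.e b) S' hS1,
    T.extendHom (fun b => g - 1 - B.e b) S' hS1, g - 1 - n₀, B, Sum.inr, ?_, ?_, ?_, ?_⟩
  · rintro (i | b)
    · exact Or.inl ⟨i, rfl⟩
    · exact Or.inr ⟨b, rfl⟩
  · intro b
    show n₀ ≤ g - 1 - B.e b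
    have := hle b
    omega
  · intro b
    show g - 1 - B.e b + B.e b + 1 = g
    have := hle b
    omega
  · have key := C06d_calc (T.extendHom (fun b => g - 1 - B.e b) S' hS1)
      (iL T.deg (fun b => g - 1 - B.e b))
      (C06d_iL (T.extendHom (fun b => g - 1 - B.e b) S' hS1)
        (iL T.deg (fun b => g - 1 - B.e b)) (fun i => mapL_gen (fun _ => rfl) i))
      B Sum.inr c G hc.eq hS2
    rw [key, ← hG3]

theorem fld_hom (T : TS P) {L : Finset P.M} {Q : ℕ} (B : Bas P L Q) (i : B.B → T.ι) (g : ℕ)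
    (hi : ∀ b, T.deg (i b) + B.e b + 1 = g) : T.fld B i ∈ hom T.dt (g - 1) := by
  unfold TS.fld
  refine Submodule.sum_mem _ fun b _ => ?_
  have h1 : T.gW (i b) ∈ hom T.dt (T.deg (i b)) := gen_mem_hom T.dt (Sum.inl (i b))
  have h2 : iR T.deg P.dq (B.ω b) ∈ hom T.dt (B.e b) :=
    mapL_hom (fun _ => rfl) (homS_le P.dq _ _ (B.mem b))
  have h3 := mul_mem_hom T.dt h1 h2
  have h4 : T.deg (i b) + B.e b = g - 1 := by have := hi b; omega
  rw [h4] at h3
  exact h3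

theorem fld_SP (T : TS P) {L : Finset P.M} {Q : ℕ} (B : Bas P L Q) (i : B.B → T.ι) :
    T.fld B i ∈ SP T.dt (fun l => 1 ≤ cW l) := by
  unfold TS.fld
  refine Submodule.sum_mem _ fun b _ => ?_
  have h1 : T.gW (i b) ∈ SP T.dt (fun l => 1 ≤ cW l) :=
    Submodule.subset_span ⟨[Sum.inl (i b)], le_refl _, by rw [mon_cons, mon_nil, mul_one]⟩
  exact SP_mul_left (k := 1) (m := 0) h1 (SP_zero_top T.dt _)

theorem fld_p (T : TS P) {L : Finset P.M} {Q : ℕ} (B : Bas P L Q) (i : B.B → T.ι) (j : P.M)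
    (hj : j ∉ L) : T.p j (T.fld B i) = 0 := by
  unfold TS.fld
  rw [map_sum]
  refine Finset.sum_eq_zero fun b _ => ?_
  have h1 : T.p j (T.gW (i b)) = 0 := pdv_gen_ne (T.odd j) (by simp)
  have h2 : T.p j (iR T.deg P.dq (B.ω b)) = 0 := by
    refine pdv_zero_of_SP (T.odd j) ?_
    refine homS_induction P.dq (S := tL P L) (n := B.e b)
      (C := fun a => iR T.deg P.dq a ∈ SP T.dt (fun l => Sum.inr (Sum.inr j) ∉ l)) ?_ ?_ ?_ ?_
      (B.mem b)
    · intro l hl _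
      have h3 : iR T.deg P.dq (mon P.dq l) = mon T.dt (l.map Sum.inr) :=
        mapL_mon (fun _ => rfl) l
      rw [h3]
      refine Submodule.subset_span ⟨_, ?_, rfl⟩
      intro h4
      obtain ⟨t, ht, ht'⟩ := List.mem_map.1 h4
      exact hj (hl t ht j (Sum.inr_injective ht'))
    · rw [map_zero]
      exact zero_mem _
    · intro a a' ha ha'
      rw [map_add]
      exact add_mem ha ha'
    · intro r a ha
      rw [map_smul]
      exact Submodule.smul_mem _ _ ha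
  have h3 : T.p j (T.gW (i b) * iR T.deg P.dq (B.ω b)) =
      T.p j (T.gW (i b)) * iR T.deg P.dq (B.ω b) +
        sgn T.dt (T.gW (i b)) * T.p j (iR T.deg P.dq (B.ω b)) := pdv_mul (T.odd j) _ _
  rw [h3, h1, h2, zero_mul, mul_zero, add_zero]

end AnWL
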