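import Pool.Agent.Helper48.WL.C05b
import Pool.Agent.Helper48.WL.C06d

/-!
C06e. The components of a superfield are killed if its derivatives of odd order are.

`taylor_zero`: for `ω ∈ Λ(u, X)`: `ev₀ : u ↦ X_u, X_j ↦ 0`. If `ev₀ (∂_l ω) = 0` for all lists `l` of different elements of `L`, then `ω = 0`: by induction on
the finite set `J ⊂ L` of the `j` such that `ω` may involve `X_j`; `J = ∅`: `ω ∈ Λ(u)`, `ev₀` is injective there; `J = J' ∪ {j}`: `ω = ω₀ + X_j ω₁`
(`odd_split`), `∂_j ω = ω₁`, `∂_{l ++ [j]} ω = ∂_l ω₁`, so `ω₁ = 0` by induction, then `ω = ω₀`.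

`nl_of_fld`: let `θ₀ : Lam T.dt → K` be a point, `p = θ₀ ∘ iL`, `θ` the point of `exists_gen_point` with values in `MvPolynomial P.U K`. For a list `l` of odd length of different
elements of `L`: `0 = θ (∂_l z) = ∑ b, ± p (gen (i b)) * θ (iR (∂_l ω_b))` where the sign is that of moving `∂_l` past `gW (i b)`. `p (gen (i b)) = 0` if `deg (i b)` is odd
(square zero, `K` a domain). If `deg (i b)` is even, then `e b` is odd (`g` even) and the sign is `+`, and for `l` of even length
`θ (iR (∂_l ω_b)) = 0` (odd element). So `∑ b, p (gen (i b)) • ev₀ (∂_l ω_b) = 0` in `MvPolynomial P.U K` for all lists `l` of different elements of `L`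
(sum over all `b`, or over those with `e b` odd), `ev₀ (∂_l ω_b) ∈ MvPolynomial P.U ℚ`. For a `ℚ`-linear functional `λ : K → ℚ` apply `λ` to the coefficients:
`ev₀ (∂_l (∑ b, λ (p (gen (i b))) • ω_b)) = 0` for all `l`, so `∑ b, λ (..) • ω_b = 0` (`taylor_zero`), `λ (p (gen (i b))) = 0` (`B.ind`) for all `λ`,
so `p (gen (i b)) = 0` (`Module.forall_dual_apply_eq_zero_iff`).
-/

set_option autoImplicit false

namespace AnWL
open Anick2
variable {P : Par}

/-! ### the evaluation `u ↦ X_u`, `X_j ↦ 0` -/

private noncomputable def ev0 (P : Par) : Lam P.dq →ₐ[ℚ] MvPolynomial P.U ℚ :=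
  Lam.lift P.dq (Sum.elim MvPolynomial.X (fun _ => 0)) (by
    rintro (u | j) (u' | j')
    · have h : Even (P.dq (Sum.inl u) * P.dq (Sum.inl u')) := (P.du_even u).mul_right _
      rw [h.neg_one_pow, one_smul]
      exact mul_comm _ _
    · simp only [Sum.elim_inl, Sum.elim_inr, mul_zero, zero_mul, smul_zero]
    · simp only [Sum.elim_inl, Sum.elim_inr, mul_zero, zero_mul, smul_zero]
    · simp only [Sum.elim_inr, mul_zero, smul_zero])

private theorem ev0_u (u : P.U) : ev0 P (gen P.dq (Sum.inl u)) = MvPolynomial.X u := by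
  unfold ev0
  rw [Lam.lift_gen]
  rfl

private theorem ev0_X (j : P.M) : ev0 P (gen P.dq (Sum.inr j)) = 0 := by
  unfold ev0
  rw [Lam.lift_gen]
  rfl

private theorem ev0_sgn (a : Lam P.dq) : ev0 P (sgn P.dq a) = ev0 P a := by
  have h : (ev0 P).comp (sgn P.dq) = ev0 P := by
    refine Lam.algHom_ext _ fun i => ?_
    rw [AlgHom.comp_apply, sgn_gen, map_smul]
    rcases i with u | j
    · have h1 : Even (P.dq (Sum.inl u)) := P.du_even u
      rw [h1.neg_one_pow, one_smul]
    · rw [ev0_X, smul_zero]
  exact congrArg (fun f : Lam P.dq →ₐ[ℚ] MvPolynomial P.U ℚ => f a) h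

private theorem ev0_odd {a : Lam P.dq} (h : sgn P.dq a = -a) : ev0 P a = 0 := by
  have h1 := ev0_sgn a
  rw [h, map_neg] at h1
  have h2 : (2 : ℚ) • ev0 P a = 0 := by
    rw [two_smul]
    nth_rw 1 [← h1]
    rw [neg_add_cancel]
  rcases smul_eq_zero.1 h2 with h3 | h3
  · norm_num at h3
  · exact h3

/-! ### injectivity without the odd letters -/

private theorem mon_perm {l l' : List P.U} (h : l.Perm l') :
    mon P.dq (l.map Sum.inl) = mon P.dq (l'.map Sum.inl) := by
  induction h with
  | nil => rfl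
  | cons x _ ih => rw [List.map_cons, List.map_cons, mon_cons, mon_cons, ih]
  | swap x y l =>
    rw [List.map_cons, List.map_cons, List.map_cons, List.map_cons, mon_cons, mon_cons, mon_cons,
      mon_cons, ← mul_assoc, ← mul_assoc, gen_comm]
    have h : Even (P.dq (Sum.inl y) * P.dq (Sum.inl x)) := (P.du_even y).mul_right _
    rw [h.neg_one_pow, one_smul]
  | trans _ _ ih1 ih2 => rw [ih1, ih2]

private noncomputable def psi (P : Par) : MvPolynomial P.U ℚ →ₗ[ℚ] Lam P.dq :=
  (MvPolynomial.basisMonomials P.U ℚ).constr ℚ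
    (fun m => mon P.dq ((Finsupp.toMultiset m).toList.map Sum.inl))

private theorem ev0_mon (l : List P.U) : ∃ m : P.U →₀ ℕ, Finsupp.toMultiset m = (l : Multiset P.U) ∧
    ev0 P (mon P.dq (l.map Sum.inl)) = MvPolynomial.monomial m 1 := by
  classical
  induction l with
  | nil =>
    refine ⟨0, by simp, ?_⟩
    rw [List.map_nil, mon_nil, map_one]
    rfl
  | cons u l ih =>
    obtain ⟨m, h1, h2⟩ := ih
    refine ⟨Finsupp.single u 1 + m, ?_, ?_⟩
    · rw [map_add, h1, Finsupp.toMultiset_single]
      simp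
    · rw [List.map_cons, mon_cons, map_mul, ev0_u, h2, MvPolynomial.X,
        MvPolynomial.monomial_mul, one_mul]

private theorem psi_ev0_mon (l : List P.U) :
    psi P (ev0 P (mon P.dq (l.map Sum.inl))) = mon P.dq (l.map Sum.inl) := by
  obtain ⟨m, h1, h2⟩ := ev0_mon l
  rw [h2]
  have h3 : MvPolynomial.monomial m (1 : ℚ) = MvPolynomial.basisMonomials P.U ℚ m := by
    rw [MvPolynomial.coe_basisMonomials]
  rw [h3]
  unfold psi
  rw [Module.Basis.constr_basis]
  apply mon_perm
  rw [h1]
  exact Multiset.coe_eq_coe.1 (Multiset.coe_toList _)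

private theorem psi_ev0 {a : Lam P.dq}
    (ha : a ∈ SP P.dq (fun l => ∀ j : P.M, Sum.inr j ∉ l)) : psi P (ev0 P a) = a := by
  unfold SP at ha
  induction ha using Submodule.span_induction with
  | mem x hx =>
    obtain ⟨l, hl, rfl⟩ := hx
    have h1 : ∃ l' : List P.U, l = l'.map Sum.inl := by
      clear * - hl
      induction l with
      | nil => exact ⟨[], rfl⟩
      | cons t l ih =>
        obtain ⟨l', h'⟩ := ih (fun j hj => hl j (by simp [hj]))
        rcases t with u | j
        · exact ⟨u :: l', by rw [List.map_cons, ← h']⟩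
        · exact absurd (by simp) (hl j)
    obtain ⟨l', rfl⟩ := h1
    exact psi_ev0_mon l'
  | zero => rw [map_zero, map_zero]
  | add x z _ _ hx hz => rw [map_add, map_add, hx, hz]
  | smul r x _ hx => rw [map_smul, map_smul, hx]

/-! ### iterated derivatives -/

private theorem podd (P : Par) (j : P.M) : Odd (P.dq (Sum.inr j)) := P.dm_odd j

private noncomputable def pq (P : Par) : List P.M → Lam P.dq →ₗ[ℚ] Lam P.dq
  | [] => LinearMap.id
  | k :: l => (pdv (podd P k)).comp (pq P l)

private theorem pq_nil (a : Lam P.dq) : pq P [] a = a := rfl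

private theorem pq_cons (k : P.M) (l : List P.M) (a : Lam P.dq) :
    pq P (k :: l) a = pdv (podd P k) (pq P l a) := rfl

private theorem pq_append (l : List P.M) (j : P.M) (a : Lam P.dq) :
    pq P (l ++ [j]) a = pq P l (pdv (podd P j) a) := by
  induction l with
  | nil => rfl
  | cons k l ih => rw [List.cons_append, pq_cons, pq_cons, ih]

private theorem sgn_pq (l : List P.M) (a : Lam P.dq) :
    sgn P.dq (pq P l a) = (-1 : ℚ) ^ l.length • pq P l (sgn P.dq a) := by
  induction l with
  | nil => rw [pq_nil, pq_nil, List.length_nil, pow_zero, one_smul]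
  | cons k l ih =>
    rw [pq_cons, pq_cons, sgn_pdv, ih, map_smul, List.length_cons, pow_succ, mul_neg, mul_one]
    rw [Algebra.smul_def, Algebra.smul_def, map_neg, neg_mul]

private theorem pq_zero {l : List P.M} : pq P l 0 = 0 := map_zero _

/-- Taylor expansion in the odd letters. -/
private theorem taylor (J : Finset P.M) : ∀ a : Lam P.dq,
    a ∈ SP P.dq (fun l => ∀ j : P.M, Sum.inr j ∈ l → j ∈ J) →
    (∀ l : List P.M, l.Nodup → (∀ x ∈ l, x ∈ J) → ev0 P (pq P l a) = 0) → a = 0 := by
  classical
  induction J using Finset.induction_on with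
  | empty =>
    intro a ha h
    have h1 : a ∈ SP P.dq (fun l => ∀ j : P.M, Sum.inr j ∉ l) := by
      refine Submodule.span_mono ?_ ha
      rintro _ ⟨l, hl, rfl⟩
      exact ⟨l, fun j hj => by simpa using hl j hj, rfl⟩
    have h2 := h [] List.nodup_nil (by simp)
    rw [pq_nil] at h2
    rw [← psi_ev0 h1, h2, map_zero]
  | insert j J hj ih =>
    intro a ha h
    have hmono : ∀ b : Lam P.dq, b ∈ SP P.dq (fun l => (∀ k : P.M, Sum.inr k ∈ l →
        k ∈ insert j J) ∧ Sum.inr j ∉ l) →
        b ∈ SP P.dq (fun l => ∀ k : P.M, Sum.inr k ∈ l → k ∈ J) := by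
      intro b hb
      refine Submodule.span_mono ?_ hb
      rintro _ ⟨l, ⟨hl, hl'⟩, rfl⟩
      refine ⟨l, fun k hk => ?_, rfl⟩
      rcases Finset.mem_insert.1 (hl k hk) with h1 | h1
      · rw [h1] at hk
        exact absurd hk hl'
      · exact h1
    have h1 : pdv (podd P j) a ∈ SP P.dq (fun l => ∀ k : P.M, Sum.inr k ∈ l → k ∈ J) := by
      apply hmono
      refine SP_of_pdv_zero (podd P j) (pdv_SP (podd P j) ?_ ha) ?_
      · intro l₁ l₂ hl k hk
        apply hl
        rw [List.mem_append] at hk ⊢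
        rcases hk with hk | hk
        · exact Or.inl hk
        · exact Or.inr (List.mem_cons_of_mem _ hk)
      · have h2 := pdv_pdv (podd P j) (podd P j) a
        have h3 : (2 : ℚ) • pdv (podd P j) (pdv (podd P j) a) = 0 := by
          rw [two_smul]
          nth_rw 1 [h2]
          rw [neg_add_cancel]
        rcases smul_eq_zero.1 h3 with h4 | h4
        · norm_num at h4
        · exact h4
    have h2 : pdv (podd P j) a = 0 := by
      refine ih _ h1 (fun l hl hl' => ?_)
      rw [← pq_append]
      refine h _ ?_ ?_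
      · rw [List.nodup_append]
        refine ⟨hl, List.nodup_singleton j, ?_⟩
        intro x hx y hy hxy
        rw [List.mem_singleton] at hy
        rw [hxy, hy] at hx
        exact hj (hl' j hx)
      · intro x hx
        rw [List.mem_append, List.mem_singleton] at hx
        rcases hx with hx | hx
        · exact Finset.mem_insert_of_mem (hl' x hx)
        · rw [hx]; exact Finset.mem_insert_self _ _
    refine ih a (hmono a (SP_of_pdv_zero (podd P j) ha h2)) (fun l hl hl' => ?_)
    exact h l hl (fun x hx => Finset.mem_insert_of_mem (hl' x hx))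

/-! ### the derivatives of the field -/

private theorem p_gW (T : TS P) (j : P.M) (t : T.ι) : T.p j (T.gW t) = 0 :=
  pdv_gen_ne (T.odd j) (by simp)

private theorem pl_gW (T : TS P) (l : List P.M) (t : T.ι) (x : Lam T.dt) :
    T.pl l (T.gW t * x) = (-1 : ℚ) ^ (T.deg t * l.length) • (T.gW t * T.pl l x) := by
  induction l with
  | nil =>
    rw [List.length_nil, mul_zero, pow_zero, one_smul]
    rfl
  | cons k l ih =>
    have e1 : T.pl (k :: l) (T.gW t * x) = T.p k (T.pl l (T.gW t * x)) := rfl
    have e2 : T.pl (k :: l) x = T.p k (T.pl l x) := rfl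
    have e3 : T.p k (T.gW t * T.pl l x) =
        T.p k (T.gW t) * T.pl l x + sgn T.dt (T.gW t) * T.p k (T.pl l x) :=
      pdv_mul (T.odd k) _ _
    have e4 : sgn T.dt (T.gW t) = (-1 : ℚ) ^ T.deg t • T.gW t := sgn_gen T.dt (Sum.inl t)
    rw [e1, e2, ih, map_smul, e3, p_gW, zero_mul, zero_add, e4, smul_mul_assoc, smul_smul,
      List.length_cons, mul_add, mul_one, pow_add]

private theorem pl_iR (T : TS P) (l : List P.M) (a : Lam P.dq) :
    T.pl l (iR T.deg P.dq a) = iR T.deg P.dq (pq P l a) := by
  induction l with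
  | nil => rfl
  | cons k l ih =>
    have e1 : T.pl (k :: l) (iR T.deg P.dq a) = T.p k (T.pl l (iR T.deg P.dq a)) := rfl
    rw [e1, ih, pq_cons]
    exact pdv_mapL (Sum.inr : P.U ⊕ P.M → T.ι ⊕ (P.U ⊕ P.M)) (fun _ => rfl) Sum.inr_injective
      (podd P k) (T.odd k) (pq P l a)

private theorem li_zero {B M : Type} [Fintype B] [AddCommMonoid M] [Module ℚ M] {ω : B → M}
    (h : LinearIndependent ℚ ω) (c : B → ℚ) (h0 : ∑ b, c b • ω b = 0) (b : B) : c b = 0 := by
  have h1 : Function.Injective (Finsupp.linearCombination ℚ ω) := h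
  have h2 : Finsupp.linearCombination ℚ ω (Finsupp.equivFunOnFinite.symm c) =
      Finsupp.linearCombination ℚ ω 0 := by
    rw [map_zero, Finsupp.linearCombination_apply, Finsupp.sum_fintype _ _ (by simp), ← h0]
    rfl
  have h3 := h1 h2
  exact congrArg (fun f : B →₀ ℚ => f b) h3

theorem nl_of_fld (T : TS P) {L : Finset P.M} {Q : ℕ} (B : Bas P L Q) (i : B.B → T.ι) (g : ℕ)
    (hg : Even g) (hi : ∀ b, T.deg (i b) + B.e b + 1 = g)
    (h : ∀ l : List P.M, l.Nodup → Odd l.length → (∀ x ∈ l, x ∈ L) →
      T.pl l (T.fld B i) ∈ T.nl) (b : B.B) : T.gW (i b) ∈ T.nl := by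
  intro K _ _ _ θ₀ hθ₀
  classical
  let p : Lam T.deg →ₐ[ℚ] K := θ₀.comp (iL T.deg P.dq)
  have hp : ∀ a, p (T.S.d a) = 0 := by
    intro a
    show θ₀ (iL T.deg P.dq (T.S.d a)) = 0
    rw [← T.ext a]
    exact hθ₀ _
  obtain ⟨θ, h1, h2, h3, h4⟩ := exists_gen_point T p hp
  -- the values of the odd letters
  have hodd : ∀ t, Odd (T.deg t) → p (gen T.deg t) = 0 := by
    intro t ht
    have e : sgn T.deg (gen T.deg t) = -gen T.deg t := by
      rw [sgn_gen, ht.neg_one_pow]
      rw [Algebra.smul_def, map_neg, map_one, neg_one_mul]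
    have e2 := congrArg p (odd_sq e)
    rw [map_mul, map_zero] at e2
    exact mul_self_eq_zero.1 e2
  have hR : ∀ a, θ (iR T.deg P.dq a) = MvPolynomial.map (algebraMap ℚ K) (ev0 P a) := by
    intro a
    have e : θ.comp (iR T.deg P.dq) = (MvPolynomial.mapAlgHom (Algebra.ofId ℚ K)).comp (ev0 P) := by
      refine Lam.algHom_ext _ fun t => ?_
      rw [AlgHom.comp_apply, AlgHom.comp_apply]
      have e1 : iR T.deg P.dq (gen P.dq t) = gen T.dt (Sum.inr t) := mapL_gen _ t
      rw [e1]
      rcases t with u | j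
      · rw [ev0_u, h3 u]
        simp
      · rw [ev0_X, h4 j, map_zero]
    exact congrArg (fun f : Lam P.dq →ₐ[ℚ] MvPolynomial P.U K => f a) e
  have hW : ∀ t, θ (T.gW t) = MvPolynomial.C (p (gen T.deg t)) := by
    intro t
    have e1 : iL T.deg P.dq (gen T.deg t) = T.gW t := mapL_gen _ t
    rw [← e1, h2]
  -- the sums vanish for all lists
  have key : ∀ l : List P.M, l.Nodup → (∀ x ∈ l, x ∈ L) →
      ∑ b, MvPolynomial.C (p (gen T.deg (i b))) *
        MvPolynomial.map (algebraMap ℚ K) (ev0 P (pq P l (B.ω b))) = 0 := by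
    intro l hl hl'
    rcases Nat.even_or_odd l.length with hev | hod
    · refine Finset.sum_eq_zero fun b _ => ?_
      rcases Nat.even_or_odd (T.deg (i b)) with hd | hd
      · have he : Odd (B.e b) := by
          have := hi b
          rw [← this] at hg
          by_contra hc
          rw [Nat.not_odd_iff_even] at hc
          have h5 : Odd (T.deg (i b) + B.e b + 1) := (hd.add hc).add_one
          exact (Nat.not_even_iff_odd.2 h5) hg
        have h5 : sgn P.dq (pq P l (B.ω b)) = -pq P l (B.ω b) := by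
          rw [sgn_pq, hev.neg_one_pow, one_smul, sgn_hom P.dq (homS_le P.dq _ _ (B.mem b)),
            he.neg_one_pow, map_smul]
          rw [Algebra.smul_def, map_neg, map_one, neg_one_mul]
        rw [ev0_odd h5, map_zero, mul_zero]
      · rw [hodd _ hd, MvPolynomial.C_0, zero_mul]
    · have h5 := h l hl hod hl' (MvPolynomial P.U K) θ h1
      unfold TS.fld at h5
      rw [map_sum, map_sum] at h5
      rw [← h5]
      refine Finset.sum_congr rfl fun b _ => ?_
      rw [pl_gW, map_smul, map_mul, pl_iR, hW, hR]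
      rcases Nat.even_or_odd (T.deg (i b)) with hd | hd
      · rw [(hd.mul_right l.length).neg_one_pow, one_smul]
      · rw [hodd _ hd, MvPolynomial.C_0, zero_mul, smul_zero]
  -- functionals
  have hlam : ∀ f : Module.Dual ℚ K, f (p (gen T.deg (i b))) = 0 := by
    intro f
    have h6 : ∑ b, f (p (gen T.deg (i b))) • B.ω b = 0 := by
      refine taylor L _ ?_ ?_
      · refine Submodule.sum_mem _ fun b _ => Submodule.smul_mem _ _ ?_
        refine Submodule.span_mono ?_ (B.mem b)
        rintro _ ⟨l, hl, -, rfl⟩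
        exact ⟨l, fun j hj => hl _ hj j rfl, rfl⟩
      · intro l hl hl'
        have h7 := key l hl hl'
        ext m
        have h8 := congrArg (MvPolynomial.coeff m) h7
        rw [MvPolynomial.coeff_sum] at h8
        rw [map_sum, map_sum, MvPolynomial.coeff_sum, MvPolynomial.coeff_zero]
        have h9 := congrArg f h8
        rw [map_sum, MvPolynomial.coeff_zero, map_zero] at h9
        rw [← h9]
        refine Finset.sum_congr rfl fun b _ => ?_
        rw [MvPolynomial.coeff_C_mul, MvPolynomial.coeff_map, map_smul, map_smul,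
          MvPolynomial.coeff_smul, mul_comm, ← Algebra.smul_def, map_smul, smul_eq_mul,
          smul_eq_mul, mul_comm]
    exact li_zero B.ind _ h6 b
  have h10 : p (gen T.deg (i b)) = 0 := (Module.forall_dual_apply_eq_zero_iff ℚ _).1 hlam
  have h11 : iL T.deg P.dq (gen T.deg (i b)) = T.gW (i b) := mapL_gen _ (i b)
  rw [← h11]
  exact h10

end AnWL
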