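import Pool.Agent.Helper48.WL.C06e

/-!
C06f. The class `KK` has the extension property.

`Mor_lin`: for `G = T.ga lab`, `H = T'.ga lab'` a morphism `ψ : Mor G H` restricts to an algebra map `ψ₀ : Lam T.dt → Lam T'.dt` (`ψ.R`, `lc_inj`; e.g. `ψ₀ a = ` choice, additive and
multiplicative by `lc_inj`) with `lc (ψ₀ a) = ψ.f (lc a)`, which commutes with `D` and `p j`, fixes the `X_j` (`ψ.X`), maps each letter `gW i` to a letter `gW i'` (`ψ.Gen`) and fixes the letters `u` if they are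
labelled (`ψ.Lab`). The degree of `i'` is that of `i` (`ψ.τ`, `gen ≠ 0`).
`EXT_KK`: `G = T.ga ..`, `w = lc w₀` (`ga_mem_Ik`, `ga_hm`, `ga_D_zero`, `ga_lv`). If `w₀ = 0`: `H = G`, `φ = id`, `z = 0`. Otherwise `exists_superfield`, `φ` from `exists_mor`,
`H = T'.ga (fun n => h'.Φ (lab n))` with `h' = h.comp k` (`comp_Φ`; rewrite the labels by `funext`), `z = lc (fld)`. For `t = lc (gW i) ∈ H.Gen`: `i` in the range of `k.f`: in the
image of `G.Gen`; `i = ζ b`: for `ψ : Mor H H'`, `H' = T''.ga ..`: `ψ₀ (fld B ζ) = fld B (i'')` where `ψ₀ (gW (ζ b)) = gW (i'' b)`, as `ψ₀` fixes the letters `u`, `X` (so `ψ₀ (iR x) = iR x`).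
`nl_of_fld` in `T''`.
-/

set_option autoImplicit false

namespace AnWL
open Anick2
variable {P : Par}

private theorem c06f_gen_ne {ι : Type} (δ : ι → ℕ) (i : ι) : gen δ i ≠ 0 := by
  intro h
  rcases Nat.even_or_odd (δ i) with hi | hi
  · have h1 := congrArg (bd δ) h
    rw [bd_even hi, map_zero] at h1
    exact MvPolynomial.X_ne_zero i h1
  · have h1 := pdv_gen hi
    rw [h, map_zero] at h1
    have h2 := congrArg (bd δ) h1
    rw [map_zero, map_one] at h2
    exact zero_ne_one h2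

theorem Mor_lin {T T' : TS P} {lab : ℕ → Lam T.dt} {lab' : ℕ → Lam T'.dt}
    (ψ : Mor (T.ga lab) (T'.ga lab')) :
    ∃ ψ₀ : Lam T.dt →ₐ[ℚ] Lam T'.dt, (∀ a, lc T'.dt (ψ₀ a) = ψ.f (lc T.dt a)) ∧
      (∀ a, T'.D (ψ₀ a) = ψ₀ (T.D a)) ∧ (∀ j a, T'.p j (ψ₀ a) = ψ₀ (T.p j a)) ∧
      (∀ j, ψ₀ (T.gX j) = T'.gX j) ∧ (∀ n, ψ₀ (lab n) = lab' n) ∧
      ∃ f : T.ι → T'.ι, ∀ i, ψ₀ (T.gW i) = T'.gW (f i) ∧ T'.deg (f i) = T.deg i := by
  have := T'.finT
  have hex : ∀ a, ∃ b, lc T'.dt b = ψ.f (lc T.dt a) := fun a =>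
    ga_mem_R T' lab' (ψ.R _ (ga_lc_R T lab a))
  choose g hg using hex
  let ψ₀ : Lam T.dt →ₐ[ℚ] Lam T'.dt := AlgHom.ofLinearMap
    { toFun := g
      map_add' := fun a b => lc_inj (by
        rw [map_add, hg, hg, hg, map_add]
        exact map_add ψ.f _ _)
      map_smul' := fun r a => lc_inj (by
        rw [RingHom.id_apply, map_smul, hg, hg, map_smul]
        exact map_smul ψ.f _ _) }
    (lc_inj (by
      change lc T'.dt (g 1) = lc T'.dt 1
      rw [hg, map_one, map_one]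
      exact map_one ψ.f))
    (fun a b => lc_inj (by
      change lc T'.dt (g (a * b)) = lc T'.dt (g a * g b)
      rw [map_mul, hg, hg, hg, map_mul]
      exact map_mul ψ.f _ _))
  have h0 : ∀ a, lc T'.dt (ψ₀ a) = ψ.f (lc T.dt a) := fun a => hg a
  refine ⟨ψ₀, h0, ?_, ?_, ?_, ?_, ?_⟩
  · intro a
    apply lc_inj
    rw [h0]
    refine (ga_D T' lab' (ψ₀ a)).symm.trans ?_
    rw [h0]
    refine (ψ.D (lc T.dt a)).trans ?_
    exact congrArg ψ.f (ga_D T lab a)
  · intro j a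
    apply lc_inj
    rw [h0]
    refine (ga_pd T' lab' j (ψ₀ a)).symm.trans ?_
    rw [h0]
    refine (ψ.pd j (lc T.dt a)).trans ?_
    exact congrArg ψ.f (ga_pd T lab j a)
  · intro j
    apply lc_inj
    rw [h0]
    exact ψ.X j
  · intro n
    apply lc_inj
    rw [h0]
    exact ψ.Lab n
  · have hf : ∀ i, ∃ i', ψ₀ (T.gW i) = T'.gW i' ∧ T'.deg i' = T.deg i := by
      intro i
      obtain ⟨i', hi'⟩ := ψ.Gen (lc T.dt (T.gW i)) ⟨i, rfl⟩
      have e1 : ψ₀ (T.gW i) = T'.gW i' := lc_inj ((h0 _).trans hi')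
      refine ⟨i', e1, ?_⟩
      have e2 : tau T'.dt (ψ₀ (T.gW i)) = ψ₀ (tau T.dt (T.gW i)) := by
        apply lc_inj
        rw [h0]
        refine (ga_τ T' lab' _).symm.trans ?_
        rw [h0]
        refine (ψ.τ (lc T.dt (T.gW i))).trans ?_
        exact congrArg ψ.f (ga_τ T lab _)
      rw [tau_gen, map_smul, e1, tau_gen] at e2
      have e2' : (2 : ℚ) ^ T'.deg i' • T'.gW i' = (2 : ℚ) ^ T.deg i • T'.gW i' := e2
      rw [Algebra.smul_def, Algebra.smul_def] at e2'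
      have e3 : ((2 : ℚ) ^ T'.deg i' - (2 : ℚ) ^ T.deg i) • T'.gW i' = 0 := by
        rw [Algebra.smul_def, map_sub, sub_mul, e2', sub_self]
      by_contra hne
      have hc : ((2 : ℚ) ^ T'.deg i' - (2 : ℚ) ^ T.deg i) ≠ 0 := by
        intro h
        exact hne (pow_right_injective₀ (a := (2 : ℚ)) (by norm_num) (by norm_num)
          (sub_eq_zero.1 h))
      have e4 : T'.gW i' = 0 := by
        calc T'.gW i' = ((2 : ℚ) ^ T'.deg i' - (2 : ℚ) ^ T.deg i)⁻¹ •
              (((2 : ℚ) ^ T'.deg i' - (2 : ℚ) ^ T.deg i) • T'.gW i') := by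
              rw [smul_smul, inv_mul_cancel₀ hc, one_smul]
          _ = 0 := by rw [e3, smul_zero]
      exact c06f_gen_ne _ _ e4
    choose f hf using hf
    exact ⟨f, hf⟩


theorem EXT_KK (T₀ : TS P) (n₀ : ℕ) (hn₀ : 2 ≤ n₀) (lab : ℕ → Lam T₀.dt)
    (hlab : ∀ u, ∃ n, lab n = T₀.gU u) : EXT (KK T₀ n₀ lab) (n₀ + 2) := by
  rintro G ⟨T, h, hdeg, rfl⟩ L g w hg hw hwI hDw hLw
  obtain ⟨w₀, hw₀, rfl⟩ := ga_mem_Ik T _ hwI
  by_cases hz : w₀ = 0
  · subst hz
    refine ⟨T.ga (fun n => h.Φ (lab n)), ⟨T, h, hdeg, rfl⟩, Mor.id _, 0, Subalgebra.zero_mem _,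
      Submodule.zero_mem _, Submodule.zero_mem _, ?_, ?_, ?_⟩
    · intro j _
      exact map_zero _
    · rw [map_zero]
      exact (map_zero (lc T.dt)).symm
    · intro t ht
      exact Or.inl ⟨t, ht, rfl⟩
  obtain ⟨n, hn, hwn⟩ := ((ga_hm T _).1 hw).resolve_left hz
  have hD0 : T.D w₀ = 0 := (ga_D_zero T _).1 hDw
  have hL0 : ∀ j, j ∉ L → T.p j w₀ = 0 := (ga_lv T _).1 hLw
  have hne : Even n := by
    have h1 : Even (n : ℤ) := by rw [hn]; exact hg
    exact (Int.even_coe_nat n).1 h1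
  obtain ⟨T', k, Q, B, ζ, hζ, hζn, hζe, hDz⟩ :=
    exists_superfield T L n₀ hn₀ n w₀ hz hwn hw₀ hD0 hL0
  obtain ⟨φ, hφ⟩ := exists_mor k (fun m => h.Φ (lab m))
  have elb : (fun m => (h.comp k).Φ (lab m)) = fun m => k.Φ (h.Φ (lab m)) :=
    funext fun m => comp_Φ h k (lab m)
  have hK : T'.ga (fun m => k.Φ (h.Φ (lab m))) ∈ KK T₀ n₀ lab := by
    refine ⟨T', h.comp k, ?_, by rw [elb]⟩
    intro i hi
    rcases hζ i with ⟨i₀, rfl⟩ | ⟨b, rfl⟩
    · rw [k.deg]
      refine hdeg i₀ ?_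
      rintro ⟨i₁, rfl⟩
      exact hi ⟨i₁, rfl⟩
    · exact hζn b
  refine ⟨T'.ga (fun m => k.Φ (h.Φ (lab m))), hK, φ, lc T'.dt (T'.fld B ζ), ga_lc_R T' _ _,
    ga_lc_I T' _ (fld_SP T' B ζ), ?_, ?_, ?_, ?_⟩
  · refine (ga_hm T' _).2 ?_
    by_cases hB : IsEmpty B.B
    · left
      unfold TS.fld
      exact Finset.sum_of_isEmpty _
    · right
      rw [not_isEmpty_iff] at hB
      obtain ⟨b⟩ := hB
      have h1 := hζe b
      refine ⟨n - 1, ?_, fld_hom T' B ζ n hζe⟩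
      omega
  · exact (ga_lv T' _).2 (fld_p T' B ζ)
  · refine (ga_D T' _ _).trans ?_
    rw [hDz]
    exact (hφ w₀).symm
  · rintro t ⟨i, rfl⟩
    rcases hζ i with ⟨i₀, rfl⟩ | ⟨b, rfl⟩
    · left
      refine ⟨lc T.dt (T.gW i₀), ⟨i₀, rfl⟩, ?_⟩
      rw [← Φ_gW]
      exact hφ _
    · right
      rintro H' ⟨T'', h'', hdeg'', rfl⟩ ψ hψ
      obtain ⟨ψ₀, h0, hD', hp', hX', hlab', f, hf⟩ := Mor_lin ψ
      have hU : ∀ u, ψ₀ (T'.gU u) = T''.gU u := by
        intro u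
        obtain ⟨m, hm⟩ := hlab u
        have e := hlab' m
        rw [hm] at e
        have e1 : k.Φ (h.Φ (T₀.gU u)) = T'.gU u := by
          rw [Φ_inr, Φ_inr]
        have e2 : h''.Φ (T₀.gU u) = T''.gU u := Φ_inr h'' (Sum.inl u)
        rw [e1, e2] at e
        exact e
      have hR : ∀ x : Lam P.dq, ψ₀ (iR T'.deg P.dq x) = iR T''.deg P.dq x := by
        intro x
        have e : ψ₀.comp (iR T'.deg P.dq) = iR T''.deg P.dq := by
          refine Lam.algHom_ext _ ?_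
          rintro (u | j)
          · rw [AlgHom.comp_apply]
            have e1 : iR T'.deg P.dq (gen P.dq (Sum.inl u)) = T'.gU u := mapL_gen _ _
            have e2 : iR T''.deg P.dq (gen P.dq (Sum.inl u)) = T''.gU u := mapL_gen _ _
            rw [e1, e2, hU]
          · rw [AlgHom.comp_apply]
            have e1 : iR T'.deg P.dq (gen P.dq (Sum.inr j)) = T'.gX j := mapL_gen _ _
            have e2 : iR T''.deg P.dq (gen P.dq (Sum.inr j)) = T''.gX j := mapL_gen _ _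
            rw [e1, e2, hX']
        exact DFunLike.congr_fun e x
      have hfld : ψ₀ (T'.fld B ζ) = T''.fld B (fun b => f (ζ b)) := by
        unfold TS.fld
        rw [map_sum]
        refine Finset.sum_congr rfl fun b _ => ?_
        rw [map_mul, hR, (hf (ζ b)).1]
      have hpl : ∀ (l : List P.M) (a : Lam T'.dt), T''.pl l (ψ₀ a) = ψ₀ (T'.pl l a) := by
        intro l
        induction l with
        | nil => intro a; rfl
        | cons x l ih =>
          intro a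
          change T''.p x (T''.pl l (ψ₀ a)) = ψ₀ (T'.p x (T'.pl l a))
          rw [ih, hp']
      have hnl := nl_of_fld T'' B (fun b => f (ζ b)) n hne
        (fun b => by rw [(hf (ζ b)).2]; exact hζe b)
        (fun l hl1 hl2 hl3 => by
          have e := hψ l hl1 hl2 hl3
          rw [ga_pdl] at e
          rw [← hfld, hpl]
          refine (ga_Nl T'' (fun m => h''.Φ (lab m))).1 ?_
          rw [h0]
          exact e) b
      have e := (ga_Nl T'' (fun m => h''.Φ (lab m))).2 hnl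
      rw [← (hf (ζ b)).1, h0] at e
      exact e

end AnWL
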