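import Pool.Agent.Helper48.WL.C06f
import Pool.Agent.Helper48.WL.W15

/-!
C07a. Killing finitely many closed even elements of the base: the abstract theorem `kill_closed` in concrete terms.

`kill_in`: the index type of the letters is finite (`T₀.finT`), so there is `lab : ℕ → Lam T₀.dt` whose range contains all the letters. `K = KK T₀ n₀ lab`, `EXT_KK`; `G₀ = T₀.ga (fun n => (TS.Hom.id T₀).Φ (lab n)) ∈ K`.
`kill_closed` (`Fintype P.M`, `DecidableEq P.M` by `Fintype.ofFinite`, `Classical`) for `x a = lc (F a)`, `f a = n a`: `H = T.ga (fun n => h.Φ (lab n))`, `φ`. The algebra maps `φ.f ∘ lc` and `lc ∘ h.Φ` agree on the letters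
(labels), so they are equal. Tameness: for `i ∉ range h.f`, `lc (T.gW i) ∈ H.Gen`; if it is `φ.f (lc (T₀.gW i₀)) = lc (h.Φ (T₀.gW i₀)) = lc (T.gW (h.f i₀))`, then `i = h.f i₀`
(`lc_inj`; `gen_inj`), a contradiction; so it is in `H.Nl`.
-/

set_option autoImplicit false

namespace AnWL
open Anick2
variable {P : Par}

theorem gen_inj {ι : Type} {δ : ι → ℕ} {i j : ι} (h : gen δ i = gen δ j) : i = j := by
  by_contra hij
  rcases Nat.even_or_odd (δ i) with hi | hi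
  · have h1 := congrArg (bd δ) h
    rw [bd_even hi] at h1
    rcases Nat.even_or_odd (δ j) with hj | hj
    · rw [bd_even hj] at h1
      exact hij (MvPolynomial.X_injective h1)
    · rw [bd_odd (Nat.not_even_iff_odd.2 hj)] at h1
      exact MvPolynomial.X_ne_zero i h1
  · have h1 := pdv_gen hi
    rw [h, pdv_gen_ne hi (fun e => hij e.symm)] at h1
    have h2 := congrArg (bd δ) h1
    rw [map_zero, map_one] at h2
    exact zero_ne_one h2

theorem kill_in (T₀ : TS P) (n₀ : ℕ) (hn₀ : 2 ≤ n₀) {α : Type} (E : Finset α)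
    (F : α → Lam T₀.dt) (n : α → ℕ) (hn : ∀ a ∈ E, Even (n a)) (hF : ∀ a ∈ E, F a ∈ hom T₀.dt (n a))
    (hI : ∀ a ∈ E, F a ∈ SP T₀.dt (fun l => 1 ≤ cW l)) (hD : ∀ a ∈ E, T₀.D (F a) = 0) :
    ∃ (T : TS P) (h : T₀.Hom T), (∀ i, i ∉ Set.range h.f → n₀ ≤ T.deg i ∧ T.gW i ∈ T.nl) ∧
      ∀ a ∈ E, h.Φ (F a) ∈ T.nl := by
  classical
  have hfin : Finite (T₀.ι ⊕ (P.U ⊕ P.M)) := T₀.finT
  have hM : Finite P.M := P.finM
  letI : Fintype P.M := Fintype.ofFinite P.M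
  obtain ⟨k, ⟨e⟩⟩ := Finite.exists_equiv_fin (T₀.ι ⊕ (P.U ⊕ P.M))
  obtain ⟨lab, hlab⟩ : ∃ lab : ℕ → Lam T₀.dt, ∀ t, ∃ m, lab m = gen T₀.dt t := by
    refine ⟨fun m => if h : m < k then gen T₀.dt (e.symm ⟨m, h⟩) else 0, fun t => ⟨(e t : ℕ), ?_⟩⟩
    have h1 : ((e t : Fin k) : ℕ) < k := (e t).2
    simp only [h1, dif_pos]
    congr 1
    exact e.symm_apply_apply t
  have hE := EXT_KK T₀ n₀ hn₀ lab (fun u => hlab (Sum.inr (Sum.inl u)))
  have hG : T₀.ga (fun m => (TS.Hom.id T₀).Φ (lab m)) ∈ KK T₀ n₀ lab :=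
    ⟨T₀, TS.Hom.id T₀, fun i hi => absurd ⟨i, rfl⟩ hi, rfl⟩
  obtain ⟨H, hH, φ, hφ, hk⟩ := kill_closed (KK T₀ n₀ lab) (by omega) hE hG E
    (fun a => lc T₀.dt (F a)) (fun a => (n a : ℤ))
    (fun a ha => (Int.even_coe_nat (n a)).2 (hn a ha))
    (fun a ha => ga_lc_I T₀ _ (hI a ha))
    (fun a ha => (ga_hm T₀ _).2 (Or.inr ⟨n a, rfl, hF a ha⟩))
    (fun a ha => (ga_D_zero T₀ _).2 (hD a ha))
  obtain ⟨T, h, hdeg, rfl⟩ := hH
  have key : ∀ b : Lam T₀.dt, φ.f (lc T₀.dt b) = lc T.dt (h.Φ b) := by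
    intro b
    have e1 : (φ.f : Lc T₀.dt →ₐ[ℚ] Lc T.dt).comp (lc T₀.dt) = (lc T.dt).comp h.Φ := by
      refine Lam.algHom_ext _ fun t => ?_
      obtain ⟨m, hm⟩ := hlab t
      have e2 := φ.Lab m
      have e3 : (T₀.ga (fun m => (TS.Hom.id T₀).Φ (lab m))).Lab m = lc T₀.dt (gen T₀.dt t) := by
        change lc T₀.dt ((TS.Hom.id T₀).Φ (lab m)) = _
        rw [id_Φ, hm]
      have e4 : (T.ga (fun m => h.Φ (lab m))).Lab m = lc T.dt (h.Φ (gen T₀.dt t)) := by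
        change lc T.dt (h.Φ (lab m)) = _
        rw [hm]
      rw [e3, e4] at e2
      exact e2
    exact DFunLike.congr_fun e1 b
  refine ⟨T, h, ?_, ?_⟩
  · intro i hi
    refine ⟨hdeg i hi, ?_⟩
    refine (ga_Nl T (fun m => h.Φ (lab m))).1 ?_
    rcases hφ (lc T.dt (T.gW i)) ⟨i, rfl⟩ with ⟨g, ⟨i₀, hg⟩, hgi⟩ | h1
    · exfalso
      rw [hg] at hgi
      have h2 : lc T.dt (h.Φ (T₀.gW i₀)) = lc T.dt (T.gW i) := (key (T₀.gW i₀)).symm.trans hgi
      have := T.finT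
      have h3 := lc_inj h2
      rw [Φ_gW] at h3
      have h4 := gen_inj h3
      exact hi ⟨i₀, Sum.inl_injective h4⟩
    · exact h1
  · intro a ha
    refine (ga_Nl T (fun m => h.Φ (lab m))).1 ?_
    have h1 := hk a ha
    have h2 := key (F a)
    rw [← h2]
    exact h1

end AnWL
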