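import Pool.Agent.Helper48.WL.C05b

/-!
C07b. If all even letters of `W` are killed, then `H(ΛW)` is finite-dimensional.

`nil_of_nl`: suppose no power of `x = gen i` is in `JJ`. `Q = ΛW / JJ` (`Ideal.Quotient` by the two-sided ideal with carrier `JJ` (`JJ_left`, `JJ_right`), or `RingQuot`) is a commutative `ℚ`-algebra (the odd
generators are `0`, so generators commute); the class of `x` is not nilpotent, so there is a prime ideal of `Q` which does not contain it (`nilpotent_iff_mem_prime`), `K` the quotient by it, a domain,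
`p : ΛW → K`, `p ∘ d = 0`, `p x ≠ 0`. `exists_zero_point` gives `θ` with `θ (gW i) = p x ≠ 0`, contradicting `gW i ∈ nl`.
`cohFin_of_nl`: `coh_finite` (`Helper2/AN/KFin.lean`; `CohomologyFinite` is `CohFin S.d` by definition).
-/

set_option autoImplicit false

namespace AnWL
open Anick2
variable {P : Par}

private theorem exists_point {A : Type} [Ring A] [Algebra ℚ A] (I : Ideal A) [I.IsTwoSided]
    (hc : ∀ a b : A, a * b - b * a ∈ I) (x : A) (hx : ∀ M : ℕ, x ^ M ∉ I) :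
    ∃ (K : Type) (_ : CommRing K) (_ : IsDomain K) (_ : Algebra ℚ K) (p : A →ₐ[ℚ] K),
      (∀ a ∈ I, p a = 0) ∧ p x ≠ 0 := by
  have hcomm : ∀ a b : A ⧸ I, a * b = b * a := by
    intro a b
    obtain ⟨a, rfl⟩ := Ideal.Quotient.mk_surjective a
    obtain ⟨b, rfl⟩ := Ideal.Quotient.mk_surjective b
    rw [← map_mul, ← map_mul, Ideal.Quotient.eq]
    exact hc a b
  letI cr : CommRing (A ⧸ I) := { Ideal.Quotient.ring I with mul_comm := hcomm }
  have hn : ¬ IsNilpotent (Ideal.Quotient.mk I x) := by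
    rintro ⟨M, hM⟩
    apply hx M
    rw [← Ideal.Quotient.eq_zero_iff_mem, map_pow]
    exact hM
  have hn' : ∃ J : Ideal (A ⧸ I), J.IsPrime ∧ Ideal.Quotient.mk I x ∉ J := by
    by_contra hcon
    refine hn (nilpotent_iff_mem_prime.2 fun J hJ => ?_)
    by_contra hxJ
    exact hcon ⟨J, hJ, hxJ⟩
  obtain ⟨J, hJ, hxJ⟩ := hn'
  refine ⟨(A ⧸ I) ⧸ J, inferInstance, Ideal.Quotient.isDomain J, inferInstance,
    (Ideal.Quotient.mkₐ ℚ J).comp (Ideal.Quotient.mkₐ ℚ I), ?_, ?_⟩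
  · intro a ha
    have h1 : Ideal.Quotient.mkₐ ℚ I a = 0 := Ideal.Quotient.eq_zero_iff_mem.2 ha
    rw [AlgHom.comp_apply, h1, map_zero]
  · intro h
    apply hxJ
    exact Ideal.Quotient.eq_zero_iff_mem.1 h

private theorem comm_mem_JJ {ι : Type} {deg : ι → ℕ} {d : Lam deg →ₗ[ℚ] Lam deg} (a b : Lam deg) :
    a * b - b * a ∈ JJ deg d := by
  have h0 : sgn deg ((2 : ℚ)⁻¹ • (a + sgn deg a)) = (2 : ℚ)⁻¹ • (a + sgn deg a) := by
    rw [map_smul, map_add, sgn_sgn, add_comm]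
  have h1 : sgn deg ((2 : ℚ)⁻¹ • (a - sgn deg a)) = -((2 : ℚ)⁻¹ • (a - sgn deg a)) := by
    rw [map_smul, map_sub, sgn_sgn, ← smul_neg, neg_sub]
  have h2 : a = (2 : ℚ)⁻¹ • (a + sgn deg a) + (2 : ℚ)⁻¹ • (a - sgn deg a) := by
    rw [← smul_add, add_add_sub_cancel, ← two_smul ℚ a, smul_smul,
      inv_mul_cancel₀ (by norm_num), one_smul]
  have h3 := even_comm h0 b
  have h4 : (2 : ℚ)⁻¹ • (a - sgn deg a) ∈ JJ deg d := odd_mem_JJ h1
  generalize (2 : ℚ)⁻¹ • (a + sgn deg a) = a0 at h2 h3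
  generalize (2 : ℚ)⁻¹ • (a - sgn deg a) = a1 at h2 h4
  rw [h2, add_mul, mul_add, h3, add_sub_add_left_eq_sub]
  have h5 : a1 * b - b * a1 = a1 * b + (-1 : ℚ) • (b * a1) := by
    rw [Algebra.smul_def, map_neg, map_one, neg_one_mul, sub_eq_add_neg]
  rw [h5]
  exact (JJ deg d).add_mem (JJ_right h4 b) ((JJ deg d).smul_mem _ (JJ_left h4 b))

theorem nil_of_nl (T : TS P) (i : T.ι) (h : T.gW i ∈ T.nl) :
    ∃ M, gen T.deg i ^ M ∈ JJ T.deg T.S.d := by
  by_contra hcon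
  let I : Ideal (Lam T.deg) :=
    { carrier := {a | a ∈ JJ T.deg T.S.d}
      add_mem' := fun {a b} ha hb => (JJ T.deg T.S.d).add_mem ha hb
      zero_mem' := (JJ T.deg T.S.d).zero_mem
      smul_mem' := fun c x hx => JJ_left hx c }
  have hI : ∀ a, a ∈ I ↔ a ∈ JJ T.deg T.S.d := fun a => Iff.rfl
  have h2 : I.IsTwoSided := ⟨fun b ha => JJ_right ha b⟩
  obtain ⟨K, c1, c2, c3, p, hp, hx⟩ := exists_point I (fun a b => comm_mem_JJ a b) (gen T.deg i)
    (fun M hM => hcon ⟨M, hM⟩)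
  obtain ⟨θ, h3, h4, -, -⟩ := exists_zero_point T p (fun a => hp _ (d_mem_JJ a))
  have h5 : θ (T.gW i) = 0 := h K θ h3
  have h6 : iL T.deg P.dq (gen T.deg i) = T.gW i := mapL_gen _ i
  rw [← h6, h4] at h5
  exact hx h5

theorem cohFin_of_nl (T : TS P) (h : ∀ i, Even (T.deg i) → T.gW i ∈ T.nl) : CohFin T.S.d := by
  have := T.fin
  exact coh_finite T.S (fun i hi => nil_of_nl T i (h i hi))

end AnWL
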