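import Pool.Agent.Helper48.WL.C04

/-!
C07c. Reindexing.

`good_of_inj`: choose a bijection of the complement of the range of `f` with `Fin m`, so `e : ι₀ ⊕ Fin m ≃ ι`, `e (inl i) = f i`; transport `S` along `e` (the algebra isomorphism `mapL e`: `exists_retr` / `Lam.lift`; differential
`(mapL e)⁻¹ ∘ S.d ∘ mapL e`; hom, Sullivan condition and minimality transport; the cohomology is isomorphic: the linear isomorphism maps kernel to kernel, range to range;
compare `Helper98/RD/Perm.lean`, `Helper98/RD/Push.lean`, `conj_sullivan`, `conj_back` in `Helper2/AN/Conj.lean`, `restrict_dat` in `Helper2/AN/MapL.lean`, `extract` in `Helper2/AN/Extract.lean`).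
`good_of_hom`: `Φ_D` on `iL a` and injectivity of `iL` give the hypothesis `hd` of `good_of_inj`.
-/

set_option autoImplicit false

namespace AnWL
open Anick2
variable {P : Par}

attribute [local irreducible] instRingLam

private theorem ri_surj {ι₁ ι₂ : Type} {deg₁ : ι₁ → ℕ} {deg₂ : ι₂ → ℕ} (e : ι₁ → ι₂)
    (he : Function.Surjective e) (hdeg : ∀ i, deg₂ (e i) = deg₁ i) :
    Function.Surjective (mapL (deg' := deg₁) (deg := deg₂) e hdeg) := by
  intro a
  induction a using Lam.induction with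
  | hm l =>
    obtain ⟨l', rfl⟩ := (List.map_surjective_iff.2 he) l
    exact ⟨mon deg₁ l', mapL_mon hdeg l'⟩
  | h0 => exact ⟨0, map_zero _⟩
  | hadd a b ha hb =>
    obtain ⟨a', rfl⟩ := ha
    obtain ⟨b', rfl⟩ := hb
    exact ⟨a' + b', map_add _ _ _⟩
  | hsmul r a ha =>
    obtain ⟨a', rfl⟩ := ha
    exact ⟨r • a', map_smul _ _ _⟩

private theorem ri_coh {ι₁ ι₂ : Type} {deg₁ : ι₁ → ℕ} {deg₂ : ι₂ → ℕ}
    (F : Lam deg₁ →ₐ[ℚ] Lam deg₂) (hF : Function.Bijective F)
    (d₁ : Lam deg₁ →ₗ[ℚ] Lam deg₁) (d₂ : Lam deg₂ →ₗ[ℚ] Lam deg₂)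
    (h : ∀ a, F (d₁ a) = d₂ (F a)) (hc : CohFin d₂) : CohFin d₁ := by
  let G : Lam deg₁ ≃ₐ[ℚ] Lam deg₂ := AlgEquiv.ofBijective F hF
  have hG : ∀ a, G a = F a := fun a => rfl
  have hG' : ∀ a, G.symm (d₂ a) = d₁ (G.symm a) := by
    intro a
    apply G.injective
    rw [G.apply_symm_apply, hG, h, ← hG, G.apply_symm_apply]
  unfold CohFin at hc ⊢
  let φ : LinearMap.ker d₂ →ₗ[ℚ] LinearMap.ker d₁ :=
    LinearMap.codRestrict (LinearMap.ker d₁) (G.symm.toLinearMap ∘ₗ (LinearMap.ker d₂).subtype)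
      (by
        rintro ⟨x, hx⟩
        rw [LinearMap.mem_ker] at hx ⊢
        change d₁ (G.symm x) = 0
        rw [← hG', hx, map_zero])
  have hφ : ∀ x, ((φ x : LinearMap.ker d₁) : Lam deg₁) = G.symm x := fun x => rfl
  have hsurj : Function.Surjective φ := by
    rintro ⟨y, hy⟩
    rw [LinearMap.mem_ker] at hy
    have h5 : d₂ (G y) = 0 := by rw [hG, ← h, hy, map_zero]
    refine ⟨⟨G y, LinearMap.mem_ker.2 h5⟩, Subtype.ext ?_⟩
    rw [hφ]
    exact G.symm_apply_apply y
  have hle : (LinearMap.range d₂).comap (LinearMap.ker d₂).subtype ≤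
      ((LinearMap.range d₁).comap (LinearMap.ker d₁).subtype).comap φ := by
    rintro x ⟨y, hy⟩
    refine ⟨G.symm y, ?_⟩
    rw [← hG', hy]
    rfl
  refine Module.Finite.of_surjective (Submodule.mapQ _ _ φ hle) ?_
  intro y
  obtain ⟨y, rfl⟩ := Submodule.Quotient.mk_surjective _ y
  obtain ⟨x, rfl⟩ := hsurj y
  exact ⟨Submodule.Quotient.mk x, rfl⟩

theorem good_of_inj {ι₀ ι : Type} [Finite ι] {deg₀ : ι₀ → ℕ} {deg : ι → ℕ}
    (S₀ : MinimalSullivan deg₀) (S : MinimalSullivan deg) (f : ι₀ → ι)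
    (hf : Function.Injective f) (hdeg : ∀ i, deg (f i) = deg₀ i)
    (hd : ∀ a, S.d (mapL f hdeg a) = mapL f hdeg (S₀.d a)) (n : ℕ)
    (hn : ∀ i, i ∉ Set.range f → n ≤ deg i) (hfin : CohFin S.d) : S₀.GoodAt n := by
  classical
  have hfinC : Finite {i : ι // i ∉ Set.range f} := inferInstance
  obtain ⟨m, ⟨c⟩⟩ := Finite.exists_equiv_fin {i : ι // i ∉ Set.range f}
  let g : Fin m → ι := fun j => (c.symm j : ι)
  have hg : ∀ j, g j ∉ Set.range f := fun j => (c.symm j).2
  let e : ι₀ ⊕ Fin m → ι := Sum.elim f g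
  let deg' : Fin m → ℕ := fun j => deg (g j)
  have hedeg : ∀ i, deg (e i) = Sum.elim deg₀ deg' i := by
    rintro (i | j)
    · exact hdeg i
    · rfl
  have hinj : Function.Injective e := by
    rintro (i | j) (i' | j') h
    · exact congrArg Sum.inl (hf h)
    · exact absurd ⟨i, h⟩ (hg j')
    · exact absurd ⟨i', h.symm⟩ (hg j)
    · have h1 : c.symm j = c.symm j' := Subtype.ext h
      exact congrArg Sum.inr (c.symm.injective h1)
  have hsur : Function.Surjective e := by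
    intro i
    by_cases hi : i ∈ Set.range f
    · obtain ⟨i₀, rfl⟩ := hi
      exact ⟨Sum.inl i₀, rfl⟩
    · refine ⟨Sum.inr (c ⟨i, hi⟩), ?_⟩
      change ((c.symm (c ⟨i, hi⟩) : {i : ι // i ∉ Set.range f}) : ι) = i
      rw [Equiv.symm_apply_apply]
  have hbs : Function.Surjective (mapL (deg' := Sum.elim deg₀ deg') (deg := deg) e hedeg) :=
    ri_surj e hsur hedeg
  have hbi : Function.Injective (mapL (deg' := Sum.elim deg₀ deg') (deg := deg) e hedeg) :=
    mapL_injective hedeg hinj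
  obtain ⟨d', hd', hcomm⟩ := restrict_dat (deg' := Sum.elim deg₀ deg') hedeg hinj
    (dat_of_minimal S) (fun i => hbs _)
  obtain ⟨S', hS'⟩ := exists_minimal hd'
  have hiL : ∀ a, mapL (deg' := Sum.elim deg₀ deg') (deg := deg) e hedeg (iL deg₀ deg' a) =
      mapL f hdeg a := by
    have : (mapL (deg' := Sum.elim deg₀ deg') (deg := deg) e hedeg).comp (iL deg₀ deg') =
        mapL f hdeg := by
      refine Lam.algHom_ext _ fun i => ?_
      have h1 : iL deg₀ deg' (gen deg₀ i) = gen (Sum.elim deg₀ deg') (Sum.inl i) := by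
        unfold iL
        exact mapL_gen (deg := Sum.elim deg₀ deg') (fun _ => rfl) i
      rw [AlgHom.comp_apply, h1, mapL_gen, mapL_gen]
      rfl
    exact fun a => congrArg (fun g : Lam deg₀ →ₐ[ℚ] Lam deg => g a) this
  refine ⟨m, deg', S', fun j => hn _ (hg j), ⟨iL deg₀ deg', fun i => ?_, fun a => ?_⟩, ?_⟩
  · unfold iL
    exact mapL_gen (deg := Sum.elim deg₀ deg') (fun _ => rfl) i
  · apply hbi
    rw [hS', hcomm, hiL, hd, hiL]
  · refine ri_coh (mapL (deg' := Sum.elim deg₀ deg') (deg := deg) e hedeg) ⟨hbi, hbs⟩ S'.d S.d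
      (fun a => ?_) hfin
    rw [hS', hcomm]

theorem good_of_hom {T₀ T : TS P} (h : T₀.Hom T) (n : ℕ)
    (hn : ∀ i, i ∉ Set.range h.f → n ≤ T.deg i) (hfin : CohFin T.S.d) :
    T₀.S.GoodAt n := by
  have := T.fin
  refine good_of_inj T₀.S T.S h.f h.inj h.deg (fun a => ?_) n hn hfin
  have hinj : Function.Injective (iL T.deg P.dq) := by
    unfold iL
    exact mapL_injective (deg := Sum.elim T.deg P.dq) (fun _ => rfl) Sum.inl_injective
  have key : ∀ b, PhiT h.f h.deg (iL T₀.deg P.dq b) = iL T.deg P.dq (mapL h.f h.deg b) := by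
    have : (PhiT h.f h.deg).comp (iL T₀.deg P.dq) = (iL T.deg P.dq).comp (mapL h.f h.deg) := by
      refine Lam.algHom_ext _ fun i => ?_
      have h1 : iL T₀.deg P.dq (gen T₀.deg i) = gen (Sum.elim T₀.deg P.dq) (Sum.inl i) := by
        unfold iL
        exact mapL_gen (deg := Sum.elim T₀.deg P.dq) (fun _ => rfl) i
      have h2 : iL T.deg P.dq (gen T.deg (h.f i)) = gen (Sum.elim T.deg P.dq) (Sum.inl (h.f i)) := by
        unfold iL
        exact mapL_gen (deg := Sum.elim T.deg P.dq) (fun _ => rfl) (h.f i)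
      rw [AlgHom.comp_apply, AlgHom.comp_apply, h1, mapL_gen, h2]
      unfold PhiT
      exact mapL_gen (deg := Sum.elim T.deg P.dq) _ (Sum.inl i)
    exact fun b => congrArg (fun g : Lam T₀.deg →ₐ[ℚ] Lam T.dt => g b) this
  apply hinj
  have h3 := h.D (iL T₀.deg P.dq a)
  rw [T₀.ext, key, key] at h3
  rw [← h3]
  exact (T.ext _).symm

end AnWL
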