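import Pool.Agent.Helper48.WL.C08e

/-!
C09. The closed elements `F_t` for the even generators `t ∉ A`; points vanish on `A`. (Tools for `SP` in `C08l.lean`: `SP_D`, `SP_K`, `SP_ideal`, `SP_length`, `SP_pr`, `SP_lift_zero`, ...)

`exists_F`: `exists_h` for `κ = U ⊕ M`, `α s = inl (f (aa s))`, `β s = inr s` (injective: `f`, `aa` injective; `P.dq s + 1 = deg (aa s)` as `2 ≤ deg`). `koszul_gen` (all letters have degree `≥ 1`) with `c l` := `2 ≤ cW l` and some letter of `l` is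
`inl (f a)` with `a ∈ A` or an `inr`; `ν l` = number of these letters. `p = iL (T.S.d (gen (f t))) = iL (mapL f (S.d (gen t)))` is in `SP c`: by `min_SP`, `ht`, `SP_ideal`, `SP_mapL`. On letters: `K (inl (f a)) = inl (f a) + longer` (`a = aa s`: `D (inr s) = inl (f a) + r`, `h (d a)`),
`K (inr s) = inr s + h r`, `K (inl i) = h (d i)` for the other `i`; all additional terms are words of length `≥ 2` with a letter `inl (f a)`, `a ∈ A`, or `inr`, and with `cW ≥ 1` if the letter is an `inl` (`T.S.minimal`).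
`D` maps `SP c` to `SP c` (`SP_D`): `d (f a) = mapL f (d a)` has only letters `f a'`, `a' ∈ A` (`hA`). `hK` from `SP_K`. `F = gW (f t) - h q`, `D (h q) = p`.
`point_A`: `θ (D X_j) = 0`, `θ` of odd letters is `0` (square zero in a domain of characteristic zero, or `θ x = - θ x`), strong induction on `deg a`: the words of `D X_j - gW (f j)` (of degree `deg j`, apply `pr`) contain a letter
`inl (f a)`, `a ∈ A`, and have length `≥ 2`, so `deg a < deg j`.
-/

set_option autoImplicit false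

namespace AnWL
open Anick2

private theorem c09_cW_append {ι κ : Type} (l l' : List (ι ⊕ κ)) : cW (l ++ l') = cW l + cW l' := by
  simp [cW]

private theorem c09_cW_inl {ι κ : Type} (i : ι) (l : List (ι ⊕ κ)) :
    cW (Sum.inl i :: l) = cW l + 1 := by simp [cW]

private theorem c09_cW_inr {ι κ : Type} (i : κ) (l : List (ι ⊕ κ)) :
    cW (Sum.inr i :: l) = cW l := by simp [cW]

private theorem c09_cW_nil {ι κ : Type} : cW ([] : List (ι ⊕ κ)) = 0 := by simp [cW]

private theorem c09_cW_map {ι κ : Type} (l : List ι) :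
    cW (l.map (Sum.inl : ι → ι ⊕ κ)) = l.length := by
  induction l with
  | nil => simp [cW]
  | cons i l ih => rw [List.map_cons, c09_cW_inl, ih, List.length_cons]

private theorem c09_cW_le {ι κ : Type} (l : List (ι ⊕ κ)) : cW l ≤ l.length :=
  List.length_filter_le _ _

/-- The marked letters. -/
private def c09E {ι ι' κ : Type} (A : Set ι) (f : ι → ι') (x : ι' ⊕ κ) : Prop :=
  (∃ a ∈ A, x = Sum.inl (f a)) ∨ ∃ v, x = Sum.inr v

private theorem c09_degSum_lt {X : Type} {δ : X → ℕ} (h1 : ∀ x, 1 ≤ δ x) {l : List X} {x : X}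
    (hx : x ∈ l) (hl : 2 ≤ l.length) : δ x < degSum δ l := by
  obtain ⟨s, t, rfl⟩ := List.append_of_mem hx
  have h2 := degSum_ge δ h1 s
  have h3 := degSum_ge δ h1 t
  rw [degSum_append, degSum_cons]
  rw [List.length_append, List.length_cons] at hl
  omega

private theorem c09_dq {ι : Type} [Finite ι] {deg : ι → ℕ} (S : MinimalSullivan deg) (A : Set ι)
    (N : ℕ) (hN : 1 ≤ N) (s : (PA S A N hN).U ⊕ (PA S A N hN).M) :
    (PA S A N hN).dq s + 1 = deg (aa S A N hN s) := by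
  rcases s with u | u
  · have h2 := S.two_le u.1
    have h3 : (PA S A N hN).du u = deg u.1 - 1 := rfl
    change (PA S A N hN).du u + 1 = deg u.1
    rw [h3]
    omega
  · have h2 := S.two_le u.1
    have h3 : (PA S A N hN).dm u = deg u.1 - 1 := rfl
    change (PA S A N hN).dm u + 1 = deg u.1
    rw [h3]
    omega

private theorem c09_aa_mem {ι : Type} [Finite ι] {deg : ι → ℕ} (S : MinimalSullivan deg)
    (A : Set ι) (N : ℕ) (hN : 1 ≤ N) (s : (PA S A N hN).U ⊕ (PA S A N hN).M) :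
    aa S A N hN s ∈ A := by
  rcases s with u | u
  · exact u.2.1
  · exact u.2.1

private theorem c09_aa_surj {ι : Type} [Finite ι] {deg : ι → ℕ} (S : MinimalSullivan deg)
    (A : Set ι) (N : ℕ) (hN : 1 ≤ N) {a : ι} (ha : a ∈ A) :
    ∃ s : (PA S A N hN).U ⊕ (PA S A N hN).M, aa S A N hN s = a := by
  by_cases he : Even (deg a)
  · exact ⟨Sum.inr ⟨a, ha, he⟩, rfl⟩
  · exact ⟨Sum.inl ⟨a, ha, Nat.not_even_iff_odd.1 he⟩, rfl⟩

private theorem c09_aa_inj {ι : Type} [Finite ι] {deg : ι → ℕ} (S : MinimalSullivan deg)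
    (A : Set ι) (N : ℕ) (hN : 1 ≤ N) : Function.Injective (aa S A N hN) := by
  rintro (u | u) (v | v) huv
  · have h : u.1 = v.1 := huv
    exact congrArg Sum.inl (Subtype.ext h)
  · have h : u.1 = v.1 := huv
    have h1 : Odd (deg u.1) := u.2.2
    have h2 : Even (deg v.1) := v.2.2
    rw [h] at h1
    exact absurd h2 (Nat.not_even_iff_odd.2 h1)
  · have h : u.1 = v.1 := huv
    have h1 : Even (deg u.1) := u.2.2
    have h2 : Odd (deg v.1) := v.2.2
    rw [h] at h1
    exact absurd h1 (Nat.not_even_iff_odd.2 h2)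
  · have h : u.1 = v.1 := huv
    exact congrArg Sum.inr (Subtype.ext h)

private theorem c09_pos {ι : Type} [Finite ι] {deg : ι → ℕ} (S : MinimalSullivan deg) (A : Set ι)
    (N : ℕ) (hN : 1 ≤ N) (T : TS (PA S A N hN)) (x : T.ι ⊕ ((PA S A N hN).U ⊕ (PA S A N hN).M)) :
    1 ≤ T.dt x := by
  rcases x with i | s
  · have h1 := T.S.two_le i
    change 1 ≤ T.deg i
    omega
  · have h1 := c09_dq S A N hN s
    have h2 := S.two_le (aa S A N hN s)
    change 1 ≤ (PA S A N hN).dq s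
    omega

attribute [local irreducible] instRingLam

theorem exists_F {ι : Type} [Finite ι] {deg : ι → ℕ} (S : MinimalSullivan deg) (A : Set ι)
    (hA : ∀ a ∈ A, S.d (gen deg a) ∈
      SP deg (fun l => (∀ x ∈ l, x ∈ A) ∧ evc deg l ≤ if Even (deg a) then 1 else 0))
    (n₀ N : ℕ) (hN : 1 ≤ N) (T : TS (PA S A N hN)) (f : ι → T.ι) (h : IsBase S A n₀ N hN T f)
    (t : ι) (ht : S.d (gen deg t) ∈ idealSpan (gen deg '' A)) :
    ∃ F ∈ hom T.dt (deg t), T.D F = 0 ∧ F ∈ SP T.dt (fun l => 1 ≤ cW l) ∧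
      T.gW (f t) - F ∈ SP T.dt (fun l => 1 ≤ cW l ∧ ∃ s, Sum.inr s ∈ l) := by
  classical
  have hfX : Finite (T.ι ⊕ ((PA S A N hN).U ⊕ (PA S A N hN).M)) := T.finT
  have hpos := c09_pos S A N hN T
  obtain ⟨k, h1, h2, h3, h4, h5, h6⟩ := exists_h (δ := T.dt)
    (fun s : (PA S A N hN).U ⊕ (PA S A N hN).M =>
      (Sum.inl (f (aa S A N hN s)) : T.ι ⊕ ((PA S A N hN).U ⊕ (PA S A N hN).M)))
    (fun s => Sum.inr s)
    (fun u v huv => c09_aa_inj S A N hN (h.inj (Sum.inl_injective huv)))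
    (fun s => by
      change (PA S A N hN).dq s + 1 = T.deg (f (aa S A N hN s))
      rw [h.deg]
      exact c09_dq S A N hN s)
  have hDm : ∀ a b, T.D (a * b) = T.D a * b + sgn T.dt a * T.D b := T.leib
  have hDg : ∀ i, T.D (T.gW i) = iL T.deg (PA S A N hN).dq (T.S.d (gen T.deg i)) := by
    intro i
    rw [← T.ext]
    congr 1
    exact (mapL_gen _ i).symm
  -- words of the differential of a generator
  have hdW : ∀ i, T.D (T.gW i) ∈ SP T.dt (fun l => 2 ≤ cW l ∧ 2 ≤ l.length) := by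
    intro i
    rw [hDg]
    refine SP_mapL Sum.inl (fun _ => rfl) ?_ (min_SP T.S i)
    intro l hl
    exact ⟨by rw [c09_cW_map]; exact hl, by rw [List.length_map]; exact hl⟩
  have hfgen : ∀ a, T.S.d (gen T.deg (f a)) = mapL f h.deg (S.d (gen deg a)) := by
    intro a
    rw [← h.d, mapL_gen]
  have hdf : ∀ {p : List ι → Prop} {q : List (T.ι ⊕ ((PA S A N hN).U ⊕ (PA S A N hN).M)) → Prop} (a : ι),
      (∀ l, p l → q ((l.map f).map Sum.inl)) → S.d (gen deg a) ∈ SP deg p →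
        T.D (T.gW (f a)) ∈ SP T.dt q := by
    intro p q a hpq ha
    rw [hDg, hfgen]
    exact SP_mapL (δ' := T.dt) Sum.inl (fun _ => rfl) (p := fun l => ∃ l', p l' ∧ l = l'.map f)
      (by rintro l ⟨l', hl', rfl⟩; exact hpq l' hl')
      (SP_mapL f h.deg (fun l hl => ⟨l, hl, rfl⟩) ha)
  have hdA : ∀ a ∈ A, T.D (T.gW (f a)) ∈ SP T.dt (fun l => 2 ≤ cW l ∧ ∃ x ∈ l, c09E A f x) := by
    intro a ha
    refine hdf (p := fun l => (∀ x ∈ l, x ∈ A) ∧ 2 ≤ l.length) a ?_
      (SP_imp (fun l hl => ⟨hl.1.1, hl.2⟩) (SP_length (hA a ha) (min_SP S a)))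
    rintro l ⟨g1, g2⟩
    refine ⟨by rw [c09_cW_map, List.length_map]; exact g2, ?_⟩
    obtain ⟨x, hx⟩ := List.exists_mem_of_length_pos (show 0 < l.length by omega)
    exact ⟨Sum.inl (f x), List.mem_map.2 ⟨f x, List.mem_map.2 ⟨x, hx, rfl⟩, rfl⟩,
      Or.inl ⟨x, g1 x hx, rfl⟩⟩
  -- the contraction on words
  have hh : ∀ {p q : List (T.ι ⊕ ((PA S A N hN).U ⊕ (PA S A N hN).M)) → Prop},
      (∀ l₁ l₂ (s : (PA S A N hN).U ⊕ (PA S A N hN).M),
        p (l₁ ++ Sum.inl (f (aa S A N hN s)) :: l₂) → q (l₁ ++ Sum.inr s :: l₂)) →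
      ∀ {a : Lam T.dt}, a ∈ SP T.dt p → k a ∈ SP T.dt q := by
    intro p q hpq a ha
    refine SP_D k h4 (fun x l' => ∃ s : (PA S A N hN).U ⊕ (PA S A N hN).M,
      x = Sum.inl (f (aa S A N hN s)) ∧ l' = [Sum.inr s]) ?_ ?_ ha
    · intro x
      by_cases hx : x ∈ Set.range (fun s : (PA S A N hN).U ⊕ (PA S A N hN).M =>
          (Sum.inl (f (aa S A N hN s)) : T.ι ⊕ ((PA S A N hN).U ⊕ (PA S A N hN).M)))
      · obtain ⟨s, rfl⟩ := hx
        rw [h1 s]
        exact SP_gen ⟨s, rfl, rfl⟩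
      · rw [h2 x hx]
        exact zero_mem _
    · rintro l₁ x l₂ l' hl ⟨s, rfl, rfl⟩
      have := hpq l₁ l₂ s hl
      simpa using this
  have hcW : ∀ (l₁ l₂ : List (T.ι ⊕ ((PA S A N hN).U ⊕ (PA S A N hN).M))) (i : T.ι)
      (s : (PA S A N hN).U ⊕ (PA S A N hN).M),
      cW (l₁ ++ Sum.inl i :: l₂) = cW (l₁ ++ Sum.inr s :: l₂) + 1 := by
    intro l₁ l₂ i s
    rw [c09_cW_append, c09_cW_append, c09_cW_inl, c09_cW_inr]
    omega
  have hcl : ∀ (l₁ l₂ : List (T.ι ⊕ ((PA S A N hN).U ⊕ (PA S A N hN).M))) (i : T.ι)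
      (s : (PA S A N hN).U ⊕ (PA S A N hN).M),
      (l₁ ++ Sum.inr s :: l₂).length = (l₁ ++ Sum.inl i :: l₂).length := by
    intro l₁ l₂ i s
    simp
  let c : List (T.ι ⊕ ((PA S A N hN).U ⊕ (PA S A N hN).M)) → Prop := fun l =>
    2 ≤ cW l ∧ ∃ x ∈ l, c09E A f x
  have hcc : ∀ (l₁ : List (T.ι ⊕ ((PA S A N hN).U ⊕ (PA S A N hN).M))) x l₂ l', c (l₁ ++ x :: l₂) →
      cW [x] ≤ cW l' → (c09E A f x → ∃ y ∈ l', c09E A f y) → c (l₁ ++ l' ++ l₂) := by
    rintro l₁ x l₂ l' ⟨g1, y, hy, hy'⟩ k1 k2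
    have e1 : l₁ ++ x :: l₂ = l₁ ++ [x] ++ l₂ := by simp
    refine ⟨?_, ?_⟩
    · rw [e1, c09_cW_append, c09_cW_append] at g1
      rw [c09_cW_append, c09_cW_append]
      omega
    · rcases List.mem_append.1 hy with hy | hy
      · exact ⟨y, List.mem_append_left _ (List.mem_append_left _ hy), hy'⟩
      · rcases List.mem_cons.1 hy with rfl | hy
        · obtain ⟨z, hz, hz'⟩ := k2 hy'
          exact ⟨z, List.mem_append_left _ (List.mem_append_right _ hz), hz'⟩
        · exact ⟨y, List.mem_append_right _ hy, hy'⟩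
  have hinrE : ∀ s : (PA S A N hN).U ⊕ (PA S A N hN).M, c09E A f (Sum.inr s) :=
    fun s => Or.inr ⟨s, rfl⟩
  have haaE : ∀ s : (PA S A N hN).U ⊕ (PA S A N hN).M,
      c09E (κ := (PA S A N hN).U ⊕ (PA S A N hN).M) A f (Sum.inl (f (aa S A N hN s))) :=
    fun s => Or.inl ⟨_, c09_aa_mem S A N hN s, rfl⟩
  -- `D` preserves the words
  have hDc : ∀ a ∈ SP T.dt c, T.D a ∈ SP T.dt c := by
    intro a ha
    refine SP_D T.D hDm (fun x l' => cW [x] ≤ cW l' ∧
      (c09E A f x → ∃ y ∈ l', c09E A f y)) ?_ ?_ ha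
    · rintro (i | s)
      · by_cases hx : c09E A f (Sum.inl i : T.ι ⊕ ((PA S A N hN).U ⊕ (PA S A N hN).M))
        · rcases hx with ⟨a, ha, hi⟩ | ⟨v, hv⟩
          · have hi' : i = f a := Sum.inl_injective hi
            subst hi'
            refine SP_imp ?_ (hdA a ha)
            rintro l ⟨g1, g2⟩
            refine ⟨?_, fun _ => g2⟩
            rw [c09_cW_inl, c09_cW_nil]
            omega
          · exact absurd hv Sum.inl_ne_inr
        · refine SP_imp ?_ (hdW i)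
          rintro l ⟨g1, g2⟩
          refine ⟨?_, fun hx' => absurd hx' hx⟩
          rw [c09_cW_inl, c09_cW_nil]
          omega
      · have e1 : T.D (gen T.dt (Sum.inr s)) = T.gW (f (aa S A N hN s)) +
            (T.D (gen T.dt (Sum.inr s)) - T.gW (f (aa S A N hN s))) := by abel
        rw [e1]
        refine add_mem (SP_gen ?_) (SP_imp ?_ (h.Dt' s))
        · refine ⟨?_, fun _ => ⟨_, List.mem_singleton.2 rfl, haaE s⟩⟩
          rw [c09_cW_inr, c09_cW_nil]
          omega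
        · rintro l ⟨g1, g2, a, ha, g3⟩
          refine ⟨?_, fun _ => ⟨_, g3, Or.inl ⟨a, ha, rfl⟩⟩⟩
          rw [c09_cW_inr, c09_cW_nil]
          omega
    · rintro l₁ x l₂ l' hl ⟨k1, k2⟩
      exact hcc l₁ x l₂ l' hl k1 k2
  -- `K` on the words
  have hK : ∀ l, c l → T.D (k (mon T.dt l)) + k (T.D (mon T.dt l)) -
      ((l.countP (fun x => decide (c09E A f x)) : ℕ) : ℚ) • mon T.dt l ∈
      SP T.dt (fun l' => c l' ∧ l.length < l'.length) := by
    intro l hl
    refine SP_K T.D k hDm h4 (sgn_d T.diff) h5 (c09E A f) (fun x l' =>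
      2 ≤ l'.length ∧ cW [x] ≤ cW l' ∧ ∃ y ∈ l', c09E A f y) ?_ l ?_
    · rintro (i | s)
      · have hkd : k (T.D (gen T.dt (Sum.inl i))) ∈ SP T.dt (fun l' => 2 ≤ l'.length ∧
            cW [(Sum.inl i : T.ι ⊕ ((PA S A N hN).U ⊕ (PA S A N hN).M))] ≤ cW l' ∧
            ∃ y ∈ l', c09E A f y) := by
          refine hh ?_ (hdW i)
          rintro l₁ l₂ s ⟨g1, g2⟩
          rw [hcW l₁ l₂ _ s] at g1
          refine ⟨by rw [hcl l₁ l₂ (f (aa S A N hN s)) s]; exact g2, ?_, Sum.inr s, by simp, hinrE s⟩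
          rw [c09_cW_inl, c09_cW_nil]
          omega
        by_cases hx : c09E A f (Sum.inl i : T.ι ⊕ ((PA S A N hN).U ⊕ (PA S A N hN).M))
        · have hx0 := hx
          rcases hx with ⟨a, ha, hi⟩ | ⟨v, hv⟩
          · have hi' : i = f a := Sum.inl_injective hi
            subst hi'
            obtain ⟨s, rfl⟩ := c09_aa_surj S A N hN ha
            have e1 : k (gen T.dt (Sum.inl (f (aa S A N hN s)))) = gen T.dt (Sum.inr s) := h1 s
            rw [if_pos hx0, e1]
            have e2 : T.D (gen T.dt (Sum.inr s)) +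
                k (T.D (gen T.dt (Sum.inl (f (aa S A N hN s))))) -
                gen T.dt (Sum.inl (f (aa S A N hN s))) =
                (T.D (gen T.dt (Sum.inr s)) - T.gW (f (aa S A N hN s))) +
                  k (T.D (gen T.dt (Sum.inl (f (aa S A N hN s))))) := by
              abel
            rw [e2]
            refine add_mem (SP_imp ?_ (h.Dt' s)) hkd
            rintro l ⟨g1, g2, b, hb, g3⟩
            refine ⟨g2, ?_, _, g3, Or.inl ⟨b, hb, rfl⟩⟩
            rw [c09_cW_inl, c09_cW_nil]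
            omega
          · exact absurd hv Sum.inl_ne_inr
        · have hna : (Sum.inl i : T.ι ⊕ ((PA S A N hN).U ⊕ (PA S A N hN).M)) ∉
              Set.range (fun s : (PA S A N hN).U ⊕ (PA S A N hN).M =>
                (Sum.inl (f (aa S A N hN s)) : T.ι ⊕ ((PA S A N hN).U ⊕ (PA S A N hN).M))) := by
            rintro ⟨s, hs⟩
            apply hx
            rw [← hs]
            exact haaE s
          rw [h2 _ hna, map_zero, zero_add, if_neg hx, sub_zero]
          exact hkd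
      · have hna : (Sum.inr s : T.ι ⊕ ((PA S A N hN).U ⊕ (PA S A N hN).M)) ∉
            Set.range (fun s : (PA S A N hN).U ⊕ (PA S A N hN).M =>
              (Sum.inl (f (aa S A N hN s)) : T.ι ⊕ ((PA S A N hN).U ⊕ (PA S A N hN).M))) := by
          rintro ⟨s', hs'⟩
          exact Sum.inl_ne_inr hs'
        rw [h2 _ hna, map_zero, zero_add, if_pos (hinrE s)]
        have e1 : k (T.D (gen T.dt (Sum.inr s))) - gen T.dt (Sum.inr s) =
            k (T.D (gen T.dt (Sum.inr s)) - T.gW (f (aa S A N hN s))) := by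
          rw [map_sub]
          congr 1
          exact (h1 s).symm
        rw [e1]
        refine hh ?_ (h.Dt' s)
        rintro l₁ l₂ v ⟨g1, g2, g3⟩
        refine ⟨by rw [hcl l₁ l₂ (f (aa S A N hN v)) v]; exact g2, ?_, Sum.inr v, by simp, hinrE v⟩
        rw [c09_cW_inr, c09_cW_nil]
        exact Nat.zero_le _
    · rintro l₁ x l₂ l' rfl ⟨k1, k2, k3⟩
      refine ⟨hcc l₁ x l₂ l' hl k2 (fun _ => k3), ?_⟩
      simp only [List.length_append, List.length_cons]
      omega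
  have hν : ∀ l, c l → 1 ≤ l.countP (fun x => decide (c09E A f x)) := by
    rintro l ⟨g1, x, hx, hx'⟩
    exact List.countP_pos_iff.2 ⟨x, hx, decide_eq_true hx'⟩
  have hpc : T.D (T.gW (f t)) ∈ SP T.dt c := by
    refine hdf (p := fun l => 2 ≤ l.length ∧ ∃ x ∈ A, x ∈ l) t ?_ (SP_ideal (min_SP S t) ht)
    rintro l ⟨g1, x, hxA, hx⟩
    refine ⟨by rw [c09_cW_map, List.length_map]; exact g1, Sum.inl (f x),
      List.mem_map.2 ⟨f x, List.mem_map.2 ⟨x, hx, rfl⟩, rfl⟩, Or.inl ⟨x, hxA, rfl⟩⟩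
  have hgW : T.gW (f t) ∈ hom T.dt (deg t) := by
    have := gen_mem_hom T.dt (Sum.inl (f t))
    change T.gW (f t) ∈ hom T.dt (T.deg (f t)) at this
    rwa [h.deg] at this
  have hpn : T.D (T.gW (f t)) ∈ hom T.dt (deg t + 1) := T.diff.map_hom _ _ hgW
  have hDp : T.D (T.D (T.gW (f t))) = 0 := T.diff.d_d _
  obtain ⟨q, hq1, hq2, hq3⟩ := koszul_gen hpos T.D k T.diff.d_d T.diff.map_hom h6 c
    (fun l => l.countP (fun x => decide (c09E A f x))) hν hDc hK hpc hpn hDp
  have hkq : k q ∈ SP T.dt (fun l => 1 ≤ cW l ∧ ∃ s, Sum.inr s ∈ l) := by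
    refine hh ?_ hq1
    rintro l₁ l₂ s ⟨g1, -⟩
    rw [hcW l₁ l₂ _ s] at g1
    exact ⟨by omega, s, by simp⟩
  refine ⟨T.gW (f t) - k q, sub_mem hgW (h6 _ _ hq2), ?_, ?_, ?_⟩
  · rw [map_sub, hq3, sub_self]
  · refine sub_mem (SP_gen ?_) (SP_imp (fun l hl => hl.1) hkq)
    rw [c09_cW_inl, c09_cW_nil]
  · rw [sub_sub_cancel]
    exact hkq

theorem point_A {ι : Type} [Finite ι] {deg : ι → ℕ} (S : MinimalSullivan deg) (A : Set ι)
    (n₀ N : ℕ) (hN : 1 ≤ N) (T : TS (PA S A N hN)) (f : ι → T.ι) (h : IsBase S A n₀ N hN T f)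
    (a : ι) (ha : a ∈ A) : T.gW (f a) ∈ T.nl := by
  intro K _ _ _ θ hθ
  have key : ∀ n : ℕ, ∀ a ∈ A, deg a = n → θ (T.gW (f a)) = 0 := by
    intro n
    induction n using Nat.strong_induction_on with
    | _ n ih =>
      intro a ha hn
      obtain ⟨s, rfl⟩ := c09_aa_surj S A N hN ha
      have hr := h.Dt' s
      have hhom : T.D (gen T.dt (Sum.inr s)) - T.gW (f (aa S A N hN s)) ∈ hom T.dt n := by
        refine sub_mem ?_ ?_
        · have h1 := T.diff.map_hom _ _ (gen_mem_hom T.dt (Sum.inr s))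
          change T.D (gen T.dt (Sum.inr s)) ∈ hom T.dt ((PA S A N hN).dq s + 1) at h1
          rwa [c09_dq S A N hN s, hn] at h1
        · have h1 := gen_mem_hom T.dt (Sum.inl (f (aa S A N hN s)))
          change T.gW (f (aa S A N hN s)) ∈ hom T.dt (T.deg (f (aa S A N hN s))) at h1
          rwa [h.deg, hn] at h1
      have h0 : θ (T.D (gen T.dt (Sum.inr s)) - T.gW (f (aa S A N hN s))) = 0 := by
        refine SP_lift_zero θ ?_ (SP_pr hr hhom)
        rintro l ⟨⟨g1, g2, b, hb, g3⟩, g4⟩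
        refine ⟨_, g3, ?_⟩
        have h1 := c09_degSum_lt (c09_pos S A N hN T) g3 g2
        rw [g4] at h1
        change T.deg (f b) < n at h1
        rw [h.deg] at h1
        exact ih (deg b) h1 b hb rfl
      rw [map_sub, hθ, zero_sub, neg_eq_zero] at h0
      exact h0
  exact key (deg a) a ha rfl

end AnWL
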