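import Pool.Agent.Helper48.WL.C07a
import Pool.Agent.Helper48.WL.C07b
import Pool.Agent.Helper48.WL.C07c
import Pool.Agent.Helper48.WL.C09

/-!
C11. The theorem.

`good_mono`: clear. `main_good`: `n₀ = max n 2`, `N = n₀ + 2`, `exists_base`: `T₀`, `f`. `E` = the finite set of the even `t ∉ A`, `F t` from `exists_F`. `kill_in` gives `T`, `h`. All even letters of `T` are in `T.nl`: `i ∉ range h.f`: `kill_in`; `i = h.f i₀`, `i₀ ∉ range f`:
`T.deg i` is odd; `i₀ = f a`, `a ∈ A`: `point_A`, `Φ_nl`, `Φ_gW`; `i₀ = f t`, `t ∉ A` even: for a point `θ` of `T` put `p = θ ∘ iL` (`p ∘ T.S.d = 0` by `T.ext`), `θ₀` from `exists_zero_point T p`; `θ₀ (h.Φ (F t)) = 0`,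
`θ₀ (h.Φ x) = 0` for `x ∈ SP (∃ s, inr s ∈ l)` (`Φ_inr`, `θ₀` kills the letters `inr`), so `p (gen (h.f (f t))) = θ₀ (T.gW (h.f (f t))) = 0`. `cohFin_of_nl`, `good_of_inj` for `h.f ∘ f` (the compatibility with `d`: `IsBase.d` and, for `h`, from `h.D` on
`iL a` and injectivity of `iL`, as in `good_of_hom`).
-/

set_option autoImplicit false

namespace AnWL
open Anick2

theorem good_mono {ι : Type} {deg : ι → ℕ} {S : MinimalSullivan deg} {m n : ℕ} (h : m ≤ n)
    (hn : S.GoodAt n) : S.GoodAt m := by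
  obtain ⟨k, deg', S', h1, h2, h3⟩ := hn
  exact ⟨k, deg', S', fun j => h.trans (h1 j), h2, h3⟩

private theorem iL_genX {ι κ : Type} {deg : ι → ℕ} {deg' : κ → ℕ} (i : ι) :
    iL deg deg' (gen deg i) = gen (Sum.elim deg deg') (Sum.inl i) := by
  unfold iL
  exact mapL_gen (deg := Sum.elim deg deg') (fun _ => rfl) i

private theorem hom_dX {P : Par} {T₀ T : TS P} (h : T₀.Hom T) (a : Lam T₀.deg) :
    T.S.d (mapL h.f h.deg a) = mapL h.f h.deg (T₀.S.d a) := by
  have hinj : Function.Injective (iL T.deg P.dq) := by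
    unfold iL
    exact mapL_injective (deg := Sum.elim T.deg P.dq) (fun _ => rfl) Sum.inl_injective
  have key : ∀ b, h.Φ (iL T₀.deg P.dq b) = iL T.deg P.dq (mapL h.f h.deg b) := by
    have : h.Φ.comp (iL T₀.deg P.dq) = (iL T.deg P.dq).comp (mapL h.f h.deg) := by
      refine Lam.algHom_ext _ fun i => ?_
      rw [AlgHom.comp_apply, AlgHom.comp_apply, iL_genX, mapL_gen, iL_genX]
      exact Φ_gW h i
    exact fun b => congrArg (fun g : Lam T₀.deg →ₐ[ℚ] Lam T.dt => g b) this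
  apply hinj
  rw [← key, ← T.ext, ← key, ← T₀.ext]
  exact Φ_D h _

theorem main_good {ι : Type} [Finite ι] {deg : ι → ℕ} (S : MinimalSullivan deg) (A : Set ι)
    (hA : ∀ a ∈ A, S.d (gen deg a) ∈
      SP deg (fun l => (∀ x ∈ l, x ∈ A) ∧ evc deg l ≤ if Even (deg a) then 1 else 0))
    (ht : ∀ t, Even (deg t) → t ∉ A → S.d (gen deg t) ∈ idealSpan (gen deg '' A)) (n : ℕ) :
    S.GoodAt n := by
  classical
  have hn₀ : 2 ≤ max n 2 := le_max_right _ _
  have hN : 1 ≤ max n 2 + 2 := by omega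
  obtain ⟨T₀, f, hB⟩ := exists_base S A hA (max n 2) hn₀ (max n 2 + 2) hN le_rfl
  have hF : ∀ t, ∃ F : Lam T₀.dt, (Even (deg t) ∧ t ∉ A) →
      (F ∈ hom T₀.dt (deg t) ∧ T₀.D F = 0 ∧ F ∈ SP T₀.dt (fun l => 1 ≤ cW l) ∧
        T₀.gW (f t) - F ∈ SP T₀.dt (fun l => 1 ≤ cW l ∧ ∃ s, Sum.inr s ∈ l)) := by
    intro t
    by_cases h : Even (deg t) ∧ t ∉ A
    · obtain ⟨F, h1, h2, h3, h4⟩ := exists_F S A hA (max n 2) (max n 2 + 2) hN T₀ f hB t
        (ht t h.1 h.2)
      exact ⟨F, fun _ => ⟨h1, h2, h3, h4⟩⟩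
    · exact ⟨0, fun h' => absurd h' h⟩
  choose F hF using hF
  have hfin : {t : ι | Even (deg t) ∧ t ∉ A}.Finite := Set.toFinite _
  have hE : ∀ t, t ∈ hfin.toFinset ↔ (Even (deg t) ∧ t ∉ A) := fun t => hfin.mem_toFinset
  obtain ⟨T, h, hnew, hkill⟩ := kill_in T₀ (max n 2) hn₀ hfin.toFinset F deg
    (fun a ha => ((hE a).1 ha).1) (fun a ha => (hF a ((hE a).1 ha)).1)
    (fun a ha => (hF a ((hE a).1 ha)).2.2.1) (fun a ha => (hF a ((hE a).1 ha)).2.1)
  have hnl : ∀ i, Even (T.deg i) → T.gW i ∈ T.nl := by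
    intro i hi
    by_cases hr : i ∈ Set.range h.f
    · obtain ⟨i₀, rfl⟩ := hr
      rw [h.deg] at hi
      by_cases hr₀ : i₀ ∈ Set.range f
      · obtain ⟨a, rfl⟩ := hr₀
        rw [hB.deg] at hi
        by_cases ha : a ∈ A
        · rw [← Φ_gW h]
          exact Φ_nl h (point_A S A (max n 2) (max n 2 + 2) hN T₀ f hB a ha)
        · intro K c1 c2 c3 θ hθ
          have hp : ∀ b, (θ.comp (iL T.deg (PA S A (max n 2 + 2) hN).dq)) (T.S.d b) = 0 := by
            intro b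
            rw [AlgHom.comp_apply, ← T.ext]
            exact hθ _
          obtain ⟨θ₀, h1, h2, h3, h4⟩ := exists_zero_point T
            (θ.comp (iL T.deg (PA S A (max n 2 + 2) hN).dq)) hp
          have k1 : θ₀ (h.Φ (F a)) = 0 := hkill a ((hE a).2 ⟨hi, ha⟩) K θ₀ h1
          have k2 : (θ₀.comp h.Φ) (T₀.gW (f a) - F a) = 0 := by
            refine SP_lift_zero (θ₀.comp h.Φ) (fun l hl => ?_) (hF a ⟨hi, ha⟩).2.2.2
            obtain ⟨-, s, hs⟩ := hl
            refine ⟨Sum.inr s, hs, ?_⟩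
            rw [AlgHom.comp_apply, Φ_inr]
            rcases s with u | j
            · exact h3 u
            · exact h4 j
          have k3 : θ₀ (T.gW (h.f (f a))) = 0 := by
            rw [map_sub, AlgHom.comp_apply, AlgHom.comp_apply, k1, sub_zero, Φ_gW] at k2
            exact k2
          have k4 := h2 (gen T.deg (h.f (f a)))
          rw [AlgHom.comp_apply, iL_genX] at k4
          rw [← k4]
          exact k3
      · exact absurd hi (Nat.not_even_iff_odd.2 (hB.new i₀ hr₀).2)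
    · exact (hnew i hr).2
  have hdeg : ∀ i, T.deg ((h.f ∘ f) i) = deg i := fun i => (h.deg _).trans (hB.deg i)
  have hcomp : ∀ a, mapL (deg' := deg) (deg := T.deg) (h.f ∘ f) hdeg a =
      mapL h.f h.deg (mapL f hB.deg a) := by
    have : mapL (deg' := deg) (deg := T.deg) (h.f ∘ f) hdeg =
        (mapL h.f h.deg).comp (mapL f hB.deg) := by
      refine Lam.algHom_ext _ fun i => ?_
      rw [AlgHom.comp_apply, mapL_gen, mapL_gen, mapL_gen]
      rfl
    exact fun a => congrArg (fun g : Lam deg →ₐ[ℚ] Lam T.deg => g a) this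
  have := T.fin
  refine good_of_inj S T.S (h.f ∘ f) (h.inj.comp hB.inj) hdeg (fun a => ?_) n (fun i hi => ?_)
    (cohFin_of_nl T hnl)
  · rw [hcomp, hcomp, hom_dX, hB.d]
  · refine (le_max_left n 2).trans ?_
    by_cases hr : i ∈ Set.range h.f
    · obtain ⟨i₀, rfl⟩ := hr
      have hr₀ : i₀ ∉ Set.range f := by
        rintro ⟨a, rfl⟩
        exact hi ⟨a, rfl⟩
      rw [h.deg]
      exact (hB.new i₀ hr₀).1
    · exact (hnew i hr).1

end AnWL
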