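import Pool.Agent.Helper48.WL.C03b

/-!
C03c. Rules for `T.ga` on the image of `lc`. All are short (`lder_lc`, `lcs_lc`, `lct_lc`, `lc_inj` with `T.finT`, `tau_eig`).
`ga_mem_Ik`: induction on `k` (`Submodule.pow_succ`, `Submodule.mul_le`/`Submodule.mul_induction_on`), `SP_mul_left`.
`ga_hm`: `tau_eig` for `a ≠ 0` gives the degree; conversely `tau_hom`, `sgn_hom`.
-/

set_option autoImplicit false

namespace AnWL
open Anick2
variable {P : Par} (T : TS P) (lab : ℕ → Lam T.dt)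

/-- The iterated derivatives on `Lam T.dt`. -/
noncomputable def TS.pl : List P.M → Lam T.dt →ₗ[ℚ] Lam T.dt
  | [] => LinearMap.id
  | k :: l => (T.p k).comp (TS.pl l)

theorem ga_D (a : Lam T.dt) : (T.ga lab).D (lc T.dt a) = lc T.dt (T.D a) :=
  lder_lc T.D T.leib a

theorem ga_s (a : Lam T.dt) : (T.ga lab).s (lc T.dt a) = lc T.dt (sgn T.dt a) := lcs_lc a

theorem ga_τ (a : Lam T.dt) : (T.ga lab).τ (lc T.dt a) = lc T.dt (tau T.dt a) := lct_lc a

theorem ga_pd (j : P.M) (a : Lam T.dt) :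
    (T.ga lab).pd j (lc T.dt a) = lc T.dt (T.p j a) :=
  lder_lc (T.p j) (pdv_mul (T.odd j)) a

theorem ga_pdl (l : List P.M) (a : Lam T.dt) :
    (T.ga lab).pdl l (lc T.dt a) = lc T.dt (T.pl l a) := by
  induction l with
  | nil => rfl
  | cons k l ih =>
    show (T.ga lab).pd k ((T.ga lab).pdl l (lc T.dt a)) = lc T.dt (T.p k (T.pl l a))
    rw [ih]
    exact ga_pd T lab k (T.pl l a)

theorem ga_mem_R {x : Lc T.dt} (h : x ∈ (T.ga lab).R) : ∃ a, lc T.dt a = x := h

theorem ga_lc_R (a : Lam T.dt) : lc T.dt a ∈ (T.ga lab).R := ⟨a, rfl⟩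

theorem ga_mem_I {x : Lc T.dt} (h : x ∈ (T.ga lab).I) :
    ∃ a ∈ SP T.dt (fun l => 1 ≤ cW l), lc T.dt a = x := h

theorem ga_lc_I {a : Lam T.dt} (h : a ∈ SP T.dt (fun l => 1 ≤ cW l)) :
    lc T.dt a ∈ (T.ga lab).I := ⟨a, h, rfl⟩

theorem ga_mem_Ik {k : ℕ} {x : Lc T.dt} (h : x ∈ (T.ga lab).I ^ k) :
    ∃ a ∈ SP T.dt (fun l => k ≤ cW l), lc T.dt a = x := by
  have key : ∀ n : ℕ, (T.ga lab).I ^ n ≤
      (SP T.dt (fun l => n ≤ cW l)).map (lc T.dt).toLinearMap := by
    intro n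
    induction n with
    | zero =>
      intro y hy
      rw [pow_zero, Submodule.mem_one] at hy
      obtain ⟨r, hr⟩ := hy
      refine ⟨algebraMap ℚ _ r, SP_zero_top _ _, ?_⟩
      rw [← hr]
      exact (lc T.dt).commutes r
    | succ n ih =>
      rw [pow_succ]
      refine Submodule.mul_le.2 ?_
      intro u hu v hv
      obtain ⟨a, ha, ea⟩ := ih hu
      obtain ⟨b, hb, eb⟩ := ga_mem_I T lab hv
      refine ⟨a * b, SP_mul_left ha hb, ?_⟩
      rw [← eb]
      have ea' : lc T.dt a = u := ea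
      rw [← ea']
      exact map_mul (lc T.dt) a b
  exact key k h

theorem ga_Nl {a : Lam T.dt} : lc T.dt a ∈ (T.ga lab).Nl ↔ a ∈ T.nl := by
  have := T.finT
  constructor
  · rintro ⟨b, hb, e⟩
    have e' : lc T.dt b = lc T.dt a := e
    rw [← lc_inj e']
    exact hb
  · intro h
    exact ⟨a, h, rfl⟩

theorem ga_hm {g : ℤ} {a : Lam T.dt} :
    lc T.dt a ∈ (T.ga lab).Hm g ↔ a = 0 ∨ ∃ n : ℕ, (n : ℤ) = g ∧ a ∈ hom T.dt n := by
  have := T.finT
  constructor
  · rintro ⟨h, -⟩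
    have h1 : lc T.dt (tau T.dt a) = lc T.dt ((2 : ℚ) ^ g • a) := by
      rw [map_smul]
      exact (ga_τ T lab a).symm.trans h
    rcases tau_eig (lc_inj h1) with h2 | h2
    · exact Or.inr h2
    · exact Or.inl h2
  · rintro (h | ⟨n, hn, h⟩)
    · rw [h, map_zero]
      exact Submodule.zero_mem _
    · refine ⟨?_, ?_⟩
      · refine (ga_τ T lab a).trans ?_
        rw [tau_hom h, map_smul, ← hn, zpow_natCast]
        rfl
      · refine (ga_s T lab a).trans ?_
        rw [sgn_hom T.dt h, map_smul, ← hn, zpow_natCast]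
        rfl

theorem ga_lv {L : Finset P.M} {a : Lam T.dt} :
    (T.ga lab).Lv L (lc T.dt a) ↔ ∀ j, j ∉ L → T.p j a = 0 := by
  have := T.finT
  constructor
  · intro h j hj
    have h1 := (ga_pd T lab j a).symm.trans (h j hj)
    exact lc_inj (h1.trans (map_zero (lc T.dt)).symm)
  · intro h j hj
    refine (ga_pd T lab j a).trans ?_
    rw [h j hj]
    exact map_zero (lc T.dt)

theorem ga_D_zero {a : Lam T.dt} : (T.ga lab).D (lc T.dt a) = 0 ↔ T.D a = 0 := by
  have := T.finT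
  constructor
  · intro h
    have h1 := (ga_D T lab a).symm.trans h
    exact lc_inj (h1.trans (map_zero (lc T.dt)).symm)
  · intro h
    refine (ga_D T lab a).trans ?_
    rw [h]
    exact map_zero (lc T.dt)

end AnWL
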