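import Pool.Agent.Helper98.RD.Core

/-!
C08l. Tools for the spans `SP δ p` of the monomials `mon l` with `p l`.

* `SP_D`, `SP_K`: the product rule on monomials, letter by letter (induction on `l`).
* `SP_pr`: apply `pr δ n` (`pr_hom`, `mon_mem_hom`).
* `SP_length`: the algebra map `Lam δ → Polynomial (Lam δ)`, `gen i ↦ monomial 1 (gen i)` (as `grad` in `Helper2/GCA/Basic.lean`) maps `mon l` to `monomial l.length (mon l)`; compare coefficients: those of degree `< k` vanish, and `a` is
  the sum of the others.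
* `SP_ideal`: the algebra map `π` with `gen i ↦ 0` for `i ∈ A`, `gen i ↦ gen i` for `i ∉ A` kills `idealSpan (gen δ '' A)`; for `a = ∑ c_l mon l`, `0 = π a = ∑_{l without letters in A} c_l mon l`.
* `SP_adjoin`: the words with letters in `A` are in `adjoin`, and `SP (∀ x ∈ l, x ∈ A)` is a subalgebra.
-/

set_option autoImplicit false

namespace AnWL
open Anick2

section
variable {X : Type} {δ : X → ℕ}

private theorem SP_indL {p : List X → Prop} {C : Lam δ → Prop}
    (hm : ∀ l, p l → C (mon δ l)) (h0 : C 0)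
    (hadd : ∀ a b, C a → C b → C (a + b)) (hsmul : ∀ (r : ℚ) a, C a → C (r • a))
    {a : Lam δ} (ha : a ∈ SP δ p) : C a := by
  unfold SP at ha
  induction ha using Submodule.span_induction with
  | mem x hx => obtain ⟨l, hl, rfl⟩ := hx; exact hm l hl
  | zero => exact h0
  | add y z _ _ hy hz => exact hadd _ _ hy hz
  | smul r y _ hy => exact hsmul _ _ hy

theorem SP_imp {p q : List X → Prop} (h : ∀ l, p l → q l) {a : Lam δ} (ha : a ∈ SP δ p) :
    a ∈ SP δ q :=
  SP_indL (C := fun a => a ∈ SP δ q) (fun l hl => Submodule.subset_span ⟨l, h l hl, rfl⟩)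
    (zero_mem _) (fun _ _ h1 h2 => add_mem h1 h2) (fun _ _ h1 => Submodule.smul_mem _ _ h1) ha

theorem SP_mon {p : List X → Prop} {l : List X} (h : p l) : mon δ l ∈ SP δ p :=
  Submodule.subset_span ⟨l, h, rfl⟩

theorem SP_gen {p : List X → Prop} {x : X} (h : p [x]) : gen δ x ∈ SP δ p := by
  have h1 : mon δ [x] = gen δ x := by rw [mon_cons, mon_nil, mul_one]
  rw [← h1]
  exact SP_mon h

theorem SP_mul {p q r : List X → Prop} (h : ∀ l l', p l → q l' → r (l ++ l')) {a b : Lam δ}
    (ha : a ∈ SP δ p) (hb : b ∈ SP δ q) : a * b ∈ SP δ r := by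
  refine SP_indL (C := fun a => a * b ∈ SP δ r) (fun l hl => ?_) ?_
    (fun a a' ha ha' => by rw [add_mul]; exact add_mem ha ha')
    (fun r a ha => by rw [smul_mul_assoc]; exact Submodule.smul_mem _ _ ha) ha
  · refine SP_indL (C := fun b => mon δ l * b ∈ SP δ r) (fun l' hl' => ?_) ?_
      (fun a a' ha ha' => by rw [mul_add]; exact add_mem ha ha')
      (fun r a ha => by rw [mul_smul_comm]; exact Submodule.smul_mem _ _ ha) hb
    · rw [← mon_append]
      exact SP_mon (h l l' hl hl')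
    · rw [mul_zero]; exact zero_mem _
  · rw [zero_mul]; exact zero_mem _

theorem SP_mapL {Y : Type} {δ' : Y → ℕ} (f : X → Y) (hf : ∀ x, δ' (f x) = δ x)
    {p : List X → Prop} {q : List Y → Prop} (h : ∀ l, p l → q (l.map f)) {a : Lam δ}
    (ha : a ∈ SP δ p) : mapL f hf a ∈ SP δ' q := by
  refine SP_indL (C := fun a => mapL f hf a ∈ SP δ' q) (fun l hl => ?_) ?_
    (fun a a' ha ha' => by rw [map_add]; exact add_mem ha ha')
    (fun r a ha => by rw [map_smul]; exact Submodule.smul_mem _ _ ha) ha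
  · rw [mapL_mon]
    exact Submodule.subset_span ⟨_, h l hl, rfl⟩
  · rw [map_zero]; exact zero_mem _

theorem SP_lift_zero {B : Type} [Ring B] [Algebra ℚ B] (θ : Lam δ →ₐ[ℚ] B) {p : List X → Prop}
    (h : ∀ l, p l → ∃ x ∈ l, θ (gen δ x) = 0) {a : Lam δ} (ha : a ∈ SP δ p) : θ a = 0 := by
  refine SP_indL (C := fun a => θ a = 0) (fun l hl => ?_) (map_zero _)
    (fun a a' ha ha' => by rw [map_add, ha, ha', add_zero])
    (fun r a ha => by rw [map_smul, ha, smul_zero]) ha
  obtain ⟨x, hx, h0⟩ := h l hl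
  obtain ⟨s, t, rfl⟩ := List.append_of_mem hx
  rw [mon_append, mon_cons, map_mul, map_mul, h0, zero_mul, mul_zero]

private theorem der_oneL (D : Lam δ →ₗ[ℚ] Lam δ)
    (hD : ∀ a b, D (a * b) = D a * b + sgn δ a * D b) : D 1 = 0 := by
  have h := hD 1 1
  have h1 : sgn δ (1 : Lam δ) = 1 := map_one (sgn δ)
  rw [h1, mul_one, mul_one, one_mul] at h
  exact add_eq_left.1 h.symm

private theorem gen_SPL (x : X) : gen δ x ∈ SP δ (fun l => l = [x]) := SP_gen rfl

private theorem sgn_gen_SPL (x : X) : sgn δ (gen δ x) ∈ SP δ (fun l => l = [x]) := by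
  rw [sgn_gen]
  exact Submodule.smul_mem _ _ (gen_SPL x)

private theorem SP_DL (D : Lam δ →ₗ[ℚ] Lam δ) (hD : ∀ a b, D (a * b) = D a * b + sgn δ a * D b)
    (v : X → List X → Prop) (hv : ∀ x, D (gen δ x) ∈ SP δ (v x)) (l : List X) :
    D (mon δ l) ∈ SP δ (fun m => ∃ l₁ x l₂ l', l = l₁ ++ x :: l₂ ∧ v x l' ∧
      m = l₁ ++ l' ++ l₂) := by
  induction l with
  | nil => rw [mon_nil, der_oneL D hD]; exact zero_mem _
  | cons x l ih =>
    rw [mon_cons, hD]
    refine add_mem ?_ ?_
    · have h1 : mon δ l ∈ SP δ (fun m => m = l) := SP_mon rfl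
      refine SP_mul ?_ (hv x) h1
      rintro l' m hl' rfl
      exact ⟨[], x, m, l', rfl, hl', by simp⟩
    · refine SP_mul ?_ (sgn_gen_SPL x) ih
      rintro m m' rfl ⟨l₁, y, l₂, l', rfl, h2, rfl⟩
      exact ⟨x :: l₁, y, l₂, l', by simp, h2, by simp⟩

theorem SP_D (D : Lam δ →ₗ[ℚ] Lam δ) (hD : ∀ a b, D (a * b) = D a * b + sgn δ a * D b)
    (v : X → List X → Prop) (hv : ∀ x, D (gen δ x) ∈ SP δ (v x)) {p q : List X → Prop}
    (hpq : ∀ l₁ x l₂ l', p (l₁ ++ x :: l₂) → v x l' → q (l₁ ++ l' ++ l₂)) {a : Lam δ}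
    (ha : a ∈ SP δ p) : D a ∈ SP δ q := by
  refine SP_indL (C := fun a => D a ∈ SP δ q) (fun l hl => ?_) ?_
    (fun a a' ha ha' => by rw [map_add]; exact add_mem ha ha')
    (fun r a ha => by rw [map_smul]; exact Submodule.smul_mem _ _ ha) ha
  · refine SP_imp ?_ (SP_DL D hD v hv l)
    rintro m ⟨l₁, x, l₂, l', rfl, h2, rfl⟩
    exact hpq l₁ x l₂ l' hl h2
  · rw [map_zero]; exact zero_mem _

private theorem K_mulL (D h : Lam δ →ₗ[ℚ] Lam δ)
    (hD : ∀ a b, D (a * b) = D a * b + sgn δ a * D b)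
    (hh : ∀ a b, h (a * b) = h a * b + sgn δ a * h b) (sD : ∀ a, sgn δ (D a) = -D (sgn δ a))
    (sh : ∀ a, sgn δ (h a) = -h (sgn δ a)) (a b : Lam δ) :
    D (h (a * b)) + h (D (a * b)) = (D (h a) + h (D a)) * b + a * (D (h b) + h (D b)) := by
  rw [hh, hD, map_add, map_add, hD, hD, hh, hh, sD, sh, sgn_sgn, neg_mul, neg_mul, add_mul,
    mul_add]
  abel

theorem SP_K (D h : Lam δ →ₗ[ℚ] Lam δ) (hD : ∀ a b, D (a * b) = D a * b + sgn δ a * D b)
    (hh : ∀ a b, h (a * b) = h a * b + sgn δ a * h b) (sD : ∀ a, sgn δ (D a) = -D (sgn δ a))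
    (sh : ∀ a, sgn δ (h a) = -h (sgn δ a)) (E : X → Prop) [DecidablePred E]
    (v : X → List X → Prop)
    (hv : ∀ x, D (h (gen δ x)) + h (D (gen δ x)) - (if E x then gen δ x else 0) ∈ SP δ (v x))
    {q : List X → Prop} (l : List X)
    (hq : ∀ l₁ x l₂ l', l = l₁ ++ x :: l₂ → v x l' → q (l₁ ++ l' ++ l₂)) :
    D (h (mon δ l)) + h (D (mon δ l)) - ((l.countP (fun x => decide (E x)) : ℕ) : ℚ) • mon δ l ∈
      SP δ q := by
  have key : ∀ l : List X, D (h (mon δ l)) + h (D (mon δ l)) -
      ((l.countP (fun x => decide (E x)) : ℕ) : ℚ) • mon δ l ∈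
      SP δ (fun m => ∃ l₁ x l₂ l', l = l₁ ++ x :: l₂ ∧ v x l' ∧ m = l₁ ++ l' ++ l₂) := by
    intro l
    induction l with
    | nil =>
      rw [mon_nil, der_oneL D hD, der_oneL h hh, map_zero, map_zero, List.countP_nil,
        Nat.cast_zero, zero_smul, sub_zero, add_zero]
      exact zero_mem _
    | cons x l ih =>
      have e : D (h (mon δ (x :: l))) + h (D (mon δ (x :: l))) -
          (((x :: l).countP (fun x => decide (E x)) : ℕ) : ℚ) • mon δ (x :: l) =
          (D (h (gen δ x)) + h (D (gen δ x)) - (if E x then gen δ x else 0)) * mon δ l +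
          gen δ x * (D (h (mon δ l)) + h (D (mon δ l)) -
            ((l.countP (fun x => decide (E x)) : ℕ) : ℚ) • mon δ l) := by
        rw [mon_cons, K_mulL D h hD hh sD sh, List.countP_cons, sub_mul, mul_sub,
          mul_smul_comm]
        by_cases hx : E x
        · simp only [hx, decide_true, if_true]
          push_cast
          rw [add_smul, one_smul]
          abel
        · simp only [hx, decide_false, if_false, Bool.false_eq_true, add_zero, zero_mul, sub_zero]
          abel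
      rw [e]
      refine add_mem ?_ ?_
      · have h1 : mon δ l ∈ SP δ (fun m => m = l) := SP_mon rfl
        refine SP_mul ?_ (hv x) h1
        rintro l' m hl' rfl
        exact ⟨[], x, m, l', rfl, hl', by simp⟩
      · refine SP_mul ?_ (gen_SPL x) ih
        rintro m m' rfl ⟨l₁, y, l₂, l', rfl, h2, rfl⟩
        exact ⟨x :: l₁, y, l₂, l', by simp, h2, by simp⟩
  refine SP_imp ?_ (key l)
  rintro m ⟨l₁, x, l₂, l', h1, h2, rfl⟩
  exact hq l₁ x l₂ l' h1 h2

theorem SP_pr {p : List X → Prop} {n : ℕ} {a : Lam δ} (ha : a ∈ SP δ p) (hn : a ∈ hom δ n) :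
    a ∈ SP δ (fun l => p l ∧ degSum δ l = n) := by
  have h1 : pr δ n a = a := by rw [pr_hom δ hn, if_pos rfl]
  rw [← h1]
  refine SP_indL (C := fun a => pr δ n a ∈ SP δ (fun l => p l ∧ degSum δ l = n)) (fun l hl => ?_)
    ?_ (fun a a' ha ha' => by rw [map_add]; exact add_mem ha ha')
    (fun r a ha => by rw [map_smul]; exact Submodule.smul_mem _ _ ha) ha
  · rw [pr_hom δ (mon_mem_hom δ l)]
    split
    · rename_i h2
      exact SP_mon ⟨hl, h2⟩
    · exact zero_mem _
  · rw [map_zero]; exact zero_mem _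

/-- The grading by the length of the words. -/
private noncomputable def lgL (δ : X → ℕ) : Lam δ →ₐ[ℚ] Polynomial (Lam δ) :=
  Lam.lift δ (fun i => Polynomial.monomial 1 (gen δ i)) (by
    intro i j
    rw [Polynomial.monomial_mul_monomial, Polynomial.monomial_mul_monomial, gen_comm,
      Polynomial.smul_monomial])

private theorem lg_monL (l : List X) :
    lgL δ (mon δ l) = Polynomial.monomial l.length (mon δ l) := by
  induction l with
  | nil => rw [mon_nil, map_one]; rfl
  | cons i l ih =>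
    rw [mon_cons, map_mul, ih]
    have h1 : lgL δ (gen δ i) = Polynomial.monomial 1 (gen δ i) := Lam.lift_gen δ _ _ i
    rw [h1, Polynomial.monomial_mul_monomial, List.length_cons, add_comm]

/-- The part of length at least `k`. -/
private noncomputable def truL (δ : X → ℕ) (k : ℕ) : Lam δ →ₗ[ℚ] Lam δ :=
  (Polynomial.lsum (fun m => if k ≤ m then (LinearMap.id : Lam δ →ₗ[ℚ] Lam δ) else 0)) ∘ₗ
    (lgL δ).toLinearMap

private theorem tru_monL (k : ℕ) (l : List X) :
    truL δ k (mon δ l) = if k ≤ l.length then mon δ l else 0 := by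
  have h1 : truL δ k (mon δ l) = (Polynomial.monomial l.length (mon δ l)).sum
      (fun m => ⇑(if k ≤ m then (LinearMap.id : Lam δ →ₗ[ℚ] Lam δ) else 0)) := by
    rw [← lg_monL]
    rfl
  rw [h1, Polynomial.sum_monomial_index _ _ (LinearMap.map_zero _)]
  by_cases h2 : k ≤ l.length
  · rw [if_pos h2, if_pos h2]; rfl
  · rw [if_neg h2, if_neg h2]; rfl

theorem SP_length {p : List X → Prop} {k : ℕ} {a : Lam δ} (ha : a ∈ SP δ p)
    (hk : a ∈ SP δ (fun l => k ≤ l.length)) : a ∈ SP δ (fun l => p l ∧ k ≤ l.length) := by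
  have h1 : truL δ k a = a := by
    refine SP_indL (C := fun a => truL δ k a = a) (fun l hl => ?_) (map_zero _)
      (fun a a' ha ha' => by rw [map_add, ha, ha'])
      (fun r a ha => by rw [map_smul, ha]) hk
    rw [tru_monL, if_pos hl]
  rw [← h1]
  refine SP_indL (C := fun a => truL δ k a ∈ SP δ (fun l => p l ∧ k ≤ l.length))
    (fun l hl => ?_) ?_ (fun a a' ha ha' => by rw [map_add]; exact add_mem ha ha')
    (fun r a ha => by rw [map_smul]; exact Submodule.smul_mem _ _ ha) ha
  · rw [tru_monL]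
    split
    · rename_i h2
      exact SP_mon ⟨hl, h2⟩
    · exact zero_mem _
  · rw [map_zero]; exact zero_mem _

theorem SP_ideal {p : List X → Prop} {A : Set X} {a : Lam δ} (ha : a ∈ SP δ p)
    (hA : a ∈ idealSpan (gen δ '' A)) : a ∈ SP δ (fun l => p l ∧ ∃ x ∈ A, x ∈ l) := by
  classical
  have hrel : ∀ i j : X, (if i ∈ A then (0 : Lam δ) else gen δ i) *
      (if j ∈ A then (0 : Lam δ) else gen δ j) =
      (-1 : ℚ) ^ (δ i * δ j) • ((if j ∈ A then (0 : Lam δ) else gen δ j) *
        (if i ∈ A then (0 : Lam δ) else gen δ i)) := by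
    intro i j
    by_cases hi : i ∈ A
    · rw [if_pos hi, zero_mul, mul_zero, smul_zero]
    · by_cases hj : j ∈ A
      · rw [if_pos hj, zero_mul, mul_zero, smul_zero]
      · rw [if_neg hi, if_neg hj]
        exact gen_comm δ i j
  let π : Lam δ →ₐ[ℚ] Lam δ := Lam.lift δ _ hrel
  have hπ : ∀ i, π (gen δ i) = if i ∈ A then (0 : Lam δ) else gen δ i :=
    fun i => Lam.lift_gen δ _ hrel i
  have hmon1 : ∀ l : List X, (∃ x ∈ A, x ∈ l) → π (mon δ l) = 0 := by
    rintro l ⟨x, hx, hxl⟩
    obtain ⟨s, t, rfl⟩ := List.append_of_mem hxl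
    rw [mon_append, mon_cons, map_mul, map_mul, hπ, if_pos hx, zero_mul, mul_zero]
  have hmon2 : ∀ l : List X, (¬ ∃ x ∈ A, x ∈ l) → π (mon δ l) = mon δ l := by
    intro l
    induction l with
    | nil => intro _; rw [mon_nil, map_one]
    | cons i l ih =>
      intro h
      have h1 : i ∉ A := fun h1 => h ⟨i, h1, List.mem_cons_self⟩
      have h2 : ¬ ∃ x ∈ A, x ∈ l := by
        rintro ⟨x, hx, hxl⟩
        exact h ⟨x, hx, List.mem_cons_of_mem _ hxl⟩
      rw [mon_cons, map_mul, hπ, if_neg h1, ih h2]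
  have h0 : π a = 0 := by
    clear ha
    unfold idealSpan at hA
    induction hA using Submodule.span_induction with
    | mem x hx =>
      obtain ⟨r, v, s, ⟨y, hy, rfl⟩, rfl⟩ := hx
      rw [map_mul, map_mul, hπ, if_pos hy, mul_zero, zero_mul]
    | zero => exact map_zero _
    | add y z _ _ hy hz => rw [map_add, hy, hz, add_zero]
    | smul r y _ hy => rw [map_smul, hy, smul_zero]
  have h1 : a - π a = a := by rw [h0, sub_zero]
  rw [← h1]
  refine SP_indL (C := fun a => a - π a ∈ SP δ (fun l => p l ∧ ∃ x ∈ A, x ∈ l))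
    (fun l hl => ?_) ?_
    (fun a a' ha ha' => by rw [map_add, add_sub_add_comm]; exact add_mem ha ha')
    (fun r a ha => by rw [map_smul, ← smul_sub]; exact Submodule.smul_mem _ _ ha) ha
  · by_cases h2 : ∃ x ∈ A, x ∈ l
    · rw [hmon1 l h2, sub_zero]
      exact SP_mon ⟨hl, h2⟩
    · rw [hmon2 l h2, sub_self]
      exact zero_mem _
  · rw [map_zero, sub_zero]; exact zero_mem _

theorem SP_adjoin {A : Set X} {a : Lam δ} :
    a ∈ Algebra.adjoin ℚ (gen δ '' A) ↔ a ∈ SP δ (fun l => ∀ x ∈ l, x ∈ A) := by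
  constructor
  · intro h2
    rw [← Subalgebra.mem_toSubmodule, Algebra.adjoin_eq_span] at h2
    refine Submodule.span_mono ?_ h2
    intro x hx
    obtain ⟨L, hL, rfl⟩ := Submonoid.exists_list_of_mem_closure hx
    clear hx
    induction L with
    | nil => exact ⟨[], by simp, by simp⟩
    | cons y L ih =>
      obtain ⟨l, hl, hl'⟩ := ih (fun z hz => hL z (List.mem_cons_of_mem _ hz))
      obtain ⟨j, hj, rfl⟩ := hL y List.mem_cons_self
      refine ⟨j :: l, ?_, ?_⟩
      · intro j' hj'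
        rcases List.mem_cons.1 hj' with rfl | h
        · exact hj
        · exact hl j' h
      · rw [List.prod_cons, hl', mon_cons]
  · intro h
    refine SP_indL (C := fun a => a ∈ Algebra.adjoin ℚ (gen δ '' A)) (fun l hl => ?_)
      (zero_mem _) (fun _ _ h1 h2 => add_mem h1 h2)
      (fun r a ha => Subalgebra.smul_mem _ ha r) h
    induction l with
    | nil => rw [mon_nil]; exact one_mem _
    | cons i l ih =>
      rw [mon_cons]
      exact mul_mem (Algebra.subset_adjoin ⟨i, hl i (by simp), rfl⟩)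
        (ih (fun j hj => hl j (by simp [hj])))

/-- `d v` is a combination of words of length at least two. -/
theorem min_SP {deg : X → ℕ} (S : MinimalSullivan deg) (x : X) :
    S.d (gen deg x) ∈ SP deg (fun l => 2 ≤ l.length) := S.minimal x

end

end AnWL
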