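import Pool.Agent.Helper98.RD.Core

/-!
C01a. Generic facts on `Lam δ`: maps with a product rule; the body.

* `lam_zero`: by `Lam.induction`/induction on the monomial (`F 1 = 0` from the product rule).
* `bd` (body): even generators to the variables, odd generators to `0`.
  `bd_nil`, `bd_reg`: induction on the number of the odd generators with `odd_split` (`Helper2/AN/OddSplit.lean`):
  `a = a₀ + y a₁`. `bd a = 0` iff `bd a₀ = 0`; `a₀ ^ K = 0` gives `a ^ (2K) = 0` (`y x y = 0`). `a b = 0` with
  `bd a₀ ≠ 0` gives `a₀ b₀ = 0`, `a₁ b₀ + sgn a₀ * b₁ = 0`, so `b₀ = 0`, `b₁ = 0`. No odd generators: `bd` is injective (inverse on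
  monomials: `MvPolynomial.aeval` is not available for the noncommutative ring `Lam`, so e.g. show that `mon l` depends
  only on the multiset of `l` and use `MvPolynomial.basisMonomials`, or make `Lam δ` a `CommRing` when all degrees are even).
-/

set_option autoImplicit false

namespace AnWL
open Anick2

section
variable {ι : Type} {δ : ι → ℕ}

/-- A map with a twisted product rule which vanishes on the generators vanishes. -/
theorem lam_zero {B : Type} [Ring B] [Algebra ℚ B] (ρ₁ ρ₂ : Lam δ →ₐ[ℚ] B) (F : Lam δ →ₗ[ℚ] B)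
    (hF : ∀ a b, F (a * b) = F a * ρ₁ b + ρ₂ a * F b) (h : ∀ i, F (gen δ i) = 0) (a : Lam δ) :
    F a = 0 := by
  have h1 : F 1 = 0 := by
    have h2 := hF 1 1
    rw [mul_one, map_one ρ₁, map_one ρ₂, mul_one, one_mul] at h2
    exact add_eq_left.1 h2.symm
  induction a using Lam.induction with
  | hm l =>
    induction l with
    | nil => rw [mon_nil]; exact h1
    | cons i l ih => rw [mon_cons, hF, h, ih, zero_mul, mul_zero, add_zero]
  | h0 => exact map_zero F
  | hadd a b ha hb => rw [map_add, ha, hb, add_zero]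
  | hsmul r a ha => rw [map_smul, ha, smul_zero]

/-! ### the body -/

variable (δ) in
/-- The body. -/
noncomputable def bd : Lam δ →ₐ[ℚ] MvPolynomial ι ℚ := by
  classical
  exact Lam.lift δ (fun i => if Even (δ i) then MvPolynomial.X i else 0) (by
    intro i j
    by_cases hi : Even (δ i)
    · have h : Even (δ i * δ j) := hi.mul_right _
      rw [h.neg_one_pow, one_smul, mul_comm]
    · rw [if_neg hi, zero_mul, mul_zero, smul_zero])

theorem bd_even {i : ι} (h : Even (δ i)) : bd δ (gen δ i) = MvPolynomial.X i := by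
  unfold bd
  rw [Lam.lift_gen, if_pos h]

theorem bd_odd {i : ι} (h : ¬ Even (δ i)) : bd δ (gen δ i) = 0 := by
  unfold bd
  rw [Lam.lift_gen, if_neg h]

theorem bd_sgn (a : Lam δ) : bd δ (sgn δ a) = bd δ a := by
  have h : (bd δ).comp (sgn δ) = bd δ := by
    refine Lam.algHom_ext δ fun i => ?_
    rw [AlgHom.comp_apply, sgn_gen, map_smul]
    by_cases hi : Even (δ i)
    · rw [hi.neg_one_pow, one_smul]
    · rw [bd_odd hi, smul_zero]
  exact congrArg (fun f : Lam δ →ₐ[ℚ] MvPolynomial ι ℚ => f a) h

private theorem exists_ev {B : Type} [Ring B] [Algebra ℚ B] (hc : ∀ a b : B, a * b = b * a)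
    (g : ι → B) : ∃ ψ : MvPolynomial ι ℚ →ₐ[ℚ] B, ∀ i, ψ (MvPolynomial.X i) = g i := by
  letI : CommRing B := { ‹Ring B› with mul_comm := hc }
  exact ⟨MvPolynomial.aeval g, fun i => MvPolynomial.aeval_X _ _⟩

private theorem sgn_even_all (h : ∀ i, Even (δ i)) (a : Lam δ) : sgn δ a = a := by
  have h1 : sgn δ = AlgHom.id ℚ (Lam δ) := by
    refine Lam.algHom_ext δ fun i => ?_
    rw [sgn_gen_even (h i)]
    rfl
  rw [h1]
  rfl

private theorem bd_inj (h : ∀ i, Even (δ i)) {a : Lam δ} (ha : bd δ a = 0) : a = 0 := by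
  obtain ⟨ψ, hψ⟩ := exists_ev (B := Lam δ)
    (fun a b => even_comm (sgn_even_all h a) b) (gen δ)
  have h1 : ψ.comp (bd δ) = AlgHom.id ℚ (Lam δ) := by
    refine Lam.algHom_ext δ fun i => ?_
    rw [AlgHom.comp_apply, bd_even (h i), hψ]
    rfl
  have h2 : ψ (bd δ a) = a := congrArg (fun f : Lam δ →ₐ[ℚ] Lam δ => f a) h1
  rw [← h2, ha, map_zero]

private theorem mul_odd {y : ι} (hy : Odd (δ y)) (x : Lam δ) :
    x * gen δ y = gen δ y * sgn δ x := by
  induction x using Lam.induction with
  | hm l =>
    rw [hom_comm δ (mon_mem_hom δ l) (gen_mem_hom δ y), sgn_mon, mul_smul_comm, mul_comm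
      (degSum δ l), pow_mul, hy.neg_one_pow]
  | h0 => rw [map_zero, zero_mul, mul_zero]
  | hadd a b ha hb => rw [map_add, add_mul, mul_add, ha, hb]
  | hsmul r a ha => rw [map_smul, smul_mul_assoc, mul_smul_comm, ha]

private theorem sq_odd {y : ι} (hy : Odd (δ y)) : gen δ y * gen δ y = 0 :=
  odd_sq (sgn_gen_odd hy)

private theorem bd_incl (S : Set ι) (a : Lam (fun i : S => δ i)) :
    bd δ (incl δ S a) = MvPolynomial.rename Subtype.val (bd (fun i : S => δ i) a) := by
  have h : (bd δ).comp (incl δ S) =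
      (MvPolynomial.rename Subtype.val).comp (bd (fun i : S => δ i)) := by
    refine Lam.algHom_ext _ fun i => ?_
    rw [AlgHom.comp_apply, AlgHom.comp_apply, incl_gen]
    by_cases hi : Even (δ i)
    · rw [bd_even hi, bd_even (δ := fun i : S => δ i) hi, MvPolynomial.rename_X]
    · rw [bd_odd hi, bd_odd (δ := fun i : S => δ i) hi, map_zero]
  exact congrArg (fun f : Lam (fun i : S => δ i) →ₐ[ℚ] MvPolynomial ι ℚ => f a) h

private theorem bd_both (n : ℕ) : ∀ (ι : Type) (_ : Finite ι) (δ : ι → ℕ), Nat.card ι ≤ n →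
    (∀ a : Lam δ, bd δ a = 0 → IsNilpotent a) ∧
      (∀ a b : Lam δ, bd δ a ≠ 0 → a * b = 0 → b = 0) := by
  induction n with
  | zero =>
    intro ι hι δ hn
    have h1 : IsEmpty ι := by
      by_contra h
      rw [not_isEmpty_iff] at h
      have := Nat.card_pos (α := ι)
      omega
    have h2 : ∀ i, Even (δ i) := fun i => (h1.false i).elim
    refine ⟨fun a ha => ?_, fun a b ha hab => ?_⟩
    · rw [bd_inj h2 ha]
      exact IsNilpotent.zero
    · apply bd_inj h2
      have h3 : bd δ a * bd δ b = 0 := by rw [← map_mul, hab, map_zero]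
      exact (mul_eq_zero.1 h3).resolve_left ha
  | succ n ih =>
    intro ι hι δ hn
    by_cases h2 : ∀ i, Even (δ i)
    · refine ⟨fun a ha => ?_, fun a b ha hab => ?_⟩
      · rw [bd_inj h2 ha]
        exact IsNilpotent.zero
      · apply bd_inj h2
        have h3 : bd δ a * bd δ b = 0 := by rw [← map_mul, hab, map_zero]
        exact (mul_eq_zero.1 h3).resolve_left ha
    · obtain ⟨y, hy0⟩ := not_forall.1 h2
      have hy : Odd (δ y) := Nat.not_even_iff_odd.1 hy0
      have hcard : Nat.card {i : ι | i ≠ y} ≤ n := by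
        have h3 : Nat.card {i : ι | i ≠ y} < Nat.card ι := by
          apply Finite.card_subtype_lt (x := y)
          simp
        omega
      obtain ⟨ihn, ihr⟩ := ih {i : ι | i ≠ y} inferInstance (fun i => δ i) hcard
      obtain ⟨q, hq, -, hqy, -⟩ := odd_split hy
      have hry : retr δ {i : ι | i ≠ y} (gen δ y) = 0 := by
        unfold retr
        rw [Lam.lift_gen, dif_neg (by simp)]
      have hbd : ∀ a : Lam δ, bd δ a = MvPolynomial.rename Subtype.val
          (bd (fun i : {i : ι | i ≠ y} => δ i) (retr δ {i : ι | i ≠ y} a)) := by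
        intro a
        rw [← bd_incl]
        conv_lhs => rw [hq a]
        rw [map_add, map_mul, bd_odd hy0, zero_mul, add_zero]
      have hinj : Function.Injective
          (MvPolynomial.rename (R := ℚ) (Subtype.val : {i : ι | i ≠ y} → ι)) :=
        MvPolynomial.rename_injective _ Subtype.val_injective
      refine ⟨fun a ha => ?_, fun a b ha hab => ?_⟩
      · have h3 : bd (fun i : {i : ι | i ≠ y} => δ i) (retr δ {i : ι | i ≠ y} a) = 0 := by
          apply hinj
          rw [← hbd, ha, map_zero]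
        obtain ⟨K, hK⟩ := ihn _ h3
        have hK' : (incl δ {i : ι | i ≠ y} (retr δ {i : ι | i ≠ y} a)) ^ K = 0 := by
          rw [← map_pow, hK, map_zero]
        have key : ∀ (A B : Lam δ) (k : ℕ), ∃ z, (A + gen δ y * B) ^ k = A ^ k + gen δ y * z := by
          intro A B k
          induction k with
          | zero => exact ⟨0, by rw [pow_zero, pow_zero, mul_zero, add_zero]⟩
          | succ k ihk =>
            obtain ⟨z, hz⟩ := ihk
            refine ⟨sgn δ (A ^ k) * B + z * A + z * (gen δ y * B), ?_⟩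
            rw [pow_succ, hz, pow_succ, add_mul, mul_add, ← mul_assoc (A ^ k) (gen δ y) B,
              mul_odd hy, mul_add, mul_add, mul_add, mul_assoc, mul_assoc, mul_assoc]
            abel
        obtain ⟨z, hz⟩ := key (incl δ {i : ι | i ≠ y} (retr δ {i : ι | i ≠ y} a))
          (incl δ {i : ι | i ≠ y} (q a)) K
        rw [hK', zero_add, ← hq a] at hz
        refine ⟨K + K, ?_⟩
        rw [pow_add, hz, mul_assoc, ← mul_assoc z, mul_odd hy, mul_assoc, ← mul_assoc (gen δ y)
          (gen δ y), sq_odd hy, zero_mul]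
      · have ha' : bd (fun i : {i : ι | i ≠ y} => δ i) (retr δ {i : ι | i ≠ y} a) ≠ 0 := by
          intro h3
          apply ha
          rw [hbd, h3, map_zero]
        have h4 : retr δ {i : ι | i ≠ y} b = 0 := by
          apply ihr _ _ ha'
          rw [← map_mul, hab, map_zero]
        have hb : b = gen δ y * incl δ {i : ι | i ≠ y} (q b) := by
          have := hq b
          rw [h4, map_zero, zero_add] at this
          exact this
        have h5 : gen δ y * incl δ {i : ι | i ≠ y}
            (sgn (fun i : {i : ι | i ≠ y} => δ i) (retr δ {i : ι | i ≠ y} a) * q b) = 0 := by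
          have h6 := hab
          rw [hb, hq a, add_mul, ← mul_assoc, mul_odd hy, mul_assoc (gen δ y)
            (incl δ {i : ι | i ≠ y} (q a)), ← mul_assoc (incl δ {i : ι | i ≠ y} (q a)),
            mul_odd hy, mul_assoc (gen δ y) (sgn δ (incl δ {i : ι | i ≠ y} (q a))),
            ← mul_assoc (gen δ y) (gen δ y), sq_odd hy, zero_mul, add_zero] at h6
          rw [map_mul, incl_sgn, ← mul_assoc]
          exact h6
        have h7 : sgn (fun i : {i : ι | i ≠ y} => δ i) (retr δ {i : ι | i ≠ y} a) * q b = 0 := by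
          rw [← hqy (sgn (fun i : {i : ι | i ≠ y} => δ i) (retr δ {i : ι | i ≠ y} a) * q b), h5,
            map_zero]
        have h8 : q b = 0 := by
          apply ihr _ _ _ h7
          rw [bd_sgn]
          exact ha'
        rw [hb, h8, map_zero, mul_zero]

theorem bd_nil [Finite ι] {a : Lam δ} (h : bd δ a = 0) : IsNilpotent a :=
  (bd_both (Nat.card ι) ι inferInstance δ le_rfl).1 a h

theorem bd_reg [Finite ι] {a b : Lam δ} (ha : bd δ a ≠ 0) (h : a * b = 0) : b = 0 :=
  (bd_both (Nat.card ι) ι inferInstance δ le_rfl).2 a b ha h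

theorem bd_mapL {ι' : Type} {δ' : ι' → ℕ} (f : ι → ι') (hf : ∀ i, δ' (f i) = δ i) (a : Lam δ) :
    bd δ' (mapL f hf a) = MvPolynomial.rename f (bd δ a) := by
  have h : (bd δ').comp (mapL f hf) = (MvPolynomial.rename f).comp (bd δ) := by
    refine Lam.algHom_ext _ fun i => ?_
    rw [AlgHom.comp_apply, AlgHom.comp_apply, mapL_gen]
    by_cases hi : Even (δ i)
    · have hi' : Even (δ' (f i)) := by rw [hf]; exact hi
      rw [bd_even hi, bd_even hi', MvPolynomial.rename_X]
    · have hi' : ¬ Even (δ' (f i)) := by rw [hf]; exact hi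
      rw [bd_odd hi, bd_odd hi', map_zero]
  exact congrArg (fun g : Lam δ →ₐ[ℚ] MvPolynomial ι' ℚ => g a) h

theorem bd_mapL_ne {ι' : Type} {δ' : ι' → ℕ} (f : ι → ι') (hf : ∀ i, δ' (f i) = δ i)
    (hi : Function.Injective f) {a : Lam δ} (h : bd δ a ≠ 0) : bd δ' (mapL f hf a) ≠ 0 := by
  rw [bd_mapL]
  intro h1
  exact h (MvPolynomial.rename_injective f hi (by rw [h1, map_zero]))

end

end AnWL
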