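import Pool.Agent.Helper98.RD.Core
import Pool.Agent.Helper48.WL.C01a

/-!
C01b. Generic facts on `Lam δ`: the degree operator `tau : a ↦ 2^|a| a`.

`tau_eig`: `a = ∑ pr n a` (`sum_pr`), `tau` acts on `pr n a` by `2^n` and `pr` commutes with `tau`, so
`(2^n - 2^g) pr n a = 0` for all `n`. The others by `Lam.algHom_ext`/`lam_zero` (e.g. `tau_d`: with
`F a = tau (d a) - 2 • d (tau a)`, `ρ₁ = tau`, `ρ₂ = tau ∘ sgn`, the generators by `tau_hom`).
-/

set_option autoImplicit false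

namespace AnWL
open Anick2

section
variable {ι : Type} {δ : ι → ℕ}

/-! ### the degree operator -/

variable (δ) in
/-- The degree operator `a ↦ 2^|a| a`. -/
noncomputable def tau : Lam δ →ₐ[ℚ] Lam δ :=
  Lam.lift δ (fun i => (2 : ℚ) ^ δ i • gen δ i) (by
    intro i j
    rw [smul_mul_smul_comm, smul_mul_smul_comm, gen_comm, smul_smul, smul_smul]
    congr 1; ring)

theorem tau_gen (i : ι) : tau δ (gen δ i) = (2 : ℚ) ^ δ i • gen δ i := by
  simp [tau]

private theorem tau_mon (l : List ι) : tau δ (mon δ l) = (2 : ℚ) ^ degSum δ l • mon δ l := by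
  induction l with
  | nil => simp
  | cons i l ih =>
    rw [mon_cons, map_mul, ih, tau_gen, smul_mul_smul_comm, degSum_cons, pow_add]

theorem tau_hom {n : ℕ} {a : Lam δ} (ha : a ∈ hom δ n) : tau δ a = (2 : ℚ) ^ n • a := by
  refine hom_induction δ (C := fun a => tau δ a = (2 : ℚ) ^ n • a)
    (fun l hl => by rw [tau_mon, hl]) (by simp) (fun a b ha hb => by rw [map_add, ha, hb, smul_add])
    (fun r a ha => by rw [map_smul, ha, smul_comm]) ha

private theorem pr_tau (n : ℕ) (a : Lam δ) : pr δ n (tau δ a) = tau δ (pr δ n a) := by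
  have : (pr δ n).comp (tau δ).toLinearMap = (tau δ).toLinearMap.comp (pr δ n) := by
    refine Lam.linearMap_ext _ fun l => ?_
    rw [LinearMap.comp_apply, LinearMap.comp_apply, AlgHom.toLinearMap_apply,
      AlgHom.toLinearMap_apply, tau_mon, map_smul, pr_hom δ (mon_mem_hom δ l)]
    split_ifs
    · rw [tau_mon]
    · rw [smul_zero, map_zero]
  exact congrArg (fun g : Lam δ →ₗ[ℚ] Lam δ => g a) this

theorem tau_eig {g : ℤ} {a : Lam δ} (ha : tau δ a = (2 : ℚ) ^ g • a) :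
    (∃ n : ℕ, (n : ℤ) = g ∧ a ∈ hom δ n) ∨ a = 0 := by
  have key : ∀ n : ℕ, (n : ℤ) ≠ g → pr δ n a = 0 := by
    intro n hn
    have h1 : tau δ (pr δ n a) = (2 : ℚ) ^ g • pr δ n a := by
      rw [← pr_tau, ha, map_smul]
    rw [tau_hom (pr_mem δ n a)] at h1
    have h2 : ((2 : ℚ) ^ n - (2 : ℚ) ^ g) • pr δ n a = 0 := by
      have h2' : ((2 : ℚ) ^ n - (2 : ℚ) ^ g) • pr δ n a + (2 : ℚ) ^ g • pr δ n a =
          (2 : ℚ) ^ g • pr δ n a := by
        rw [← add_smul, sub_add_cancel, h1]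
      exact add_eq_right.1 h2'
    rcases smul_eq_zero.1 h2 with h3 | h3
    · exfalso
      apply hn
      have h4 : (2 : ℚ) ^ (n : ℤ) = (2 : ℚ) ^ g := by
        rw [zpow_natCast]; exact sub_eq_zero.1 h3
      exact zpow_right_injective₀ (by norm_num) (by norm_num) h4
    · exact h3
  by_cases hg : ∃ n : ℕ, (n : ℤ) = g
  · obtain ⟨m, hm⟩ := hg
    refine Or.inl ⟨m, hm, ?_⟩
    obtain ⟨N, hN⟩ := sum_pr δ a
    have h5 := hN (max N (m + 1)) (le_max_left _ _)
    rw [h5]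
    refine Submodule.sum_mem _ fun n _ => ?_
    by_cases hnm : n = m
    · subst hnm; exact pr_mem δ n a
    · rw [key n (by rw [← hm]; exact_mod_cast hnm)]; exact zero_mem _
  · right
    obtain ⟨N, hN⟩ := sum_pr δ a
    rw [hN N le_rfl]
    refine Finset.sum_eq_zero fun n _ => key n fun h => hg ⟨n, h⟩

theorem tau_sgn (a : Lam δ) : tau δ (sgn δ a) = sgn δ (tau δ a) := by
  have : (tau δ).comp (sgn δ) = (sgn δ).comp (tau δ) := by
    refine Lam.algHom_ext _ fun i => ?_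
    rw [AlgHom.comp_apply, AlgHom.comp_apply, sgn_gen, map_smul, tau_gen, map_smul, sgn_gen,
      smul_comm]
  exact congrArg (fun g : Lam δ →ₐ[ℚ] Lam δ => g a) this

private noncomputable def sc (δ : ι → ℕ) (c : ℚ) : MvPolynomial ι ℚ →ₐ[ℚ] MvPolynomial ι ℚ :=
  MvPolynomial.aeval fun i => c ^ δ i • MvPolynomial.X i

private theorem sc_X (c : ℚ) (i : ι) :
    sc δ c (MvPolynomial.X i) = c ^ δ i • (MvPolynomial.X i : MvPolynomial ι ℚ) := by
  unfold sc
  rw [MvPolynomial.aeval_X]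

private theorem bd_tau (a : Lam δ) : bd δ (tau δ a) = sc δ 2 (bd δ a) := by
  have : (bd δ).comp (tau δ) = (sc δ 2).comp (bd δ) := by
    refine Lam.algHom_ext _ fun i => ?_
    rw [AlgHom.comp_apply, AlgHom.comp_apply, tau_gen, map_smul]
    by_cases hi : Even (δ i)
    · rw [bd_even hi, sc_X]
    · rw [bd_odd hi, smul_zero, map_zero]
  exact congrArg (fun g : Lam δ →ₐ[ℚ] MvPolynomial ι ℚ => g a) this

private theorem sc_sc (p : MvPolynomial ι ℚ) : sc δ (1 / 2) (sc δ 2 p) = p := by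
  have : (sc δ (1 / 2)).comp (sc δ 2) = AlgHom.id ℚ (MvPolynomial ι ℚ) := by
    refine MvPolynomial.algHom_ext fun i => ?_
    rw [AlgHom.comp_apply, sc_X, map_smul, sc_X, smul_smul, ← mul_pow]
    norm_num
  exact congrArg (fun g : MvPolynomial ι ℚ →ₐ[ℚ] MvPolynomial ι ℚ => g p) this

theorem bd_tau_ne {a : Lam δ} (h : bd δ a ≠ 0) : bd δ (tau δ a) ≠ 0 := by
  intro h0
  apply h
  rw [← sc_sc (δ := δ) (bd δ a), ← bd_tau, h0, map_zero]

theorem tau_d {d : Lam δ →ₗ[ℚ] Lam δ} (hd : IsDifferential (hom δ) d) (a : Lam δ) :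
    tau δ (d a) = (2 : ℚ) • d (tau δ a) := by
  have : (tau δ).toLinearMap.comp d = (2 : ℚ) • d.comp (tau δ).toLinearMap := by
    refine Lam.linearMap_ext _ fun l => ?_
    rw [LinearMap.comp_apply, LinearMap.smul_apply, LinearMap.comp_apply,
      AlgHom.toLinearMap_apply, AlgHom.toLinearMap_apply, tau_mon, map_smul,
      tau_hom (hd.map_hom _ _ (mon_mem_hom δ l)), smul_smul, pow_succ']
  exact congrArg (fun g : Lam δ →ₗ[ℚ] Lam δ => g a) this

theorem tau_mapL {ι' : Type} {δ' : ι' → ℕ} (f : ι → ι') (hf : ∀ i, δ' (f i) = δ i) (a : Lam δ) :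
    tau δ' (mapL f hf a) = mapL f hf (tau δ a) := by
  have : (tau δ').comp (mapL f hf) = (mapL f hf).comp (tau δ) := by
    refine Lam.algHom_ext _ fun i => ?_
    rw [AlgHom.comp_apply, AlgHom.comp_apply, tau_gen, map_smul, mapL_gen, tau_gen, hf]
  exact congrArg (fun g : Lam δ →ₐ[ℚ] Lam δ' => g a) this

end

end AnWL
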