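import Pool.Agent.Helper48.WL.C01b

/-!
C01c. Generic facts on `Lam δ`: the odd partial derivatives.

Existence of `pdv = ∂/∂y` by the matrices `!![sgn (gen i), δ; 0, gen i]` as in `dM` (`Helper2/GCA/Basic.lean`) or from
`odd_split` (`pdv a = incl (q a)`). The rules by `lam_zero` (all the compositions satisfy a twisted product rule).
`SP δ p` is the span of the monomials `mon l` with `p l` (`Helper98/RD/Core.lean`). `SP_of_pdv_zero`: the algebra map killing the
generator `y` and fixing the others (`incl ∘ retr`) maps `SP δ p` to `SP δ (p ∧ y ∉ l)`, and `a = incl (retr a) + y * ..`,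
the second term vanishes as `pdv a = 0` (`odd_split`).
-/

set_option autoImplicit false

namespace AnWL
open Anick2

section
variable {ι : Type} {δ : ι → ℕ}

/-! ### the odd partial derivatives -/

private theorem exists_der (D : ι → Lam δ)
    (h1 : ∀ i j, sgn δ (gen δ i) * D j = (-1 : ℚ) ^ (δ i * δ j) • (D j * gen δ i))
    (h2 : ∀ i j, D i * gen δ j = (-1 : ℚ) ^ (δ i * δ j) • (sgn δ (gen δ j) * D i)) :
    ∃ p : Lam δ →ₗ[ℚ] Lam δ,
      (∀ a b, p (a * b) = p a * b + sgn δ a * p b) ∧ ∀ i, p (gen δ i) = D i := by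
  have hrel : ∀ i j, (!![sgn δ (gen δ i), D i; 0, gen δ i] : Matrix (Fin 2) (Fin 2) (Lam δ)) *
      !![sgn δ (gen δ j), D j; 0, gen δ j] = (-1 : ℚ) ^ (δ i * δ j) •
        (!![sgn δ (gen δ j), D j; 0, gen δ j] * !![sgn δ (gen δ i), D i; 0, gen δ i]) := by
    intro i j
    have h3 : sgn δ (gen δ i) * sgn δ (gen δ j) =
        (-1 : ℚ) ^ (δ i * δ j) • (sgn δ (gen δ j) * sgn δ (gen δ i)) := by
      rw [← map_mul, ← map_mul, gen_comm, map_smul]
    ext a b
    fin_cases a <;> fin_cases b
    · simpa [Matrix.mul_fin_two] using h3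
    · simp only [Matrix.mul_fin_two, Matrix.smul_of, Fin.mk_one, Fin.isValue, Fin.zero_eta]
      simp only [Matrix.of_apply, Matrix.cons_val', Matrix.cons_val_zero, Matrix.cons_val_one,
        Pi.smul_apply, Matrix.smul_cons]
      simp only [smul_add]
      rw [h1 i j, h2 i j, add_comm]
    · simp [Matrix.mul_apply, Fin.sum_univ_two]
    · simpa [Matrix.mul_fin_two] using gen_comm δ i j
  let dm : Lam δ →ₐ[ℚ] Matrix (Fin 2) (Fin 2) (Lam δ) :=
    Lam.lift δ (fun i => !![sgn δ (gen δ i), D i; 0, gen δ i]) hrel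
  have dm_gen : ∀ i, dm (gen δ i) = !![sgn δ (gen δ i), D i; 0, gen δ i] :=
    fun i => Lam.lift_gen δ _ hrel i
  have ent : ∀ a, dm a 0 0 = sgn δ a ∧ dm a 1 0 = 0 ∧ dm a 1 1 = a := by
    intro a
    induction a using Lam.induction with
    | hm l =>
      induction l with
      | nil => simp
      | cons i l ih =>
        rw [mon_cons, map_mul, dm_gen]
        obtain ⟨h1, h2, h3⟩ := ih
        refine ⟨?_, ?_, ?_⟩
        · simp [Matrix.mul_apply, Fin.sum_univ_two, h1, h2]
        · simp [Matrix.mul_apply, Fin.sum_univ_two, h2]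
        · simp [Matrix.mul_apply, Fin.sum_univ_two, h3]
    | h0 => simp
    | hadd a b ha hb => simp [ha.1, ha.2.1, ha.2.2, hb.1, hb.2.1, hb.2.2]
    | hsmul r a ha => simp [ha.1, ha.2.1, ha.2.2]
  refine ⟨{ toFun := fun a => dm a 0 1
            map_add' := fun a b => by simp
            map_smul' := fun r a => by simp }, fun a b => ?_, fun i => ?_⟩
  · change dm (a * b) 0 1 = dm a 0 1 * b + sgn δ a * dm b 0 1
    rw [map_mul, Matrix.mul_apply, Fin.sum_univ_two, (ent a).1, (ent b).2.2, add_comm]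
  · change dm (gen δ i) 0 1 = D i
    rw [dm_gen]
    rfl

theorem exists_pdv {y : ι} (hy : Odd (δ y)) : ∃ p : Lam δ →ₗ[ℚ] Lam δ,
    (∀ a b, p (a * b) = p a * b + sgn δ a * p b) ∧ p (gen δ y) = 1 ∧
      ∀ i, i ≠ y → p (gen δ i) = 0 := by
  classical
  have hp : ∀ n : ℕ, (-1 : ℚ) ^ (n * δ y) = (-1 : ℚ) ^ n := by
    intro n
    rw [mul_comm, pow_mul, hy.neg_one_pow]
  have hq : ∀ n : ℕ, (-1 : ℚ) ^ n * (-1 : ℚ) ^ n = 1 := by
    intro n
    rw [← mul_pow]; simp
  obtain ⟨p, h1, h2⟩ := exists_der (δ := δ) (fun i => if i = y then 1 else 0)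
    (fun i j => by
      by_cases hj : j = y
      · subst hj
        simp only [if_true, mul_one, one_mul]
        rw [hp, sgn_gen]
      · simp only [if_neg hj, mul_zero, zero_mul, smul_zero])
    (fun i j => by
      by_cases hi : i = y
      · subst hi
        simp only [if_true, mul_one, one_mul]
        rw [mul_comm (δ i), hp, sgn_gen, smul_smul, hq, one_smul]
      · simp only [if_neg hi, mul_zero, zero_mul, smul_zero])
  refine ⟨p, h1, ?_, fun i hi => ?_⟩
  · rw [h2]; simp
  · rw [h2]; simp [hi]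

/-- `∂/∂y`. -/
noncomputable def pdv {y : ι} (hy : Odd (δ y)) : Lam δ →ₗ[ℚ] Lam δ := (exists_pdv hy).choose

theorem pdv_mul {y : ι} (hy : Odd (δ y)) (a b : Lam δ) :
    pdv hy (a * b) = pdv hy a * b + sgn δ a * pdv hy b := (exists_pdv hy).choose_spec.1 a b

theorem pdv_gen {y : ι} (hy : Odd (δ y)) : pdv hy (gen δ y) = 1 :=
  (exists_pdv hy).choose_spec.2.1

theorem pdv_gen_ne {y : ι} (hy : Odd (δ y)) {i : ι} (h : i ≠ y) : pdv hy (gen δ i) = 0 :=
  (exists_pdv hy).choose_spec.2.2 i h

private theorem neg_one_smul_lam (x : Lam δ) : (-1 : ℚ) • x = -x := by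
  rw [Algebra.smul_def, map_neg, map_one, neg_one_mul]

private theorem pdv_one {y : ι} (hy : Odd (δ y)) : pdv hy 1 = 0 := by
  have h := pdv_mul hy (1 : Lam δ) 1
  have h1 : sgn δ (1 : Lam δ) = 1 := map_one (sgn δ)
  rw [h1, mul_one, mul_one, one_mul] at h
  exact (add_eq_left.1 h.symm)

/-- the derivative of a generator is `0` or `1` -/
private theorem pdv_gen_cases {y : ι} (hy : Odd (δ y)) (i : ι) :
    pdv hy (gen δ i) = 0 ∨ (i = y ∧ pdv hy (gen δ i) = 1) := by
  by_cases h : i = y
  · subst h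
    exact Or.inr ⟨rfl, pdv_gen hy⟩
  · exact Or.inl (pdv_gen_ne hy h)

/-- `sgn_pdv`, first version -/
private theorem sgn_pdv_aux {y : ι} (hy : Odd (δ y)) (a : Lam δ) :
    sgn δ (pdv hy a) + pdv hy (sgn δ a) = 0 := by
  refine lam_zero (sgn δ) (AlgHom.id ℚ _)
    ((sgn δ).toLinearMap.comp (pdv hy) + (pdv hy).comp (sgn δ).toLinearMap) ?_ ?_ a
  · intro a b
    simp only [LinearMap.add_apply, LinearMap.comp_apply, AlgHom.toLinearMap_apply,
      AlgHom.id_apply]
    rw [pdv_mul, map_add, map_mul, map_mul, map_mul, pdv_mul, sgn_sgn]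
    noncomm_ring
  · intro i
    simp only [LinearMap.add_apply, LinearMap.comp_apply, AlgHom.toLinearMap_apply]
    rw [sgn_gen, map_smul]
    rcases pdv_gen_cases hy i with h | ⟨h, h'⟩
    · rw [h, map_zero, smul_zero, add_zero]
    · subst h
      rw [h', map_one, hy.neg_one_pow, neg_one_smul_lam, add_neg_cancel]

theorem sgn_pdv {y : ι} (hy : Odd (δ y)) (a : Lam δ) :
    sgn δ (pdv hy a) = -pdv hy (sgn δ a) := eq_neg_of_add_eq_zero_left (sgn_pdv_aux hy a)

theorem pdv_pdv {y z : ι} (hy : Odd (δ y)) (hz : Odd (δ z)) (a : Lam δ) :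
    pdv hy (pdv hz a) = -pdv hz (pdv hy a) := by
  refine eq_neg_of_add_eq_zero_left ?_
  refine lam_zero (AlgHom.id ℚ _) (AlgHom.id ℚ _)
    ((pdv hy).comp (pdv hz) + (pdv hz).comp (pdv hy)) ?_ ?_ a
  · intro a b
    simp only [LinearMap.add_apply, LinearMap.comp_apply, AlgHom.id_apply]
    rw [pdv_mul hz, pdv_mul hy, map_add, map_add, pdv_mul hy, pdv_mul hy, pdv_mul hz, pdv_mul hz,
      sgn_pdv hz, sgn_pdv hy, sgn_sgn]
    noncomm_ring
  · intro i
    simp only [LinearMap.add_apply, LinearMap.comp_apply]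
    rcases pdv_gen_cases hy i with h | ⟨h, h'⟩
    · rcases pdv_gen_cases hz i with k | ⟨k, k'⟩
      · rw [h, k, map_zero, map_zero, add_zero]
      · rw [h, k', map_zero, pdv_one, add_zero]
    · rcases pdv_gen_cases hz i with k | ⟨k, k'⟩
      · rw [h', k, map_zero, pdv_one, add_zero]
      · rw [h', k', pdv_one, pdv_one, add_zero]

theorem tau_pdv {y : ι} (hy : Odd (δ y)) (a : Lam δ) :
    tau δ (pdv hy a) = ((2 : ℚ) ^ (-(δ y : ℤ))) • pdv hy (tau δ a) := by
  let F : Lam δ →ₗ[ℚ] Lam δ :=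
    { toFun := fun a => tau δ (pdv hy a) - ((2 : ℚ) ^ (-(δ y : ℤ))) • pdv hy (tau δ a)
      map_add' := fun a b => by
        rw [map_add, map_add, map_add, map_add, smul_add]
        abel
      map_smul' := fun r a => by
        rw [map_smul, map_smul, map_smul, map_smul, RingHom.id_apply, smul_sub,
          smul_comm r ((2 : ℚ) ^ (-(δ y : ℤ)))] }
  have hF : ∀ x, F x = tau δ (pdv hy x) - ((2 : ℚ) ^ (-(δ y : ℤ))) • pdv hy (tau δ x) :=
    fun _ => rfl
  have h0 : F a = 0 := by
    refine lam_zero (tau δ) ((tau δ).comp (sgn δ)) F ?_ ?_ a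
    · intro a b
      rw [hF, hF, hF, AlgHom.comp_apply, pdv_mul, map_add, map_mul, map_mul, map_mul, pdv_mul,
        ← tau_sgn, smul_add, ← smul_mul_assoc, ← mul_smul_comm]
      noncomm_ring
    · intro i
      rw [hF, tau_gen, map_smul]
      rcases pdv_gen_cases hy i with h | ⟨h, h'⟩
      · rw [h, map_zero, smul_zero, smul_zero, sub_zero]
      · subst h
        rw [h', map_one, smul_smul, zpow_neg, zpow_natCast, inv_mul_cancel₀ (by positivity),
          one_smul, sub_self]
  rw [hF] at h0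
  exact sub_eq_zero.1 h0

/-- `∂/∂y` anticommutes with a differential whose values on the generators do not involve `y`, up to
constants. -/
theorem pdv_d {y : ι} (hy : Odd (δ y)) {d : Lam δ →ₗ[ℚ] Lam δ} (hd : IsDifferential (hom δ) d)
    (h : ∀ i, pdv hy (d (gen δ i)) = 0) (a : Lam δ) : pdv hy (d a) = -d (pdv hy a) := by
  refine eq_neg_of_add_eq_zero_left ?_
  refine lam_zero (AlgHom.id ℚ _) (AlgHom.id ℚ _)
    ((pdv hy).comp d + d.comp (pdv hy)) ?_ ?_ a
  · intro a b
    simp only [LinearMap.add_apply, LinearMap.comp_apply, AlgHom.id_apply]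
    rw [d_mul hd, pdv_mul hy, map_add, map_add, pdv_mul hy, pdv_mul hy, d_mul hd, d_mul hd,
      sgn_pdv hy, sgn_d hd, sgn_sgn]
    noncomm_ring
  · intro i
    simp only [LinearMap.add_apply, LinearMap.comp_apply]
    rw [h i, zero_add]
    rcases pdv_gen_cases hy i with h | ⟨h, h'⟩
    · rw [h, map_zero]
    · rw [h', d_one hd]

theorem pdv_mapL {ι' : Type} {δ' : ι' → ℕ} (f : ι → ι') (hf : ∀ i, δ' (f i) = δ i)
    (hi : Function.Injective f) {y : ι} (hy : Odd (δ y)) (hy' : Odd (δ' (f y))) (a : Lam δ) :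
    pdv hy' (mapL f hf a) = mapL f hf (pdv hy a) := by
  let F : Lam δ →ₗ[ℚ] Lam δ' :=
    { toFun := fun a => pdv hy' (mapL f hf a) - mapL f hf (pdv hy a)
      map_add' := fun a b => by
        rw [map_add, map_add, map_add, map_add]
        abel
      map_smul' := fun r a => by
        rw [map_smul, map_smul, map_smul, map_smul, RingHom.id_apply, smul_sub] }
  have hF : ∀ x, F x = pdv hy' (mapL f hf x) - mapL f hf (pdv hy x) := fun _ => rfl
  have h0 : F a = 0 := by
    refine lam_zero (mapL f hf) ((mapL f hf).comp (sgn δ)) F ?_ ?_ a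
    · intro a b
      rw [hF, hF, hF, AlgHom.comp_apply, map_mul, pdv_mul, pdv_mul, map_add, map_mul, map_mul,
        mapL_sgn]
      noncomm_ring
    · intro i
      rw [hF, mapL_gen]
      rcases pdv_gen_cases hy i with h | ⟨h, h'⟩
      · have hne : i ≠ y := by
          rintro rfl
          rw [pdv_gen] at h
          have h3 := congrArg (bd δ) h
          rw [map_one, map_zero] at h3
          exact one_ne_zero h3
        rw [h, map_zero, pdv_gen_ne hy' (fun hc => hne (hi hc)), sub_zero]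
      · subst h
        rw [h', map_one, pdv_gen, sub_self]
  rw [hF] at h0
  exact sub_eq_zero.1 h0

private theorem pdv_mon_zero {y : ι} (hy : Odd (δ y)) (l : List ι) (hl : y ∉ l) :
    pdv hy (mon δ l) = 0 := by
  induction l with
  | nil => rw [mon_nil, pdv_one]
  | cons i l ih =>
    have h1 : i ≠ y := fun h => hl (by simp [h])
    have h2 : y ∉ l := fun h => hl (by simp [h])
    rw [mon_cons, pdv_mul, pdv_gen_ne hy h1, ih h2, zero_mul, mul_zero, add_zero]

theorem pdv_zero_of_SP {y : ι} (hy : Odd (δ y)) {a : Lam δ} (ha : a ∈ SP δ (fun l => y ∉ l)) :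
    pdv hy a = 0 := by
  unfold SP at ha
  induction ha using Submodule.span_induction with
  | mem x hx =>
    obtain ⟨l, hl, rfl⟩ := hx
    exact pdv_mon_zero hy l hl
  | zero => exact map_zero _
  | add x z _ _ hx hz => rw [map_add, hx, hz, add_zero]
  | smul r x _ hx => rw [map_smul, hx, smul_zero]

private theorem retr_gen_self' (y : ι) : retr δ {i : ι | i ≠ y} (gen δ y) = 0 := by
  simp [retr]

/-- The monomials without `y` are fixed, the others are killed. -/
private theorem inre_mon (y : ι) (l : List ι) :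
    (y ∉ l ∧ incl δ {i : ι | i ≠ y} (retr δ {i : ι | i ≠ y} (mon δ l)) = mon δ l) ∨
      incl δ {i : ι | i ≠ y} (retr δ {i : ι | i ≠ y} (mon δ l)) = 0 := by
  induction l with
  | nil => left; simp
  | cons i l ih =>
    rw [mon_cons, map_mul, map_mul]
    by_cases h : i = y
    · subst h
      right
      rw [retr_gen_self', map_zero, zero_mul]
    · rcases ih with ⟨h1, h2⟩ | h2
      · left
        refine ⟨?_, ?_⟩
        · intro hc
          rcases List.mem_cons.1 hc with hc | hc
          · exact h hc.symm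
          · exact h1 hc
        · have h3 : retr δ {i : ι | i ≠ y} (gen δ i) =
              gen (fun i : {i : ι | i ≠ y} => δ i) ⟨i, h⟩ := retr_gen δ {i : ι | i ≠ y} ⟨i, h⟩
          rw [h2, h3, incl_gen]
      · right
        rw [h2, mul_zero]

private theorem pdv_incl {y : ι} (hy : Odd (δ y)) (b : Lam (fun i : {i : ι | i ≠ y} => δ i)) :
    pdv hy (incl δ {i : ι | i ≠ y} b) = 0 := by
  induction b using Lam.induction with
  | hm l =>
    rw [incl_mon]
    refine pdv_mon_zero hy _ ?_
    intro hc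
    obtain ⟨i, -, hi⟩ := List.mem_map.1 hc
    exact i.2 hi
  | h0 => rw [map_zero, map_zero]
  | hadd a b ha hb => rw [map_add, map_add, ha, hb, add_zero]
  | hsmul r a ha => rw [map_smul, map_smul, ha, smul_zero]

/-- The element does not involve `y` if `∂/∂y` kills it. -/
theorem SP_of_pdv_zero {y : ι} (hy : Odd (δ y)) {p : List ι → Prop} {a : Lam δ}
    (ha : a ∈ SP δ p) (h : pdv hy a = 0) : a ∈ SP δ (fun l => p l ∧ y ∉ l) := by
  obtain ⟨q, hq, -⟩ := odd_split (deg := δ) hy
  have h1 := hq a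
  have h2 : incl δ {i : ι | i ≠ y} (q a) = 0 := by
    rw [h1, map_add, pdv_incl, zero_add, pdv_mul, pdv_gen, one_mul, pdv_incl, mul_zero,
      add_zero] at h
    exact h
  rw [h2, mul_zero, add_zero] at h1
  rw [h1]
  clear h1 h2 h hq
  unfold SP at ha
  induction ha using Submodule.span_induction with
  | mem x hx =>
    obtain ⟨l, hl, rfl⟩ := hx
    rcases inre_mon (δ := δ) y l with ⟨h1, h2⟩ | h2
    · rw [h2]
      exact Submodule.subset_span ⟨l, ⟨hl, h1⟩, rfl⟩
    · rw [h2]
      exact zero_mem _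
  | zero => rw [map_zero, map_zero]; exact zero_mem _
  | add x z _ _ hx hz => rw [map_add, map_add]; exact add_mem hx hz
  | smul r x _ hx => rw [map_smul, map_smul]; exact Submodule.smul_mem _ _ hx

private theorem pdv_mon_mem {y : ι} (hy : Odd (δ y)) (l : List ι) :
    pdv hy (mon δ l) ∈ Submodule.span ℚ
      {a | ∃ l₁ l₂ : List ι, l = l₁ ++ y :: l₂ ∧ a = mon δ (l₁ ++ l₂)} := by
  induction l with
  | nil => rw [mon_nil, pdv_one]; exact zero_mem _
  | cons i l ih =>
    rw [mon_cons, pdv_mul]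
    refine add_mem ?_ ?_
    · rcases pdv_gen_cases hy i with h | ⟨h, h'⟩
      · rw [h, zero_mul]; exact zero_mem _
      · rw [h', one_mul]
        subst h
        exact Submodule.subset_span ⟨[], l, rfl, rfl⟩
    · rw [sgn_gen, smul_mul_assoc]
      refine Submodule.smul_mem _ _ ?_
      generalize pdv hy (mon δ l) = t at ih ⊢
      induction ih using Submodule.span_induction with
      | mem x hx =>
        obtain ⟨l₁, l₂, hl, rfl⟩ := hx
        refine Submodule.subset_span ⟨i :: l₁, l₂, ?_, ?_⟩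
        · rw [hl]; rfl
        · rw [List.cons_append, mon_cons]
      | zero => rw [mul_zero]; exact zero_mem _
      | add x z _ _ hx hz => rw [mul_add]; exact add_mem hx hz
      | smul r x _ hx => rw [mul_smul_comm]; exact Submodule.smul_mem _ _ hx

/-- `∂/∂y` removes one letter `y` from each monomial. -/
theorem pdv_SP {y : ι} (hy : Odd (δ y)) {p q : List ι → Prop}
    (hpq : ∀ l₁ l₂ : List ι, p (l₁ ++ y :: l₂) → q (l₁ ++ l₂)) {a : Lam δ} (ha : a ∈ SP δ p) :
    pdv hy a ∈ SP δ q := by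
  unfold SP at ha
  induction ha using Submodule.span_induction with
  | mem x hx =>
    obtain ⟨l, hl, rfl⟩ := hx
    refine Submodule.span_le.2 ?_ (pdv_mon_mem hy l)
    rintro _ ⟨l₁, l₂, h, rfl⟩
    refine Submodule.subset_span ⟨l₁ ++ l₂, hpq l₁ l₂ ?_, rfl⟩
    rw [← h]; exact hl
  | zero => rw [map_zero]; exact zero_mem _
  | add x z _ _ hx hz => rw [map_add]; exact add_mem hx hz
  | smul r x _ hx => rw [map_smul]; exact Submodule.smul_mem _ _ hx

end

end AnWL
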