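import Pool.Agent.Helper48.WL.C01

/-!
C02a. The localisation `Lc δ` of `Lam δ` at the even elements with non-zero body (a central submonoid).

* `lc` is `OreLocalization.numeratorRingHom`; `lc_surj`: `OreLocalization.ind`, `x = a /ₒ s`.
* `lc_inj`: `OreLocalization.numeratorHom_inj` and `bd_reg`.
* `exists_lift`: `OreLocalization.universalHom`, with `fS s = (h s).unit`-type monoid homomorphism
  (`IsUnit.liftRight`-style; e.g. `Units.liftRight`). It is `ℚ`-linear: use `map_rat_smul`/`RingHom.toRatAlgHom`.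
* `lc_zero`: for `x` with `lc s * x = lc a`: `0 = F (lc s * x) = F (lc s) * _ + ρ₂ (lc s) * F x`, `ρ₂ (lc s)` is a unit.
-/

set_option autoImplicit false

namespace AnWL
open Anick2

section
variable {ι : Type} (δ : ι → ℕ)

/-- The even elements with non-zero body. -/
def Sm : Submonoid (Lam δ) where
  carrier := {a | sgn δ a = a ∧ bd δ a ≠ 0}
  one_mem' := ⟨map_one _, by rw [map_one]; exact one_ne_zero⟩
  mul_mem' := by
    rintro a b ⟨h1, h2⟩ ⟨h3, h4⟩
    exact ⟨by rw [map_mul, h1, h3], by rw [map_mul]; exact mul_ne_zero h2 h4⟩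

theorem Sm_comm {s : Lam δ} (hs : s ∈ Sm δ) (r : Lam δ) : s * r = r * s := even_comm hs.1 r

noncomputable instance instOreSm : OreLocalization.OreSet (Sm δ) where
  ore_right_cancel r₁ r₂ s h := ⟨s, by
    rw [Sm_comm δ s.2, Sm_comm δ s.2]
    exact h⟩
  oreNum r _ := r
  oreDenom _ s := s
  ore_eq r s := Sm_comm δ s.2 r

/-- The localisation. -/
def Lc : Type := OreLocalization (Sm δ) (Lam δ)

noncomputable instance instRingLc : Ring (Lc δ) :=
  inferInstanceAs (Ring (OreLocalization (Sm δ) (Lam δ)))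

noncomputable instance instAlgebraLc : Algebra ℚ (Lc δ) :=
  inferInstanceAs (Algebra ℚ (OreLocalization (Sm δ) (Lam δ)))

/-- The canonical map. -/
noncomputable def lc : Lam δ →ₐ[ℚ] Lc δ where
  toRingHom := (OreLocalization.numeratorRingHom : Lam δ →+* OreLocalization (Sm δ) (Lam δ))
  commutes' _ := rfl

variable {δ}

theorem lc_unit {s : Lam δ} (hs : s ∈ Sm δ) : IsUnit (lc δ s) :=
  OreLocalization.numerator_isUnit (R := Lam δ) (S := Sm δ) ⟨s, hs⟩

theorem lc_surj (x : Lc δ) : ∃ a : Lam δ, ∃ s ∈ Sm δ, lc δ s * x = lc δ a := by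
  induction x using OreLocalization.ind with
  | c r s =>
    exact ⟨r, s, s.2, OreLocalization.mul_cancel (R := Lam δ) (S := Sm δ)⟩

theorem lc_inj [Finite ι] : Function.Injective (lc δ) := by
  refine OreLocalization.numeratorHom_inj (R := Lam δ) (S := Sm δ) ?_
  intro s hs
  rw [mem_nonZeroDivisorsLeft_iff]
  intro b hb
  exact bd_reg hs.2 hb

theorem exists_lift {B : Type} [Ring B] [Algebra ℚ B] (f : Lam δ →ₐ[ℚ] B)
    (h : ∀ a ∈ Sm δ, IsUnit (f a)) : ∃ F : Lc δ →ₐ[ℚ] B, ∀ a, F (lc δ a) = f a := by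
  let fS : Sm δ →* Bˣ := IsUnit.liftRight ((f : Lam δ →* B).comp (Sm δ).subtype) fun s => h s s.2
  have hf : ∀ s : Sm δ, (f : Lam δ →+* B) s = fS s := fun s => rfl
  let F : OreLocalization (Sm δ) (Lam δ) →+* B :=
    OreLocalization.universalHom (f : Lam δ →+* B) fS hf
  have hF : ∀ a : Lam δ, F (OreLocalization.numeratorHom a) = f a := fun a =>
    OreLocalization.universalHom_commutes (f : Lam δ →+* B) fS hf
  exact ⟨RingHom.toRatAlgHom (R := Lc δ) F, hF⟩

theorem lc_hom_ext {B : Type} [Ring B] [Algebra ℚ B] {F G : Lc δ →ₐ[ℚ] B}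
    (h : ∀ a, F (lc δ a) = G (lc δ a)) : F = G := by
  refine AlgHom.ext fun x => ?_
  obtain ⟨a, s, hs, hx⟩ := lc_surj x
  have h1 : F (lc δ s) * F x = F (lc δ s) * G x := by
    rw [← map_mul, hx, h s, ← map_mul, hx, h a]
  exact ((lc_unit hs).map F).mul_left_cancel h1

theorem lc_zero {B : Type} [Ring B] [Algebra ℚ B] (ρ₁ ρ₂ : Lc δ →ₐ[ℚ] B) (F : Lc δ →ₗ[ℚ] B)
    (hF : ∀ x y, F (x * y) = F x * ρ₁ y + ρ₂ x * F y) (h : ∀ a, F (lc δ a) = 0) (x : Lc δ) :
    F x = 0 := by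
  obtain ⟨a, s, hs, hx⟩ := lc_surj x
  have h1 : ρ₂ (lc δ s) * F x = 0 := by
    have h2 := hF (lc δ s) x
    rw [hx, h a, h s, zero_mul, zero_add] at h2
    exact h2.symm
  exact ((lc_unit hs).map ρ₂).mul_right_eq_zero.1 h1


end

end AnWL
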