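import Pool.Agent.Helper48.WL.C02a

/-!
C02b. Extension of the structure from `Lam δ` to `Lc δ`.

All identities by `lc_hom_ext`, `lc_zero`. `lc_even_comm`, `lc_odd_anti`: `lc s * x = lc a`, `lc t * y = lc b` with central
units `lc s`, `lc t`; `lcs x = ± x` gives `lc (sgn a) = ± lc a`, `lc_inj`, `even_comm`, `odd_anti`.
`exists_lder`: `a ↦ !![lc (sgn a), lc (D a); 0, lc a]` is an algebra homomorphism to `Matrix (Fin 2) (Fin 2) (Lc δ)`
(an `AlgHom` from `hD`; `D 1 = 0`, `D (r • 1) = 0`) which maps `Sm δ` to units (`!![u, v; 0, u]`, `u` a unit), `exists_lift`.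
The entries of the lift `G`: `G x 1 0 = 0`, `G x 1 1 = x`, `G x 0 0 = lcs x` (for `x` with `lc s * x = lc a` compare the entries of
`G (lc s) * G x = G (lc a)`). `D' x = G x 0 1`.
-/

set_option autoImplicit false

namespace AnWL
open Anick2

section
variable {ι : Type} {δ : ι → ℕ}

/-- An algebra map of `Lam δ → Lam δ'` which preserves the denominators extends. -/
theorem exists_lcMap {ι' : Type} {δ' : ι' → ℕ} (f : Lam δ →ₐ[ℚ] Lam δ')
    (h : ∀ a ∈ Sm δ, f a ∈ Sm δ') : ∃ F : Lc δ →ₐ[ℚ] Lc δ', ∀ a, F (lc δ a) = lc δ' (f a) :=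
  exists_lift ((lc δ').comp f) (fun a ha => lc_unit (h a ha))

theorem sgn_Sm {a : Lam δ} (ha : a ∈ Sm δ) : sgn δ a ∈ Sm δ := by rw [ha.1]; exact ha

theorem tau_Sm {a : Lam δ} (ha : a ∈ Sm δ) : tau δ a ∈ Sm δ :=
  ⟨by rw [← tau_sgn, ha.1], bd_tau_ne ha.2⟩

theorem mapL_Sm {ι' : Type} {δ' : ι' → ℕ} (f : ι → ι') (hf : ∀ i, δ' (f i) = δ i)
    (hi : Function.Injective f) {a : Lam δ} (ha : a ∈ Sm δ) : mapL f hf a ∈ Sm δ' :=
  ⟨by rw [← mapL_sgn, ha.1], bd_mapL_ne f hf hi ha.2⟩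

variable (δ) in
/-- The sign involution of `Lc δ`. -/
noncomputable def lcs : Lc δ →ₐ[ℚ] Lc δ := (exists_lcMap (sgn δ) (fun _ h => sgn_Sm h)).choose

theorem lcs_lc (a : Lam δ) : lcs δ (lc δ a) = lc δ (sgn δ a) :=
  (exists_lcMap (sgn δ) (fun _ h => sgn_Sm h)).choose_spec a

variable (δ) in
/-- The degree operator of `Lc δ`. -/
noncomputable def lct : Lc δ →ₐ[ℚ] Lc δ := (exists_lcMap (tau δ) (fun _ h => tau_Sm h)).choose

theorem lct_lc (a : Lam δ) : lct δ (lc δ a) = lc δ (tau δ a) :=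
  (exists_lcMap (tau δ) (fun _ h => tau_Sm h)).choose_spec a

theorem lcs_lcs (x : Lc δ) : lcs δ (lcs δ x) = x := by
  have h : (lcs δ).comp (lcs δ) = AlgHom.id ℚ (Lc δ) := by
    apply lc_hom_ext
    intro a
    rw [AlgHom.comp_apply, lcs_lc, lcs_lc, sgn_sgn, AlgHom.id_apply]
  exact DFunLike.congr_fun h x

theorem lct_lcs (x : Lc δ) : lct δ (lcs δ x) = lcs δ (lct δ x) := by
  have h : (lct δ).comp (lcs δ) = (lcs δ).comp (lct δ) := by
    apply lc_hom_ext
    intro a
    rw [AlgHom.comp_apply, AlgHom.comp_apply, lcs_lc, lct_lc, lct_lc, lcs_lc, tau_sgn]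
  exact DFunLike.congr_fun h x

/-- The denominators are central. -/
private theorem lc_central {s : Lam δ} (hs : s ∈ Sm δ) (x : Lc δ) : lc δ s * x = x * lc δ s := by
  obtain ⟨a, t, ht, h⟩ := lc_surj x
  have h1 : lc δ s * lc δ t = lc δ t * lc δ s := by
    rw [← map_mul, ← map_mul, Sm_comm δ hs]
  have h2 : lc δ s * lc δ a = lc δ a * lc δ s := by
    rw [← map_mul, ← map_mul, Sm_comm δ hs]
  apply (lc_unit ht).mul_left_cancel
  rw [← mul_assoc, ← h1, mul_assoc, h, h2, ← h, mul_assoc]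

/-- Parity of a numerator. -/
private theorem lcs_num {a s : Lam δ} (hs : s ∈ Sm δ) {x : Lc δ} (h : lc δ s * x = lc δ a) :
    lc δ s * lcs δ x = lc δ (sgn δ a) := by
  have h1 := congrArg (lcs δ) h
  rw [map_mul, lcs_lc, lcs_lc, hs.1] at h1
  exact h1

theorem lc_even_comm [Finite ι] {x : Lc δ} (hx : lcs δ x = x) (y : Lc δ) : x * y = y * x := by
  obtain ⟨a, s, hs, h⟩ := lc_surj x
  obtain ⟨b, t, ht, h'⟩ := lc_surj y
  have ha : sgn δ a = a := by
    apply lc_inj
    rw [← lcs_num hs h, hx, h]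
  have hab : a * b = b * a := even_comm ha b
  apply (lc_unit hs).mul_left_cancel
  apply (lc_unit ht).mul_left_cancel
  have e1 : lc δ t * (lc δ s * (x * y)) = lc δ a * lc δ b := by
    rw [← h, ← h', ← mul_assoc (lc δ s) x y, ← mul_assoc, lc_central ht (lc δ s * x), mul_assoc]
  have e2 : lc δ t * (lc δ s * (y * x)) = lc δ b * lc δ a := by
    rw [← h, ← h', ← mul_assoc (lc δ s) y x, lc_central hs y, mul_assoc y, ← mul_assoc]
  rw [e1, e2, ← map_mul, ← map_mul, hab]

theorem lc_odd_anti [Finite ι] {x y : Lc δ} (hx : lcs δ x = -x) (hy : lcs δ y = -y) :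
    x * y = -(y * x) := by
  obtain ⟨a, s, hs, h⟩ := lc_surj x
  obtain ⟨b, t, ht, h'⟩ := lc_surj y
  have ha : sgn δ a = -a := by
    apply lc_inj
    rw [← lcs_num hs h, hx, mul_neg, h, map_neg]
  have hb : sgn δ b = -b := by
    apply lc_inj
    rw [← lcs_num ht h', hy, mul_neg, h', map_neg]
  have hab : a * b = -(b * a) := odd_anti ha hb
  apply (lc_unit hs).mul_left_cancel
  apply (lc_unit ht).mul_left_cancel
  have e1 : lc δ t * (lc δ s * (x * y)) = lc δ a * lc δ b := by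
    rw [← h, ← h', ← mul_assoc (lc δ s) x y, ← mul_assoc, lc_central ht (lc δ s * x), mul_assoc]
  have e2 : lc δ t * (lc δ s * (y * x)) = lc δ b * lc δ a := by
    rw [← h, ← h', ← mul_assoc (lc δ s) y x, lc_central hs y, mul_assoc y, ← mul_assoc]
  rw [e1, mul_neg, mul_neg, e2, ← map_mul, ← map_mul, hab, map_neg]

/-- Odd derivations extend. -/
theorem exists_lder (D : Lam δ →ₗ[ℚ] Lam δ) (hD : ∀ a b, D (a * b) = D a * b + sgn δ a * D b) :
    ∃ D' : Lc δ →ₗ[ℚ] Lc δ, (∀ a, D' (lc δ a) = lc δ (D a)) ∧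
      ∀ x y, D' (x * y) = D' x * y + lcs δ x * D' y := by
  have D1 : D 1 = 0 := by
    have h := hD 1 1
    rw [one_mul, mul_one, (map_one (sgn δ) : sgn δ 1 = 1), one_mul] at h
    exact left_eq_add.mp h
  have hf1 : (!![lc δ (sgn δ 1), lc δ (D 1); 0, lc δ 1] : Matrix (Fin 2) (Fin 2) (Lc δ)) = 1 := by
    rw [D1]
    ext i j
    fin_cases i <;> fin_cases j <;> simp
  let f : Lam δ →ₐ[ℚ] Matrix (Fin 2) (Fin 2) (Lc δ) :=
    AlgHom.ofLinearMap
      { toFun := fun a => !![lc δ (sgn δ a), lc δ (D a); 0, lc δ a]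
        map_add' := by
          intro a b
          ext i j
          fin_cases i <;> fin_cases j <;> simp
        map_smul' := by
          intro c a
          ext i j
          fin_cases i <;> fin_cases j <;> simp }
      hf1
      (by
        intro a b
        ext i j
        fin_cases i <;> fin_cases j <;> simp [hD, Matrix.mul_apply, Fin.sum_univ_two, add_comm])
  have hf : ∀ a, f a = !![lc δ (sgn δ a), lc δ (D a); 0, lc δ a] := fun a => rfl
  have hu : ∀ a ∈ Sm δ, IsUnit (f a) := by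
    intro a ha
    obtain ⟨u, hu⟩ := lc_unit ha
    rw [hf, ha.1, ← hu]
    refine ⟨⟨!![(u : Lc δ), lc δ (D a); 0, (u : Lc δ)],
      !![((u⁻¹ : (Lc δ)ˣ) : Lc δ), -(((u⁻¹ : (Lc δ)ˣ) : Lc δ) * lc δ (D a) * ((u⁻¹ : (Lc δ)ˣ) : Lc δ));
        0, ((u⁻¹ : (Lc δ)ˣ) : Lc δ)], ?_, ?_⟩, rfl⟩
    · ext i j
      fin_cases i <;> fin_cases j <;>
        simp [Matrix.mul_apply, Fin.sum_univ_two, mul_assoc]
    · ext i j
      fin_cases i <;> fin_cases j <;>
        simp [Matrix.mul_apply, Fin.sum_univ_two, mul_assoc]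
  obtain ⟨G, hG⟩ := exists_lift f hu
  have hent : ∀ x, G x 1 0 = 0 ∧ G x 1 1 = x ∧ G x 0 0 = lcs δ x := by
    intro x
    obtain ⟨a, s, hs, h⟩ := lc_surj x
    have h1 : G (lc δ s) * G x = G (lc δ a) := by rw [← map_mul, h]
    rw [hG, hG, hf, hf, hs.1] at h1
    have u := lc_unit hs
    have e10 : G x 1 0 = 0 := by
      have h2 := congrFun (congrFun h1 1) 0
      simp [Matrix.mul_apply, Fin.sum_univ_two] at h2
      apply u.mul_left_cancel
      rw [mul_zero]
      exact h2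
    refine ⟨e10, ?_, ?_⟩
    · have h2 := congrFun (congrFun h1 1) 1
      simp [Matrix.mul_apply, Fin.sum_univ_two] at h2
      apply u.mul_left_cancel
      rw [h]
      exact h2
    · have h2 := congrFun (congrFun h1 0) 0
      simp [Matrix.mul_apply, Fin.sum_univ_two, e10] at h2
      apply u.mul_left_cancel
      rw [lcs_num hs h]
      exact h2
  refine ⟨{ toFun := fun x => G x 0 1, map_add' := ?_, map_smul' := ?_ }, ?_, ?_⟩
  · intro x y
    rw [map_add]
    rfl
  · intro c x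
    rw [map_smul]
    rfl
  · intro a
    show G (lc δ a) 0 1 = lc δ (D a)
    rw [hG, hf]
    rfl
  · intro x y
    show G (x * y) 0 1 = G x 0 1 * y + lcs δ x * G y 0 1
    rw [map_mul, Matrix.mul_apply, Fin.sum_univ_two, (hent x).2.2, (hent y).2.1, add_comm]

/-- The extension of an odd derivation. -/
noncomputable def lder (D : Lam δ →ₗ[ℚ] Lam δ)
    (hD : ∀ a b, D (a * b) = D a * b + sgn δ a * D b) : Lc δ →ₗ[ℚ] Lc δ :=
  (exists_lder D hD).choose

theorem lder_lc (D : Lam δ →ₗ[ℚ] Lam δ) (hD : ∀ a b, D (a * b) = D a * b + sgn δ a * D b)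
    (a : Lam δ) : lder D hD (lc δ a) = lc δ (D a) := (exists_lder D hD).choose_spec.1 a

theorem lder_mul (D : Lam δ →ₗ[ℚ] Lam δ) (hD : ∀ a b, D (a * b) = D a * b + sgn δ a * D b)
    (x y : Lc δ) : lder D hD (x * y) = lder D hD x * y + lcs δ x * lder D hD y :=
  (exists_lder D hD).choose_spec.2 x y

private theorem lcs_lder' (D : Lam δ →ₗ[ℚ] Lam δ) (hD : ∀ a b, D (a * b) = D a * b + sgn δ a * D b)
    (sD : ∀ a, sgn δ (D a) = -D (sgn δ a)) (x : Lc δ) :
    lcs δ (lder D hD x) = -lder D hD (lcs δ x) := by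
  have h := lc_zero (lcs δ) (AlgHom.id ℚ (Lc δ))
    ((lcs δ).toLinearMap.comp (lder D hD) + (lder D hD).comp (lcs δ).toLinearMap)
    (by
      intro x y
      simp only [LinearMap.add_apply, LinearMap.comp_apply, AlgHom.toLinearMap_apply, AlgHom.id_apply]
      rw [lder_mul, map_add, map_mul, map_mul, lcs_lcs, map_mul, lder_mul, lcs_lcs]
      noncomm_ring)
    (by
      intro a
      simp only [LinearMap.add_apply, LinearMap.comp_apply, AlgHom.toLinearMap_apply]
      rw [lder_lc, lcs_lc, lcs_lc, lder_lc, sD, map_neg, neg_add_cancel]) x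
  simp only [LinearMap.add_apply, LinearMap.comp_apply, AlgHom.toLinearMap_apply] at h
  exact eq_neg_of_add_eq_zero_left h

/-- Anticommuting odd derivations. -/
theorem lder_anti (D E : Lam δ →ₗ[ℚ] Lam δ)
    (hD : ∀ a b, D (a * b) = D a * b + sgn δ a * D b)
    (hE : ∀ a b, E (a * b) = E a * b + sgn δ a * E b)
    (sD : ∀ a, sgn δ (D a) = -D (sgn δ a)) (sE : ∀ a, sgn δ (E a) = -E (sgn δ a))
    (h : ∀ a, D (E a) = -E (D a)) (x : Lc δ) :
    lder D hD (lder E hE x) = -lder E hE (lder D hD x) := by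
  have h := lc_zero (AlgHom.id ℚ (Lc δ)) (AlgHom.id ℚ (Lc δ))
    ((lder D hD).comp (lder E hE) + (lder E hE).comp (lder D hD))
    (by
      intro x y
      simp only [LinearMap.add_apply, LinearMap.comp_apply, AlgHom.id_apply]
      rw [lder_mul, lder_mul, map_add, map_add, lder_mul, lder_mul, lder_mul, lder_mul,
        lcs_lder' D hD sD, lcs_lder' E hE sE, lcs_lcs]
      noncomm_ring)
    (by
      intro a
      simp only [LinearMap.add_apply, LinearMap.comp_apply]
      rw [lder_lc, lder_lc, lder_lc, lder_lc, h, map_neg, neg_add_cancel]) x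
  simp only [LinearMap.add_apply, LinearMap.comp_apply] at h
  exact eq_neg_of_add_eq_zero_left h

theorem lcs_lder (D : Lam δ →ₗ[ℚ] Lam δ) (hD : ∀ a b, D (a * b) = D a * b + sgn δ a * D b)
    (sD : ∀ a, sgn δ (D a) = -D (sgn δ a)) (x : Lc δ) :
    lcs δ (lder D hD x) = -lder D hD (lcs δ x) := lcs_lder' D hD sD x

theorem lct_lder (D : Lam δ →ₗ[ℚ] Lam δ) (hD : ∀ a b, D (a * b) = D a * b + sgn δ a * D b)
    (c : ℚ) (tD : ∀ a, tau δ (D a) = c • D (tau δ a)) (x : Lc δ) :
    lct δ (lder D hD x) = c • lder D hD (lct δ x) := by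
  have h := lc_zero (lct δ) ((lcs δ).comp (lct δ))
    ((lct δ).toLinearMap.comp (lder D hD) - c • (lder D hD).comp (lct δ).toLinearMap)
    (by
      intro x y
      simp only [LinearMap.sub_apply, LinearMap.smul_apply, LinearMap.comp_apply,
        AlgHom.toLinearMap_apply, AlgHom.comp_apply]
      rw [lder_mul, map_add, map_mul, map_mul, map_mul, lder_mul, lct_lcs, smul_add, sub_mul, mul_sub,
        smul_mul_assoc, mul_smul_comm]
      abel)
    (by
      intro a
      simp only [LinearMap.sub_apply, LinearMap.smul_apply, LinearMap.comp_apply,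
        AlgHom.toLinearMap_apply]
      rw [lder_lc, lct_lc, lct_lc, lder_lc, tD, map_smul, sub_self]) x
  simp only [LinearMap.sub_apply, LinearMap.smul_apply, LinearMap.comp_apply,
    AlgHom.toLinearMap_apply] at h
  exact sub_eq_zero.mp h

/-- Compatible maps and derivations. -/
theorem lder_map {ι' : Type} {δ' : ι' → ℕ} (F : Lc δ →ₐ[ℚ] Lc δ') (f : Lam δ →ₐ[ℚ] Lam δ')
    (hF : ∀ a, F (lc δ a) = lc δ' (f a)) (hs : ∀ a, sgn δ' (f a) = f (sgn δ a))
    (D : Lam δ →ₗ[ℚ] Lam δ) (hD : ∀ a b, D (a * b) = D a * b + sgn δ a * D b)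
    (D' : Lam δ' →ₗ[ℚ] Lam δ') (hD' : ∀ a b, D' (a * b) = D' a * b + sgn δ' a * D' b)
    (h : ∀ a, D' (f a) = f (D a)) (x : Lc δ) :
    lder D' hD' (F x) = F (lder D hD x) := by
  have hFs : ∀ y, lcs δ' (F y) = F (lcs δ y) := by
    have h1 : (lcs δ').comp F = F.comp (lcs δ) := by
      apply lc_hom_ext
      intro a
      rw [AlgHom.comp_apply, AlgHom.comp_apply, hF, lcs_lc, lcs_lc, hF, hs]
    exact fun y => DFunLike.congr_fun h1 y
  have h2 := lc_zero F (F.comp (lcs δ))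
    ((lder D' hD').comp F.toLinearMap - F.toLinearMap.comp (lder D hD))
    (by
      intro x y
      simp only [LinearMap.sub_apply, LinearMap.comp_apply, AlgHom.toLinearMap_apply,
        AlgHom.comp_apply]
      rw [map_mul, lder_mul, lder_mul, map_add, map_mul, map_mul, hFs, sub_mul, mul_sub]
      abel)
    (by
      intro a
      simp only [LinearMap.sub_apply, LinearMap.comp_apply, AlgHom.toLinearMap_apply]
      rw [hF, lder_lc, lder_lc, hF, h, sub_self]) x
  simp only [LinearMap.sub_apply, LinearMap.comp_apply, AlgHom.toLinearMap_apply] at h2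
  exact sub_eq_zero.mp h2

end

end AnWL
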