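import Pool.Agent.Helper48.WL.Defs
import Pool.Agent.Helper48.WL.C02b

/-!
C03a. Total systems `T` (a minimal Sullivan algebra `ΛW`, even coordinates `u`, odd coordinates `X_j`, a differential
`D` on `ΛW ⊗ Λ(u, X)`) .

`SP δ p` = span of the monomials `mon l` with `p l`; `cW l` = number of the letters `inl _` in `l`.
`T.D_SP`: `D` maps the ideal generated by the letters of `W` into itself: on generators `inl i`: `ext`, `S.minimal` (`d w_i` is a
combination of monomials of length `≥ 2`); on `inr t`: `Dt`; then the product rule. `p_D`: `pdv_d`, the values of `D` on the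
generators contain no letter `X` (`ext`, `Dt`; `pdv_zero_of_SP`). `p_Y`: `pdv_zero_of_SP`. `p_SP`: `pdv_SP`.
-/

set_option autoImplicit false

namespace AnWL
open Anick2

/-- Parameters: the degrees of the even coordinates `u` and of the odd coordinates `X`. -/
structure Par where
  U : Type
  M : Type
  finU : Finite U
  finM : Finite M
  du : U → ℕ
  dm : M → ℕ
  N : ℕ
  du_even : ∀ u, Even (du u)
  du_pos : ∀ u, 2 ≤ du u
  dm_odd : ∀ j, Odd (dm j)
  N_pos : 1 ≤ N

/-- The degrees of the coordinates. -/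
abbrev Par.dq (P : Par) : P.U ⊕ P.M → ℕ := Sum.elim P.du P.dm

/-- Total systems. -/
structure TS (P : Par) where
  ι : Type
  fin : Finite ι
  deg : ι → ℕ
  S : MinimalSullivan deg
  D : Lam (Sum.elim deg P.dq) →ₗ[ℚ] Lam (Sum.elim deg P.dq)
  diff : IsDifferential (hom (Sum.elim deg P.dq)) D
  ext : ∀ a, D (iL deg P.dq a) = iL deg P.dq (S.d a)
  Dt : ∀ t, D (gen (Sum.elim deg P.dq) (Sum.inr t)) ∈
    SP (Sum.elim deg P.dq) (fun l => 1 ≤ cW l ∧ ∀ j : P.M, Sum.inr (Sum.inr j) ∉ l)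
  Y : P.M → Lam (Sum.elim deg P.dq)
  Y_hom : ∀ j, Y j ∈ hom (Sum.elim deg P.dq) (P.N * (P.dm j + 1) - 1)
  Y_free : ∀ j, Y j ∈ SP (Sum.elim deg P.dq) (fun l => ∀ j' : P.M, Sum.inr (Sum.inr j') ∉ l)
  D_Y : ∀ j, D (Y j) = D (gen (Sum.elim deg P.dq) (Sum.inr (Sum.inr j))) ^ P.N

variable {P : Par}

/-- The degrees of all the letters. -/
abbrev TS.dt (T : TS P) : T.ι ⊕ (P.U ⊕ P.M) → ℕ := Sum.elim T.deg P.dq

/-- The letter `w_i`. -/
noncomputable abbrev TS.gW (T : TS P) (i : T.ι) : Lam T.dt := gen T.dt (Sum.inl i)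

/-- The letter `u`. -/
noncomputable abbrev TS.gU (T : TS P) (u : P.U) : Lam T.dt := gen T.dt (Sum.inr (Sum.inl u))

/-- The letter `X_j`. -/
noncomputable abbrev TS.gX (T : TS P) (j : P.M) : Lam T.dt := gen T.dt (Sum.inr (Sum.inr j))

theorem TS.finT (T : TS P) : Finite (T.ι ⊕ (P.U ⊕ P.M)) := by
  have := T.fin
  have := P.finU
  have := P.finM
  infer_instance

theorem TS.odd (T : TS P) (j : P.M) : Odd (T.dt (Sum.inr (Sum.inr j))) := P.dm_odd j

theorem TS.leib (T : TS P) (a b : Lam T.dt) : T.D (a * b) = T.D a * b + sgn T.dt a * T.D b :=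
  d_mul T.diff a b

/-- `∂/∂X_j`. -/
noncomputable def TS.p (T : TS P) (j : P.M) : Lam T.dt →ₗ[ℚ] Lam T.dt := pdv (T.odd j)

private theorem SP_indA {κ : Type} {δ : κ → ℕ} {p : List κ → Prop} {C : Lam δ → Prop}
    (hm : ∀ l, p l → C (mon δ l)) (h0 : C 0)
    (hadd : ∀ a b, C a → C b → C (a + b)) (hsmul : ∀ (r : ℚ) a, C a → C (r • a))
    {a : Lam δ} (ha : a ∈ SP δ p) : C a := by
  unfold SP at ha
  induction ha using Submodule.span_induction with
  | mem x hx => obtain ⟨l, hl, rfl⟩ := hx; exact hm l hl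
  | zero => exact h0
  | add y z _ _ hy hz => exact hadd _ _ hy hz
  | smul r y _ hy => exact hsmul _ _ hy

private theorem SP_monoA {κ : Type} {δ : κ → ℕ} {p q : List κ → Prop} (h : ∀ l, p l → q l)
    {a : Lam δ} (ha : a ∈ SP δ p) : a ∈ SP δ q :=
  SP_indA (C := fun a => a ∈ SP δ q) (fun l hl => Submodule.subset_span ⟨l, h l hl, rfl⟩)
    (zero_mem _) (fun _ _ h1 h2 => add_mem h1 h2) (fun _ _ h1 => Submodule.smul_mem _ _ h1) ha

private theorem cW_appendA {ι κ : Type} (l l' : List (ι ⊕ κ)) : cW (l ++ l') = cW l + cW l' := by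
  unfold cW
  rw [List.filter_append, List.length_append]

private theorem SP_mulA {ι κ : Type} {δ : ι ⊕ κ → ℕ} {k m : ℕ} {a b : Lam δ}
    (ha : a ∈ SP δ (fun l => k ≤ cW l)) (hb : b ∈ SP δ (fun l => m ≤ cW l)) :
    a * b ∈ SP δ (fun l => k + m ≤ cW l) := by
  refine SP_indA (C := fun a => a * b ∈ SP δ (fun l => k + m ≤ cW l)) (fun l hl => ?_) ?_
    (fun a a' ha ha' => by rw [add_mul]; exact add_mem ha ha')
    (fun r a ha => by rw [smul_mul_assoc]; exact Submodule.smul_mem _ _ ha) ha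
  · refine SP_indA (C := fun b => mon δ l * b ∈ SP δ (fun l => k + m ≤ cW l)) (fun l' hl' => ?_)
      ?_ (fun a a' ha ha' => by rw [mul_add]; exact add_mem ha ha')
      (fun r a ha => by rw [mul_smul_comm]; exact Submodule.smul_mem _ _ ha) hb
    · rw [← mon_append]
      refine Submodule.subset_span ⟨_, ?_, rfl⟩
      change k + m ≤ cW (l ++ l')
      rw [cW_appendA]
      exact Nat.add_le_add hl hl'
    · rw [mul_zero]; exact zero_mem _
  · rw [zero_mul]; exact zero_mem _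

private theorem SP_topA {ι κ : Type} (δ : ι ⊕ κ → ℕ) (a : Lam δ) :
    a ∈ SP δ (fun l => 0 ≤ cW l) := by
  induction a using Lam.induction with
  | hm l => exact Submodule.subset_span ⟨l, Nat.zero_le _, rfl⟩
  | h0 => exact zero_mem _
  | hadd a b ha hb => exact add_mem ha hb
  | hsmul r a ha => exact Submodule.smul_mem _ _ ha

private theorem cW_mapA {ι κ : Type} (l : List ι) :
    cW (l.map (Sum.inl : ι → ι ⊕ κ)) = l.length := by
  unfold cW
  induction l with
  | nil => rfl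
  | cons i l ih =>
    rw [List.map_cons, List.filter_cons_of_pos (by rfl), List.length_cons, List.length_cons, ih]

private theorem iL_SPA {ι κ : Type} (δ : ι → ℕ) (δ' : κ → ℕ) {n : ℕ} {a : Lam δ}
    (ha : a ∈ Submodule.span ℚ {a | ∃ l : List ι, n ≤ l.length ∧ a = (l.map (gen δ)).prod}) :
    iL δ δ' a ∈ SP (Sum.elim δ δ') (fun l => n ≤ cW l ∧ ∀ t : κ, Sum.inr t ∉ l) := by
  induction ha using Submodule.span_induction with
  | mem x hx =>
    obtain ⟨l, hl, rfl⟩ := hx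
    refine Submodule.subset_span ⟨l.map Sum.inl, ⟨?_, ?_⟩, ?_⟩
    · rw [cW_mapA]; exact hl
    · intro t ht
      obtain ⟨i, -, hi⟩ := List.mem_map.1 ht
      exact Sum.inl_ne_inr hi
    · exact mapL_mon (deg := Sum.elim δ δ') (deg' := δ) (f := Sum.inl) (fun _ => rfl) l
  | zero => rw [map_zero]; exact zero_mem _
  | add y z _ _ hy hz => rw [map_add]; exact add_mem hy hz
  | smul r y _ hy => rw [map_smul]; exact Submodule.smul_mem _ _ hy

private theorem TS.D_genA (T : TS P) (x : T.ι ⊕ (P.U ⊕ P.M)) :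
    T.D (gen T.dt x) ∈ SP T.dt (fun l => 1 ≤ cW l ∧ ∀ j : P.M, Sum.inr (Sum.inr j) ∉ l) := by
  rcases x with i | t
  · have h1 : iL T.deg P.dq (gen T.deg i) = gen T.dt (Sum.inl i) :=
      mapL_gen (deg := Sum.elim T.deg P.dq) (deg' := T.deg) (f := Sum.inl) (fun _ => rfl) i
    rw [← h1, T.ext]
    refine SP_monoA ?_ (iL_SPA T.deg P.dq (T.S.minimal i))
    rintro l ⟨h2, h3⟩
    exact ⟨le_trans (by norm_num) h2, fun j => h3 _⟩
  · exact T.Dt t

private theorem TS.D_allA (T : TS P) (a : Lam T.dt) : T.D a ∈ SP T.dt (fun l => 1 ≤ cW l) := by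
  induction a using Lam.induction with
  | hm l =>
    induction l with
    | nil => rw [mon_nil, d_one T.diff]; exact zero_mem _
    | cons x l ih =>
      rw [mon_cons, T.leib]
      refine add_mem ?_ ?_
      · exact SP_mulA (k := 1) (m := 0) (SP_monoA (fun _ h => h.1) (T.D_genA x)) (SP_topA _ _)
      · have h := SP_mulA (k := 0) (m := 1) (SP_topA T.dt (sgn T.dt (gen T.dt x))) ih
        exact SP_monoA (fun l hl => by omega) h
  | h0 => rw [map_zero]; exact zero_mem _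
  | hadd a b ha hb => rw [map_add]; exact add_mem ha hb
  | hsmul r a ha => rw [map_smul]; exact Submodule.smul_mem _ _ ha

theorem TS.D_SP (T : TS P) {a : Lam T.dt} (ha : a ∈ SP T.dt (fun l => 1 ≤ cW l)) :
    T.D a ∈ SP T.dt (fun l => 1 ≤ cW l) := T.D_allA a

theorem TS.p_SP (T : TS P) (j : P.M) {k : ℕ} {a : Lam T.dt}
    (ha : a ∈ SP T.dt (fun l => k ≤ cW l)) : T.p j a ∈ SP T.dt (fun l => k ≤ cW l) := by
  refine pdv_SP (T.odd j) ?_ ha
  intro l₁ l₂ h
  have e : cW (l₁ ++ Sum.inr (Sum.inr j) :: l₂) = cW (l₁ ++ l₂) := by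
    rw [cW_appendA, cW_appendA]
    congr 1
  have h' : k ≤ cW (l₁ ++ Sum.inr (Sum.inr j) :: l₂) := h
  rw [e] at h'
  exact h'

theorem TS.p_D (T : TS P) (j : P.M) (a : Lam T.dt) : T.p j (T.D a) = -T.D (T.p j a) := by
  refine pdv_d (T.odd j) T.diff (fun x => ?_) a
  exact pdv_zero_of_SP (T.odd j) (SP_monoA (fun l hl => hl.2 j) (T.D_genA x))

theorem TS.p_Y (T : TS P) (i j : P.M) : T.p i (T.Y j) = 0 :=
  pdv_zero_of_SP (T.odd i) (SP_monoA (fun _ hl => hl i) (T.Y_free j))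

/-- The elements killed at every point. -/
def TS.nl (T : TS P) : Submodule ℚ (Lam T.dt) where
  carrier := {r | ∀ (K : Type) [CommRing K] [IsDomain K] [Algebra ℚ K] (θ : Lam T.dt →ₐ[ℚ] K),
    (∀ a, θ (T.D a) = 0) → θ r = 0}
  add_mem' := by
    intro a b ha hb K _ _ _ θ hθ
    rw [map_add, ha K θ hθ, hb K θ hθ, add_zero]
  zero_mem' := by
    intro K _ _ _ θ _
    exact map_zero θ
  smul_mem' := by
    intro r a ha K _ _ _ θ hθ
    rw [map_smul, ha K θ hθ, smul_zero]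

theorem SP_mul_left {ι κ : Type} {δ : ι ⊕ κ → ℕ} {k m : ℕ} {a b : Lam δ}
    (ha : a ∈ SP δ (fun l => k ≤ cW l)) (hb : b ∈ SP δ (fun l => m ≤ cW l)) :
    a * b ∈ SP δ (fun l => k + m ≤ cW l) := SP_mulA ha hb

theorem SP_zero_top {ι κ : Type} (δ : ι ⊕ κ → ℕ) (a : Lam δ) : a ∈ SP δ (fun l => 0 ≤ cW l) :=
  SP_topA δ a

theorem SP_sgn {ι : Type} {δ : ι → ℕ} {p : List ι → Prop} {a : Lam δ} (ha : a ∈ SP δ p) :
    sgn δ a ∈ SP δ p := by
  refine SP_indA (C := fun a => sgn δ a ∈ SP δ p) (fun l hl => ?_) ?_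
    (fun a a' ha ha' => by rw [map_add]; exact add_mem ha ha')
    (fun r a ha => by rw [map_smul]; exact Submodule.smul_mem _ _ ha) ha
  · rw [sgn_mon]
    exact Submodule.smul_mem _ _ (Submodule.subset_span ⟨l, hl, rfl⟩)
  · rw [map_zero]; exact zero_mem _

end AnWL
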