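import Pool.Agent.Helper48.WL.C03a

/-!
C03b. The object `T.ga : GA` over the localisation of `Lam T.dt`.

All the axioms hold for `Lam T.dt` by C01, C03a and extend by C02b (`lder_anti`, `lcs_lder`, `lct_lder`, `lder_lc`, `lder_mul`; `D_D` from
`lder_anti` with `D = E`). `unit_or_nil`: `r = lc a`, `lcs r = r` gives `sgn a = a` (`lc_inj`, `T.finT`); `bd a ≠ 0`: `lc_unit`;
`bd a = 0`: `bd_nil`. `pow_Nl`: `lc_inj`, `θ a ^ k = 0` in a domain.
-/

set_option autoImplicit false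

namespace AnWL
open Anick2
variable {P : Par}

private theorem TS.sgnD (T : TS P) (a : Lam T.dt) : sgn T.dt (T.D a) = -T.D (sgn T.dt a) :=
  sgn_d T.diff a

private theorem TS.sgnp (T : TS P) (j : P.M) (a : Lam T.dt) :
    sgn T.dt (T.p j a) = -T.p j (sgn T.dt a) := sgn_pdv (T.odd j) a

private theorem TS.DDx (T : TS P) (x : Lc T.dt) : lder T.D T.leib (lder T.D T.leib x) = 0 := by
  have h := lder_anti T.D T.D T.leib T.leib T.sgnD T.sgnD
    (fun a => by rw [T.diff.d_d, neg_zero]) x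
  have h2 : (2 : ℚ) • lder T.D T.leib (lder T.D T.leib x) = 0 := by
    rw [two_smul]
    nth_rewrite 1 [h]
    exact neg_add_cancel _
  exact (smul_eq_zero.1 h2).resolve_left (by norm_num)

private theorem TS.hom_sgn_odd (T : TS P) {n : ℕ} (hn : Odd n) {a : Lam T.dt}
    (ha : a ∈ hom T.dt n) : sgn T.dt a = -a := by
  rw [sgn_hom T.dt ha, hn.neg_one_pow, Algebra.smul_def, map_neg, map_one, neg_one_mul]

private theorem TS.mem_I (T : TS P) {x : Lc T.dt}
    (h : x ∈ (SP T.dt (fun l => 1 ≤ cW l)).map (lc T.dt).toLinearMap) :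
    ∃ a ∈ SP T.dt (fun l => 1 ≤ cW l), lc T.dt a = x := h

private theorem TS.lc_I (T : TS P) {a : Lam T.dt} (h : a ∈ SP T.dt (fun l => 1 ≤ cW l)) :
    lc T.dt a ∈ (SP T.dt (fun l => 1 ≤ cW l)).map (lc T.dt).toLinearMap := ⟨a, h, rfl⟩

private theorem TS.mem_Nl (T : TS P) {x : Lc T.dt} (h : x ∈ T.nl.map (lc T.dt).toLinearMap) :
    ∃ a ∈ T.nl, lc T.dt a = x := h

private theorem TS.lc_Nl (T : TS P) {a : Lam T.dt} (h : a ∈ T.nl) :
    lc T.dt a ∈ T.nl.map (lc T.dt).toLinearMap := ⟨a, h, rfl⟩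

private theorem TS.mem_R (T : TS P) {x : Lc T.dt} (h : x ∈ (lc T.dt).range) :
    ∃ a, lc T.dt a = x := h

private theorem TS.unil (T : TS P) (r : Lc T.dt) (hr : r ∈ (lc T.dt).range)
    (hs : lcs T.dt r = r) : IsUnit r ∨ IsNilpotent r := by
  have := T.finT
  obtain ⟨a, rfl⟩ := T.mem_R hr
  rw [lcs_lc] at hs
  have ha : sgn T.dt a = a := lc_inj hs
  by_cases hb : bd T.dt a = 0
  · exact Or.inr ((bd_nil hb).map (lc T.dt))
  · exact Or.inl (lc_unit ⟨ha, hb⟩)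

/-- The object of the abstract theory. -/
noncomputable def TS.ga (T : TS P) (lab : ℕ → Lam T.dt) : GA P.M (fun j => (P.dm j : ℤ)) P.N where
  A := Lc T.dt
  s := lcs T.dt
  τ := lct T.dt
  D := lder T.D T.leib
  pd j := lder (T.p j) (pdv_mul (T.odd j))
  X j := lc T.dt (T.gX j)
  Y j := lc T.dt (T.Y j)
  R := (lc T.dt).range
  I := (SP T.dt (fun l => 1 ≤ cW l)).map (lc T.dt).toLinearMap
  Nl := T.nl.map (lc T.dt).toLinearMap
  Gen := {x | ∃ i, x = lc T.dt (T.gW i)}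
  Lab n := lc T.dt (lab n)
  s_s := lcs_lcs
  even_comm := by
    have := T.finT
    exact fun a b h => lc_even_comm h b
  odd_anti := by
    have := T.finT
    exact fun a b h1 h2 => lc_odd_anti h1 h2
  D_mul := lder_mul T.D T.leib
  D_D := T.DDx
  s_D := lcs_lder T.D T.leib T.sgnD
  τ_D := lct_lder T.D T.leib 2 (tau_d T.diff)
  pd_mul := fun i => lder_mul (T.p i) (pdv_mul (T.odd i))
  pd_pd := fun i j => lder_anti (T.p i) (T.p j) (pdv_mul (T.odd i)) (pdv_mul (T.odd j))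
    (T.sgnp i) (T.sgnp j) (fun a => pdv_pdv (T.odd i) (T.odd j) a)
  pd_D := fun i => lder_anti (T.p i) T.D (pdv_mul (T.odd i)) T.leib (T.sgnp i) T.sgnD (T.p_D i)
  s_pd := fun i => lcs_lder (T.p i) (pdv_mul (T.odd i)) (T.sgnp i)
  τ_pd := fun i => lct_lder (T.p i) (pdv_mul (T.odd i)) _ (tau_pdv (T.odd i))
  pd_X := by
    intro j
    rw [lder_lc]
    have h : T.p j (T.gX j) = 1 := pdv_gen (T.odd j)
    rw [h]
    exact map_one (lc T.dt)
  pd_X_ne := by
    intro i j hij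
    rw [lder_lc]
    have h : T.p i (T.gX j) = 0 := pdv_gen_ne (T.odd i) (by
      intro h
      exact hij (Sum.inr_injective (Sum.inr_injective h)).symm)
    rw [h]
    exact map_zero (lc T.dt)
  xd_odd := by
    intro j
    exact_mod_cast P.dm_odd j
  s_X := by
    intro j
    rw [lcs_lc, sgn_gen_odd (T.odd j)]
    exact map_neg (lc T.dt) _
  τ_X := by
    intro j
    rw [lct_lc, tau_gen, map_smul, zpow_natCast]
    rfl
  s_Y := by
    intro j
    rw [lcs_lc, T.hom_sgn_odd ?_ (T.Y_hom j)]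
    · exact map_neg (lc T.dt) _
    · have h1 : Even (P.N * (P.dm j + 1)) := (Odd.add_one (P.dm_odd j)).mul_left _
      have h2 : 1 ≤ P.N * (P.dm j + 1) := Nat.mul_pos P.N_pos (Nat.succ_pos _)
      exact Nat.Even.sub_odd h2 h1 odd_one
  τ_Y := by
    intro j
    have h2 : 1 ≤ P.N * (P.dm j + 1) := Nat.mul_pos P.N_pos (Nat.succ_pos _)
    have h3 : ((P.N * (P.dm j + 1) - 1 : ℕ) : ℤ) = (P.N : ℤ) * ((P.dm j : ℤ) + 1) - 1 := by
      push_cast [Nat.cast_sub h2]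
      ring
    rw [lct_lc, tau_hom (T.Y_hom j), map_smul, ← h3, zpow_natCast]
  pd_Y := by
    intro i j
    rw [lder_lc, T.p_Y]
    exact map_zero (lc T.dt)
  D_Y := by
    intro j
    rw [lder_lc, lder_lc, T.D_Y]
    exact map_pow (lc T.dt) _ _
  X_mem := fun j => ⟨_, rfl⟩
  Y_mem := fun j => ⟨_, rfl⟩
  s_mem := by
    intro r hr
    obtain ⟨a, rfl⟩ := T.mem_R hr
    exact ⟨sgn T.dt a, (lcs_lc a).symm⟩
  D_mem := by
    intro r hr
    obtain ⟨a, rfl⟩ := T.mem_R hr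
    exact ⟨T.D a, (lder_lc T.D T.leib a).symm⟩
  pd_mem := by
    intro i r hr
    obtain ⟨a, rfl⟩ := T.mem_R hr
    exact ⟨T.p i a, (lder_lc (T.p i) (pdv_mul (T.odd i)) a).symm⟩
  unit_or_nil := fun r hr _ _ hs _ => T.unil r hr hs
  I_le := by
    intro r hr
    obtain ⟨a, -, rfl⟩ := T.mem_I hr
    exact ⟨a, rfl⟩
  mul_I := by
    intro r hr x hx
    obtain ⟨a, rfl⟩ := T.mem_R hr
    obtain ⟨b, hb, rfl⟩ := T.mem_I hx
    rw [← map_mul]
    have h := SP_mul_left (SP_zero_top T.dt a) hb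
    rw [zero_add] at h
    exact T.lc_I h
  I_mul := by
    intro x hx r hr
    obtain ⟨a, rfl⟩ := T.mem_R hr
    obtain ⟨b, hb, rfl⟩ := T.mem_I hx
    rw [← map_mul]
    have h := SP_mul_left hb (SP_zero_top T.dt a)
    rw [add_zero] at h
    exact T.lc_I h
  s_I := by
    intro x hx
    obtain ⟨b, hb, rfl⟩ := T.mem_I hx
    rw [lcs_lc]
    exact T.lc_I (SP_sgn hb)
  D_I := by
    intro x hx
    obtain ⟨b, hb, rfl⟩ := T.mem_I hx
    rw [lder_lc]
    exact T.lc_I (T.D_SP hb)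
  pd_I := by
    intro i x hx
    obtain ⟨b, hb, rfl⟩ := T.mem_I hx
    rw [lder_lc]
    exact T.lc_I (T.p_SP i hb)
  Nl_le := by
    intro r hr
    obtain ⟨a, -, rfl⟩ := T.mem_Nl hr
    exact ⟨a, rfl⟩
  mul_Nl := by
    intro r hr x hx
    obtain ⟨a, rfl⟩ := T.mem_R hr
    obtain ⟨b, hb, rfl⟩ := T.mem_Nl hx
    rw [← map_mul]
    refine T.lc_Nl ?_
    intro K _ _ _ θ hθ
    rw [map_mul, hb K θ hθ, mul_zero]
  Nl_mul := by
    intro x hx r hr
    obtain ⟨a, rfl⟩ := T.mem_R hr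
    obtain ⟨b, hb, rfl⟩ := T.mem_Nl hx
    rw [← map_mul]
    refine T.lc_Nl ?_
    intro K _ _ _ θ hθ
    rw [map_mul, hb K θ hθ, zero_mul]
  D_Nl := by
    intro r hr
    obtain ⟨a, rfl⟩ := T.mem_R hr
    rw [lder_lc]
    refine T.lc_Nl ?_
    intro K _ _ _ θ hθ
    exact hθ a
  pow_Nl := by
    have := T.finT
    intro r hr k hk
    obtain ⟨a, rfl⟩ := T.mem_R hr
    obtain ⟨b, hb, h⟩ := T.mem_Nl hk
    rw [← map_pow] at h
    have h1 : b = a ^ k := lc_inj h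
    refine T.lc_Nl ?_
    intro K _ _ _ θ hθ
    have h2 := hb K θ hθ
    rw [h1, map_pow] at h2
    exact eq_zero_of_pow_eq_zero h2
  Gen_le := by
    rintro r ⟨i, rfl⟩
    exact ⟨_, rfl⟩

end AnWL
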