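import Pool.Agent.Helper48.WL.C03c

/-!
C04. Morphisms of total systems (`W ⊂ W'`) and the induced morphisms of the abstract theory; the class `KK`.

`exists_mor`: `exists_lcMap` with `mapL_Sm`; the compatibilities by `lder_map`, `lc_hom_ext`, `mapL_sgn`, `tau_mapL`, `pdv_mapL`.
`Nl`: a point `θ'` of `T'` gives the point `θ' ∘ Φ` of `T`. `I`: `Φ` preserves the number of the letters `inl` (`Φ_SP`).
-/

set_option autoImplicit false

namespace AnWL
open Anick2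
variable {P : Par}

/-- The map of the total algebras given by a degree preserving map of the letters. -/
noncomputable def PhiT {T T' : TS P} (f : T.ι → T'.ι) (hf : ∀ i, T'.deg (f i) = T.deg i) :
    Lam T.dt →ₐ[ℚ] Lam T'.dt :=
  mapL (Sum.map f id) (by rintro (i | t); exacts [hf i, rfl])

/-- Morphisms of total systems. -/
structure TS.Hom (T T' : TS P) where
  f : T.ι → T'.ι
  inj : Function.Injective f
  deg : ∀ i, T'.deg (f i) = T.deg i
  D : ∀ a, T'.D (PhiT f deg a) = PhiT f deg (T.D a)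
  Y : ∀ j, PhiT f deg (T.Y j) = T'.Y j

/-- The map of the total algebras. -/
noncomputable def TS.Hom.Φ {T T' : TS P} (h : T.Hom T') : Lam T.dt →ₐ[ℚ] Lam T'.dt :=
  PhiT h.f h.deg

private theorem hfm {T T' : TS P} (h : T.Hom T') (i : T.ι ⊕ (P.U ⊕ P.M)) :
    T'.dt (Sum.map h.f (id : P.U ⊕ P.M → P.U ⊕ P.M) i) = T.dt i := by
  rcases i with i | t
  exacts [h.deg i, rfl]

private theorem inj_map {T T' : TS P} (h : T.Hom T') :
    Function.Injective (Sum.map h.f (id : P.U ⊕ P.M → P.U ⊕ P.M)) :=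
  Function.Injective.sumMap h.inj Function.injective_id

theorem Φ_gW {T T' : TS P} (h : T.Hom T') (i : T.ι) : h.Φ (T.gW i) = T'.gW (h.f i) :=
  mapL_gen (hfm h) _

theorem Φ_inr {T T' : TS P} (h : T.Hom T') (t : P.U ⊕ P.M) :
    h.Φ (gen T.dt (Sum.inr t)) = gen T'.dt (Sum.inr t) :=
  mapL_gen (hfm h) _

theorem Φ_D {T T' : TS P} (h : T.Hom T') (a : Lam T.dt) : T'.D (h.Φ a) = h.Φ (T.D a) := h.D a

theorem Φ_Y {T T' : TS P} (h : T.Hom T') (j : P.M) : h.Φ (T.Y j) = T'.Y j := h.Y j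

theorem Φ_sgn {T T' : TS P} (h : T.Hom T') (a : Lam T.dt) :
    sgn T'.dt (h.Φ a) = h.Φ (sgn T.dt a) :=
  (mapL_sgn (hfm h) a).symm

theorem Φ_tau {T T' : TS P} (h : T.Hom T') (a : Lam T.dt) :
    tau T'.dt (h.Φ a) = h.Φ (tau T.dt a) :=
  tau_mapL _ (hfm h) a

theorem Φ_hom {T T' : TS P} (h : T.Hom T') {n : ℕ} {a : Lam T.dt} (ha : a ∈ hom T.dt n) :
    h.Φ a ∈ hom T'.dt n :=
  mapL_hom (hfm h) ha

theorem Φ_p {T T' : TS P} (h : T.Hom T') (j : P.M) (a : Lam T.dt) :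
    T'.p j (h.Φ a) = h.Φ (T.p j a) :=
  pdv_mapL _ (hfm h) (inj_map h) (T.odd j) (T'.odd j) a

theorem Φ_pl {T T' : TS P} (h : T.Hom T') (l : List P.M) (a : Lam T.dt) :
    T'.pl l (h.Φ a) = h.Φ (T.pl l a) := by
  induction l with
  | nil => rfl
  | cons k l ih =>
    show T'.p k (T'.pl l (h.Φ a)) = h.Φ (T.p k (T.pl l a))
    rw [ih, Φ_p]

private theorem cW_map {T T' : TS P} (f : T.ι → T'.ι) (l : List (T.ι ⊕ (P.U ⊕ P.M))) :
    cW (l.map (Sum.map f (id : P.U ⊕ P.M → P.U ⊕ P.M))) = cW l := by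
  unfold cW
  induction l with
  | nil => rfl
  | cons x l ih =>
    rcases x with x | x
    · simpa using ih
    · simpa using ih

theorem Φ_SP {T T' : TS P} (h : T.Hom T') {k : ℕ} {a : Lam T.dt}
    (ha : a ∈ SP T.dt (fun l => k ≤ cW l)) : h.Φ a ∈ SP T'.dt (fun l => k ≤ cW l) := by
  unfold SP at ha
  induction ha using Submodule.span_induction with
  | mem x hx =>
    obtain ⟨l, hl, rfl⟩ := hx
    have e : h.Φ (mon T.dt l) = mon T'.dt (l.map (Sum.map h.f id)) := mapL_mon (hfm h) l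
    rw [e]
    exact Submodule.subset_span ⟨_, hl.trans_eq (cW_map (T := T) (T' := T') h.f l).symm, rfl⟩
  | zero => rw [map_zero]; exact zero_mem _
  | add y z _ _ hy hz => rw [map_add]; exact add_mem hy hz
  | smul r y _ hy => rw [map_smul]; exact Submodule.smul_mem _ _ hy

theorem Φ_nl {T T' : TS P} (h : T.Hom T') {a : Lam T.dt} (ha : a ∈ T.nl) : h.Φ a ∈ T'.nl := by
  intro K _ _ _ θ hθ
  refine ha K (θ.comp h.Φ) ?_
  intro b
  rw [AlgHom.comp_apply, ← Φ_D]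
  exact hθ _

private theorem phiT_id (T : TS P) (a : Lam T.dt) :
    PhiT (T := T) (T' := T) (_root_.id : T.ι → T.ι) (fun _ => rfl) a = a := by
  have e : PhiT (T := T) (T' := T) (_root_.id : T.ι → T.ι) (fun _ => rfl) =
      AlgHom.id ℚ (Lam T.dt) := by
    refine Lam.algHom_ext _ fun i => ?_
    refine (mapL_gen _ i).trans ?_
    rcases i with i | i <;> rfl
  rw [e]
  rfl

private theorem phiT_comp {T T' T'' : TS P} (h : T.Hom T') (k : T'.Hom T'') (a : Lam T.dt) :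
    PhiT (T := T) (T' := T'') (k.f ∘ h.f) (fun i => (k.deg _).trans (h.deg i)) a =
      k.Φ (h.Φ a) := by
  have e : PhiT (T := T) (T' := T'') (k.f ∘ h.f) (fun i => (k.deg _).trans (h.deg i)) =
      k.Φ.comp h.Φ := by
    refine Lam.algHom_ext _ fun i => ?_
    refine (mapL_gen _ i).trans ?_
    rw [AlgHom.comp_apply]
    rcases i with i | i
    · rw [show h.Φ (gen T.dt (Sum.inl i)) = gen T'.dt (Sum.inl (h.f i)) from Φ_gW h i,
        show k.Φ (gen T'.dt (Sum.inl (h.f i))) = gen T''.dt (Sum.inl (k.f (h.f i))) from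
          Φ_gW k (h.f i)]
      rfl
    · rw [Φ_inr h i, Φ_inr k i]
      rfl
  rw [e]
  rfl

/-- The identity. -/
def TS.Hom.id (T : TS P) : T.Hom T where
  f := _root_.id
  inj := Function.injective_id
  deg := fun _ => rfl
  D := fun a => by rw [phiT_id, phiT_id]
  Y := fun j => phiT_id T _

theorem id_Φ (T : TS P) (a : Lam T.dt) : (TS.Hom.id T).Φ a = a := phiT_id T a

/-- Composition: first `h`, then `k`. -/
def TS.Hom.comp {T T' T'' : TS P} (h : T.Hom T') (k : T'.Hom T'') : T.Hom T'' where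
  f := k.f ∘ h.f
  inj := k.inj.comp h.inj
  deg := fun i => (k.deg _).trans (h.deg i)
  D := fun a => by rw [phiT_comp, phiT_comp, Φ_D, Φ_D]
  Y := fun j => by rw [phiT_comp, Φ_Y, Φ_Y]

theorem comp_Φ {T T' T'' : TS P} (h : T.Hom T') (k : T'.Hom T'') (a : Lam T.dt) :
    (h.comp k).Φ a = k.Φ (h.Φ a) := phiT_comp h k a

theorem exists_mor {T T' : TS P} (h : T.Hom T') (lab : ℕ → Lam T.dt) :
    ∃ φ : Mor (T.ga lab) (T'.ga (fun n => h.Φ (lab n))),
      ∀ a, φ.f (lc T.dt a) = lc T'.dt (h.Φ a) := by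
  obtain ⟨F, hF⟩ := exists_lcMap (δ := T.dt) (δ' := T'.dt) h.Φ
    (fun a ha => mapL_Sm _ (hfm h) (inj_map h) ha)
  refine ⟨{
    f := F
    s := fun x => ?_
    τ := fun x => ?_
    D := fun x => ?_
    pd := fun j x => ?_
    X := fun j => ?_
    Y := fun j => ?_
    R := ?_
    I := ?_
    Nl := ?_
    Gen := ?_
    Lab := fun n => hF _ }, hF⟩
  · have e : (lcs T'.dt).comp F = F.comp (lcs T.dt) := by
      refine lc_hom_ext fun a => ?_
      rw [AlgHom.comp_apply, AlgHom.comp_apply, hF, lcs_lc, lcs_lc, hF, Φ_sgn]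
    exact congrArg (fun g : Lc T.dt →ₐ[ℚ] Lc T'.dt => g x) e
  · have e : (lct T'.dt).comp F = F.comp (lct T.dt) := by
      refine lc_hom_ext fun a => ?_
      rw [AlgHom.comp_apply, AlgHom.comp_apply, hF, lct_lc, lct_lc, hF, Φ_tau]
    exact congrArg (fun g : Lc T.dt →ₐ[ℚ] Lc T'.dt => g x) e
  · exact lder_map F h.Φ hF (Φ_sgn h) T.D T.leib T'.D T'.leib (Φ_D h) x
  · exact lder_map F h.Φ hF (Φ_sgn h) (T.p j) (pdv_mul (T.odd j)) (T'.p j) (pdv_mul (T'.odd j))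
      (Φ_p h j) x
  · exact (hF _).trans (congrArg (lc T'.dt) (Φ_inr h (Sum.inr j)))
  · exact (hF _).trans (congrArg (lc T'.dt) (Φ_Y h j))
  · rintro _ ⟨a, rfl⟩
    exact ⟨h.Φ a, (hF a).symm⟩
  · rintro _ ⟨a, ha, rfl⟩
    exact ⟨h.Φ a, Φ_SP h ha, (hF a).symm⟩
  · rintro _ ⟨a, ha, rfl⟩
    exact ⟨h.Φ a, Φ_nl h ha, (hF a).symm⟩
  · rintro _ ⟨i, rfl⟩
    exact ⟨h.f i, (hF _).trans (congrArg (lc T'.dt) (Φ_gW h i))⟩

/-- The class of the extensions of `T₀` by generators of degree at least `n₀`. -/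
def KK (T₀ : TS P) (n₀ : ℕ) (lab : ℕ → Lam T₀.dt) : Set (GA P.M (fun j => (P.dm j : ℤ)) P.N) :=
  {G | ∃ (T : TS P) (h : T₀.Hom T), (∀ i, i ∉ Set.range h.f → n₀ ≤ T.deg i) ∧
    G = T.ga (fun n => h.Φ (lab n))}

end AnWL
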