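import Pool.Agent.Helper48.WL.C04

/-!
C05a. Extension of a total system by an extension `S'` of its Sullivan algebra.

`extD = der ..` (`Helper2/GCA/Basic.lean`) with the values `iL (S'.d w)` on `inl w`, `extMap (T.D t)` on `inr t`. First
`extD (iL a) = iL (S'.d a)` and `extD (extMap a) = extMap (T.D a)` (both sides satisfy the product rule with `sgn`; check on generators:
`lam_zero` or induction on monomials; for the second on `inl i`: `extMap (T.D (gen (inl i))) = extMap (iL (T.S.d (gen i)))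
= iL (iL (T.S.d (gen i))) = iL (S'.d (gen (inl i)))` by `T.ext` and `hS`). Then `der_sq` on the generators: `S'.d ∘ S'.d = 0`, `T.D ∘ T.D = 0`.
`der_mem`, `der_leibniz` give `IsDifferential`. `Dt`, `Y_hom`, `Y_free`, `D_Y`: apply `extMap` (letters `inl i ↦ inl (inl i)`, `inr t ↦ inr t`).
-/

set_option autoImplicit false

namespace AnWL
open Anick2
variable {P : Par}

section
variable (T : TS P) {κ : Type} (dκ : κ → ℕ) (S' : MinimalSullivan (Sum.elim T.deg dκ))

/-- The inclusion of the total algebras. -/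
noncomputable def extMap : Lam T.dt →ₐ[ℚ] Lam (Sum.elim (Sum.elim T.deg dκ) P.dq) :=
  mapL (Sum.map Sum.inl id) (by rintro (i | t) <;> rfl)

/-- The values of the differential on the letters. -/
noncomputable def extVal :
    (T.ι ⊕ κ) ⊕ (P.U ⊕ P.M) → Lam (Sum.elim (Sum.elim T.deg dκ) P.dq) :=
  Sum.elim (fun x => iL (Sum.elim T.deg dκ) P.dq (S'.d (gen (Sum.elim T.deg dκ) x)))
    (fun t => extMap T dκ (T.D (gen T.dt (Sum.inr t))))

private theorem extMap_hom {n : ℕ} {a : Lam T.dt} (ha : a ∈ hom T.dt n) :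
    extMap T dκ a ∈ hom (Sum.elim (Sum.elim T.deg dκ) P.dq) n :=
  mapL_hom _ ha

private theorem extMap_gen_inl (i : T.ι) :
    extMap T dκ (gen T.dt (Sum.inl i)) =
      gen (Sum.elim (Sum.elim T.deg dκ) P.dq) (Sum.inl (Sum.inl i)) :=
  mapL_gen _ _

private theorem extMap_gen_inr (t : P.U ⊕ P.M) :
    extMap T dκ (gen T.dt (Sum.inr t)) =
      gen (Sum.elim (Sum.elim T.deg dκ) P.dq) (Sum.inr t) :=
  mapL_gen _ _

private theorem extMap_iL (a : Lam T.deg) :
    extMap T dκ (iL T.deg P.dq a) = iL (Sum.elim T.deg dκ) P.dq (iL T.deg dκ a) := by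
  have h : (extMap T dκ).comp (iL T.deg P.dq) =
      (iL (Sum.elim T.deg dκ) P.dq).comp (iL T.deg dκ) := by
    refine Lam.algHom_ext _ fun i => ?_
    have h1 : iL T.deg P.dq (gen T.deg i) = gen T.dt (Sum.inl i) := mapL_gen _ _
    have h2 : iL T.deg dκ (gen T.deg i) = gen _ (Sum.inl i) := mapL_gen _ _
    have h3 : iL (Sum.elim T.deg dκ) P.dq (gen _ (Sum.inl i)) = gen _ (Sum.inl (Sum.inl i)) :=
      mapL_gen _ _
    change extMap T dκ (iL T.deg P.dq (gen T.deg i)) =
      iL (Sum.elim T.deg dκ) P.dq (iL T.deg dκ (gen T.deg i))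
    rw [h1, h2, h3, extMap_gen_inl]
  exact DFunLike.congr_fun h a

private theorem extMap_sgn (a : Lam T.dt) :
    sgn _ (extMap T dκ a) = extMap T dκ (sgn T.dt a) := (mapL_sgn _ _).symm

private theorem iL_sgn' (a : Lam (Sum.elim T.deg dκ)) :
    sgn _ (iL (Sum.elim T.deg dκ) P.dq a) = iL (Sum.elim T.deg dκ) P.dq (sgn _ a) := (mapL_sgn _ _).symm

theorem extVal_mem (x : (T.ι ⊕ κ) ⊕ (P.U ⊕ P.M)) :
    extVal T dκ S' x ∈ hom (Sum.elim (Sum.elim T.deg dκ) P.dq)
      (Sum.elim (Sum.elim T.deg dκ) P.dq x + 1) := by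
  rcases x with x | t
  · have h : S'.d (gen (Sum.elim T.deg dκ) x) ∈
        hom (Sum.elim T.deg dκ) (Sum.elim T.deg dκ x + 1) :=
      S'.isDifferential.map_hom _ _ (gen_mem_hom _ x)
    have h2 := mapL_hom (deg := Sum.elim (Sum.elim T.deg dκ) P.dq) (f := Sum.inl)
      (fun _ => rfl) h
    exact h2
  · have h : T.D (gen T.dt (Sum.inr t)) ∈ hom T.dt (T.dt (Sum.inr t) + 1) :=
      T.diff.map_hom _ _ (gen_mem_hom _ _)
    exact extMap_hom T dκ h

/-- The differential. -/
noncomputable def extD : Lam (Sum.elim (Sum.elim T.deg dκ) P.dq) →ₗ[ℚ]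
    Lam (Sum.elim (Sum.elim T.deg dκ) P.dq) :=
  der (Sum.elim (Sum.elim T.deg dκ) P.dq) (extVal T dκ S') (extVal_mem T dκ S')

private theorem extD_mul (a b : Lam (Sum.elim (Sum.elim T.deg dκ) P.dq)) :
    extD T dκ S' (a * b) = extD T dκ S' a * b + sgn _ a * extD T dκ S' b :=
  der_mul _ _ _ a b

private theorem extD_gen (x : (T.ι ⊕ κ) ⊕ (P.U ⊕ P.M)) :
    extD T dκ S' (gen _ x) = extVal T dκ S' x := der_gen _ _ _ x

theorem extD_iL (a : Lam (Sum.elim T.deg dκ)) :
    extD T dκ S' (iL (Sum.elim T.deg dκ) P.dq a) = iL (Sum.elim T.deg dκ) P.dq (S'.d a) := by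
  let F : Lam (Sum.elim T.deg dκ) →ₗ[ℚ] Lam (Sum.elim (Sum.elim T.deg dκ) P.dq) :=
    { toFun := fun x => extD T dκ S' (iL (Sum.elim T.deg dκ) P.dq x) -
        iL (Sum.elim T.deg dκ) P.dq (S'.d x)
      map_add' := fun a b => by
        rw [map_add, map_add, map_add, map_add]
        abel
      map_smul' := fun r a => by
        rw [map_smul, map_smul, map_smul, map_smul, RingHom.id_apply, smul_sub] }
  have hF : ∀ x, F x = extD T dκ S' (iL (Sum.elim T.deg dκ) P.dq x) -
      iL (Sum.elim T.deg dκ) P.dq (S'.d x) := fun _ => rfl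
  have h0 : F a = 0 := by
    refine lam_zero (iL (Sum.elim T.deg dκ) P.dq)
      ((iL (Sum.elim T.deg dκ) P.dq).comp (sgn _)) F ?_ ?_ a
    · intro a b
      rw [hF, hF, hF, AlgHom.comp_apply, map_mul, extD_mul, d_mul S'.isDifferential, map_add,
        map_mul, map_mul, iL_sgn']
      noncomm_ring
    · intro i
      have hg : iL (Sum.elim T.deg dκ) P.dq (gen _ i) = gen _ (Sum.inl i) := mapL_gen _ _
      rw [hF, hg, extD_gen]
      exact sub_self _
  rw [hF] at h0
  exact sub_eq_zero.1 h0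

theorem extD_extMap (hS : ∀ a, S'.d (iL T.deg dκ a) = iL T.deg dκ (T.S.d a)) (a : Lam T.dt) :
    extD T dκ S' (extMap T dκ a) = extMap T dκ (T.D a) := by
  let F : Lam T.dt →ₗ[ℚ] Lam (Sum.elim (Sum.elim T.deg dκ) P.dq) :=
    { toFun := fun x => extD T dκ S' (extMap T dκ x) - extMap T dκ (T.D x)
      map_add' := fun a b => by
        rw [map_add, map_add, map_add, map_add]
        abel
      map_smul' := fun r a => by
        rw [map_smul, map_smul, map_smul, map_smul, RingHom.id_apply, smul_sub] }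
  have hF : ∀ x, F x = extD T dκ S' (extMap T dκ x) - extMap T dκ (T.D x) := fun _ => rfl
  have h0 : F a = 0 := by
    refine lam_zero (extMap T dκ) ((extMap T dκ).comp (sgn _)) F ?_ ?_ a
    · intro a b
      rw [hF, hF, hF, AlgHom.comp_apply, map_mul, extD_mul, T.leib, map_add,
        map_mul, map_mul, extMap_sgn]
      noncomm_ring
    · intro i
      rw [hF]
      rcases i with i | t
      · have h1 : gen T.dt (Sum.inl i) = iL T.deg P.dq (gen T.deg i) := (mapL_gen _ _).symm
        have h2 : gen (Sum.elim T.deg dκ) (Sum.inl i) = iL T.deg dκ (gen T.deg i) :=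
          (mapL_gen _ _).symm
        have h3 : extD T dκ S' (gen _ (Sum.inl (Sum.inl i))) =
            iL (Sum.elim T.deg dκ) P.dq (S'.d (gen (Sum.elim T.deg dκ) (Sum.inl i))) :=
          extD_gen T dκ S' _
        rw [extMap_gen_inl, h3, h2, hS, h1, T.ext, extMap_iL, sub_self]
      · rw [extMap_gen_inr, extD_gen]
        exact sub_self _
  rw [hF] at h0
  exact sub_eq_zero.1 h0

private theorem extMap_SP {p : List (T.ι ⊕ (P.U ⊕ P.M)) → Prop}
    {q : List ((T.ι ⊕ κ) ⊕ (P.U ⊕ P.M)) → Prop}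
    (h : ∀ l, p l → q (l.map (Sum.map Sum.inl id))) {a : Lam T.dt} (ha : a ∈ SP T.dt p) :
    extMap T dκ a ∈ SP (Sum.elim (Sum.elim T.deg dκ) P.dq) q := by
  unfold SP at ha
  induction ha using Submodule.span_induction with
  | mem x hx =>
    obtain ⟨l, hl, rfl⟩ := hx
    exact Submodule.subset_span ⟨_, h l hl, mapL_mon _ _⟩
  | zero => rw [map_zero]; exact zero_mem _
  | add x z _ _ hx hz => rw [map_add]; exact add_mem hx hz
  | smul r x _ hx => rw [map_smul]; exact Submodule.smul_mem _ _ hx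

private theorem cW_ext (l : List (T.ι ⊕ (P.U ⊕ P.M))) :
    cW (l.map (Sum.map (Sum.inl : T.ι → T.ι ⊕ κ) id)) = cW l := by
  unfold cW
  induction l with
  | nil => rfl
  | cons x l ih =>
    rcases x with x | x
    · rw [List.map_cons, List.filter_cons, List.filter_cons]
      simp only [Sum.map_inl, Sum.isLeft_inl, if_true, List.length_cons, ih]
    · rw [List.map_cons, List.filter_cons, List.filter_cons]
      simp [ih]

private theorem notMem_ext (l : List (T.ι ⊕ (P.U ⊕ P.M))) (j : P.M)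
    (h : Sum.inr (Sum.inr j) ∉ l) :
    Sum.inr (Sum.inr j) ∉ l.map (Sum.map (Sum.inl : T.ι → T.ι ⊕ κ) id) := by
  intro hc
  obtain ⟨x, hx, hy⟩ := List.mem_map.1 hc
  rcases x with x | x
  · simp at hy
  · simp only [Sum.map_inr, id_eq, Sum.inr.injEq] at hy
    rw [hy] at hx
    exact h hx

/-- The extended total system. -/
noncomputable def TS.extend [hκ : Finite κ]
    (hS : ∀ a, S'.d (iL T.deg dκ a) = iL T.deg dκ (T.S.d a)) : TS P where
  ι := T.ι ⊕ κ
  fin := by have := T.fin; infer_instance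
  deg := Sum.elim T.deg dκ
  S := S'
  D := extD T dκ S'
  diff := by
    refine ⟨fun n a ha => der_mem _ _ _ ha, fun n a ha b => der_leibniz _ _ _ ha b, fun a => ?_⟩
    refine der_sq _ _ _ (fun x => ?_) a
    change extD T dκ S' (extVal T dκ S' x) = 0
    rcases x with x | t
    · change extD T dκ S' (iL (Sum.elim T.deg dκ) P.dq (S'.d (gen (Sum.elim T.deg dκ) x))) = 0
      rw [extD_iL, S'.isDifferential.d_d, map_zero]
    · change extD T dκ S' (extMap T dκ (T.D (gen T.dt (Sum.inr t)))) = 0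
      rw [extD_extMap T dκ S' hS, T.diff.d_d, map_zero]
  ext := extD_iL T dκ S'
  Dt := by
    intro t
    have h : extD T dκ S' (gen _ (Sum.inr t)) = extMap T dκ (T.D (gen T.dt (Sum.inr t))) :=
      extD_gen T dκ S' _
    rw [h]
    refine extMap_SP T dκ (fun l hl => ⟨?_, fun j => ?_⟩) (T.Dt t)
    · rw [cW_ext]; exact hl.1
    · exact notMem_ext T l j (hl.2 j)
  Y := fun j => extMap T dκ (T.Y j)
  Y_hom := fun j => extMap_hom T dκ (T.Y_hom j)
  Y_free := fun j => extMap_SP T dκ (fun l hl j' => notMem_ext T l j' (hl j')) (T.Y_free j)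
  D_Y := by
    intro j
    rw [extD_extMap T dκ S' hS, T.D_Y, map_pow, ← extD_extMap T dκ S' hS, extMap_gen_inr]

/-- The inclusion. -/
noncomputable def TS.extendHom [Finite κ]
    (hS : ∀ a, S'.d (iL T.deg dκ a) = iL T.deg dκ (T.S.d a)) :
    T.Hom (T.extend dκ S' hS) where
  f := Sum.inl
  inj := Sum.inl_injective
  deg := fun _ => rfl
  D := fun a => extD_extMap T dκ S' hS a
  Y := fun _ => rfl

end

end AnWL
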