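import Pool.Agent.Helper48.WL.C04

/-!
C05b. Points: a point `p` of `ΛW` (`p ∘ d = 0`, values in a domain) gives a point of the total algebra with values in the
polynomial ring (`u ↦ X_u`, `X_j ↦ 0`), and one with `u ↦ 0`.

`θ = Lam.lift` (relations: `p (gen i) p (gen j) = p (gen i gen j)`, `gen_comm`; values of odd letters: `p (gen i)` with `deg i` odd is `0`,
since `gen i * gen i = 0` and `K` is a domain). `θ a = 0` for every odd `a` (`sgn a = -a`; monomials of odd degree contain an
odd letter). `θ (D a) = 0`: by the product rule (`lam_zero` with `ρ₁ = θ`, `ρ₂ = θ ∘ sgn`) it is enough to check letters: `D (gen t)` is odd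
if `t` is even: `0`. `t = inl i` odd: `θ (iL (d w)) = C (p (d w)) = 0`. `t = inr (inr j)`: `θ (D X_j) ^ N = θ (D (Y j))` (`D_Y`), and on the subalgebra of
the elements without letters `X` (`Y_free`) `θ ∘ D = 0` by what was shown for the letters `w`, `u` (the letters `u` are even; induction on
monomials, `SP`), so `θ (D X_j) ^ N = 0`, `MvPolynomial P.U K` is a domain.
`exists_zero_point`: compose with `MvPolynomial.aeval (fun _ => 0)`.
-/

set_option autoImplicit false

namespace AnWL
open Anick2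
variable {P : Par}

theorem exists_gen_point (T : TS P) {K : Type} [CommRing K] [IsDomain K] [Algebra ℚ K]
    (p : Lam T.deg →ₐ[ℚ] K) (hp : ∀ a, p (T.S.d a) = 0) :
    ∃ θ : Lam T.dt →ₐ[ℚ] MvPolynomial P.U K, (∀ a, θ (T.D a) = 0) ∧
      (∀ a, θ (iL T.deg P.dq a) = MvPolynomial.C (p a)) ∧ (∀ u, θ (T.gU u) = MvPolynomial.X u) ∧
      ∀ j, θ (T.gX j) = 0 := by
  classical
  have hodd : ∀ i, Odd (T.deg i) → p (gen T.deg i) = 0 := by
    intro i hi
    have h1 : gen T.deg i * gen T.deg i = 0 := odd_sq (sgn_gen_odd hi)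
    have h2 : p (gen T.deg i) * p (gen T.deg i) = 0 := by rw [← map_mul, h1, map_zero]
    exact mul_self_eq_zero.1 h2
  let v : T.ι ⊕ (P.U ⊕ P.M) → MvPolynomial P.U K :=
    Sum.elim (fun i => MvPolynomial.C (p (gen T.deg i)))
      (Sum.elim (fun u => MvPolynomial.X u) (fun _ => 0))
  have hv : ∀ t, Odd (T.dt t) → v t = 0 := by
    rintro (i | u | j) h
    · change MvPolynomial.C (p (gen T.deg i)) = 0
      rw [hodd i h, map_zero]
    · exact absurd h (Nat.not_odd_iff_even.2 (P.du_even u))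
    · rfl
  have hcomm : ∀ s t, v s * v t = (-1 : ℚ) ^ (T.dt s * T.dt t) • (v t * v s) := by
    intro s t
    rcases Nat.even_or_odd (T.dt s) with hs | hs
    · rw [(hs.mul_right _).neg_one_pow, one_smul, mul_comm]
    · rw [hv s hs, zero_mul, mul_zero, smul_zero]
  obtain ⟨θ, hg⟩ : ∃ θ : Lam T.dt →ₐ[ℚ] MvPolynomial P.U K, ∀ t, θ (gen T.dt t) = v t :=
    ⟨Lam.lift T.dt v hcomm, fun t => Lam.lift_gen T.dt v hcomm t⟩
  have hsgn : ∀ a, θ (sgn T.dt a) = θ a := by
    intro a
    have h1 : θ.comp (sgn T.dt) = θ := by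
      refine Lam.algHom_ext _ fun t => ?_
      rw [AlgHom.comp_apply, sgn_gen, map_smul, hg]
      rcases Nat.even_or_odd (T.dt t) with h | h
      · rw [h.neg_one_pow, one_smul]
      · rw [hv t h, smul_zero]
    exact DFunLike.congr_fun h1 a
  have hz : ∀ a, sgn T.dt a = -a → θ a = 0 := by
    intro a ha
    have h := hsgn a
    rw [ha, map_neg] at h
    have h2 : θ a + θ a = 0 := by
      nth_rewrite 1 [← h]
      exact neg_add_cancel _
    have h3 : (2 : ℚ) • θ a = 0 := by rw [two_smul]; exact h2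
    calc θ a = (2 : ℚ)⁻¹ • ((2 : ℚ) • θ a) := by
          rw [smul_smul, inv_mul_cancel₀ (by norm_num), one_smul]
      _ = 0 := by rw [h3, smul_zero]
  have hiL : ∀ a, θ (iL T.deg P.dq a) = MvPolynomial.C (p a) := by
    intro a
    have h1 : θ.comp (iL T.deg P.dq) =
        (IsScalarTower.toAlgHom ℚ K (MvPolynomial P.U K)).comp p := by
      refine Lam.algHom_ext _ fun i => ?_
      rw [AlgHom.comp_apply, AlgHom.comp_apply]
      have h2 : iL T.deg P.dq (gen T.deg i) = gen T.dt (Sum.inl i) := mapL_gen _ i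
      rw [h2, hg]
      rfl
    exact DFunLike.congr_fun h1 a
  have hDW : ∀ i, θ (T.D (gen T.dt (Sum.inl i))) = 0 := by
    intro i
    have h2 : iL T.deg P.dq (gen T.deg i) = gen T.dt (Sum.inl i) := mapL_gen _ i
    rw [← h2]
    have h3 : T.D (iL T.deg P.dq (gen T.deg i)) = iL T.deg P.dq (T.S.d (gen T.deg i)) :=
      T.ext (gen T.deg i)
    rw [h3, hiL, hp, map_zero]
  have hDU : ∀ u, θ (T.D (T.gU u)) = 0 := by
    intro u
    refine hz _ ?_
    have h1 : sgn T.dt (T.gU u) = T.gU u := sgn_gen_even (P.du_even u)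
    have h2 := sgn_d T.diff (T.gU u)
    rw [h1] at h2
    exact h2
  have hD1 : T.D 1 = 0 := d_one T.diff
  have hDS : ∀ a ∈ SP T.dt (fun l => ∀ j' : P.M, Sum.inr (Sum.inr j') ∉ l), θ (T.D a) = 0 := by
    intro a ha
    unfold SP at ha
    induction ha using Submodule.span_induction with
    | mem x hx =>
      obtain ⟨l, hl, rfl⟩ := hx
      induction l with
      | nil => rw [mon_nil, hD1, map_zero]
      | cons t l ih =>
        have h1 : θ (T.D (mon T.dt l)) = 0 :=
          ih (fun j' hj' => hl j' (List.mem_cons_of_mem _ hj'))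
        rw [mon_cons, T.leib, map_add, map_mul, map_mul, h1, mul_zero, add_zero]
        have h2 : θ (T.D (gen T.dt t)) = 0 := by
          rcases t with (i | u | j)
          · exact hDW i
          · exact hDU u
          · exact absurd List.mem_cons_self (hl j)
        rw [h2, zero_mul]
    | zero => rw [map_zero, map_zero]
    | add y z _ _ hy hz => rw [map_add, map_add, hy, hz, add_zero]
    | smul r y _ hy => rw [map_smul, map_smul, hy, smul_zero]
  have hDX : ∀ j, θ (T.D (T.gX j)) = 0 := by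
    intro j
    have h1 : θ (T.D (T.gX j)) ^ P.N = 0 := by
      rw [← map_pow]
      have h2 : T.D (T.gX j) ^ P.N = T.D (T.Y j) := (T.D_Y j).symm
      rw [h2]
      exact hDS _ (T.Y_free j)
    exact eq_zero_of_pow_eq_zero h1
  refine ⟨θ, ?_, hiL, fun u => hg _, fun j => hg _⟩
  intro a
  refine lam_zero θ (θ.comp (sgn T.dt)) (θ.toLinearMap ∘ₗ T.D) ?_ ?_ a
  · intro a b
    change θ (T.D (a * b)) = θ (T.D a) * θ b + θ (sgn T.dt a) * θ (T.D b)
    rw [T.leib, map_add, map_mul, map_mul]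
  · rintro (i | u | j)
    · exact hDW i
    · exact hDU u
    · exact hDX j

theorem exists_zero_point (T : TS P) {K : Type} [CommRing K] [IsDomain K] [Algebra ℚ K]
    (p : Lam T.deg →ₐ[ℚ] K) (hp : ∀ a, p (T.S.d a) = 0) :
    ∃ θ : Lam T.dt →ₐ[ℚ] K, (∀ a, θ (T.D a) = 0) ∧ (∀ a, θ (iL T.deg P.dq a) = p a) ∧
      (∀ u, θ (T.gU u) = 0) ∧ ∀ j, θ (T.gX j) = 0 := by
  obtain ⟨θ, h1, h2, h3, h4⟩ := exists_gen_point T p hp
  let e : MvPolynomial P.U K →ₐ[ℚ] K :=
    (MvPolynomial.aeval (R := K) (fun _ : P.U => (0 : K))).restrictScalars ℚ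
  have eC : ∀ c : K, e (MvPolynomial.C c) = c := fun c => MvPolynomial.aeval_C _ c
  have eX : ∀ u : P.U, e (MvPolynomial.X u) = 0 := fun u => MvPolynomial.aeval_X _ u
  refine ⟨e.comp θ, fun a => ?_, fun a => ?_, fun u => ?_, fun j => ?_⟩
  · rw [AlgHom.comp_apply, h1, map_zero]
  · rw [AlgHom.comp_apply, h2, eC]
  · rw [AlgHom.comp_apply, h3, eX]
  · rw [AlgHom.comp_apply, h4, map_zero]

end AnWL
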