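import Pool.Agent.Helper48.WL.C04
import Pool.Agent.Helper98.RD.BasisS
import Pool.Agent.Helper98.RD.Tens

/-!
C06a. Bases of the truncations of `Λ(u, X_j : j ∈ L)` and expansions with coefficients in `ΛW`.

`exists_Bas`: `exists_basisS` (`Helper98/RD/BasisS.lean`).
`Bas_expand`: `a` is a combination of monomials `mon l` of degree `n` with `cW l ≥ k` and without letters `X_j`, `j ∉ L` (`hLp`:
`SP_of_pdv_zero` for the finitely many `j ∉ L`; `ha`: apply `pr` to pass to homogeneous monomials). Each such monomial is `± iL (mon l₁) * iR (mon l₂)` with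
`l₁` of length `≥ k`, hence of degree `≥ 2k` (`T.S.two_le`), so `mon l₂` has degree `≤ n - 2k ≤ Q`; expand `mon l₂` in the basis (`me_expand`
in `Helper98/RD/MatEx.lean`). `Bas_uniq`: `iLR_indep`.
-/

set_option autoImplicit false

namespace AnWL
open Anick2
variable {P : Par}

/-- The letters `u` and `X_j`, `j ∈ L`. -/
def tL (P : Par) (L : Finset P.M) : Set (P.U ⊕ P.M) := {t | ∀ j, t = Sum.inr j → j ∈ L}

/-- A homogeneous basis of the truncation. -/
structure Bas (P : Par) (L : Finset P.M) (Q : ℕ) where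
  B : Type
  fin : Fintype B
  e : B → ℕ
  ω : B → Lam P.dq
  le : ∀ b, e b ≤ Q
  mem : ∀ b, ω b ∈ homS P.dq (tL P L) (e b)
  ind : LinearIndependent ℚ ω
  span : ∀ p ≤ Q, homS P.dq (tL P L) p ≤ Submodule.span ℚ {x | ∃ b, e b = p ∧ x = ω b}

attribute [instance] Bas.fin

theorem exists_Bas (P : Par) (L : Finset P.M) (Q : ℕ) : Nonempty (Bas P L Q) := by
  have := P.finU
  have := P.finM
  have h1 : ∀ i, 1 ≤ P.dq i := by
    rintro (u | j)
    · exact le_trans (by norm_num) (P.du_pos u)
    · exact (P.dm_odd j).pos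
  obtain ⟨B, hB, e, ω, hle, hmem, hind, hspan⟩ :=
    exists_basisS P.dq h1 (tL P L) (Set.toFinite _) Q
  exact ⟨{ B := B, fin := hB, e := e, ω := ω, le := hle, mem := hmem, ind := hind, span := hspan }⟩

/-- Expansion in a family of homogeneous elements. -/
private theorem C06a_expand {κ : Type} {deg' : κ → ℕ} {B : Type} [Fintype B] {pd : B → ℕ}
    {ω : B → Lam deg'} {q : ℕ} {b : Lam deg'}
    (hb : b ∈ Submodule.span ℚ {x | ∃ a, pd a = q ∧ x = ω a}) :
    ∃ c : B → ℚ, (∀ a, pd a ≠ q → c a = 0) ∧ b = ∑ a, c a • ω a := by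
  classical
  induction hb using Submodule.span_induction with
  | mem x hx =>
    obtain ⟨a, ha, rfl⟩ := hx
    refine ⟨fun a' => if a' = a then 1 else 0, fun a' ha' => if_neg ?_, ?_⟩
    · rintro rfl
      exact ha' ha
    · rw [Finset.sum_eq_single a]
      · show ω a = (if a = a then (1 : ℚ) else 0) • ω a
        rw [if_pos rfl, one_smul]
      · intro a' _ ha'
        show (if a' = a then (1 : ℚ) else 0) • ω a' = 0
        rw [if_neg ha', zero_smul]
      · intro h
        exact absurd (Finset.mem_univ a) h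
  | zero =>
    refine ⟨fun _ => 0, fun _ _ => rfl, ?_⟩
    rw [Finset.sum_eq_zero]
    intro a _
    rw [zero_smul]
  | add x y _ _ hx hy =>
    obtain ⟨c, hc, rfl⟩ := hx
    obtain ⟨c', hc', rfl⟩ := hy
    refine ⟨fun a => c a + c' a, fun a ha => ?_, ?_⟩
    · show c a + c' a = 0
      rw [hc a ha, hc' a ha, add_zero]
    · rw [← Finset.sum_add_distrib]
      exact Finset.sum_congr rfl fun a _ => (add_smul _ _ _).symm
  | smul r x _ hx =>
    obtain ⟨c, hc, rfl⟩ := hx
    refine ⟨fun a => r * c a, fun a ha => ?_, ?_⟩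
    · show r * c a = 0
      rw [hc a ha, mul_zero]
    · rw [Finset.smul_sum]
      exact Finset.sum_congr rfl fun a _ => smul_smul _ _ _

/-- Sorting of a monomial. -/
private theorem C06a_sort {ι κ : Type} (deg : ι → ℕ) (deg' : κ → ℕ) (l : List (ι ⊕ κ)) :
    ∃ (c : ℚ) (l₁ : List ι) (l₂ : List κ),
      mon (Sum.elim deg deg') l = c • (iL deg deg' (mon deg l₁) * iR deg deg' (mon deg' l₂)) ∧
      l₁.length = cW l ∧ degSum deg l₁ + degSum deg' l₂ = degSum (Sum.elim deg deg') l ∧
      ∀ t ∈ l₂, Sum.inr t ∈ l := by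
  induction l with
  | nil =>
    refine ⟨1, [], [], ?_, rfl, rfl, ?_⟩
    · rw [mon_nil, mon_nil, mon_nil, map_one, map_one, mul_one, one_smul]
    · intro t ht
      exact absurd ht (List.not_mem_nil)
  | cons x l ih =>
    obtain ⟨c, l₁, l₂, h1, h2, h3, h4⟩ := ih
    rcases x with i | t
    · refine ⟨c, i :: l₁, l₂, ?_, ?_, ?_, fun t ht => List.mem_cons_of_mem _ (h4 t ht)⟩
      · rw [mon_cons, h1, mon_cons, map_mul, mul_smul_comm, mul_assoc]
        congr 2
        exact (mapL_gen (f := Sum.inl) (fun _ => rfl) i).symm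
      · have h5 : cW (Sum.inl i :: l) = cW l + 1 := rfl
        rw [List.length_cons, h2, h5]
      · rw [degSum_cons, degSum_cons, add_assoc, h3]
        rfl
    · refine ⟨c * (-1 : ℚ) ^ (deg' t * degSum deg l₁), l₁, t :: l₂, ?_, h2, ?_, ?_⟩
      · have h5 : gen (Sum.elim deg deg') (Sum.inr t) * iL deg deg' (mon deg l₁) =
            (-1 : ℚ) ^ (deg' t * degSum deg l₁) •
              (iL deg deg' (mon deg l₁) * gen (Sum.elim deg deg') (Sum.inr t)) :=
          hom_comm (Sum.elim deg deg') (gen_mem_hom (Sum.elim deg deg') (Sum.inr t))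
            (mapL_hom (fun _ => rfl) (mon_mem_hom deg l₁))
        have h6 : iR deg deg' (gen deg' t) = gen (Sum.elim deg deg') (Sum.inr t) :=
          mapL_gen (f := Sum.inr) (fun _ => rfl) t
        rw [mon_cons, h1, mon_cons, map_mul, mul_smul_comm, ← mul_assoc, h5, smul_mul_assoc,
          smul_smul, h6, mul_assoc]
      · rw [degSum_cons, degSum_cons, ← h3]
        show degSum deg l₁ + (deg' t + degSum deg' l₂) = deg' t + (degSum deg l₁ + degSum deg' l₂)
        omega
      · intro t' ht'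
        rcases List.mem_cons.1 ht' with h | h
        · rw [h]
          exact List.mem_cons_self
        · exact List.mem_cons_of_mem _ (h4 t' h)

section

attribute [local irreducible] instRingLam

private theorem C06a_term {ι κ : Type} (deg : ι → ℕ) (deg' : κ → ℕ) {B : Type} [Fintype B]
    (ω : B → Lam deg') (c : ℚ) (d : B → ℚ) (m : Lam deg) :
    c • (iL deg deg' m * iR deg deg' (∑ b, d b • ω b)) =
      ∑ b, iL deg deg' ((c * d b) • m) * iR deg deg' (ω b) := by
  rw [map_sum, Finset.mul_sum, Finset.smul_sum]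
  refine Finset.sum_congr rfl fun b _ => ?_
  rw [map_smul, map_smul, mul_smul_comm, smul_mul_assoc, smul_smul]

private theorem C06a_uniq {ι κ : Type} (deg : ι → ℕ) (deg' : κ → ℕ) {B : Type} [Fintype B]
    {ω : B → Lam deg'} (hω : LinearIndependent ℚ ω) {x y : B → Lam deg}
    (h : ∑ b, iL deg deg' (x b) * iR deg deg' (ω b) =
      ∑ b, iL deg deg' (y b) * iR deg deg' (ω b)) (b : B) : x b = y b := by
  have h1 : ∑ b, iL deg deg' (x b - y b) * iR deg deg' (ω b) = 0 := by
    rw [← sub_eq_zero, ← Finset.sum_sub_distrib] at h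
    rw [← h]
    refine Finset.sum_congr rfl fun b _ => ?_
    rw [map_sub, sub_mul]
  exact sub_eq_zero.1 (iLR_indep deg deg' hω (fun b => x b - y b) h1 b)

end

private theorem C06a_pr {ι : Type} {δ : ι → ℕ} {p : List ι → Prop} {a : Lam δ} (ha : a ∈ SP δ p)
    (n : ℕ) : pr δ n a ∈ SP δ (fun l => degSum δ l = n ∧ p l) := by
  unfold SP at ha
  induction ha using Submodule.span_induction with
  | mem x hx =>
    obtain ⟨l, hl, rfl⟩ := hx
    rw [pr_hom δ (mon_mem_hom δ l)]
    split
    · rename_i h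
      exact Submodule.subset_span ⟨l, ⟨h, hl⟩, rfl⟩
    · exact zero_mem _
  | zero => rw [map_zero]; exact zero_mem _
  | add x y _ _ hx hy => rw [map_add]; exact add_mem hx hy
  | smul r x _ hx => rw [map_smul]; exact Submodule.smul_mem _ _ hx

private theorem C06a_free (T : TS P) {p : List (T.ι ⊕ (P.U ⊕ P.M)) → Prop} {a : Lam T.dt}
    (ha : a ∈ SP T.dt p) (s : Finset P.M) (h : ∀ j ∈ s, T.p j a = 0) :
    a ∈ SP T.dt (fun l => p l ∧ ∀ j ∈ s, Sum.inr (Sum.inr j) ∉ l) := by
  classical
  induction s using Finset.induction_on with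
  | empty =>
    refine Submodule.span_mono ?_ ha
    rintro x ⟨l, hl, rfl⟩
    exact ⟨l, ⟨hl, fun j hj => absurd hj (Finset.notMem_empty j)⟩, rfl⟩
  | insert j s hj ih =>
    have h1 := ih (fun j' hj' => h j' (Finset.mem_insert_of_mem hj'))
    have h2 := SP_of_pdv_zero (T.odd j) h1 (h j (Finset.mem_insert_self j s))
    refine Submodule.span_mono ?_ h2
    rintro x ⟨l, ⟨⟨hl, hl'⟩, hl''⟩, rfl⟩
    refine ⟨l, ⟨hl, fun j' hj' => ?_⟩, rfl⟩
    rcases Finset.mem_insert.1 hj' with h3 | h3
    · rw [h3]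
      exact hl''
    · exact hl' j' h3

theorem Bas_expand (T : TS P) {L : Finset P.M} {Q : ℕ} (B : Bas P L Q) {n k : ℕ}
    (hnk : n ≤ Q + 2 * k) {a : Lam T.dt} (ha : a ∈ hom T.dt n)
    (hk : a ∈ SP T.dt (fun l => k ≤ cW l)) (hLp : ∀ j, j ∉ L → T.p j a = 0) :
    ∃ x : B.B → Lam T.deg, (∀ b, x b ∈ FW T.deg (fun _ => 1) k) ∧
      (∀ b, x b = 0 ∨ ∃ m, m + B.e b = n ∧ x b ∈ hom T.deg m) ∧
      a = ∑ b, iL T.deg P.dq (x b) * iR T.deg P.dq (B.ω b) := by
  classical
  have := P.finM
  have := Fintype.ofFinite P.M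
  obtain ⟨H, hH⟩ : ∃ H : B.B → Submodule ℚ (Lam T.deg),
      ∀ b, H b = if B.e b ≤ n then hom T.deg (n - B.e b) else ⊥ := ⟨_, fun _ => rfl⟩
  have h1 := C06a_free T hk (Finset.univ.filter (fun j => j ∉ L))
    (fun j hj => hLp j (Finset.mem_filter.1 hj).2)
  have h2 := C06a_pr h1 n
  rw [pr_hom T.dt ha, if_pos rfl] at h2
  have h3 : ∃ x : B.B → Lam T.deg, (∀ b, x b ∈ FW T.deg (fun _ => 1) k) ∧
      (∀ b, x b ∈ H b) ∧ a = ∑ b, iL T.deg P.dq (x b) * iR T.deg P.dq (B.ω b) := by
    clear ha hk hLp h1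
    unfold SP at h2
    induction h2 using Submodule.span_induction with
    | mem y hy =>
      obtain ⟨l, ⟨hn, hl, hlL⟩, rfl⟩ := hy
      obtain ⟨c, l₁, l₂, e1, e2, e3, e4⟩ := C06a_sort T.deg P.dq l
      have hge : 2 * l₁.length ≤ degSum T.deg l₁ := by
        clear e1 e2 e3
        induction l₁ with
        | nil => exact le_refl _
        | cons i l₁ ih =>
          have h5 := T.S.two_le i
          rw [List.length_cons, degSum_cons]
          omega
      have e3' : degSum T.deg l₁ + degSum P.dq l₂ = n := e3.trans hn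
      have hQ : degSum P.dq l₂ ≤ Q := by omega
      have hm : mon P.dq l₂ ∈ homS P.dq (tL P L) (degSum P.dq l₂) := by
        refine mon_mem_homS P.dq l₂ ?_
        rintro t ht j rfl
        by_contra hj
        exact hlL j (Finset.mem_filter.2 ⟨Finset.mem_univ j, hj⟩) (e4 _ ht)
      obtain ⟨d, hd, hd'⟩ := C06a_expand (B.span _ hQ hm)
      refine ⟨fun b => (c * d b) • mon T.deg l₁, fun b => ?_, fun b => ?_, ?_⟩
      · refine Submodule.smul_mem _ _ (Submodule.subset_span ⟨l₁, ?_, rfl⟩)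
        have h6 : degSum (fun _ : T.ι => 1) l₁ = l₁.length := by
          clear e1 e2 e3 e3' hge
          induction l₁ with
          | nil => rfl
          | cons i l₁ ih => rw [degSum_cons, ih, List.length_cons, add_comm]
        rw [h6, e2]
        exact hl
      · show (c * d b) • mon T.deg l₁ ∈ H b
        by_cases hb : B.e b = degSum P.dq l₂
        · have h7 : B.e b ≤ n := by omega
          have h8 : n - B.e b = degSum T.deg l₁ := by omega
          rw [hH b, if_pos h7, h8]
          exact Submodule.smul_mem _ _ (mon_mem_hom T.deg l₁)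
        · rw [hd b hb, mul_zero, zero_smul]
          exact zero_mem _
      · refine e1.trans ?_
        rw [hd']
        exact C06a_term T.deg P.dq B.ω c d (mon T.deg l₁)
    | zero =>
      refine ⟨fun _ => 0, fun _ => zero_mem _, fun _ => zero_mem _, ?_⟩
      rw [Finset.sum_eq_zero]
      intro b _
      rw [map_zero, zero_mul]
    | add x y _ _ hx hy =>
      obtain ⟨u, hu1, hu2, rfl⟩ := hx
      obtain ⟨v, hv1, hv2, rfl⟩ := hy
      refine ⟨fun b => u b + v b, fun b => add_mem (hu1 b) (hv1 b),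
        fun b => add_mem (hu2 b) (hv2 b), ?_⟩
      rw [← Finset.sum_add_distrib]
      refine Finset.sum_congr rfl fun b _ => ?_
      rw [map_add, add_mul]
    | smul r x _ hx =>
      obtain ⟨u, hu1, hu2, rfl⟩ := hx
      refine ⟨fun b => r • u b, fun b => Submodule.smul_mem _ _ (hu1 b),
        fun b => Submodule.smul_mem _ _ (hu2 b), ?_⟩
      rw [Finset.smul_sum]
      refine Finset.sum_congr rfl fun b _ => ?_
      rw [map_smul, smul_mul_assoc]
  obtain ⟨x, hx1, hx2, hx3⟩ := h3
  refine ⟨x, hx1, fun b => ?_, hx3⟩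
  have h4 := hx2 b
  rw [hH b] at h4
  split at h4
  · rename_i h5
    exact Or.inr ⟨n - B.e b, by omega, h4⟩
  · exact Or.inl ((Submodule.mem_bot ℚ).1 h4)

theorem Bas_uniq (T : TS P) {L : Finset P.M} {Q : ℕ} (B : Bas P L Q) {x y : B.B → Lam T.deg}
    (h : ∑ b, iL T.deg P.dq (x b) * iR T.deg P.dq (B.ω b) =
      ∑ b, iL T.deg P.dq (y b) * iR T.deg P.dq (B.ω b)) (b : B.B) : x b = y b := by
  exact C06a_uniq T.deg P.dq B.ind h b

end AnWL
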