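import Pool.Agent.Helper48.WL.C03a
import Pool.Agent.Helper98.RD.ACex
import Pool.Agent.Helper48.WL.C08l

/-!
C08a. (Tools for `SP` in `C08l.lean`.) The base: parameters, and the differential with letters `u_a`, `a ∈ A` odd (acyclic closure of `Λ A_odd`), and `D X = 0`.

`exists_T1`: restrict `S` to `Ao = {a ∈ A | deg a odd}` (`hb`: `d (gen a) ∈ adjoin (gen '' Ao)`; `incl`, `retr`, `derS`, `incl_derS` in `Helper2/GCA/Basic.lean`, or `restrict_dat` (`Helper2/AN/MapL.lean`) and `exists_minimal`): a minimal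
Sullivan algebra `So` on `Ao`. `exists_AC So` (`Helper98/RD/ACex.lean`) gives `D'` on `Lam (sd dego)` with `D' (sw_a) = w_a - σ_a`. Let `J = mapL : Lam (sd dego) → Lam (Sum.elim deg P.dq)`, `inl a ↦ inl a`,
`inr a ↦ inr (inl a)`. `D = der` with the values `iL (S.d (gen i))` on `inl i`, `J (D' (gen (inr u)))` on `inr (inl u)`, `0` on `inr (inr j)`. `D (iL a) = iL (S.d a)` and `D (J a) = J (D' a)` (check on the
generators), so `D ∘ D = 0` on the generators (`der_sq`). The last property from `AC.mem` (letters of `J (mon l)`: `inl a`, `inr (inl u)`; `cW`, `cS ≥ 1`, so length `≥ 2`).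
-/

set_option autoImplicit false

namespace AnWL
open Anick2

/-- The parameters given by a set `A` of generators. -/
def PA {ι : Type} [hfin : Finite ι] {deg : ι → ℕ} (S : MinimalSullivan deg) (A : Set ι) (N : ℕ)
    (hN : 1 ≤ N) : Par where
  U := {a : ι // a ∈ A ∧ Odd (deg a)}
  M := {a : ι // a ∈ A ∧ Even (deg a)}
  finU := Subtype.finite
  finM := Subtype.finite
  du := fun a => deg a.1 - 1
  dm := fun a => deg a.1 - 1
  N := N
  du_even := fun a => by
    obtain ⟨k, hk⟩ := a.2.2
    rw [hk]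
    exact ⟨k, by omega⟩
  du_pos := fun a => by
    obtain ⟨k, hk⟩ := a.2.2
    have := S.two_le a.1
    omega
  dm_odd := fun a => by
    obtain ⟨k, hk⟩ := a.2.2
    have := S.two_le a.1
    exact ⟨k - 1, by omega⟩
  N_pos := hN

/-- The generator of `A` belonging to a coordinate. -/
def aa {ι : Type} [hfin : Finite ι] {deg : ι → ℕ} (S : MinimalSullivan deg) (A : Set ι) (N : ℕ)
    (hN : 1 ≤ N) : (PA S A N hN).U ⊕ (PA S A N hN).M → ι :=
  Sum.elim (fun a => a.1) (fun a => a.1)

private theorem der_mapL {α β : Type} {dα : α → ℕ} {dβ : β → ℕ} (g : α → β)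
    (hg : ∀ x, dβ (g x) = dα x) (val : β → Lam dβ) (hval : ∀ x, val x ∈ hom dβ (dβ x + 1))
    (d1 : Lam dα →ₗ[ℚ] Lam dα) (hd1 : IsDifferential (hom dα) d1)
    (h : ∀ x, val (g x) = mapL g hg (d1 (gen dα x))) (a : Lam dα) :
    der dβ val hval (mapL g hg a) = mapL g hg (d1 a) := by
  induction a using Lam.induction with
  | hm l =>
    induction l with
    | nil => rw [mon_nil, map_one, der_one, d_one hd1, map_zero]
    | cons x l ih =>
      rw [mon_cons, map_mul, mapL_gen, der_mul, der_gen, h, ih, d_mul hd1, map_add, map_mul,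
        map_mul, mapL_sgn, mapL_gen]
  | h0 => rw [map_zero, map_zero, map_zero, map_zero]
  | hadd a b ha hb => rw [map_add, map_add, map_add, map_add, ha, hb]
  | hsmul r a ha => rw [map_smul, map_smul, map_smul, map_smul, ha]

private theorem neg_one_smul_lam {ι : Type} {δ : ι → ℕ} (x : Lam δ) : (-1 : ℚ) • x = -x := by
  rw [Algebra.smul_def, map_neg, map_one, neg_one_mul]

private theorem len_cW_cS {α β : Type} (l : List (α ⊕ β)) : l.length = cW l + cS l := by
  unfold cW cS
  induction l with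
  | nil => rfl
  | cons x l ih =>
    rcases x with x | x
    · simp only [List.filter_cons, Sum.isLeft_inl, Sum.isRight_inl, if_true, List.length_cons]
      rw [ih]
      simp
      omega
    · simp only [List.filter_cons, Sum.isLeft_inr, Sum.isRight_inr, if_true, List.length_cons]
      rw [ih]
      simp
      omega

private theorem cW_map {α β α' β' : Type} (g : α ⊕ β → α' ⊕ β')
    (hg : ∀ x, (g x).isLeft = x.isLeft) (l : List (α ⊕ β)) : cW (l.map g) = cW l := by
  unfold cW
  induction l with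
  | nil => rfl
  | cons x l ih =>
    rw [List.map_cons, List.filter_cons, List.filter_cons, hg]
    split
    · rw [List.length_cons, List.length_cons, ih]
    · exact ih

theorem exists_T1 {ι : Type} [Finite ι] {deg : ι → ℕ} (S : MinimalSullivan deg) (A : Set ι)
    (N : ℕ) (hN : 1 ≤ N)
    (hb : ∀ a ∈ A, Odd (deg a) →
      S.d (gen deg a) ∈ Algebra.adjoin ℚ (gen deg '' {x | x ∈ A ∧ Odd (deg x)})) :
    ∃ D : Lam (Sum.elim deg (PA S A N hN).dq) →ₗ[ℚ] Lam (Sum.elim deg (PA S A N hN).dq),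
      IsDifferential (hom (Sum.elim deg (PA S A N hN).dq)) D ∧
      (∀ a, D (iL deg (PA S A N hN).dq a) = iL deg (PA S A N hN).dq (S.d a)) ∧
      (∀ j : (PA S A N hN).M,
        D (gen (Sum.elim deg (PA S A N hN).dq) (Sum.inr (Sum.inr j))) = 0) ∧
      ∀ u : (PA S A N hN).U,
        D (gen (Sum.elim deg (PA S A N hN).dq) (Sum.inr (Sum.inl u))) -
          gen (Sum.elim deg (PA S A N hN).dq) (Sum.inl u.1) ∈
        SP (Sum.elim deg (PA S A N hN).dq) (fun l => 1 ≤ cW l ∧ 2 ≤ l.length ∧
          ∀ x ∈ l, (∃ a ∈ A, Odd (deg a) ∧ x = Sum.inl a) ∨ ∃ v, x = Sum.inr (Sum.inl v)) := by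
  classical
  let dU : (PA S A N hN).U → ℕ := fun u => deg u.1
  let f : (PA S A N hN).U → ι := fun u => u.1
  have hf : ∀ u, deg (f u) = dU u := fun _ => rfl
  have hinj : Function.Injective f := fun u v h => Subtype.ext h
  obtain ⟨d', hd', hc⟩ := restrict_dat hf hinj (dat_of_minimal S) (fun u =>
    mapL_adjoin hf (T := {x | x ∈ A ∧ Odd (deg x)}) (fun j hj => ⟨⟨j, hj⟩, rfl⟩)
      (hb u.1 u.2.1 u.2.2))
  obtain ⟨So, hSo⟩ := exists_minimal hd'
  haveI : Finite (PA S A N hN).U := (PA S A N hN).finU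
  obtain ⟨D', σ, hAC⟩ := exists_AC So
  let g : (PA S A N hN).U ⊕ (PA S A N hN).U →
      ι ⊕ ((PA S A N hN).U ⊕ (PA S A N hN).M) :=
    Sum.elim (fun u => Sum.inl u.1) (fun u => Sum.inr (Sum.inl u))
  have hg : ∀ x, Sum.elim deg (PA S A N hN).dq (g x) = sd dU x := by
    rintro (u | u) <;> rfl
  let val : ι ⊕ ((PA S A N hN).U ⊕ (PA S A N hN).M) →
      Lam (Sum.elim deg (PA S A N hN).dq) :=
    Sum.elim (fun i => iL deg (PA S A N hN).dq (S.d (gen deg i)))
      (Sum.elim (fun u => mapL g hg (D' (gen (sd dU) (Sum.inr u)))) (fun _ => 0))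
  have hval : ∀ x, val x ∈ hom (Sum.elim deg (PA S A N hN).dq)
      (Sum.elim deg (PA S A N hN).dq x + 1) := by
    rintro (i | u | j)
    · exact mapL_hom (deg := Sum.elim deg (PA S A N hN).dq) (deg' := deg) (f := Sum.inl)
        (fun _ => rfl) (S.isDifferential.map_hom _ _ (gen_mem_hom deg i))
    · exact mapL_hom hg (hAC.diff.map_hom _ _ (gen_mem_hom (sd dU) (Sum.inr u)))
    · exact zero_mem _
  have hiL : ∀ a, der (Sum.elim deg (PA S A N hN).dq) val hval (iL deg (PA S A N hN).dq a) =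
      iL deg (PA S A N hN).dq (S.d a) := fun a =>
    der_mapL (dβ := Sum.elim deg (PA S A N hN).dq) Sum.inl (fun _ => rfl) val hval S.d
      S.isDifferential (fun _ => rfl) a
  have hJ1 : ∀ u : (PA S A N hN).U, mapL g hg (D' (gen (sd dU) (Sum.inl u))) =
      iL deg (PA S A N hN).dq (S.d (gen deg u.1)) := by
    intro u
    have hext : ∀ a, D' (ACexH.kL dU a) = ACexH.kL dU (So.d a) := hAC.ext
    have e2 : (mapL g hg).comp (ACexH.kL dU) =
        (iL deg (PA S A N hN).dq).comp (mapL f hf) := by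
      refine Lam.algHom_ext _ fun v => ?_
      rw [AlgHom.comp_apply, AlgHom.comp_apply, mapL_gen]
      have e4 : iL deg (PA S A N hN).dq (gen deg (f v)) =
          gen (Sum.elim deg (PA S A N hN).dq) (Sum.inl (f v)) :=
        mapL_gen (deg := Sum.elim deg (PA S A N hN).dq) (deg' := deg) (f := Sum.inl)
          (fun _ => rfl) (f v)
      rw [ACexH.kL_gen, e4, mapL_gen]
      rfl
    have e5 : ∀ a, mapL g hg (ACexH.kL dU a) =
        iL deg (PA S A N hN).dq (mapL f hf a) := fun a => DFunLike.congr_fun e2 a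
    rw [← ACexH.kL_gen, hext, e5, hSo, hc, mapL_gen]
  have hJ : ∀ a, der (Sum.elim deg (PA S A N hN).dq) val hval (mapL g hg a) =
      mapL g hg (D' a) := by
    intro a
    refine der_mapL g hg val hval D' hAC.diff ?_ a
    rintro (u | u)
    · exact (hJ1 u).symm
    · rfl
  refine ⟨der (Sum.elim deg (PA S A N hN).dq) val hval,
    ⟨fun n a ha => der_mem _ _ _ ha, fun n a ha b => der_leibniz _ _ _ ha b, ?_⟩, hiL, ?_, ?_⟩
  · intro a
    refine der_sq _ _ _ ?_ a
    rintro (i | u | j)
    · have h1 := hiL (S.d (gen deg i))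
      rw [S.isDifferential.d_d, map_zero] at h1
      exact h1
    · have h1 := hJ (D' (gen (sd dU) (Sum.inr u)))
      rw [hAC.diff.d_d, map_zero] at h1
      exact h1
    · exact map_zero _
  · intro j
    exact der_gen _ _ _ _
  · intro u
    have h1 : der (Sum.elim deg (PA S A N hN).dq) val hval
        (gen (Sum.elim deg (PA S A N hN).dq) (Sum.inr (Sum.inl u))) =
        mapL g hg (D' (gen (sd dU) (Sum.inr u))) := der_gen _ _ _ _
    have h2 : mapL g hg (gen (sd dU) (Sum.inl u)) =
        gen (Sum.elim deg (PA S A N hN).dq) (Sum.inl u.1) := mapL_gen hg _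
    have h3 : mapL g hg (D' (gen (sd dU) (Sum.inr u))) -
        gen (Sum.elim deg (PA S A N hN).dq) (Sum.inl u.1) = (-1 : ℚ) • mapL g hg (σ u) := by
      rw [hAC.ds, map_sub, h2, neg_one_smul_lam]
      abel
    rw [h1, h3]
    refine Submodule.smul_mem _ _ (SP_mapL g hg ?_ (hAC.mem u))
    rintro l ⟨-, hl1, hl2, -⟩
    refine ⟨?_, ?_, ?_⟩
    · rw [cW_map g (by rintro (x | x) <;> rfl)]
      exact hl1
    · rw [List.length_map, len_cW_cS l]
      omega
    · intro x hx
      obtain ⟨t, -, rfl⟩ := List.mem_map.1 hx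
      rcases t with v | v
      · exact Or.inl ⟨v.1, v.2.1, v.2.2, rfl⟩
      · exact Or.inr ⟨v, rfl⟩

end AnWL
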