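import Pool.Agent.Helper98.RD.ODer
import Pool.Agent.Helper2.GCA.Defs
import Pool.Agent.Helper48.WL.C08l

/-!
C08k. The Koszul contraction, general form.

`K = D h + h D`. On `V m = SP c ⊓ hom m`, `m ≥ 1`: `K` maps `V m` to itself: for a monomial `l` with `c l`, `K (mon l) = ν l • mon l + longer` with `longer` in
`SP (c ∧ longer)` (`hK`); degrees: `hDdeg`, `hhdeg` (`D (h a) ∈ hom m`, `h (D a) ∈ hom m` for `a ∈ hom m`, `m ≥ 1`). (`a ∈ SP c ⊓ hom m` is a combination of monomials `l` with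
`c l ∧ degSum l = m`: apply `pr δ m`.) All degrees are `≥ 1`, so the length of `l` is at most `degSum l` (`degSum_ge`); by descending induction on `k`, every element of `V m` which is a combination of
monomials of length `≥ k` is in `K (V m)`: for a monomial `x = mon l`, `x = K (x / ν l) - (longer) / ν l` (`hν`). So `K : V m → V m` is surjective, `V m` is finite-dimensional
(`hom_fg` in `Helper2/GCA/Defs.lean`), so `K` is injective on `V m`. For `p ∈ V (n + 1)` choose `q ∈ V (n + 1)` with `K q = p`. `K (D q) = D (h (D q)) = D (K q) = D p = 0` (`D ∘ D = 0`) and `D q ∈ V (n + 2)`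
(`hDc`), so `D q = 0` and `D (h q) = K q = p`. (See `koszul_step` in `Helper98/RD/ACKey.lean` for the same argument.)
-/

set_option autoImplicit false

namespace AnWL
open Anick2

attribute [local irreducible] instRingLam

private theorem c08k_ind {X : Type} {δ : X → ℕ} {p : List X → Prop} {C : Lam δ → Prop}
    (hm : ∀ l, p l → C (mon δ l)) (h0 : C 0)
    (hadd : ∀ a b, C a → C b → C (a + b)) (hsmul : ∀ (r : ℚ) a, C a → C (r • a))
    {a : Lam δ} (ha : a ∈ SP δ p) : C a := by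
  unfold SP at ha
  induction ha using Submodule.span_induction with
  | mem x hx => obtain ⟨l, hl, rfl⟩ := hx; exact hm l hl
  | zero => exact h0
  | add y z _ _ hy hz => exact hadd _ _ hy hz
  | smul r y _ hy => exact hsmul _ _ hy

private theorem c08k_map {X : Type} {δ : X → ℕ} {p : List X → Prop} (f : Lam δ →ₗ[ℚ] Lam δ)
    {Q : Submodule ℚ (Lam δ)} (h : ∀ l, p l → f (mon δ l) ∈ Q) {a : Lam δ} (ha : a ∈ SP δ p) :
    f a ∈ Q :=
  c08k_ind (C := fun a => f a ∈ Q) h (by rw [map_zero]; exact zero_mem _)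
    (fun a b ha hb => by rw [map_add]; exact add_mem ha hb)
    (fun r a ha => by rw [map_smul]; exact Submodule.smul_mem _ _ ha) ha

theorem koszul_gen {X : Type} [Finite X] {δ : X → ℕ} (h1 : ∀ x, 1 ≤ δ x)
    (D h : Lam δ →ₗ[ℚ] Lam δ) (hDD : ∀ a, D (D a) = 0)
    (hDdeg : ∀ n, ∀ a ∈ hom δ n, D a ∈ hom δ (n + 1))
    (hhdeg : ∀ n, ∀ a ∈ hom δ (n + 1), h a ∈ hom δ n) (c : List X → Prop) (ν : List X → ℕ)
    (hν : ∀ l, c l → 1 ≤ ν l) (hDc : ∀ a ∈ SP δ c, D a ∈ SP δ c)
    (hK : ∀ l, c l → D (h (mon δ l)) + h (D (mon δ l)) - (ν l : ℚ) • mon δ l ∈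
      SP δ (fun l' => c l' ∧ l.length < l'.length))
    {n : ℕ} {p : Lam δ} (hp : p ∈ SP δ c) (hpn : p ∈ hom δ (n + 1)) (hDp : D p = 0) :
    ∃ q ∈ SP δ c, q ∈ hom δ (n + 1) ∧ D (h q) = p := by
  classical
  set K : Lam δ →ₗ[ℚ] Lam δ := D ∘ₗ h + h ∘ₗ D with hKdef
  have hKa : ∀ a, K a = D (h a) + h (D a) := fun a => rfl
  -- `V m k`
  have memV : ∀ m, ∀ a ∈ SP δ c, a ∈ hom δ m → a ∈ SP δ (fun l => c l ∧ degSum δ l = m) :=
    fun m a ha hm => SP_pr ha hm
  have VSP : ∀ m, ∀ a ∈ SP δ (fun l => c l ∧ degSum δ l = m), a ∈ SP δ c := fun m a ha =>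
    SP_imp (fun l hl => hl.1) ha
  have Vhom : ∀ m, ∀ a ∈ SP δ (fun l => c l ∧ degSum δ l = m), a ∈ hom δ m := fun m a ha =>
    c08k_ind (C := fun a => a ∈ hom δ m) (fun l hl => by
      have := mon_mem_hom δ l
      rwa [hl.2] at this) (zero_mem _) (fun _ _ h1 h2 => add_mem h1 h2)
      (fun _ _ h1 => Submodule.smul_mem _ _ h1) ha
  have Khom : ∀ m, ∀ a ∈ hom δ (m + 1), K a ∈ hom δ (m + 1) := by
    intro m a ha
    rw [hKa]
    exact Submodule.add_mem _ (hDdeg _ _ (hhdeg _ _ ha)) (hhdeg _ _ (hDdeg _ _ ha))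
  have KSP : ∀ a ∈ SP δ c, K a ∈ SP δ c := by
    intro a ha
    refine c08k_map K (fun l hl => ?_) ha
    have h2 := SP_imp (q := c) (fun l' hl' => hl'.1) (hK l hl)
    have e : K (mon δ l) = (D (h (mon δ l)) + h (D (mon δ l)) - (ν l : ℚ) • mon δ l) +
        (ν l : ℚ) • mon δ l := by rw [hKa]; abel
    rw [e]
    exact Submodule.add_mem _ h2 (Submodule.smul_mem _ _ (SP_mon hl))
  have mapsK : ∀ m, ∀ a ∈ SP δ (fun l => c l ∧ degSum δ l = m + 1),
      K a ∈ SP δ (fun l => c l ∧ degSum δ l = m + 1) := fun m a ha =>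
    memV _ _ (KSP a (VSP _ a ha)) (Khom m a (Vhom _ a ha))
  have surj : ∀ m, ∀ j k, m + 2 ≤ k + j →
      ∀ a ∈ SP δ (fun l => c l ∧ degSum δ l = m + 1 ∧ k ≤ l.length),
      ∃ b ∈ SP δ (fun l => c l ∧ degSum δ l = m + 1), K b = a := by
    intro m j
    induction j with
    | zero =>
      intro k hk a ha
      refine c08k_ind (C := fun a => ∃ b ∈ SP δ (fun l => c l ∧ degSum δ l = m + 1), K b = a)
        (fun l hl => ?_) ⟨0, zero_mem _, map_zero _⟩ ?_ ?_ ha
      · exfalso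
        have e1 := degSum_ge δ h1 l
        have e2 := hl.2.1
        have e3 := hl.2.2
        omega
      · rintro a b ⟨a', ha', rfl⟩ ⟨b', hb', rfl⟩
        exact ⟨a' + b', Submodule.add_mem _ ha' hb', map_add _ _ _⟩
      · rintro c a ⟨a', ha', rfl⟩
        exact ⟨c • a', Submodule.smul_mem _ _ ha', map_smul _ _ _⟩
    | succ j ih =>
      intro k hk a ha
      refine c08k_ind (C := fun a => ∃ b ∈ SP δ (fun l => c l ∧ degSum δ l = m + 1), K b = a)
        (fun l hl => ?_) ⟨0, zero_mem _, map_zero _⟩ ?_ ?_ ha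
      · have hml : mon δ l ∈ hom δ (m + 1) := by
          have := mon_mem_hom δ l
          rwa [hl.2.1] at this
        have h2 : K (mon δ l) - (ν l : ℚ) • mon δ l ∈
            SP δ (fun l' => c l' ∧ l.length < l'.length) := by
          rw [hKa]
          exact hK l hl.1
        have h3 : K (mon δ l) - (ν l : ℚ) • mon δ l ∈ hom δ (m + 1) :=
          Submodule.sub_mem _ (Khom m _ hml) (Submodule.smul_mem _ _ hml)
        have h4 := SP_imp (q := fun l' => c l' ∧ degSum δ l' = m + 1 ∧ k + 1 ≤ l'.length)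
          (fun l' hl' => ⟨hl'.1.1, hl'.2, by have := hl'.1.2; have := hl.2.2; omega⟩)
          (SP_pr h2 h3)
        obtain ⟨b, hb, hb'⟩ := ih (k + 1) (by omega) _ h4
        refine ⟨((ν l : ℚ)⁻¹) • (mon δ l - b), ?_, ?_⟩
        · exact Submodule.smul_mem _ _ (Submodule.sub_mem _ (SP_mon ⟨hl.1, hl.2.1⟩) hb)
        · rw [map_smul, map_sub, hb', sub_sub_cancel, smul_smul, inv_mul_cancel₀, one_smul]
          have : (0 : ℚ) < ν l := by exact_mod_cast hν l hl.1
          exact this.ne'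
      · rintro a b ⟨a', ha', rfl⟩ ⟨b', hb', rfl⟩
        exact ⟨a' + b', Submodule.add_mem _ ha' hb', map_add _ _ _⟩
      · rintro c a ⟨a', ha', rfl⟩
        exact ⟨c • a', Submodule.smul_mem _ _ ha', map_smul _ _ _⟩
  have surj' : ∀ m, ∀ a ∈ SP δ (fun l => c l ∧ degSum δ l = m + 1),
      ∃ b ∈ SP δ (fun l => c l ∧ degSum δ l = m + 1), K b = a := fun m a ha =>
    surj m (m + 2) 0 (by omega) a
      (SP_imp (fun l hl => ⟨hl.1, hl.2, Nat.zero_le _⟩) ha)
  have inj : ∀ m, ∀ a ∈ SP δ (fun l => c l ∧ degSum δ l = m + 1), K a = 0 → a = 0 := by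
    intro m a ha hKa0
    have hfg : (SP δ (fun l => c l ∧ degSum δ l = m + 1)).FG := by
      refine (homS_fg δ (Set.finite_univ) h1 (m + 1)).of_le ?_
      unfold SP
      rw [Submodule.span_le]
      rintro _ ⟨l, hl, rfl⟩
      exact Submodule.subset_span ⟨l, fun _ _ => Set.mem_univ _, hl.2, rfl⟩
    have : Module.Finite ℚ (SP δ (fun l => c l ∧ degSum δ l = m + 1)) :=
      Module.Finite.iff_fg.2 hfg
    let K' : SP δ (fun l => c l ∧ degSum δ l = m + 1) →ₗ[ℚ]
        SP δ (fun l => c l ∧ degSum δ l = m + 1) := K.restrict (mapsK m)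
    have hs' : Function.Surjective K' := by
      rintro ⟨a, ha⟩
      obtain ⟨b, hb, hb'⟩ := surj' m a ha
      exact ⟨⟨b, hb⟩, Subtype.ext hb'⟩
    have hi' : Function.Injective K' := LinearMap.injective_iff_surjective.2 hs'
    have h0 : K' ⟨a, ha⟩ = K' 0 := by
      rw [map_zero]
      exact Subtype.ext hKa0
    exact congrArg Subtype.val (hi' h0)
  obtain ⟨q, hq, hKq⟩ := surj' n p (memV _ p hp hpn)
  have hqS := VSP _ q hq
  have hqh := Vhom _ q hq
  have hDq : D q ∈ SP δ (fun l => c l ∧ degSum δ l = n + 1 + 1) :=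
    memV _ _ (hDc q hqS) (hDdeg _ _ hqh)
  have hcomm : K (D q) = D (K q) := by
    rw [hKa, hKa, hDD, map_zero, add_zero, map_add, hDD, zero_add]
  have hDq0 : D q = 0 := inj (n + 1) _ hDq (by rw [hcomm, hKq, hDp])
  refine ⟨q, hqS, hqh, ?_⟩
  have e := hKa q
  rw [hDq0, map_zero, add_zero, hKq] at e
  exact e.symm

/-- The contraction `h : gen (α t) ↦ gen (β t)`, the other generators `↦ 0`. -/
theorem exists_h {X κ : Type} {δ : X → ℕ} (α β : κ → X) (hα : Function.Injective α)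
    (hδ : ∀ t, δ (β t) + 1 = δ (α t)) :
    ∃ h : Lam δ →ₗ[ℚ] Lam δ, (∀ t, h (gen δ (α t)) = gen δ (β t)) ∧
      (∀ x, x ∉ Set.range α → h (gen δ x) = 0) ∧ h 1 = 0 ∧
      (∀ a b, h (a * b) = h a * b + sgn δ a * h b) ∧ (∀ a, sgn δ (h a) = -h (sgn δ a)) ∧
      ∀ n, ∀ a ∈ hom δ (n + 1), h a ∈ hom δ n := by
  classical
  let v : X → Lam δ := fun x => if hx : ∃ t, α t = x then gen δ (β hx.choose) else 0
  have hv1 : ∀ t, v (α t) = gen δ (β t) := by
    intro t
    have hx : ∃ t', α t' = α t := ⟨t, rfl⟩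
    have e : hx.choose = t := hα hx.choose_spec
    change (if hx : ∃ t', α t' = α t then gen δ (β hx.choose) else 0) = gen δ (β t)
    rw [dif_pos hx, e]
  have hv2 : ∀ x, x ∉ Set.range α → v x = 0 := by
    intro x hx
    exact dif_neg (fun h => hx h)
  have hv3 : ∀ x, (∃ t, x = α t) ∨ v x = 0 := by
    intro x
    by_cases hx : x ∈ Set.range α
    · obtain ⟨t, ht⟩ := hx
      exact Or.inl ⟨t, ht.symm⟩
    · exact Or.inr (hv2 x hx)
  obtain ⟨h, hg, hh1, hhm, hhs⟩ := exists_oder δ v (by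
    intro x
    rcases hv3 x with ⟨t, rfl⟩ | h0
    · rw [hv1, sgn_gen, ← hδ t, pow_add, pow_add]
      norm_num
    · rw [h0, map_zero, smul_zero])
  have hmon : ∀ l : List X, h (mon δ l) ∈ SP δ (fun l' => degSum δ l' + 1 = degSum δ l) := by
    intro l
    induction l with
    | nil => rw [mon_nil, hh1]; exact zero_mem _
    | cons x l ih =>
      rw [mon_cons, hhm]
      refine Submodule.add_mem _ ?_ ?_
      · rw [hg]
        rcases hv3 x with ⟨t, rfl⟩ | h0
        · rw [hv1, ← mon_cons]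
          refine SP_mon ?_
          rw [degSum_cons, degSum_cons, ← hδ t]
          omega
        · rw [h0, zero_mul]; exact zero_mem _
      · have hx : sgn δ (gen δ x) ∈ SP δ (fun l => l = [x]) := by
          rw [sgn_gen]
          exact Submodule.smul_mem _ _ (SP_gen rfl)
        refine SP_mul ?_ hx ih
        rintro _ l' rfl hl'
        rw [List.singleton_append, degSum_cons, degSum_cons]
        omega
  refine ⟨h, fun t => by rw [hg, hv1], fun x hx => by rw [hg, hv2 x hx], hh1, hhm, hhs, ?_⟩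
  intro n a ha
  have htop : a ∈ SP δ (fun _ => True) := by
    clear ha
    induction a using Lam.induction with
    | hm l => exact SP_mon trivial
    | h0 => exact zero_mem _
    | hadd a b ha hb => exact Submodule.add_mem _ ha hb
    | hsmul r a ha => exact Submodule.smul_mem _ _ ha
  refine c08k_map h (fun l hl => ?_) (SP_pr htop ha)
  refine c08k_ind (C := fun a => a ∈ hom δ n) (fun l' hl' => ?_) (zero_mem _)
    (fun _ _ h1 h2 => Submodule.add_mem _ h1 h2)
    (fun _ _ h1 => Submodule.smul_mem _ _ h1) (hmon l)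
  have h2 := mon_mem_hom δ l'
  have h3 := hl.2
  have h4 : degSum δ l' = n := by omega
  rwa [h4] at h2

end AnWL
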