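import Pool.Agent.Helper48.WL.C08a
import Pool.Agent.Helper48.WL.C08k

/-!
C08b. The closed elements `ã_j`, `j ∈ A` even. (Tools for `SP` in `C08l.lean`: `SP_D`, `SP_K`, `SP_length`, `min_SP`, ...)

`exists_h` for `κ = U`, `α u = inl u.1`, `β u = inr (inl u)`. `koszul_gen` with
`c l` := `2 ≤ cW l`, all letters of `l` are `inl a` (`a ∈ A`) or `inr (inl u)`, at most one letter of `l` is `inl b` with `deg b` even, and at least one letter of `l` is an odd `inl a` or an `inr (inl u)`;
`ν l` = number of the letters `inl a` (`deg a` odd), `inr (inl u)` of `l`. `p = -iL (S.d (gen j)) = D (h q)`, `ã_j = gen (inl j) + D-preimage`, i.e. `ã_j = gen (inl j) + h q` with `D (h q) = -iL (S.d (gen j))`.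
`p ∈ SP c`: `hA`, `min_SP`, `SP_length`, `SP_mapL` (letters in `A`, length `≥ 2`, at most one even letter, so at least one odd letter).
On letters: `K (inl a) = inl a + longer` (`a` odd: `D (inr u) = inl a + r`, `h (d a)`: words of length `≥ 2` in the letters `inl a'`, `inr (inl u)`, `a'` odd), `K (inr u) = inr u + h r`, `K (inl b) = h (d b)` (`b` even),
all additional terms are words of length `≥ 2` with at most one even `inl` letter if the letter is an even `inl`, none otherwise, with `cW ≥ 1` if the letter is an `inl`, and with at least one odd `inl` or `inr` letter.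
`hDc` from `SP_D`, `hK` from `SP_K`.
The letters of `h q`: `h` replaces an odd `inl a` by `inr (inl u)`, so `h q ∈ SP (1 ≤ cW l ∧ (∃ u, inr (inl u) ∈ l) ∧ letters)`.
-/

set_option autoImplicit false

namespace AnWL
open Anick2

/-- The number of the letters of even degree. -/
def evc {ι : Type} (deg : ι → ℕ) (l : List ι) : ℕ := l.countP (fun i => decide (Even (deg i)))

/-! ### counting letters -/

private theorem c08b_cW_append {ι κ : Type} (l l' : List (ι ⊕ κ)) : cW (l ++ l') = cW l + cW l' := by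
  simp [cW]

private theorem c08b_cW_inl {ι κ : Type} (i : ι) (l : List (ι ⊕ κ)) :
    cW (Sum.inl i :: l) = cW l + 1 := by simp [cW]

private theorem c08b_cW_inr {ι κ : Type} (i : κ) (l : List (ι ⊕ κ)) :
    cW (Sum.inr i :: l) = cW l := by simp [cW]

private theorem c08b_cW_nil {ι κ : Type} : cW ([] : List (ι ⊕ κ)) = 0 := by simp [cW]

private theorem c08b_cW_map {ι κ : Type} (l : List ι) :
    cW (l.map (Sum.inl : ι → ι ⊕ κ)) = l.length := by
  induction l with
  | nil => simp [cW]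
  | cons i l ih => rw [List.map_cons, c08b_cW_inl, ih, List.length_cons]

private theorem c08b_cW_le {ι κ : Type} (l : List (ι ⊕ κ)) : cW l ≤ l.length :=
  List.length_filter_le _ _

private theorem c08b_cW_pos {ι κ : Type} (l : List (ι ⊕ κ)) (h : 1 ≤ cW l) :
    ∃ i, Sum.inl i ∈ l := by
  induction l with
  | nil => rw [c08b_cW_nil] at h; omega
  | cons x l ih =>
    rcases x with i | t
    · exact ⟨i, by simp⟩
    · rw [c08b_cW_inr] at h
      obtain ⟨i, hi⟩ := ih h
      exact ⟨i, List.mem_cons_of_mem _ hi⟩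

/-- The admissible letters. -/
private def c08bOk {ι U M : Type} (A : Set ι) (x : ι ⊕ (U ⊕ M)) : Prop :=
  (∃ a ∈ A, x = Sum.inl a) ∨ ∃ v, x = Sum.inr (Sum.inl v)

/-- The odd letters. -/
private def c08bOd {ι U M : Type} (A : Set ι) (deg : ι → ℕ) (x : ι ⊕ (U ⊕ M)) : Prop :=
  (∃ a ∈ A, Odd (deg a) ∧ x = Sum.inl a) ∨ ∃ v, x = Sum.inr (Sum.inl v)

/-- The even letters of the first kind. -/
private def c08bEv {ι U M : Type} (deg : ι → ℕ) (x : ι ⊕ (U ⊕ M)) : Bool :=
  Sum.elim (fun i => decide (Even (deg i))) (fun _ => false) x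

private theorem c08b_Ev_inr {ι U M : Type} (deg : ι → ℕ) (x : U ⊕ M) :
    c08bEv deg (Sum.inr x) = false := rfl

private theorem c08b_Ev_inl {ι U M : Type} (deg : ι → ℕ) (i : ι) :
    c08bEv (U := U) (M := M) deg (Sum.inl i) = decide (Even (deg i)) := rfl

private theorem c08b_Ev_map {ι U M : Type} (deg : ι → ℕ) (l : List ι) :
    (l.map (Sum.inl : ι → ι ⊕ (U ⊕ M))).countP (c08bEv deg) = evc deg l := by
  unfold evc
  rw [List.countP_map]
  rfl

private theorem c08b_Od_Ok {ι U M : Type} {A : Set ι} {deg : ι → ℕ} {x : ι ⊕ (U ⊕ M)}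
    (h : c08bOd A deg x) : c08bOk A x := by
  rcases h with ⟨a, ha, -, h⟩ | h
  · exact Or.inl ⟨a, ha, h⟩
  · exact Or.inr h

private theorem c08b_Od_Ev {ι U M : Type} {A : Set ι} {deg : ι → ℕ} {x : ι ⊕ (U ⊕ M)}
    (h : c08bOd A deg x) : c08bEv deg x = false := by
  rcases h with ⟨a, ha, h1, rfl⟩ | ⟨v, rfl⟩
  · rw [c08b_Ev_inl]
    exact decide_eq_false (Nat.not_even_iff_odd.2 h1)
  · rfl

private theorem c08b_Ok_Od {ι U M : Type} {A : Set ι} {deg : ι → ℕ} {x : ι ⊕ (U ⊕ M)}
    (h : c08bOk A x) (h' : c08bEv deg x = false) : c08bOd A deg x := by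
  rcases h with ⟨a, ha, rfl⟩ | h
  · rw [c08b_Ev_inl] at h'
    exact Or.inl ⟨a, ha, Nat.not_even_iff_odd.1 (of_decide_eq_false h'), rfl⟩
  · exact Or.inr h

private theorem c08b_count_Od {ι U M : Type} {A : Set ι} {deg : ι → ℕ} {l : List (ι ⊕ (U ⊕ M))}
    (h : ∀ x ∈ l, c08bOd A deg x) : l.countP (c08bEv deg) = 0 := by
  rw [List.countP_eq_zero]
  intro x hx
  rw [c08b_Od_Ev (h x hx)]
  exact Bool.false_ne_true

private theorem c08b_top {X : Type} {δ : X → ℕ} (a : Lam δ) : a ∈ SP δ (fun _ => True) := by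
  induction a using Lam.induction with
  | hm l => exact SP_mon trivial
  | h0 => exact zero_mem _
  | hadd a b ha hb => exact add_mem ha hb
  | hsmul r a ha => exact Submodule.smul_mem _ _ ha

attribute [local irreducible] instRingLam

theorem exists_closed {ι : Type} [Finite ι] {deg : ι → ℕ} (S : MinimalSullivan deg) (A : Set ι)
    (N : ℕ) (hN : 1 ≤ N)
    (hA : ∀ a ∈ A, S.d (gen deg a) ∈
      SP deg (fun l => (∀ x ∈ l, x ∈ A) ∧ evc deg l ≤ if Even (deg a) then 1 else 0))
    (D : Lam (Sum.elim deg (PA S A N hN).dq) →ₗ[ℚ] Lam (Sum.elim deg (PA S A N hN).dq))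
    (hD : IsDifferential (hom (Sum.elim deg (PA S A N hN).dq)) D)
    (hext : ∀ a, D (iL deg (PA S A N hN).dq a) = iL deg (PA S A N hN).dq (S.d a))
    (hU : ∀ u : (PA S A N hN).U,
        D (gen (Sum.elim deg (PA S A N hN).dq) (Sum.inr (Sum.inl u))) -
          gen (Sum.elim deg (PA S A N hN).dq) (Sum.inl u.1) ∈
        SP (Sum.elim deg (PA S A N hN).dq) (fun l => 1 ≤ cW l ∧ 2 ≤ l.length ∧
          ∀ x ∈ l, (∃ a ∈ A, Odd (deg a) ∧ x = Sum.inl a) ∨ ∃ v, x = Sum.inr (Sum.inl v)))
    (j : (PA S A N hN).M) :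
    ∃ at' : Lam (Sum.elim deg (PA S A N hN).dq), D at' = 0 ∧
      at' ∈ hom (Sum.elim deg (PA S A N hN).dq) (deg j.1) ∧
      at' - gen (Sum.elim deg (PA S A N hN).dq) (Sum.inl j.1) ∈
        SP (Sum.elim deg (PA S A N hN).dq) (fun l => 1 ≤ cW l ∧ 2 ≤ l.length ∧
          (∃ a ∈ A, Sum.inl a ∈ l) ∧ ∀ i, Sum.inr (Sum.inr i) ∉ l) := by
  classical
  have hfi : Finite ((PA S A N hN).U ⊕ (PA S A N hN).M) := by
    have := (PA S A N hN).finU
    have := (PA S A N hN).finM
    infer_instance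
  have hfX : Finite (ι ⊕ ((PA S A N hN).U ⊕ (PA S A N hN).M)) := inferInstance
  have hdU : ∀ u : (PA S A N hN).U, (PA S A N hN).du u + 1 = deg u.1 := by
    intro u
    have h2 := S.two_le u.1
    have h3 : (PA S A N hN).du u = deg u.1 - 1 := rfl
    rw [h3]
    omega
  have hdM : ∀ u : (PA S A N hN).M, (PA S A N hN).dm u + 1 = deg u.1 := by
    intro u
    have h2 := S.two_le u.1
    have h3 : (PA S A N hN).dm u = deg u.1 - 1 := rfl
    rw [h3]
    omega
  have hpos : ∀ x, 1 ≤ (Sum.elim deg (PA S A N hN).dq) x := by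
    rintro (i | u | m)
    · have := S.two_le i
      change 1 ≤ deg i
      omega
    · have h2 := S.two_le u.1
      have h3 := hdU u
      change 1 ≤ (PA S A N hN).du u
      omega
    · have h2 := S.two_le m.1
      have h3 := hdM m
      change 1 ≤ (PA S A N hN).dm m
      omega
  have hOdU : ∀ u : (PA S A N hN).U, Odd (deg u.1) := fun u => u.2.2
  have hAU : ∀ u : (PA S A N hN).U, u.1 ∈ A := fun u => u.2.1
  obtain ⟨h, h1, h2, h3, h4, h5, h6⟩ := exists_h (δ := Sum.elim deg (PA S A N hN).dq) (fun u : (PA S A N hN).U => (Sum.inl u.1 : ι ⊕ ((PA S A N hN).U ⊕ (PA S A N hN).M)))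
    (fun u => Sum.inr (Sum.inl u))
    (fun u v huv => Subtype.ext (Sum.inl_injective huv)) hdU
  have hDm := fun a b => d_mul hD a b
  have hDg : ∀ i, D (gen (Sum.elim deg (PA S A N hN).dq) (Sum.inl i)) = iL deg (PA S A N hN).dq (S.d (gen deg i)) := by
    intro i
    rw [← hext]
    congr 1
    exact (mapL_gen _ i).symm
  -- words of the differential of a generator
  have hdA : ∀ a ∈ A, S.d (gen deg a) ∈ SP deg (fun l => ((∀ x ∈ l, x ∈ A) ∧
      evc deg l ≤ if Even (deg a) then 1 else 0) ∧ 2 ≤ l.length) :=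
    fun a ha => SP_length (hA a ha) (min_SP S a)
  have hdA' : ∀ a ∈ A, iL deg (PA S A N hN).dq (S.d (gen deg a)) ∈ SP (Sum.elim deg (PA S A N hN).dq) (fun l => 2 ≤ l.length ∧ 2 ≤ cW l ∧
      (∀ x ∈ l, c08bOk A x) ∧ l.countP (c08bEv deg) ≤ if Even (deg a) then 1 else 0) := by
    intro a ha
    refine SP_mapL Sum.inl (fun _ => rfl) ?_ (hdA a ha)
    rintro l ⟨⟨hl1, hl2⟩, hl3⟩
    refine ⟨by rw [List.length_map]; exact hl3, by rw [c08b_cW_map]; exact hl3, ?_, ?_⟩
    · intro x hx
      obtain ⟨i, hi, rfl⟩ := List.mem_map.1 hx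
      exact Or.inl ⟨i, hl1 i hi, rfl⟩
    · rw [c08b_Ev_map]
      exact hl2
  -- the contraction on words
  have hh : ∀ {p q : List (ι ⊕ ((PA S A N hN).U ⊕ (PA S A N hN).M)) → Prop},
      (∀ l₁ l₂ (u : (PA S A N hN).U), p (l₁ ++ Sum.inl u.1 :: l₂) →
        q (l₁ ++ Sum.inr (Sum.inl u) :: l₂)) → ∀ {a : Lam (Sum.elim deg (PA S A N hN).dq)}, a ∈ SP (Sum.elim deg (PA S A N hN).dq) p → h a ∈ SP (Sum.elim deg (PA S A N hN).dq) q := by
    intro p q hpq a ha
    refine SP_D h h4 (fun x l' => ∃ u : (PA S A N hN).U, x = Sum.inl u.1 ∧ l' = [Sum.inr (Sum.inl u)]) ?_ ?_ ha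
    · intro x
      by_cases hx : x ∈ Set.range (fun u : (PA S A N hN).U => (Sum.inl u.1 : ι ⊕ ((PA S A N hN).U ⊕ (PA S A N hN).M)))
      · obtain ⟨u, rfl⟩ := hx
        rw [h1 u]
        exact SP_gen ⟨u, rfl, rfl⟩
      · rw [h2 x hx]
        exact zero_mem _
    · rintro l₁ x l₂ l' hl ⟨u, rfl, rfl⟩
      have := hpq l₁ l₂ u hl
      simpa using this
  have hcE : ∀ (l₁ l₂ : List (ι ⊕ ((PA S A N hN).U ⊕ (PA S A N hN).M))) (u : (PA S A N hN).U),
      (l₁ ++ Sum.inr (Sum.inl u) :: l₂).countP (c08bEv deg) =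
        (l₁ ++ Sum.inl u.1 :: l₂).countP (c08bEv deg) := by
    intro l₁ l₂ u
    rw [List.countP_append, List.countP_append, List.countP_cons, List.countP_cons, c08b_Ev_inr,
      c08b_Ev_inl, decide_eq_false (Nat.not_even_iff_odd.2 (hOdU u))]
  have hcO : ∀ (l₁ l₂ : List (ι ⊕ ((PA S A N hN).U ⊕ (PA S A N hN).M))) (u : (PA S A N hN).U),
      (∀ x ∈ l₁ ++ Sum.inl u.1 :: l₂, c08bOk A x) →
        ∀ x ∈ l₁ ++ Sum.inr (Sum.inl u) :: l₂, c08bOk A x := by
    intro l₁ l₂ u hl x hx
    rcases List.mem_append.1 hx with hx | hx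
    · exact hl x (List.mem_append_left _ hx)
    · rcases List.mem_cons.1 hx with rfl | hx
      · exact Or.inr ⟨u, rfl⟩
      · exact hl x (List.mem_append_right _ (List.mem_cons_of_mem _ hx))
  have hcW : ∀ (l₁ l₂ : List (ι ⊕ ((PA S A N hN).U ⊕ (PA S A N hN).M))) (u : (PA S A N hN).U),
      cW (l₁ ++ Sum.inl u.1 :: l₂) = cW (l₁ ++ Sum.inr (Sum.inl u) :: l₂) + 1 := by
    intro l₁ l₂ u
    rw [c08b_cW_append, c08b_cW_append, c08b_cW_inl, c08b_cW_inr]
    omega
  have hcl : ∀ (l₁ l₂ : List (ι ⊕ ((PA S A N hN).U ⊕ (PA S A N hN).M))) (u : (PA S A N hN).U),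
      (l₁ ++ Sum.inr (Sum.inl u) :: l₂).length = (l₁ ++ Sum.inl u.1 :: l₂).length := by
    intro l₁ l₂ u
    simp
  let c : List (ι ⊕ ((PA S A N hN).U ⊕ (PA S A N hN).M)) → Prop := fun l =>
    2 ≤ cW l ∧ (∀ x ∈ l, c08bOk A x) ∧ l.countP (c08bEv deg) ≤ 1
  have hcc : ∀ (l₁ : List (ι ⊕ ((PA S A N hN).U ⊕ (PA S A N hN).M))) x l₂ l', c (l₁ ++ x :: l₂) →
      (∀ y ∈ l', c08bOk A y) → l'.countP (c08bEv deg) ≤ [x].countP (c08bEv deg) →
      cW [x] ≤ cW l' → c (l₁ ++ l' ++ l₂) := by
    rintro l₁ x l₂ l' ⟨g1, g2, g3⟩ k1 k2 k3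
    have e1 : l₁ ++ x :: l₂ = l₁ ++ [x] ++ l₂ := by simp
    refine ⟨?_, ?_, ?_⟩
    · rw [e1, c08b_cW_append, c08b_cW_append] at g1
      rw [c08b_cW_append, c08b_cW_append]
      omega
    · intro y hy
      rcases List.mem_append.1 hy with hy | hy
      · rcases List.mem_append.1 hy with hy | hy
        · exact g2 y (List.mem_append_left _ hy)
        · exact k1 y hy
      · exact g2 y (List.mem_append_right _ (List.mem_cons_of_mem _ hy))
    · rw [e1, List.countP_append, List.countP_append] at g3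
      rw [List.countP_append, List.countP_append]
      omega
  have hOkx : ∀ (l₁ : List (ι ⊕ ((PA S A N hN).U ⊕ (PA S A N hN).M))) x l₂, c (l₁ ++ x :: l₂) → c08bOk A x :=
    fun l₁ x l₂ hl => hl.2.1 x (by simp)
  -- `D` preserves the words
  have hDc : ∀ a ∈ SP (Sum.elim deg (PA S A N hN).dq) c, D a ∈ SP (Sum.elim deg (PA S A N hN).dq) c := by
    intro a ha
    refine SP_D D hDm (fun x l' => c08bOk A x → (∀ y ∈ l', c08bOk A y) ∧
      l'.countP (c08bEv deg) ≤ [x].countP (c08bEv deg) ∧ cW [x] ≤ cW l') ?_ ?_ ha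
    · intro x
      by_cases hx : c08bOk A x
      · rcases hx with ⟨a, ha, rfl⟩ | ⟨u, rfl⟩
        · rw [hDg]
          refine SP_imp ?_ (hdA' a ha)
          rintro l ⟨g1, g2, g3, g4⟩ -
          refine ⟨g3, ?_, ?_⟩
          · rw [List.countP_singleton, c08b_Ev_inl]
            by_cases he : Even (deg a)
            · simpa [he] using g4
            · simpa [he] using g4
          · rw [c08b_cW_inl, c08b_cW_nil]
            omega
        · have e1 : D (gen (Sum.elim deg (PA S A N hN).dq) (Sum.inr (Sum.inl u))) =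
              gen (Sum.elim deg (PA S A N hN).dq) (Sum.inl u.1) + (D (gen (Sum.elim deg (PA S A N hN).dq) (Sum.inr (Sum.inl u))) - gen (Sum.elim deg (PA S A N hN).dq) (Sum.inl u.1)) := by
            abel
          rw [e1]
          refine add_mem (SP_gen ?_) (SP_imp ?_ (hU u))
          · intro _
            refine ⟨?_, ?_, ?_⟩
            · intro y hy
              rw [List.mem_singleton] at hy
              exact Or.inl ⟨u.1, hAU u, hy⟩
            · rw [List.countP_singleton, c08b_Ev_inl,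
                decide_eq_false (Nat.not_even_iff_odd.2 (hOdU u))]
              simp
            · rw [c08b_cW_inr, c08b_cW_nil]
              omega
          · rintro l ⟨g1, g2, g3⟩ -
            have g4 : ∀ y ∈ l, c08bOd A deg y := g3
            refine ⟨fun y hy => c08b_Od_Ok (g4 y hy), ?_, ?_⟩
            · rw [c08b_count_Od g4]
              exact Nat.zero_le _
            · rw [c08b_cW_inr, c08b_cW_nil]
              omega
      · exact SP_imp (fun l _ hx' => absurd hx' hx) (c08b_top _)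
    · rintro l₁ x l₂ l' hl hv
      obtain ⟨k1, k2, k3⟩ := hv (hOkx l₁ x l₂ hl)
      exact hcc l₁ x l₂ l' hl k1 k2 k3
  -- `K` on the words
  have hK : ∀ l, c l → D (h (mon (Sum.elim deg (PA S A N hN).dq) l)) + h (D (mon (Sum.elim deg (PA S A N hN).dq) l)) -
      ((l.countP (fun x => decide (c08bOd A deg x)) : ℕ) : ℚ) • mon (Sum.elim deg (PA S A N hN).dq) l ∈
      SP (Sum.elim deg (PA S A N hN).dq) (fun l' => c l' ∧ l.length < l'.length) := by
    intro l hl
    refine SP_K D h hDm h4 (sgn_d hD) h5 (c08bOd A deg) (fun x l' => c08bOk A x →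
      2 ≤ l'.length ∧ (∀ y ∈ l', c08bOk A y) ∧
      l'.countP (c08bEv deg) ≤ [x].countP (c08bEv deg) ∧ cW [x] ≤ cW l') ?_ l ?_
    · intro x
      by_cases hx : c08bOk A x
      · rcases hx with ⟨a, ha, rfl⟩ | ⟨u, rfl⟩
        · have hhd : h (D (gen (Sum.elim deg (PA S A N hN).dq) (Sum.inl a))) ∈ SP (Sum.elim deg (PA S A N hN).dq) (fun l' => c08bOk A (Sum.inl a : ι ⊕ ((PA S A N hN).U ⊕ (PA S A N hN).M)) →
              2 ≤ l'.length ∧ (∀ y ∈ l', c08bOk A y) ∧
              l'.countP (c08bEv deg) ≤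
                [(Sum.inl a : ι ⊕ ((PA S A N hN).U ⊕ (PA S A N hN).M))].countP (c08bEv deg) ∧
              cW [(Sum.inl a : ι ⊕ ((PA S A N hN).U ⊕ (PA S A N hN).M))] ≤ cW l') := by
            rw [hDg]
            refine hh ?_ (hdA' a ha)
            rintro l₁ l₂ u ⟨g1, g2, g3, g4⟩ -
            refine ⟨by rw [hcl]; exact g1, hcO l₁ l₂ u g3, ?_, ?_⟩
            · rw [hcE, List.countP_singleton, c08b_Ev_inl]
              by_cases he : Even (deg a)
              · simpa [he] using g4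
              · simpa [he] using g4
            · rw [hcW] at g2
              rw [c08b_cW_inl, c08b_cW_nil]
              omega
          by_cases he : Even (deg a)
          · have hna : (Sum.inl a : ι ⊕ ((PA S A N hN).U ⊕ (PA S A N hN).M)) ∉
                Set.range (fun u : (PA S A N hN).U => (Sum.inl u.1 : ι ⊕ ((PA S A N hN).U ⊕ (PA S A N hN).M))) := by
              rintro ⟨u, hu⟩
              have e1 : u.1 = a := Sum.inl_injective hu
              have e2 := hOdU u
              rw [e1] at e2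
              exact Nat.not_even_iff_odd.2 e2 he
            have hnE : ¬ c08bOd A deg (Sum.inl a : ι ⊕ ((PA S A N hN).U ⊕ (PA S A N hN).M)) := by
              intro hE
              have := c08b_Od_Ev hE
              rw [c08b_Ev_inl] at this
              exact of_decide_eq_false this he
            rw [h2 _ hna, map_zero, zero_add, if_neg hnE, sub_zero]
            exact hhd
          · have ho : Odd (deg a) := Nat.not_even_iff_odd.1 he
            have hE : c08bOd A deg (Sum.inl a : ι ⊕ ((PA S A N hN).U ⊕ (PA S A N hN).M)) := Or.inl ⟨a, ha, ho, rfl⟩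
            let u : (PA S A N hN).U := ⟨a, ha, ho⟩
            have e1 : h (gen (Sum.elim deg (PA S A N hN).dq) (Sum.inl a)) = gen (Sum.elim deg (PA S A N hN).dq) (Sum.inr (Sum.inl u)) := h1 u
            rw [if_pos hE, e1]
            have e2 : D (gen (Sum.elim deg (PA S A N hN).dq) (Sum.inr (Sum.inl u))) + h (D (gen (Sum.elim deg (PA S A N hN).dq) (Sum.inl a))) -
                gen (Sum.elim deg (PA S A N hN).dq) (Sum.inl a) = (D (gen (Sum.elim deg (PA S A N hN).dq) (Sum.inr (Sum.inl u))) - gen (Sum.elim deg (PA S A N hN).dq) (Sum.inl u.1)) +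
                  h (D (gen (Sum.elim deg (PA S A N hN).dq) (Sum.inl a))) := by
              change D (gen (Sum.elim deg (PA S A N hN).dq) (Sum.inr (Sum.inl u))) + h (D (gen (Sum.elim deg (PA S A N hN).dq) (Sum.inl a))) -
                gen (Sum.elim deg (PA S A N hN).dq) (Sum.inl a) = (D (gen (Sum.elim deg (PA S A N hN).dq) (Sum.inr (Sum.inl u))) - gen (Sum.elim deg (PA S A N hN).dq) (Sum.inl a)) +
                  h (D (gen (Sum.elim deg (PA S A N hN).dq) (Sum.inl a)))
              abel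
            rw [e2]
            refine add_mem (SP_imp ?_ (hU u)) hhd
            rintro l ⟨g1, g2, g3⟩ -
            have g4 : ∀ y ∈ l, c08bOd A deg y := g3
            refine ⟨g2, fun y hy => c08b_Od_Ok (g4 y hy), ?_, ?_⟩
            · rw [c08b_count_Od g4]
              exact Nat.zero_le _
            · rw [c08b_cW_inl, c08b_cW_nil]
              omega
        · have hna : (Sum.inr (Sum.inl u) : ι ⊕ ((PA S A N hN).U ⊕ (PA S A N hN).M)) ∉
              Set.range (fun u : (PA S A N hN).U => (Sum.inl u.1 : ι ⊕ ((PA S A N hN).U ⊕ (PA S A N hN).M))) := by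
            rintro ⟨u, hu⟩
            exact Sum.inl_ne_inr hu
          have hE : c08bOd A deg (Sum.inr (Sum.inl u) : ι ⊕ ((PA S A N hN).U ⊕ (PA S A N hN).M)) := Or.inr ⟨u, rfl⟩
          rw [h2 _ hna, map_zero, zero_add, if_pos hE]
          have e1 : h (D (gen (Sum.elim deg (PA S A N hN).dq) (Sum.inr (Sum.inl u)))) - gen (Sum.elim deg (PA S A N hN).dq) (Sum.inr (Sum.inl u)) =
              h (D (gen (Sum.elim deg (PA S A N hN).dq) (Sum.inr (Sum.inl u))) - gen (Sum.elim deg (PA S A N hN).dq) (Sum.inl u.1)) := by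
            rw [map_sub]
            congr 1
            exact (h1 u).symm
          rw [e1]
          refine hh ?_ (hU u)
          rintro l₁ l₂ v ⟨g1, g2, g3⟩ -
          have g4 : ∀ y ∈ l₁ ++ Sum.inl v.1 :: l₂, c08bOd A deg y := g3
          refine ⟨by rw [hcl]; exact g2, hcO l₁ l₂ v (fun y hy => c08b_Od_Ok (g4 y hy)), ?_, ?_⟩
          · rw [hcE, c08b_count_Od g4]
            exact Nat.zero_le _
          · rw [c08b_cW_inr, c08b_cW_nil]
            exact Nat.zero_le _
      · exact SP_imp (fun l _ hx' => absurd hx' hx) (c08b_top _)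
    · rintro l₁ x l₂ l' rfl hv
      obtain ⟨k0, k1, k2, k3⟩ := hv (hOkx l₁ x l₂ hl)
      refine ⟨hcc l₁ x l₂ l' hl k1 k2 k3, ?_⟩
      simp only [List.length_append, List.length_cons]
      omega
  have hν : ∀ l, c l → 1 ≤ l.countP (fun x => decide (c08bOd A deg x)) := by
    rintro l ⟨g1, g2, g3⟩
    by_contra hcon
    have g4 : l.countP (fun x => decide (c08bOd A deg x)) = 0 := by omega
    rw [List.countP_eq_zero] at g4
    have g5 : l.countP (c08bEv deg) = l.length := by
      rw [List.countP_eq_length]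
      intro x hx
      by_contra hx'
      have hx'' : c08bEv deg x = false := by
        cases hb : c08bEv deg x
        · rfl
        · exact absurd hb hx'
      exact g4 x hx (decide_eq_true (c08b_Ok_Od (g2 x hx) hx''))
    have g6 := c08b_cW_le l
    omega
  have hjA : j.1 ∈ A := j.2.1
  have hjE : Even (deg j.1) := j.2.2
  have hpc : -iL deg (PA S A N hN).dq (S.d (gen deg j.1)) ∈ SP (Sum.elim deg (PA S A N hN).dq) c := by
    refine neg_mem (SP_imp ?_ (hdA' j.1 hjA))
    rintro l ⟨g1, g2, g3, g4⟩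
    rw [if_pos hjE] at g4
    exact ⟨g2, g3, g4⟩
  have hpn : -iL deg (PA S A N hN).dq (S.d (gen deg j.1)) ∈ hom (Sum.elim deg (PA S A N hN).dq) (deg j.1 + 1) :=
    neg_mem (mapL_hom _ (S.isDifferential.map_hom _ _ (gen_mem_hom deg j.1)))
  have hDp : D (-iL deg (PA S A N hN).dq (S.d (gen deg j.1))) = 0 := by
    rw [map_neg, hext, S.isDifferential.d_d, map_zero, neg_zero]
  obtain ⟨q, hq1, hq2, hq3⟩ := koszul_gen hpos D h hD.d_d hD.map_hom h6 c
    (fun l => l.countP (fun x => decide (c08bOd A deg x))) hν hDc hK hpc hpn hDp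
  refine ⟨gen (Sum.elim deg (PA S A N hN).dq) (Sum.inl j.1) + h q, ?_, ?_, ?_⟩
  · rw [map_add, hq3, hDg, add_neg_cancel]
  · exact add_mem (gen_mem_hom (Sum.elim deg (PA S A N hN).dq) (Sum.inl j.1)) (h6 _ _ hq2)
  · rw [add_sub_cancel_left]
    refine hh ?_ hq1
    rintro l₁ l₂ u ⟨g1, g2, g3⟩
    have g4 := hcO l₁ l₂ u g2
    have g5 := hcW l₁ l₂ u
    have g6 : 1 ≤ cW (l₁ ++ Sum.inr (Sum.inl u) :: l₂) := by omega
    refine ⟨g6, ?_, ?_, ?_⟩
    · rw [hcl]
      have := c08b_cW_le (l₁ ++ Sum.inl u.1 :: l₂)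
      omega
    · obtain ⟨i, hi⟩ := c08b_cW_pos _ g6
      rcases g4 _ hi with ⟨a, ha, h'⟩ | ⟨v, h'⟩
      · rw [h'] at hi
        exact ⟨a, ha, hi⟩
      · exact absurd h' Sum.inl_ne_inr
    · intro i hi
      rcases g4 _ hi with ⟨a, ha, h'⟩ | ⟨v, h'⟩
      · exact Sum.inr_ne_inl h'
      · exact Sum.inr_ne_inl (Sum.inr_injective h')

end AnWL
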