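import Pool.Agent.Helper48.WL.C06d

/-!
C08c. The elements `Y_j`: superfields over `Λ(u)` (level `L = ∅`) with sources `ã_j ^ N`.

Induction on the finite set `P.M` (`P.finM`; adjoin the `Y_j` one after the other; state the induction for a `Finset`/list of the `j`). Step: `w = (h.Φ (at j)) ^ N`, closed (`h.D`, `d_pow_even`-type or product rule), even, in
`SP (N ≤ cW)` (`SP_mul_left`), free of all `X` (`pdv`: `T.p i (at j) = 0`, `pdv_mul`). If `w = 0`: `Y_j = 0`. Otherwise `exists_superfield` with `L = ∅`, `g = N * e j`: `Y_j = fld`, it is in `hom (N * e j - 1)` (`fld_hom`),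
`p i Y_j = 0` (`fld_p`). The degrees of the new letters are odd: `T'.deg (ζ b) + B.e b + 1 = g` with `g` even and `B.e b` even, as `ω b ∈ homS P.dq (tL P ∅) (e b)` is nonzero (`B.ind`) and all its letters are
`u` (even degree `P.du_even`). `Y_free` form: `SP_of_pdv_zero` for all `X_i`, `i` in the finite set `P.M`.
-/

set_option autoImplicit false

namespace AnWL
open Anick2
variable {P : Par}

/-- An element which does not involve the letters `X`. -/
def TS.free (T : TS P) (a : Lam T.dt) : Prop :=
  a ∈ SP T.dt (fun l => ∀ j' : P.M, Sum.inr (Sum.inr j') ∉ l)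

private theorem C08c_one (T : TS P) (j : P.M) : T.p j 1 = 0 := by
  have h : (1 : Lam T.dt) ∈ SP T.dt (fun l => Sum.inr (Sum.inr j) ∉ l) :=
    Submodule.subset_span ⟨[], by simp, rfl⟩
  exact pdv_zero_of_SP (T.odd j) h

private theorem C08c_p_pow (T : TS P) (j : P.M) {a : Lam T.dt} (h : T.p j a = 0) (n : ℕ) :
    T.p j (a ^ n) = 0 := by
  induction n with
  | zero => rw [pow_zero]; exact C08c_one T j
  | succ n ih =>
    rw [pow_succ]
    have h1 : T.p j (a ^ n * a) = T.p j (a ^ n) * a + sgn T.dt (a ^ n) * T.p j a :=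
      pdv_mul (T.odd j) (a ^ n) a
    rw [h1, ih, h, zero_mul, mul_zero, add_zero]

private theorem C08c_D_pow (T : TS P) {a : Lam T.dt} (h : T.D a = 0) (n : ℕ) :
    T.D (a ^ n) = 0 := by
  induction n with
  | zero => rw [pow_zero]; exact d_one T.diff
  | succ n ih => rw [pow_succ, T.leib, ih, h, zero_mul, mul_zero, add_zero]

private theorem C08c_hom_pow (T : TS P) {a : Lam T.dt} {e : ℕ} (h : a ∈ hom T.dt e) (n : ℕ) :
    a ^ n ∈ hom T.dt (n * e) := by
  induction n with
  | zero =>
    rw [pow_zero, zero_mul]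
    exact mon_mem_hom T.dt []
  | succ n ih =>
    rw [pow_succ, add_mul, one_mul]
    exact mul_mem_hom T.dt ih h

private theorem C08c_SP_pow (T : TS P) {a : Lam T.dt} (h : a ∈ SP T.dt (fun l => 1 ≤ cW l))
    (n : ℕ) : a ^ n ∈ SP T.dt (fun l => n ≤ cW l) := by
  induction n with
  | zero => exact SP_zero_top _ _
  | succ n ih =>
    rw [pow_succ]
    exact SP_mul_left ih h

private theorem C08c_SP_mono {ι : Type} {δ : ι → ℕ} {p q : List ι → Prop} (h : ∀ l, p l → q l)
    {a : Lam δ} (ha : a ∈ SP δ p) : a ∈ SP δ q := by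
  unfold SP at ha ⊢
  refine Submodule.span_mono ?_ ha
  rintro _ ⟨l, hl, rfl⟩
  exact ⟨l, h l hl, rfl⟩

private theorem C08c_p_of_free (T : TS P) {a : Lam T.dt} (h : T.free a) (j : P.M) :
    T.p j a = 0 :=
  pdv_zero_of_SP (T.odd j) (C08c_SP_mono (fun _ hl => hl j) h)

private theorem C08c_free_of_p (T : TS P) {a : Lam T.dt} (h : ∀ j, T.p j a = 0) : T.free a := by
  classical
  have := P.finM
  have := Fintype.ofFinite P.M
  have key : ∀ J : Finset P.M,
      a ∈ SP T.dt (fun l => ∀ j' ∈ J, Sum.inr (Sum.inr j') ∉ l) := by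
    intro J
    induction J using Finset.induction_on with
    | empty => exact C08c_SP_mono (fun _ _ => by simp) (SP_zero_top _ a)
    | insert j J _ ih =>
      refine C08c_SP_mono ?_ (SP_of_pdv_zero (T.odd j) ih (h j))
      rintro l ⟨hl, hl'⟩ j' hj'
      rcases Finset.mem_insert.1 hj' with h3 | h3
      · rw [h3]
        exact hl'
      · exact hl j' h3
  exact C08c_SP_mono (fun l hl j' => hl j' (Finset.mem_univ j')) (key Finset.univ)

private theorem C08c_even {Q : ℕ} (B : Bas P ∅ Q) (b : B.B) : Even (B.e b) := by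
  by_contra hne
  have h0 : B.ω b = 0 := by
    refine homS_induction (C := fun a => a = 0) P.dq (S := tL P ∅) (n := B.e b) ?_ rfl ?_ ?_
      (B.mem b)
    · intro l hl hn
      exfalso
      apply hne
      rw [← hn]
      clear hn
      induction l with
      | nil => exact ⟨0, rfl⟩
      | cons t l ih =>
        rw [degSum_cons]
        refine Even.add ?_ (ih fun i hi => hl i (List.mem_cons_of_mem _ hi))
        rcases t with u | j
        · exact P.du_even u
        · exact absurd (hl (Sum.inr j) List.mem_cons_self j rfl) (Finset.notMem_empty j)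
    · intro x y hx hy
      rw [hx, hy, add_zero]
    · intro r x hx
      rw [hx, smul_zero]
  exact B.ind.ne_zero b h0

theorem exists_Y (T : TS P) (n₀ : ℕ) (hn₀ : 2 ≤ n₀) (hN : n₀ + 2 ≤ P.N)
    (at' : P.M → Lam T.dt) (e : P.M → ℕ) (he : ∀ j, Even (e j)) (hhom : ∀ j, at' j ∈ hom T.dt (e j))
    (hI : ∀ j, at' j ∈ SP T.dt (fun l => 1 ≤ cW l)) (hD : ∀ j, T.D (at' j) = 0)
    (hf : ∀ j, T.free (at' j)) :
    ∃ (T' : TS P) (h : T.Hom T') (Y : P.M → Lam T'.dt),
      (∀ i, i ∉ Set.range h.f → n₀ ≤ T'.deg i ∧ Odd (T'.deg i)) ∧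
      (∀ j, Y j ∈ hom T'.dt (P.N * e j - 1)) ∧ (∀ j, T'.free (Y j)) ∧
      ∀ j, T'.D (Y j) = h.Φ (at' j) ^ P.N := by
  classical
  have := P.finM
  have := Fintype.ofFinite P.M
  have key : ∀ J : Finset P.M, ∃ (T' : TS P) (h : T.Hom T') (Y : P.M → Lam T'.dt),
      (∀ i, i ∉ Set.range h.f → n₀ ≤ T'.deg i ∧ Odd (T'.deg i)) ∧
      (∀ j ∈ J, Y j ∈ hom T'.dt (P.N * e j - 1)) ∧ (∀ j ∈ J, T'.free (Y j)) ∧
      ∀ j ∈ J, T'.D (Y j) = h.Φ (at' j) ^ P.N := by
    intro J
    induction J using Finset.induction_on with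
    | empty =>
      refine ⟨T, TS.Hom.id T, fun _ => 0, ?_, ?_, ?_, ?_⟩
      · intro i hi
        exact absurd ⟨i, rfl⟩ hi
      · intro j hj
        exact absurd hj (Finset.notMem_empty j)
      · intro j hj
        exact absurd hj (Finset.notMem_empty j)
      · intro j hj
        exact absurd hj (Finset.notMem_empty j)
    | insert a J haJ ih =>
      obtain ⟨T₁, h₁, Y₁, hnew, hYh, hYf, hYD⟩ := ih
      by_cases hw0 : h₁.Φ (at' a) ^ P.N = 0
      · refine ⟨T₁, h₁, fun j => if j = a then 0 else Y₁ j, hnew, ?_, ?_, ?_⟩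
        · intro j hj
          by_cases hja : j = a
          · simp only [if_pos hja]
            exact zero_mem _
          · simp only [if_neg hja]
            exact hYh j ((Finset.mem_insert.1 hj).resolve_left hja)
        · intro j hj
          by_cases hja : j = a
          · simp only [if_pos hja]
            exact Submodule.zero_mem _
          · simp only [if_neg hja]
            exact hYf j ((Finset.mem_insert.1 hj).resolve_left hja)
        · intro j hj
          by_cases hja : j = a
          · simp only [if_pos hja]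
            rw [map_zero, hja, hw0]
          · simp only [if_neg hja]
            exact hYD j ((Finset.mem_insert.1 hj).resolve_left hja)
      · have hD1 : T₁.D (h₁.Φ (at' a)) = 0 := by rw [Φ_D, hD, map_zero]
        have hp1 : ∀ j, T₁.p j (h₁.Φ (at' a)) = 0 := by
          intro j
          rw [Φ_p, C08c_p_of_free T (hf a) j, map_zero]
        obtain ⟨T₂, h₂, Q, B, ζ, hζ, hζn, hζe, hζD⟩ :=
          exists_superfield T₁ ∅ n₀ hn₀ (P.N * e a) (h₁.Φ (at' a) ^ P.N) hw0
            (C08c_hom_pow T₁ (Φ_hom h₁ (hhom a)) P.N)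
            (C08c_SP_mono (fun _ hl => le_trans hN hl) (C08c_SP_pow T₁ (Φ_SP h₁ (hI a)) P.N))
            (C08c_D_pow T₁ hD1 P.N) (fun j _ => C08c_p_pow T₁ j (hp1 j) P.N)
        refine ⟨T₂, h₁.comp h₂, fun j => if j = a then T₂.fld B ζ else h₂.Φ (Y₁ j), ?_, ?_, ?_, ?_⟩
        · intro i hi
          rcases hζ i with ⟨i₁, hi₁⟩ | ⟨b, hb⟩
          · have h3 : i₁ ∉ Set.range h₁.f := by
              rintro ⟨i₀, hi₀⟩
              exact hi ⟨i₀, by rw [← hi₁, ← hi₀]; rfl⟩
            have h4 := hnew i₁ h3
            rw [← hi₁, h₂.deg]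
            exact h4
          · rw [hb]
            refine ⟨hζn b, ?_⟩
            have h5 : Even (P.N * e a) := (he a).mul_left _
            rw [← hζe b] at h5
            have h6 := C08c_even B b
            rcases Nat.even_or_odd (T₂.deg (ζ b)) with h7 | h7
            · exfalso
              have h8 : Odd (T₂.deg (ζ b) + B.e b + 1) := (h7.add h6).add_one
              exact (Nat.not_even_iff_odd.2 h8) h5
            · exact h7
        · intro j hj
          by_cases hja : j = a
          · simp only [if_pos hja]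
            rw [hja]
            exact fld_hom T₂ B ζ _ hζe
          · simp only [if_neg hja]
            exact Φ_hom h₂ (hYh j ((Finset.mem_insert.1 hj).resolve_left hja))
        · intro j hj
          by_cases hja : j = a
          · simp only [if_pos hja]
            exact C08c_free_of_p T₂ fun j' => fld_p T₂ B ζ j' (Finset.notMem_empty j')
          · simp only [if_neg hja]
            refine C08c_free_of_p T₂ fun j' => ?_
            rw [Φ_p, C08c_p_of_free T₁ (hYf j ((Finset.mem_insert.1 hj).resolve_left hja)) j',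
              map_zero]
        · intro j hj
          by_cases hja : j = a
          · simp only [if_pos hja]
            rw [hζD, hja, map_pow, comp_Φ]
          · simp only [if_neg hja]
            rw [Φ_D, hYD j ((Finset.mem_insert.1 hj).resolve_left hja), map_pow, comp_Φ]
  obtain ⟨T', h, Y, h1, h2, h3, h4⟩ := key Finset.univ
  exact ⟨T', h, Y, h1, fun j => h2 j (Finset.mem_univ j), fun j => h3 j (Finset.mem_univ j),
    fun j => h4 j (Finset.mem_univ j)⟩

end AnWL
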