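import Pool.Agent.Helper48.WL.C08b
import Pool.Agent.Helper48.WL.C08d

/-!
C08e. The base total system. (Tools for `SP` in `C08l.lean`.)

`exists_base`: `exists_T1` (hypothesis `hb` from `hA`: for odd `a` the words have no even letter; a monomial with letters in `{x ∈ A | deg x odd}` is in the `adjoin`) gives `D`; `T₁ : TS P` with `ι`, `deg`, `S`, this `D`, `Y = 0`
(`D_Y`: `0 = 0 ^ N`). `exists_closed` gives `at' j`; `exists_Y` with `e j = deg j` (`P.dm j + 1 = deg j`), `T.free` and `1 ≤ cW` from the last property of `exists_closed` and `gen (inl j)`. It gives `T'`, `h`, `Y`. `T₀ = T'.redo (fun j => h.Φ (at' j)) .. Y`,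
`f = h.f`. `Dt'`: for `inr (inl u)`: `T₀.D (gU u) = T'.D (gU u)` (`redoD_free`) `= h.Φ (T₁.D (gU u))`, and `h.Φ` maps `SP` to `SP` (letters `inl a ↦ inl (h.f a)`, `inr t ↦ inr t`); for `inr (inr j)`: `redoD_gX`.
A word as in `exists_T1` (`1 ≤ cW l`, all letters `inl a`, `a ∈ A`, or `inr ..`) contains a letter `inl a`, `a ∈ A`.
-/

set_option autoImplicit false

namespace AnWL
open Anick2

/-- The properties of the base. -/
structure IsBase {ι : Type} [hfin : Finite ι] {deg : ι → ℕ} (S : MinimalSullivan deg) (A : Set ι)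
    (n₀ N : ℕ) (hN : 1 ≤ N) (T : TS (PA S A N hN)) (f : ι → T.ι) : Prop where
  inj : Function.Injective f
  deg : ∀ i, T.deg (f i) = deg i
  d : ∀ a, T.S.d (mapL f deg a) = mapL f deg (S.d a)
  new : ∀ i, i ∉ Set.range f → n₀ ≤ T.deg i ∧ Odd (T.deg i)
  Dt' : ∀ t, T.D (gen T.dt (Sum.inr t)) - T.gW (f (aa S A N hN t)) ∈
    SP T.dt (fun l => 1 ≤ cW l ∧ 2 ≤ l.length ∧ ∃ a ∈ A, Sum.inl (f a) ∈ l)

private theorem c08e_cW_map {ι ι' κ : Type} (f : ι → ι') (l : List (ι ⊕ κ)) :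
    cW (l.map (Sum.map f (id : κ → κ))) = cW l := by
  unfold cW
  induction l with
  | nil => rfl
  | cons x l ih =>
    rcases x with x | x
    · simpa using ih
    · simpa using ih

private theorem c08e_cW_pos {ι κ : Type} {l : List (ι ⊕ κ)} (h : 1 ≤ cW l) :
    ∃ i, Sum.inl i ∈ l := by
  unfold cW at h
  obtain ⟨x, hx⟩ := List.exists_mem_of_length_pos (show 0 < _ from h)
  rw [List.mem_filter] at hx
  rcases x with i | t
  · exact ⟨i, hx.1⟩
  · exact absurd hx.2 (by simp)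

private theorem c08e_not_inr {ι ι' κ : Type} (f : ι → ι') {l : List (ι ⊕ κ)} {t : κ}
    (h : Sum.inr t ∉ l) : Sum.inr t ∉ l.map (Sum.map f (id : κ → κ)) := by
  intro hc
  obtain ⟨x, hx, hx'⟩ := List.mem_map.1 hc
  rcases x with i | s
  · exact absurd hx' (by simp)
  · have : s = t := by simpa using hx'
    rw [this] at hx
    exact h hx

theorem exists_base {ι : Type} [Finite ι] {deg : ι → ℕ} (S : MinimalSullivan deg) (A : Set ι)
    (hA : ∀ a ∈ A, S.d (gen deg a) ∈
      SP deg (fun l => (∀ x ∈ l, x ∈ A) ∧ evc deg l ≤ if Even (deg a) then 1 else 0))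
    (n₀ : ℕ) (hn₀ : 2 ≤ n₀) (N : ℕ) (hN : 1 ≤ N) (hN' : n₀ + 2 ≤ N) :
    ∃ (T : TS (PA S A N hN)) (f : ι → T.ι), IsBase S A n₀ N hN T f := by
  have hb : ∀ a ∈ A, Odd (deg a) →
      S.d (gen deg a) ∈ Algebra.adjoin ℚ (gen deg '' {x | x ∈ A ∧ Odd (deg x)}) := by
    intro a ha hodd
    refine SP_adjoin.2 (SP_imp ?_ (hA a ha))
    rintro l ⟨h1, h2⟩ x hx
    rw [if_neg (Nat.not_even_iff_odd.2 hodd)] at h2
    refine ⟨h1 x hx, ?_⟩
    unfold evc at h2
    have h3 := List.countP_eq_zero.1 (Nat.le_zero.1 h2) x hx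
    rw [decide_eq_true_eq] at h3
    exact Nat.not_even_iff_odd.1 h3
  obtain ⟨D, hD, hext, hX, hU⟩ := exists_T1 S A N hN hb
  -- the total system T₁
  let T₁ : TS (PA S A N hN) :=
    { ι := ι
      fin := inferInstance
      deg := deg
      S := S
      D := D
      diff := hD
      ext := hext
      Dt := by
        rintro (u | j)
        · have h1 := hU u
          have h2 : D (gen (Sum.elim deg (PA S A N hN).dq) (Sum.inr (Sum.inl u))) =
              (D (gen (Sum.elim deg (PA S A N hN).dq) (Sum.inr (Sum.inl u))) -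
                gen (Sum.elim deg (PA S A N hN).dq) (Sum.inl u.1)) +
              gen (Sum.elim deg (PA S A N hN).dq) (Sum.inl u.1) := (sub_add_cancel _ _).symm
          rw [h2]
          refine add_mem (SP_imp ?_ h1) (SP_gen ?_)
          · rintro l ⟨h3, -, h4⟩
            refine ⟨h3, fun j hj => ?_⟩
            rcases h4 _ hj with ⟨a, -, -, h5⟩ | ⟨v, h5⟩
            · exact absurd h5 (by simp)
            · exact absurd h5 (by simp)
          · refine ⟨le_of_eq rfl, fun j hj => ?_⟩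
            rw [List.mem_singleton] at hj
            exact absurd hj (by simp)
        · rw [hX j]
          exact zero_mem _
      Y := fun _ => 0
      Y_hom := fun _ => zero_mem _
      Y_free := fun _ => zero_mem _
      D_Y := fun j => by
        rw [hX j, map_zero, zero_pow]
        exact Nat.one_le_iff_ne_zero.1 hN }
  choose at' hat0 hath hatS using fun j => exists_closed S A N hN hA D hD hext hU j
  have hat2 : ∀ j, at' j ∈ SP T₁.dt (fun l => 1 ≤ cW l ∧ ∀ j' : (PA S A N hN).M,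
      Sum.inr (Sum.inr j') ∉ l) := by
    intro j
    have h2 : at' j = (at' j - gen (Sum.elim deg (PA S A N hN).dq) (Sum.inl j.1)) +
        gen (Sum.elim deg (PA S A N hN).dq) (Sum.inl j.1) := (sub_add_cancel _ _).symm
    rw [h2]
    refine add_mem (SP_imp ?_ (hatS j)) (SP_gen ?_)
    · rintro l ⟨h3, -, -, h4⟩
      exact ⟨h3, h4⟩
    · refine ⟨le_of_eq rfl, fun j' hj' => ?_⟩
      rw [List.mem_singleton] at hj'
      exact absurd hj' (by simp)
  have hdm : ∀ j : (PA S A N hN).M, (PA S A N hN).dm j + 1 = deg j.1 := by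
    intro j
    show deg j.1 - 1 + 1 = deg j.1
    have := S.two_le j.1
    omega
  obtain ⟨T', h, Y, hnew, hYh, hYf, hDY⟩ := exists_Y T₁ n₀ hn₀ hN' at' (fun j => deg j.1)
    (fun j => j.2.2) hath (fun j => SP_imp (fun l hl => hl.1) (hat2 j)) hat0
    (fun j => SP_imp (fun l hl => hl.2) (hat2 j))
  -- `h.Φ` on `SP`
  have hΦ : ∀ {p : List (ι ⊕ ((PA S A N hN).U ⊕ (PA S A N hN).M)) → Prop}
      {r : List (T'.ι ⊕ ((PA S A N hN).U ⊕ (PA S A N hN).M)) → Prop},
      (∀ l, p l → r (l.map (Sum.map h.f id))) → ∀ {a : Lam T₁.dt}, a ∈ SP T₁.dt p →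
        h.Φ a ∈ SP T'.dt r := by
    intro p r hpr a ha
    exact SP_mapL (Sum.map h.f id) (by rintro (i | t); exacts [h.deg i, rfl]) hpr ha
  have r1 : ∀ j, h.Φ (at' j) ∈ hom T'.dt ((PA S A N hN).dm j + 1) := by
    intro j
    rw [hdm j]
    exact Φ_hom h (hath j)
  have r2 : ∀ j, T'.D (h.Φ (at' j)) = 0 := by
    intro j
    rw [Φ_D h]
    have h3 : T₁.D (at' j) = 0 := hat0 j
    rw [h3, map_zero]
  have r3 : ∀ j, h.Φ (at' j) ∈ SP T'.dt (fun l => 1 ≤ cW l ∧ ∀ j' : (PA S A N hN).M,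
      Sum.inr (Sum.inr j') ∉ l) := by
    intro j
    refine hΦ ?_ (hat2 j)
    rintro l ⟨h3, h4⟩
    exact ⟨h3.trans_eq (c08e_cW_map h.f l).symm, fun j' => c08e_not_inr h.f (h4 j')⟩
  have r4 : ∀ j, Y j ∈ hom T'.dt ((PA S A N hN).N * ((PA S A N hN).dm j + 1) - 1) := by
    intro j
    rw [hdm j]
    exact hYh j
  have iLinj : ∀ {x y : Lam T'.deg}, iL T'.deg (PA S A N hN).dq x = iL T'.deg (PA S A N hN).dq y →
      x = y := by
    intro x y hxy
    exact mapL_injective _ Sum.inl_injective hxy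
  have hsq : ∀ a : Lam deg, h.Φ (iL deg (PA S A N hN).dq a) =
      iL T'.deg (PA S A N hN).dq (mapL h.f h.deg a) := by
    intro a
    have e : (h.Φ.comp (iL deg (PA S A N hN).dq) : Lam deg →ₐ[ℚ] Lam T'.dt) =
        (iL T'.deg (PA S A N hN).dq).comp (mapL h.f h.deg) := by
      refine Lam.algHom_ext _ fun i => ?_
      rw [AlgHom.comp_apply, AlgHom.comp_apply]
      have e1 : iL deg (PA S A N hN).dq (gen deg i) = T₁.gW i := mapL_gen _ i
      have e2 : mapL h.f h.deg (gen deg i) = gen T'.deg (h.f i) := mapL_gen _ i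
      have e3 : iL T'.deg (PA S A N hN).dq (gen T'.deg (h.f i)) = T'.gW (h.f i) := mapL_gen _ _
      rw [e1, e2, e3]
      exact Φ_gW h i
    exact congrArg (fun g : Lam deg →ₐ[ℚ] Lam T'.dt => g a) e
  refine ⟨T'.redo (fun j => h.Φ (at' j)) r1 r2 r3 Y r4 hYf hDY, h.f, ?_⟩
  refine ⟨h.inj, h.deg, ?_, hnew, ?_⟩
  · intro a
    show T'.S.d (mapL h.f h.deg a) = mapL h.f h.deg (S.d a)
    apply iLinj
    rw [← T'.ext, ← hsq, ← hsq, Φ_D h]
    congr 1
    exact hext a
  · rintro (u | j)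
    · have e1 : redoD T' (fun j => h.Φ (at' j)) r1 (T'.gU u) = T'.D (T'.gU u) := by
        refine redoD_free T' _ r1 (SP_gen ?_)
        intro j hj
        rw [List.mem_singleton] at hj
        exact absurd hj (by simp)
      have e2 : T'.gU u = h.Φ (T₁.gU u) := (Φ_inr h (Sum.inl u)).symm
      have e3 : T'.gW (h.f u.1) = h.Φ (T₁.gW u.1) := (Φ_gW h u.1).symm
      show redoD T' (fun j => h.Φ (at' j)) r1 (T'.gU u) - T'.gW (h.f u.1) ∈ _
      rw [e1, e2, Φ_D h, e3, ← map_sub]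
      refine hΦ ?_ (hU u)
      rintro l ⟨h3, h4, h5⟩
      refine ⟨h3.trans_eq (c08e_cW_map h.f l).symm, h4.trans_eq (List.length_map _).symm, ?_⟩
      obtain ⟨i, hi⟩ := c08e_cW_pos h3
      rcases h5 _ hi with ⟨a, ha, -, h6⟩ | ⟨v, h6⟩
      · have h7 : i = a := Sum.inl_injective h6
        subst h7
        exact ⟨i, ha, List.mem_map.2 ⟨_, hi, rfl⟩⟩
      · exact absurd h6 (by simp)
    · have e1 : redoD T' (fun j => h.Φ (at' j)) r1 (T'.gX j) = h.Φ (at' j) :=
        redoD_gX T' _ r1 j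
      have e3 : T'.gW (h.f j.1) = h.Φ (T₁.gW j.1) := (Φ_gW h j.1).symm
      show redoD T' (fun j => h.Φ (at' j)) r1 (T'.gX j) - T'.gW (h.f j.1) ∈ _
      rw [e1, e3, ← map_sub]
      refine hΦ ?_ (hatS j)
      rintro l ⟨h3, h4, ⟨a, ha, h5⟩, -⟩
      exact ⟨h3.trans_eq (c08e_cW_map h.f l).symm, h4.trans_eq (List.length_map _).symm,
        a, ha, List.mem_map.2 ⟨_, h5, rfl⟩⟩

end AnWL
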