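import Pool.Agent.Helper48.WL.C08e

/-!
C09p. Points vanish on `A`: `θ (D X_t) = 0`, and the words of `D X_t - w_a` (`a` the generator belonging to the
coordinate `X_t`) have degree `deg a`, length at least `2` and contain a letter `w_{a'}`, `a' ∈ A`, so
`deg a' < deg a`: strong induction on `deg a`.
-/

set_option autoImplicit false

namespace AnWL
open Anick2

theorem TS.one_le {P : Par} (T : TS P) (x : T.ι ⊕ (P.U ⊕ P.M)) : 1 ≤ T.dt x := by
  rcases x with i | u | j
  · have := T.S.two_le i
    change 1 ≤ T.deg i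
    omega
  · have := P.du_pos u
    change 1 ≤ P.du u
    omega
  · obtain ⟨k, hk⟩ := P.dm_odd j
    change 1 ≤ P.dm j
    omega

theorem point_A {ι : Type} [Finite ι] {deg : ι → ℕ} (S : MinimalSullivan deg) (A : Set ι)
    (n₀ N : ℕ) (hN : 1 ≤ N) (T : TS (PA S A N hN)) (f : ι → T.ι) (h : IsBase S A n₀ N hN T f)
    (a : ι) (ha : a ∈ A) : T.gW (f a) ∈ T.nl := by
  intro K _ _ _ θ hθ
  induction hn : deg a using Nat.strong_induction_on generalizing a with
  | _ n ih =>
    have h2 := S.two_le a
    obtain ⟨t, ht⟩ : ∃ t, aa S A N hN t = a := by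
      rcases Nat.even_or_odd (deg a) with he | ho
      · exact ⟨Sum.inr ⟨a, ha, he⟩, rfl⟩
      · exact ⟨Sum.inl ⟨a, ha, ho⟩, rfl⟩
    have hdt : (PA S A N hN).dq t + 1 = deg a := by
      rw [← ht] at h2 ⊢
      rcases t with u | j
      · change deg u.1 - 1 + 1 = deg u.1
        change 2 ≤ deg u.1 at h2
        omega
      · change deg j.1 - 1 + 1 = deg j.1
        change 2 ≤ deg j.1 at h2
        omega
    have h3 := h.Dt' t
    rw [ht] at h3
    have h4 : T.D (gen T.dt (Sum.inr t)) - T.gW (f a) ∈ hom T.dt (deg a) := by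
      refine Submodule.sub_mem _ ?_ ?_
      · have h7 := T.diff.map_hom _ _ (gen_mem_hom T.dt (Sum.inr t))
        rw [← hdt]
        exact h7
      · have h7 := gen_mem_hom T.dt (Sum.inl (f a))
        rw [← h.deg a]
        exact h7
    have h5 := SP_pr h3 h4
    have h6 : θ (T.D (gen T.dt (Sum.inr t)) - T.gW (f a)) = 0 := by
      refine SP_lift_zero θ ?_ h5
      rintro l ⟨⟨-, hl2, a', ha', hl3⟩, hl4⟩
      refine ⟨Sum.inl (f a'), hl3, ?_⟩
      refine ih (deg a') ?_ a' ha' rfl
      obtain ⟨s, r, rfl⟩ := List.append_of_mem hl3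
      rw [List.length_append, List.length_cons] at hl2
      rw [degSum_append, degSum_cons] at hl4
      have h7 := degSum_ge T.dt T.one_le s
      have h8 := degSum_ge T.dt T.one_le r
      have h9 : T.dt (Sum.inl (f a')) = deg a' := h.deg a'
      omega
    rw [map_sub, hθ, zero_sub, neg_eq_zero] at h6
    exact h6

end AnWL
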