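import Pool.Agent.Helper48.WL.C07b
import Pool.Agent.Helper48.WL.C08l

/-!
C12a. Killed generators.

`nil_of_killed`: as `nil_of_nl` in `C07b.lean` (copy `exists_point`, `comm_mem_JJ`; the point `p` itself contradicts `Killed`). `cohFin_of_killed`: `coh_finite`.
`killed_map`: `p ∘ mapL f` is a point.
-/

set_option autoImplicit false

namespace AnWL
open Anick2

/-- The generator `i` vanishes at every point. -/
def Killed {ι : Type} {deg : ι → ℕ} (S : MinimalSullivan deg) (i : ι) : Prop :=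
  ∀ (K : Type) [CommRing K] [IsDomain K] [Algebra ℚ K] (p : Lam deg →ₐ[ℚ] K),
    (∀ a, p (S.d a) = 0) → p (gen deg i) = 0

private theorem exists_point {A : Type} [Ring A] [Algebra ℚ A] (I : Ideal A) [I.IsTwoSided]
    (hc : ∀ a b : A, a * b - b * a ∈ I) (x : A) (hx : ∀ M : ℕ, x ^ M ∉ I) :
    ∃ (K : Type) (_ : CommRing K) (_ : IsDomain K) (_ : Algebra ℚ K) (p : A →ₐ[ℚ] K),
      (∀ a ∈ I, p a = 0) ∧ p x ≠ 0 := by
  have hcomm : ∀ a b : A ⧸ I, a * b = b * a := by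
    intro a b
    obtain ⟨a, rfl⟩ := Ideal.Quotient.mk_surjective a
    obtain ⟨b, rfl⟩ := Ideal.Quotient.mk_surjective b
    rw [← map_mul, ← map_mul, Ideal.Quotient.eq]
    exact hc a b
  letI cr : CommRing (A ⧸ I) := { Ideal.Quotient.ring I with mul_comm := hcomm }
  have hn : ¬ IsNilpotent (Ideal.Quotient.mk I x) := by
    rintro ⟨M, hM⟩
    apply hx M
    rw [← Ideal.Quotient.eq_zero_iff_mem, map_pow]
    exact hM
  have hn' : ∃ J : Ideal (A ⧸ I), J.IsPrime ∧ Ideal.Quotient.mk I x ∉ J := by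
    by_contra hcon
    refine hn (nilpotent_iff_mem_prime.2 fun J hJ => ?_)
    by_contra hxJ
    exact hcon ⟨J, hJ, hxJ⟩
  obtain ⟨J, hJ, hxJ⟩ := hn'
  refine ⟨(A ⧸ I) ⧸ J, inferInstance, Ideal.Quotient.isDomain J, inferInstance,
    (Ideal.Quotient.mkₐ ℚ J).comp (Ideal.Quotient.mkₐ ℚ I), ?_, ?_⟩
  · intro a ha
    have h1 : Ideal.Quotient.mkₐ ℚ I a = 0 := Ideal.Quotient.eq_zero_iff_mem.2 ha
    rw [AlgHom.comp_apply, h1, map_zero]
  · intro h
    apply hxJ
    exact Ideal.Quotient.eq_zero_iff_mem.1 h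

private theorem comm_mem_JJ {ι : Type} {deg : ι → ℕ} {d : Lam deg →ₗ[ℚ] Lam deg} (a b : Lam deg) :
    a * b - b * a ∈ JJ deg d := by
  have h0 : sgn deg ((2 : ℚ)⁻¹ • (a + sgn deg a)) = (2 : ℚ)⁻¹ • (a + sgn deg a) := by
    rw [map_smul, map_add, sgn_sgn, add_comm]
  have h1 : sgn deg ((2 : ℚ)⁻¹ • (a - sgn deg a)) = -((2 : ℚ)⁻¹ • (a - sgn deg a)) := by
    rw [map_smul, map_sub, sgn_sgn, ← smul_neg, neg_sub]
  have h2 : a = (2 : ℚ)⁻¹ • (a + sgn deg a) + (2 : ℚ)⁻¹ • (a - sgn deg a) := by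
    rw [← smul_add, add_add_sub_cancel, ← two_smul ℚ a, smul_smul,
      inv_mul_cancel₀ (by norm_num), one_smul]
  have h3 := even_comm h0 b
  have h4 : (2 : ℚ)⁻¹ • (a - sgn deg a) ∈ JJ deg d := odd_mem_JJ h1
  generalize (2 : ℚ)⁻¹ • (a + sgn deg a) = a0 at h2 h3
  generalize (2 : ℚ)⁻¹ • (a - sgn deg a) = a1 at h2 h4
  rw [h2, add_mul, mul_add, h3, add_sub_add_left_eq_sub]
  have h5 : a1 * b - b * a1 = a1 * b + (-1 : ℚ) • (b * a1) := by
    rw [Algebra.smul_def, map_neg, map_one, neg_one_mul, sub_eq_add_neg]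
  rw [h5]
  exact (JJ deg d).add_mem (JJ_right h4 b) ((JJ deg d).smul_mem _ (JJ_left h4 b))


theorem killed_odd {ι : Type} {deg : ι → ℕ} (S : MinimalSullivan deg) {i : ι}
    (h : Odd (deg i)) : Killed S i := by
  intro K _ _ _ p hp
  have h1 : gen deg i * gen deg i = 0 := odd_sq (sgn_gen_odd h)
  have h2 : p (gen deg i) * p (gen deg i) = 0 := by rw [← map_mul, h1, map_zero]
  exact mul_self_eq_zero.1 h2

theorem nil_of_killed {ι : Type} {deg : ι → ℕ} (S : MinimalSullivan deg) {i : ι}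
    (h : Killed S i) : ∃ M, gen deg i ^ M ∈ JJ deg S.d := by
  by_contra hcon
  let I : Ideal (Lam deg) :=
    { carrier := {a | a ∈ JJ deg S.d}
      add_mem' := fun {a b} ha hb => (JJ deg S.d).add_mem ha hb
      zero_mem' := (JJ deg S.d).zero_mem
      smul_mem' := fun c x hx => JJ_left hx c }
  have h2 : I.IsTwoSided := ⟨fun b ha => JJ_right ha b⟩
  obtain ⟨K, c1, c2, c3, p, hp, hx⟩ := exists_point I (fun a b => comm_mem_JJ a b) (gen deg i)
    (fun M hM => hcon ⟨M, hM⟩)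
  exact hx (h K p (fun a => hp _ (d_mem_JJ a)))

theorem cohFin_of_killed {ι : Type} [Finite ι] {deg : ι → ℕ} (S : MinimalSullivan deg)
    (h : ∀ i, Even (deg i) → Killed S i) : CohFin S.d :=
  coh_finite S (fun i hi => nil_of_killed S (h i hi))

theorem killed_map {ι ι' : Type} {deg : ι → ℕ} {deg' : ι' → ℕ} (S : MinimalSullivan deg)
    (S' : MinimalSullivan deg') (f : ι → ι') (hdeg : ∀ i, deg' (f i) = deg i)
    (hd : ∀ a, S'.d (mapL f hdeg a) = mapL f hdeg (S.d a)) {i : ι} (h : Killed S i) :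
    Killed S' (f i) := by
  intro K _ _ _ p hp
  have h1 := h K (p.comp (mapL f hdeg)) (fun a => by
    rw [AlgHom.comp_apply, ← hd a]
    exact hp _)
  rw [AlgHom.comp_apply, mapL_gen] at h1
  exact h1

end AnWL
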