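import Pool.Agent.Helper48.WL.C11
import Pool.Agent.Helper48.WL.C12a

/-!
C12b. One step: an extension which kills all the even generators belonging to one set `A`.

The proof is that of `main_good` in `C11.lean` (same `T₀`, `f`, `F`, `T`, `h`), with `E` = the finite set of the even `t ∉ A` with `S.d (gen t)` in the ideal. `ι' = T.ι`, `f' = h.f ∘ f`, `S' = T.S`. `Killed T.S i` from `T.gW i ∈ T.nl`: for a
point `p` of `T.S` take `θ₀` from `exists_zero_point T p`: `0 = θ₀ (gW i) = p (gen i)`.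
-/

set_option autoImplicit false

namespace AnWL
open Anick2

private theorem c12b_iL_gen {ι κ : Type} {deg : ι → ℕ} {deg' : κ → ℕ} (i : ι) :
    iL deg deg' (gen deg i) = gen (Sum.elim deg deg') (Sum.inl i) := by
  unfold iL
  exact mapL_gen (deg := Sum.elim deg deg') (fun _ => rfl) i

private theorem c12b_hom_d {P : Par} {T₀ T : TS P} (h : T₀.Hom T) (a : Lam T₀.deg) :
    T.S.d (mapL h.f h.deg a) = mapL h.f h.deg (T₀.S.d a) := by
  have hinj : Function.Injective (iL T.deg P.dq) := by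
    unfold iL
    exact mapL_injective (deg := Sum.elim T.deg P.dq) (fun _ => rfl) Sum.inl_injective
  have key : ∀ b, h.Φ (iL T₀.deg P.dq b) = iL T.deg P.dq (mapL h.f h.deg b) := by
    have : h.Φ.comp (iL T₀.deg P.dq) = (iL T.deg P.dq).comp (mapL h.f h.deg) := by
      refine Lam.algHom_ext _ fun i => ?_
      rw [AlgHom.comp_apply, AlgHom.comp_apply, c12b_iL_gen, mapL_gen, c12b_iL_gen]
      exact Φ_gW h i
    exact fun b => congrArg (fun g : Lam T₀.deg →ₐ[ℚ] Lam T.dt => g b) this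
  apply hinj
  rw [← key, ← T.ext, ← key, ← T₀.ext]
  exact Φ_D h _

theorem killed_of_nl {P : Par} (T : TS P) {i : T.ι} (h : T.gW i ∈ T.nl) : Killed T.S i := by
  intro K c1 c2 c3 p hp
  obtain ⟨θ, h1, h2, -, -⟩ := exists_zero_point T p hp
  have h3 : θ (T.gW i) = 0 := h K θ h1
  have h4 := h2 (gen T.deg i)
  rw [c12b_iL_gen] at h4
  rw [← h4]
  exact h3

theorem step {ι : Type} [Finite ι] {deg : ι → ℕ} (S : MinimalSullivan deg) (n₀ : ℕ)
    (hn₀ : 2 ≤ n₀) (A : Set ι)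
    (hA : ∀ a ∈ A, S.d (gen deg a) ∈
      SP deg (fun l => (∀ x ∈ l, x ∈ A) ∧ evc deg l ≤ if Even (deg a) then 1 else 0)) :
    ∃ (ι' : Type) (_ : Finite ι') (deg' : ι' → ℕ) (S' : MinimalSullivan deg') (f : ι → ι')
      (hdeg : ∀ i, deg' (f i) = deg i), Function.Injective f ∧
      (∀ a, S'.d (mapL f hdeg a) = mapL f hdeg (S.d a)) ∧
      (∀ i, i ∉ Set.range f → n₀ ≤ deg' i ∧ Killed S' i) ∧
      ∀ t, Even (deg t) → (t ∈ A ∨ S.d (gen deg t) ∈ idealSpan (gen deg '' A)) →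
        Killed S' (f t) := by
  classical
  have hN : 1 ≤ n₀ + 2 := by omega
  obtain ⟨T₀, f, hB⟩ := exists_base S A hA n₀ hn₀ (n₀ + 2) hN le_rfl
  have hF : ∀ t, ∃ F : Lam T₀.dt,
      (Even (deg t) ∧ t ∉ A ∧ S.d (gen deg t) ∈ idealSpan (gen deg '' A)) →
      (F ∈ hom T₀.dt (deg t) ∧ T₀.D F = 0 ∧ F ∈ SP T₀.dt (fun l => 1 ≤ cW l) ∧
        T₀.gW (f t) - F ∈ SP T₀.dt (fun l => 1 ≤ cW l ∧ ∃ s, Sum.inr s ∈ l)) := by
    intro t
    by_cases h : Even (deg t) ∧ t ∉ A ∧ S.d (gen deg t) ∈ idealSpan (gen deg '' A)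
    · obtain ⟨F, h1, h2, h3, h4⟩ := exists_F S A hA n₀ (n₀ + 2) hN T₀ f hB t h.2.2
      exact ⟨F, fun _ => ⟨h1, h2, h3, h4⟩⟩
    · exact ⟨0, fun h' => absurd h' h⟩
  choose F hF using hF
  have hfin : {t : ι | Even (deg t) ∧ t ∉ A ∧
      S.d (gen deg t) ∈ idealSpan (gen deg '' A)}.Finite := Set.toFinite _
  have hE : ∀ t, t ∈ hfin.toFinset ↔ (Even (deg t) ∧ t ∉ A ∧
      S.d (gen deg t) ∈ idealSpan (gen deg '' A)) := fun t => hfin.mem_toFinset
  obtain ⟨T, h, hnew, hkill⟩ := kill_in T₀ n₀ hn₀ hfin.toFinset F deg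
    (fun a ha => ((hE a).1 ha).1) (fun a ha => (hF a ((hE a).1 ha)).1)
    (fun a ha => (hF a ((hE a).1 ha)).2.2.1) (fun a ha => (hF a ((hE a).1 ha)).2.1)
  have hdeg : ∀ i, T.deg ((h.f ∘ f) i) = deg i := fun i => (h.deg _).trans (hB.deg i)
  have hcomp : ∀ a, mapL (deg' := deg) (deg := T.deg) (h.f ∘ f) hdeg a =
      mapL h.f h.deg (mapL f hB.deg a) := by
    have : mapL (deg' := deg) (deg := T.deg) (h.f ∘ f) hdeg =
        (mapL h.f h.deg).comp (mapL f hB.deg) := by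
      refine Lam.algHom_ext _ fun i => ?_
      rw [AlgHom.comp_apply, mapL_gen, mapL_gen, mapL_gen]
      rfl
    exact fun a => congrArg (fun g : Lam deg →ₐ[ℚ] Lam T.deg => g a) this
  refine ⟨T.ι, T.fin, T.deg, T.S, h.f ∘ f, hdeg, h.inj.comp hB.inj, fun a => ?_, fun i hi => ?_,
    fun t hev ht => ?_⟩
  · rw [hcomp, hcomp, c12b_hom_d, hB.d]
  · by_cases hr : i ∈ Set.range h.f
    · obtain ⟨i₀, rfl⟩ := hr
      have hr₀ : i₀ ∉ Set.range f := by
        rintro ⟨a, rfl⟩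
        exact hi ⟨a, rfl⟩
      refine ⟨?_, killed_odd T.S ?_⟩
      · rw [h.deg]
        exact (hB.new i₀ hr₀).1
      · rw [h.deg]
        exact (hB.new i₀ hr₀).2
    · exact ⟨(hnew i hr).1, killed_of_nl T (hnew i hr).2⟩
  · refine killed_of_nl T ?_
    change T.gW (h.f (f t)) ∈ T.nl
    by_cases ha : t ∈ A
    · rw [← Φ_gW h]
      exact Φ_nl h (point_A S A n₀ (n₀ + 2) hN T₀ f hB t ha)
    · have ht' := ht.resolve_left ha
      intro K c1 c2 c3 θ hθ
      have hp : ∀ b, (θ.comp (iL T.deg (PA S A (n₀ + 2) hN).dq)) (T.S.d b) = 0 := by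
        intro b
        rw [AlgHom.comp_apply, ← T.ext]
        exact hθ _
      obtain ⟨θ₀, h1, h2, h3, h4⟩ := exists_zero_point T
        (θ.comp (iL T.deg (PA S A (n₀ + 2) hN).dq)) hp
      have k1 : θ₀ (h.Φ (F t)) = 0 := hkill t ((hE t).2 ⟨hev, ha, ht'⟩) K θ₀ h1
      have k2 : (θ₀.comp h.Φ) (T₀.gW (f t) - F t) = 0 := by
        refine SP_lift_zero (θ₀.comp h.Φ) (fun l hl => ?_) (hF t ⟨hev, ha, ht'⟩).2.2.2
        obtain ⟨-, s, hs⟩ := hl
        refine ⟨Sum.inr s, hs, ?_⟩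
        rw [AlgHom.comp_apply, Φ_inr]
        rcases s with u | j
        · exact h3 u
        · exact h4 j
      have k3 : θ₀ (T.gW (h.f (f t))) = 0 := by
        rw [map_sub, AlgHom.comp_apply, AlgHom.comp_apply, k1, sub_zero, Φ_gW] at k2
        exact k2
      have k4 := h2 (gen T.deg (h.f (f t)))
      rw [AlgHom.comp_apply, c12b_iL_gen] at k4
      rw [← k4]
      exact k3

end AnWL
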