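import Pool.Agent.Helper98.RD.Stat

/-!
# Definitions for the statement

`Lam deg` (free graded-commutative algebra), `gen`, `mon`, `MinimalSullivan`: `Helper2/GCA/Lam.lean`; `idealSpan`, `CohFin`, `IsExt`:
`Helper2/GCA/Lam.lean`, `Helper2/AN/Stmt2.lean`; `GoodAt`, `EvenOnto`: `Helper98/RD/Stat.lean`.
-/

set_option autoImplicit false

namespace Anick2

/-- The number of the letters of even degree of a word. -/
def evenLetters {ι : Type} (deg : ι → ℕ) (l : List ι) : ℕ :=
  l.countP (fun i => decide (Even (deg i)))

/-- `ΛA` is a sub-differential algebra on which `d` does not raise the number of the letters of even degree: for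
`a ∈ A`, `d a` is a combination of words in the letters of `A` with no letter of even degree if `deg a` is odd, and
with at most one letter of even degree if `deg a` is even. -/
def MinimalSullivan.EvenAffine {ι : Type} {deg : ι → ℕ} (S : MinimalSullivan deg) (A : Set ι) :
    Prop :=
  ∀ a ∈ A, S.d (gen deg a) ∈ Submodule.span ℚ {x | ∃ l : List ι, ((∀ i ∈ l, i ∈ A) ∧
    evenLetters deg l ≤ if Even (deg a) then 1 else 0) ∧ x = mon deg l}

/-- Every even generator `t` lies in, or has its differential in the ideal generated by, a set `A` of generators as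
in `EvenAffine` (`A` may depend on `t`). -/
def MinimalSullivan.LocallyEvenAffine {ι : Type} {deg : ι → ℕ} (S : MinimalSullivan deg) : Prop :=
  ∀ t, Even (deg t) → ∃ A : Set ι, S.EvenAffine A ∧
    (t ∈ A ∨ S.d (gen deg t) ∈ idealSpan (gen deg '' A))

end Anick2
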