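import Pool.Agent.Helper48.WL.C12b
import Pool.Agent.Helper48.WL.Stat
import Pool.Agent.Helper98.RD.Perm

/-!
C12c. The theorem for `LocallyEvenAffine`.

`steps`: induction on the finite set `E` of even generators: for `insert t E` take `S'`, `f` for `E`, and apply `step` to `S'` and the set `f '' A_t` (hypothesis: `S'.d (gen (f a)) = mapL f (S.d (gen a))`, `SP_mapL`; `evenLetters = evc` by
definition, and the number of even letters of `l.map f` is that of `l`; `idealSpan` is mapped to `idealSpan`: span induction). The generators killed in `S'` remain killed (`killed_map`). The new generators of the composition are those of the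
second step and the images of those of the first.
`main_local`: `n₀ = max n 2`, `E` = all even generators (`ι` finite). All generators of `S'` of even degree are killed, `cohFin_of_killed`, `good_of_inj`, `good_mono`.
`main_perm`: `perm` (`Helper98/RD/Perm.lean`).
-/

set_option autoImplicit false

namespace AnWL
open Anick2

private theorem c12c_idealSpan_map {ι ι' : Type} {deg : ι → ℕ} {deg' : ι' → ℕ}
    (φ : Lam deg →ₐ[ℚ] Lam deg') {s : Set (Lam deg)} {s' : Set (Lam deg')}
    (h : ∀ v ∈ s, φ v ∈ idealSpan s') {a : Lam deg} (ha : a ∈ idealSpan s) :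
    φ a ∈ idealSpan s' := by
  unfold idealSpan at ha
  induction ha using Submodule.span_induction with
  | mem a ha =>
    obtain ⟨p, v, q, hv, rfl⟩ := ha
    rw [map_mul, map_mul]
    exact idealSpan_right (idealSpan_left (h v hv) _) _
  | zero => rw [map_zero]; exact zero_mem _
  | add a b _ _ iha ihb => rw [map_add]; exact add_mem iha ihb
  | smul r a _ iha => rw [map_smul]; exact Submodule.smul_mem _ _ iha

private theorem c12c_mapL_id {ι : Type} {deg : ι → ℕ} (h : ∀ i, deg (id i) = deg i)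
    (a : Lam deg) : mapL (deg' := deg) (deg := deg) id h a = a := by
  have : mapL (deg' := deg) (deg := deg) id h = AlgHom.id ℚ (Lam deg) := by
    refine Lam.algHom_ext _ fun i => ?_
    rw [mapL_gen]
    rfl
  exact congrArg (fun g : Lam deg →ₐ[ℚ] Lam deg => g a) this

private theorem c12c_mapL_comp {ι ι₁ ι₂ : Type} {deg : ι → ℕ} {deg₁ : ι₁ → ℕ} {deg₂ : ι₂ → ℕ}
    (f : ι → ι₁) (g : ι₁ → ι₂) (hf : ∀ i, deg₁ (f i) = deg i) (hg : ∀ i, deg₂ (g i) = deg₁ i)
    (h : ∀ i, deg₂ ((g ∘ f) i) = deg i) (a : Lam deg) :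
    mapL (g ∘ f) h a = mapL g hg (mapL f hf a) := by
  have : mapL (deg' := deg) (deg := deg₂) (g ∘ f) h = (mapL g hg).comp (mapL f hf) := by
    refine Lam.algHom_ext _ fun i => ?_
    rw [AlgHom.comp_apply, mapL_gen, mapL_gen, mapL_gen]
    rfl
  exact congrArg (fun k : Lam deg →ₐ[ℚ] Lam deg₂ => k a) this

theorem steps {ι : Type} [Finite ι] {deg : ι → ℕ} (S : MinimalSullivan deg) (n₀ : ℕ)
    (hn₀ : 2 ≤ n₀) (hS : S.LocallyEvenAffine) (E : Finset ι) :
    ∃ (ι' : Type) (_ : Finite ι') (deg' : ι' → ℕ) (S' : MinimalSullivan deg') (f : ι → ι')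
      (hdeg : ∀ i, deg' (f i) = deg i), Function.Injective f ∧
      (∀ a, S'.d (mapL f hdeg a) = mapL f hdeg (S.d a)) ∧
      (∀ i, i ∉ Set.range f → n₀ ≤ deg' i ∧ Killed S' i) ∧
      ∀ t ∈ E, Even (deg t) → Killed S' (f t) := by
  classical
  induction E using Finset.induction_on with
  | empty =>
    refine ⟨ι, inferInstance, deg, S, id, fun _ => rfl, Function.injective_id, fun a => ?_,
      fun i hi => absurd ⟨i, rfl⟩ hi, fun t ht => absurd ht (Finset.notMem_empty t)⟩
    rw [c12c_mapL_id, c12c_mapL_id]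
  | insert t E htE ih =>
    obtain ⟨ι₁, hfin₁, deg₁, S₁, f₁, hdeg₁, hinj₁, hd₁, hnew₁, hkill₁⟩ := ih
    by_cases hte : Even (deg t)
    · obtain ⟨A, hA, ht⟩ := hS t hte
      have hA₁ : ∀ a ∈ f₁ '' A, S₁.d (gen deg₁ a) ∈
          SP deg₁ (fun l => (∀ x ∈ l, x ∈ f₁ '' A) ∧
            evc deg₁ l ≤ if Even (deg₁ a) then 1 else 0) := by
        rintro _ ⟨a, ha, rfl⟩
        have h1 : S.d (gen deg a) ∈ SP deg (fun l => (∀ x ∈ l, x ∈ A) ∧
            evc deg l ≤ if Even (deg a) then 1 else 0) := hA a ha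
        rw [← mapL_gen hdeg₁, hd₁]
        refine SP_mapL f₁ hdeg₁ (fun l hl => ⟨fun x hx => ?_, ?_⟩) h1
        · obtain ⟨y, hy, rfl⟩ := List.mem_map.1 hx
          exact ⟨y, hl.1 y hy, rfl⟩
        · have h2 : evc deg₁ (l.map f₁) = evc deg l := by
            unfold evc
            rw [List.countP_map]
            congr 1
            funext i
            simp only [Function.comp_apply, hdeg₁]
          rw [h2, hdeg₁]
          exact hl.2
      obtain ⟨ι₂, hfin₂, deg₂, S₂, f₂, hdeg₂, hinj₂, hd₂, hnew₂, hkill₂⟩ :=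
        step S₁ n₀ hn₀ (f₁ '' A) hA₁
      refine ⟨ι₂, hfin₂, deg₂, S₂, f₂ ∘ f₁, fun i => (hdeg₂ _).trans (hdeg₁ i),
        hinj₂.comp hinj₁, fun a => ?_, fun i hi => ?_, fun s hs hse => ?_⟩
      · rw [c12c_mapL_comp f₁ f₂ hdeg₁ hdeg₂, c12c_mapL_comp f₁ f₂ hdeg₁ hdeg₂, hd₂, hd₁]
      · by_cases hr : i ∈ Set.range f₂
        · obtain ⟨j, rfl⟩ := hr
          have hj : j ∉ Set.range f₁ := by
            rintro ⟨k, rfl⟩
            exact hi ⟨k, rfl⟩
          obtain ⟨h1, h2⟩ := hnew₁ j hj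
          exact ⟨by rw [hdeg₂]; exact h1, killed_map S₁ S₂ f₂ hdeg₂ hd₂ h2⟩
        · exact hnew₂ i hr
      · rw [Finset.mem_insert] at hs
        rcases hs with rfl | hs
        · refine hkill₂ (f₁ s) (by rw [hdeg₁]; exact hse) ?_
          rcases ht with ht | ht
          · exact Or.inl ⟨s, ht, rfl⟩
          · refine Or.inr ?_
            rw [← mapL_gen hdeg₁, hd₁]
            refine c12c_idealSpan_map _ ?_ ht
            rintro _ ⟨a, ha, rfl⟩
            rw [mapL_gen]
            exact mem_idealSpan_self ⟨f₁ a, ⟨a, ha, rfl⟩, rfl⟩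
        · exact killed_map S₁ S₂ f₂ hdeg₂ hd₂ (hkill₁ s hs hse)
    · refine ⟨ι₁, hfin₁, deg₁, S₁, f₁, hdeg₁, hinj₁, hd₁, hnew₁, fun s hs hse => ?_⟩
      rw [Finset.mem_insert] at hs
      rcases hs with rfl | hs
      · exact absurd hse hte
      · exact hkill₁ s hs hse

theorem main_local {ι : Type} [Finite ι] {deg : ι → ℕ} (S : MinimalSullivan deg)
    (hS : S.LocallyEvenAffine) (n : ℕ) : S.GoodAt n := by
  classical
  have := Fintype.ofFinite ι
  obtain ⟨ι', hfin, deg', S', f, hdeg, hinj, hd, hnew, hkill⟩ :=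
    steps S (max n 2) (le_max_right _ _) hS Finset.univ
  refine good_mono (le_max_left n 2) ?_
  refine good_of_inj S S' f hinj hdeg hd (max n 2) (fun i hi => (hnew i hi).1)
    (cohFin_of_killed S' fun i hi => ?_)
  by_cases hr : i ∈ Set.range f
  · obtain ⟨j, rfl⟩ := hr
    exact hkill j (Finset.mem_univ j) (by rw [← hdeg]; exact hi)
  · exact (hnew i hr).2

theorem main_perm {ι κ : Type} [Finite ι] [Finite κ] {deg : ι → ℕ} {deg' : κ → ℕ}
    (S : MinimalSullivan deg) (T : MinimalSullivan deg') (J : Lam deg' →ₐ[ℚ] Lam deg)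
    (hJ : EvenOnto S T J) (hT : T.LocallyEvenAffine) (n : ℕ) : S.GoodAt n :=
  perm S T hJ n (main_local T hT n)

end AnWL
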