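import Mathlib

/-!
# Project WL (MP_5f0082_gt, Anick): abstract framework

`GA M xd N`: a `ℚ`-superalgebra `A` (parity involution `s`, degree operator `τ`: `τ a = 2^g • a` for
`a` homogeneous of degree `g`) with a differential `D` of degree `+1`, odd coordinates `X j` (`j ∈ M`)
of degree `xd j` and the anticommuting odd derivations `pd j = ∂/∂X_j`, which anticommute with `D`;
`(D X_j)^N = D Y_j`. `R` = subalgebra of the regular elements (the elements without poles; in `A` every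
regular even element is invertible or nilpotent), `I` = ideal of `R` (coefficients in the augmentation
ideal), `Nl` = radical ideal of `R` containing all `D r` (the elements killed at every point),
`Gen` = set of generators, `Lab` = labelled elements (preserved by the morphisms).
-/

set_option autoImplicit false

namespace AnWL

structure GA (M : Type) (xd : M → ℤ) (N : ℕ) where
  A : Type
  [ring : Ring A]
  [alg : Algebra ℚ A]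
  s : A →ₐ[ℚ] A
  τ : A →ₐ[ℚ] A
  D : A →ₗ[ℚ] A
  pd : M → A →ₗ[ℚ] A
  X : M → A
  Y : M → A
  R : Subalgebra ℚ A
  I : Submodule ℚ A
  Nl : Submodule ℚ A
  Gen : Set A
  Lab : ℕ → A
  s_s : ∀ a, s (s a) = a
  even_comm : ∀ a b, s a = a → a * b = b * a
  odd_anti : ∀ a b, s a = -a → s b = -b → a * b = -(b * a)
  D_mul : ∀ a b, D (a * b) = D a * b + s a * D b
  D_D : ∀ a, D (D a) = 0
  s_D : ∀ a, s (D a) = -D (s a)
  τ_D : ∀ a, τ (D a) = (2 : ℚ) • D (τ a)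
  pd_mul : ∀ i a b, pd i (a * b) = pd i a * b + s a * pd i b
  pd_pd : ∀ i j a, pd i (pd j a) = -pd j (pd i a)
  pd_D : ∀ i a, pd i (D a) = -D (pd i a)
  s_pd : ∀ i a, s (pd i a) = -pd i (s a)
  τ_pd : ∀ i a, τ (pd i a) = ((2 : ℚ) ^ (-xd i)) • pd i (τ a)
  pd_X : ∀ j, pd j (X j) = 1
  pd_X_ne : ∀ i j, i ≠ j → pd i (X j) = 0
  xd_odd : ∀ j, Odd (xd j)
  s_X : ∀ j, s (X j) = -X j
  τ_X : ∀ j, τ (X j) = ((2 : ℚ) ^ (xd j)) • X j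
  s_Y : ∀ j, s (Y j) = -Y j
  τ_Y : ∀ j, τ (Y j) = ((2 : ℚ) ^ ((N : ℤ) * (xd j + 1) - 1)) • Y j
  pd_Y : ∀ i j, pd i (Y j) = 0
  D_Y : ∀ j, D (Y j) = D (X j) ^ N
  X_mem : ∀ j, X j ∈ R
  Y_mem : ∀ j, Y j ∈ R
  s_mem : ∀ r ∈ R, s r ∈ R
  D_mem : ∀ r ∈ R, D r ∈ R
  pd_mem : ∀ i, ∀ r ∈ R, pd i r ∈ R
  unit_or_nil : ∀ r ∈ R, ∀ g : ℤ, Even g → s r = r → τ r = ((2 : ℚ) ^ g) • r →
    IsUnit r ∨ IsNilpotent r
  I_le : ∀ r ∈ I, r ∈ R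
  mul_I : ∀ r ∈ R, ∀ x ∈ I, r * x ∈ I
  I_mul : ∀ x ∈ I, ∀ r ∈ R, x * r ∈ I
  s_I : ∀ x ∈ I, s x ∈ I
  D_I : ∀ x ∈ I, D x ∈ I
  pd_I : ∀ i, ∀ x ∈ I, pd i x ∈ I
  Nl_le : ∀ r ∈ Nl, r ∈ R
  mul_Nl : ∀ r ∈ R, ∀ x ∈ Nl, r * x ∈ Nl
  Nl_mul : ∀ x ∈ Nl, ∀ r ∈ R, x * r ∈ Nl
  D_Nl : ∀ r ∈ R, D r ∈ Nl
  pow_Nl : ∀ r ∈ R, ∀ k : ℕ, r ^ k ∈ Nl → r ∈ Nl
  Gen_le : ∀ r ∈ Gen, r ∈ R

attribute [instance] GA.ring GA.alg

variable {M : Type} {xd : M → ℤ} {N : ℕ}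

/-- The homogeneous elements of degree `g`. -/
def GA.Hm (G : GA M xd N) (g : ℤ) : Submodule ℚ G.A where
  carrier := {a | G.τ a = ((2 : ℚ) ^ g) • a ∧ G.s a = ((-1 : ℚ) ^ g) • a}
  add_mem' := by
    rintro a b ⟨h1, h2⟩ ⟨h3, h4⟩
    exact ⟨by rw [map_add, h1, h3, smul_add], by rw [map_add, h2, h4, smul_add]⟩
  zero_mem' := ⟨by simp, by simp⟩
  smul_mem' := by
    rintro r a ⟨h1, h2⟩
    exact ⟨by rw [map_smul, h1, smul_comm], by rw [map_smul, h2, smul_comm]⟩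

/-- Iterated derivatives in the odd directions. -/
def GA.pdl (G : GA M xd N) : List M → G.A →ₗ[ℚ] G.A
  | [] => LinearMap.id
  | k :: l => (G.pd k).comp (G.pdl l)

/-- `a` is of level `L`: it depends only on the odd coordinates `X j`, `j ∈ L`. -/
def GA.Lv (G : GA M xd N) (L : Finset M) (a : G.A) : Prop := ∀ j, j ∉ L → G.pd j a = 0

/-- `w` has a pole of order at most `q` along `ε`. -/
def GA.Pl (G : GA M xd N) (ε : G.A) (q : ℕ) (w : G.A) : Prop := ε ^ q * w ∈ G.R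

/-- Elimination of the odd direction `k` by means of the odd element `v` (`∂_k v = 1`). -/
def GA.rho (G : GA M xd N) (k : M) (v : G.A) (a : G.A) : G.A := a - v * G.pd k a

/-- Morphisms. -/
structure Mor (G H : GA M xd N) where
  f : G.A →ₐ[ℚ] H.A
  s : ∀ a, H.s (f a) = f (G.s a)
  τ : ∀ a, H.τ (f a) = f (G.τ a)
  D : ∀ a, H.D (f a) = f (G.D a)
  pd : ∀ i a, H.pd i (f a) = f (G.pd i a)
  X : ∀ j, f (G.X j) = H.X j
  Y : ∀ j, f (G.Y j) = H.Y j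
  R : ∀ a ∈ G.R, f a ∈ H.R
  I : ∀ a ∈ G.I, f a ∈ H.I
  Nl : ∀ a ∈ G.Nl, f a ∈ H.Nl
  Gen : ∀ a ∈ G.Gen, f a ∈ H.Gen
  Lab : ∀ n, f (G.Lab n) = H.Lab n

/-- The identity. -/
def Mor.id (G : GA M xd N) : Mor G G where
  f := AlgHom.id ℚ G.A
  s := fun _ => rfl
  τ := fun _ => rfl
  D := fun _ => rfl
  pd := fun _ _ => rfl
  X := fun _ => rfl
  Y := fun _ => rfl
  R := fun _ h => h
  I := fun _ h => h
  Nl := fun _ h => h
  Gen := fun _ h => h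
  Lab := fun _ => rfl

/-- Composition: first `φ`, then `ψ`. -/
def Mor.comp {G H K : GA M xd N} (φ : Mor G H) (ψ : Mor H K) : Mor G K where
  f := ψ.f.comp φ.f
  s := fun a => by simp [ψ.s, φ.s]
  τ := fun a => by simp [ψ.τ, φ.τ]
  D := fun a => by simp [ψ.D, φ.D]
  pd := fun i a => by simp [ψ.pd, φ.pd]
  X := fun j => by simp [φ.X, ψ.X]
  Y := fun j => by simp [φ.Y, ψ.Y]
  R := fun a h => ψ.R _ (φ.R _ h)
  I := fun a h => ψ.I _ (φ.I _ h)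
  Nl := fun a h => ψ.Nl _ (φ.Nl _ h)
  Gen := fun a h => ψ.Gen _ (φ.Gen _ h)
  Lab := fun n => by simp [φ.Lab, ψ.Lab]

/-- All new generators are killed. -/
def Mor.Tame {G H : GA M xd N} (φ : Mor G H) : Prop :=
  ∀ g ∈ H.Gen, g ∈ φ.f '' G.Gen ∨ g ∈ H.Nl

/-- The extension property of a class `K` of objects: every closed even homogeneous `w ∈ I^κ` of level
`L` is a boundary `w = D z`, `z ∈ R ∩ I` of level `L`, in an extension by generators which are killed as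
soon as the components `∂_l z` (`l` a list of different elements of `L` of odd length) are killed. -/
def EXT (K : Set (GA M xd N)) (κ : ℕ) : Prop :=
  ∀ G ∈ K, ∀ (L : Finset M) (g : ℤ) (w : G.A), Even g → w ∈ G.Hm g → w ∈ G.I ^ κ →
    G.D w = 0 → G.Lv L w →
    ∃ H ∈ K, ∃ (φ : Mor G H) (z : H.A), z ∈ H.R ∧ z ∈ H.I ∧ z ∈ H.Hm (g - 1) ∧ H.Lv L z ∧
      H.D z = φ.f w ∧
      ∀ t ∈ H.Gen, t ∈ φ.f '' G.Gen ∨
        ∀ H' ∈ K, ∀ ψ : Mor H H',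
          (∀ l : List M, l.Nodup → Odd l.length → (∀ x ∈ l, x ∈ L) →
            ψ.f (H.pdl l z) ∈ H'.Nl) → ψ.f t ∈ H'.Nl

/-- A world of level `L` with parameters `d` (depth), `m`, `q` (pole orders): `F`, `ε` invertible even
elements of level `L`, `ε` regular, `D F` and `D ε` divisible by `F^d`, `D y = 1`, `F^m y` without pole
along `F`, all poles along `ε` of order at most `q`. -/
structure World (G : GA M xd N) (L : Finset M) (d m q : ℕ) (F ε y : G.A) (f e : ℤ) : Prop where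
  F_unit : IsUnit F
  f_even : Even f
  F_hm : F ∈ G.Hm f
  F_lv : G.Lv L F
  ε_unit : IsUnit ε
  ε_mem : ε ∈ G.R
  e_even : Even e
  ε_hm : ε ∈ G.Hm e
  ε_lv : G.Lv L ε
  y_hm : y ∈ G.Hm (-1)
  y_lv : G.Lv L y
  Dy : G.D y = 1
  F_pl : G.Pl ε q F
  DF : ∃ u, G.Pl ε q u ∧ G.D F = F ^ d * u
  Dε : ∃ u, G.Pl ε q u ∧ G.D ε = F ^ d * u
  y_pl : G.Pl ε q (F ^ m * y)

/-- Depths: `bb n ℓ` for the fields over a level with `ℓ` elements. -/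
def bb (n : ℕ) : ℕ → ℕ
  | 0 => 1
  | ℓ + 1 => 3 * bb n ℓ + 1 + n

/-- Depths: `dd n ℓ` for the worlds over a level with `ℓ` elements. -/
def dd (n ℓ : ℕ) : ℕ := 3 * bb n ℓ + 1

/-- `S(ℓ)`. -/
def SSc (K : Set (GA M xd N)) (ℓ : ℕ) : Prop :=
  ∃ R₀ : ℕ, 1 ≤ R₀ ∧ ∀ G ∈ K, ∀ L : Finset M, L.card = ℓ → ∀ (f : ℤ) (F : G.A), Even f →
    F ∈ G.I → F ∈ G.Hm f → G.D F = 0 → G.Lv L F → IsUnit F →
    ∃ H ∈ K, ∃ φ : Mor G H, φ.Tame ∧ ∃ z, z ∈ H.R ∧ z ∈ H.I ∧ z ∈ H.Hm (R₀ * f - 1) ∧ H.Lv L z ∧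
      H.D z = φ.f (F ^ R₀)

/-- `WL(ℓ)`. -/
def WLc (n : ℕ) (K : Set (GA M xd N)) (ℓ : ℕ) : Prop :=
  ∀ m q : ℕ, ∃ P : ℕ, ∀ G ∈ K, ∀ L : Finset M, L.card = ℓ → ∀ (F ε y : G.A) (f e : ℤ),
    World G L (dd n ℓ) m q F ε y f e → ε ∈ G.I →
    ∃ H ∈ K, ∃ φ : Mor G H, φ.Tame ∧ ∃ η, η ∈ H.Hm (-1) ∧ H.Lv L η ∧ H.D η = 1 ∧
      (φ.f ε) ^ P * η ∈ H.R

/-- `KL(ℓ)`: the components of a field over the level `L` can be killed. -/
def KLc (n : ℕ) (K : Set (GA M xd N)) (ℓ : ℕ) : Prop :=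
  ∀ m q : ℕ, ∃ P : ℕ, ∀ G ∈ K, ∀ L : Finset M, L.card = ℓ → ∀ (F ε y : G.A) (f e : ℤ),
    World G L (dd n ℓ) m q F ε y f e →
    ∀ (g : ℤ) (z ψ w : G.A), Even g → z ∈ G.I → z ∈ G.Hm (g - 1) → G.Lv L z →
      ψ ∈ G.R → G.D z = F ^ bb n ℓ * ψ → w ∈ G.R → G.D z = ε ^ P * w →
      ∀ l : List M, l.Nodup → Odd l.length → (∀ x ∈ l, x ∈ L) →
        ∃ H ∈ K, ∃ φ : Mor G H, φ.Tame ∧ φ.f (G.pdl l z) ∈ H.Nl

end AnWL
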