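import Pool.Agent.Helper48.WL.W01

/-!
W02. The elimination map `rho k v a = a - v * ∂_k a`, `v` odd with `∂_k v = 1`.

`rho_mul`: `rho a * rho b = ab - v ∂a b - a v ∂b + v ∂a v ∂b`, `a v = v s(a)` (`odd_comm`), and
`v ∂a v ∂b = v v s(∂a) ∂b = 0` (`v v = 0`: `odd_anti` with `a = b = v` gives `v v = -v v`, char 0);
`rho (ab) = ab - v (∂a b + s a ∂b)`.
`D_rho`: `D (v ∂a) = D v ∂a + s v D ∂a = D v ∂a - v D ∂a = D v ∂a + v ∂ D a`.
`pd_rho_self`: `∂(v ∂a) = 1 * ∂a + s v ∂∂a = ∂a` (`∂∂a = -∂∂a`, so `= 0`).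
`rho_lv`: for `j ∉ L`: `∂_j (v ∂_k a) = ∂_j v ∂_k a - v ∂_j ∂_k a = v ∂_k ∂_j a = 0`.
-/

set_option autoImplicit false

namespace AnWL
variable {M : Type} {xd : M → ℤ} {N : ℕ} (G : GA M xd N) {k : M} {v : G.A}

private theorem zero_of_eq_neg {x : G.A} (h : x = -x) : x = 0 := by
  have h2 : (2 : ℚ) • x = 0 := by
    rw [two_smul]
    nth_rewrite 2 [h]
    exact add_neg_cancel x
  exact (smul_eq_zero.mp h2).resolve_left two_ne_zero

theorem pd_sq (i : M) (a : G.A) : G.pd i (G.pd i a) = 0 :=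
  zero_of_eq_neg G (G.pd_pd i i a)

theorem odd_sq {a : G.A} (ha : G.s a = -a) : a * a = 0 :=
  zero_of_eq_neg G (G.odd_anti a a ha ha)

theorem rho_mul (hv : G.s v = -v) (a b : G.A) :
    G.rho k v (a * b) = G.rho k v a * G.rho k v b := by
  have h1 : v * G.s a = a * v := by rw [odd_comm G hv (G.s a), G.s_s]
  have h2 : v * G.s (G.pd k a) = G.pd k a * v := by
    rw [odd_comm G hv (G.s (G.pd k a)), G.s_s]
  have h3 : v * G.pd k a * (v * G.pd k b) = 0 := by
    calc v * G.pd k a * (v * G.pd k b) = v * (G.pd k a * v) * G.pd k b := by noncomm_ring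
      _ = v * (v * G.s (G.pd k a)) * G.pd k b := by rw [h2]
      _ = (v * v) * (G.s (G.pd k a) * G.pd k b) := by noncomm_ring
      _ = 0 := by rw [odd_sq G hv, zero_mul]
  have h4 : v * (G.s a * G.pd k b) = a * (v * G.pd k b) := by
    rw [← mul_assoc, h1, mul_assoc]
  unfold GA.rho
  rw [G.pd_mul, mul_add, h4, sub_mul, mul_sub, mul_sub, h3, sub_zero]
  rw [mul_assoc v (G.pd k a) b]
  abel

theorem rho_one : G.rho k v 1 = 1 := by
  unfold GA.rho
  rw [pd_one, mul_zero, sub_zero]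

theorem rho_add (a b : G.A) : G.rho k v (a + b) = G.rho k v a + G.rho k v b := by
  unfold GA.rho
  rw [map_add, mul_add]
  abel

theorem rho_sub (a b : G.A) : G.rho k v (a - b) = G.rho k v a - G.rho k v b := by
  unfold GA.rho
  rw [map_sub, mul_sub]
  abel

theorem rho_smul (r : ℚ) (a : G.A) : G.rho k v (r • a) = r • G.rho k v a := by
  unfold GA.rho
  rw [map_smul, mul_smul_comm, smul_sub]

theorem rho_pow (hv : G.s v = -v) (a : G.A) (j : ℕ) : G.rho k v (a ^ j) = G.rho k v a ^ j := by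
  induction j with
  | zero => rw [pow_zero, pow_zero, rho_one]
  | succ j ih => rw [pow_succ, pow_succ, rho_mul G hv, ih]

theorem rho_unit (hv : G.s v = -v) {a : G.A} (ha : IsUnit a) : IsUnit (G.rho k v a) := by
  obtain ⟨u, rfl⟩ := ha
  exact ⟨⟨G.rho k v u, G.rho k v ((u⁻¹ : G.Aˣ) : G.A),
    by rw [← rho_mul G hv, Units.mul_inv, rho_one],
    by rw [← rho_mul G hv, Units.inv_mul, rho_one]⟩, rfl⟩

theorem rho_of_pd {a : G.A} (h : G.pd k a = 0) : G.rho k v a = a := by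
  unfold GA.rho
  rw [h, mul_zero, sub_zero]

theorem rho_pd (a : G.A) : G.rho k v (G.pd k a) = G.pd k a :=
  rho_of_pd G (pd_sq G k a)

theorem D_rho (hv : G.s v = -v) (a : G.A) :
    G.D (G.rho k v a) = G.rho k v (G.D a) - G.D v * G.pd k a := by
  unfold GA.rho
  rw [map_sub, G.D_mul, hv, G.pd_D, neg_mul, mul_neg]
  abel

theorem pd_rho_self (hv : G.s v = -v) (h1 : G.pd k v = 1) (a : G.A) :
    G.pd k (G.rho k v a) = 0 := by
  unfold GA.rho
  rw [map_sub, G.pd_mul, h1, pd_sq, mul_zero, one_mul, add_zero, sub_self]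

theorem rho_hm {g : ℤ} (hv : v ∈ G.Hm (xd k)) {a : G.A} (ha : a ∈ G.Hm g) :
    G.rho k v a ∈ G.Hm g := by
  unfold GA.rho
  refine Submodule.sub_mem _ ha ?_
  have h := Hm_mul G hv (Hm_pd G ha k)
  rwa [add_sub_cancel] at h

theorem rho_lv [DecidableEq M] {L : Finset M} (hv : G.s v = -v) (h1 : G.pd k v = 1)
    (hL : G.Lv L v) {a : G.A} (ha : G.Lv L a) : G.Lv (L.erase k) (G.rho k v a) := by
  intro j hj
  by_cases hjk : j = k
  · subst hjk
    exact pd_rho_self G hv h1 a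
  · have hjL : j ∉ L := fun h => hj (Finset.mem_erase.mpr ⟨hjk, h⟩)
    unfold GA.rho
    rw [map_sub, G.pd_mul, hL j hjL, ha j hjL, G.pd_pd, ha j hjL, map_zero, neg_zero, mul_zero,
      zero_mul, add_zero, sub_zero]

/-- `D v` is closed and does not depend on `X_k`. -/
theorem D_v (h1 : G.pd k v = 1) : G.D (G.D v) = 0 ∧ G.pd k (G.D v) = 0 :=
  ⟨G.D_D v, by rw [G.pd_D, h1, D_one, neg_zero]⟩

theorem Lv_erase [DecidableEq M] {L : Finset M} {a : G.A} (ha : G.Lv L a) (hk : G.pd k a = 0) :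
    G.Lv (L.erase k) a := by
  intro j hj
  by_cases hjk : j = k
  · subst hjk
    exact hk
  · exact ha j fun h => hj (Finset.mem_erase.mpr ⟨hjk, h⟩)

theorem Lv_of_erase [DecidableEq M] {L : Finset M} {a : G.A} (ha : G.Lv (L.erase k) a) :
    G.Lv L a :=
  fun j hj => ha j fun h => hj (Finset.mem_of_mem_erase h)

end AnWL
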