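import Pool.Agent.Helper48.WL.W02

/-!
W03. The odd element `v = Ξ / e`, `Ξ` a regular odd element, `e = ∂_k Ξ` invertible.

`e ∈ Hm (g - xd k)`, `g - xd k` even (`xd_odd`), so `e` is central; `∂_k e = 0` (`pd_sq`). Put
`v = Ξ * e⁻¹`. `∂_k (e⁻¹) = 0` (`pd_zpow` or differentiate `e e⁻¹ = 1`), `s (e⁻¹) = e⁻¹`.
`∂_k v = ∂_k Ξ e⁻¹ + s Ξ ∂_k(e⁻¹) = 1`. Level: `Lv_mul`, inverse: `Lv_zpow`. `v ∈ Hm (xd k)`:
`Hm_mul`, `inv_even`. `e * rho r = e r - e v ∂_k r = e r - Ξ ∂_k r ∈ R`.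
`e * D v = rho (D Ξ)`: `D v = D Ξ e⁻¹ + s Ξ D(e⁻¹) = D Ξ e⁻¹ + Ξ e⁻¹ e⁻¹ D e` (`D (e⁻¹) = -e⁻¹ e⁻¹ D e`),
`D e = D ∂_k Ξ = -∂_k D Ξ`, so `e D v = D Ξ - Ξ e⁻¹ ∂_k D Ξ = rho (D Ξ)`.
-/

set_option autoImplicit false

namespace AnWL
variable {M : Type} {xd : M → ℤ} {N : ℕ} (G : GA M xd N)

theorem exists_v [DecidableEq M] {k : M} {L : Finset M} {g : ℤ} (hg : Odd g) {Ξ : G.A}
    (hR : Ξ ∈ G.R) (hh : Ξ ∈ G.Hm g) (hL : G.Lv L Ξ) (he : IsUnit (G.pd k Ξ)) :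
    ∃ v : G.A, G.pd k Ξ * v = Ξ ∧ G.pd k v = 1 ∧ v ∈ G.Hm (xd k) ∧ G.s v = -v ∧ G.Lv L v ∧
      (∀ r ∈ G.R, G.pd k Ξ * G.rho k v r ∈ G.R) ∧
      G.pd k Ξ * G.D v = G.rho k v (G.D Ξ) := by
  obtain ⟨u, hu⟩ := he
  have hev : Even (g - xd k) := hg.sub_odd (G.xd_odd k)
  have huh : (u : G.A) ∈ G.Hm (g - xd k) := by
    rw [hu]
    exact Hm_pd G hh k
  have huL : G.Lv L (u : G.A) := by
    rw [hu]
    exact Lv_pd G hL k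
  have hch := inv_even G hev u huh
  have hcev : Even (-(g - xd k)) := hev.neg
  have hucomm : ∀ a : G.A, (u : G.A) * a = a * (u : G.A) := Hm_comm G hev huh
  have hccomm : ∀ a : G.A, ((u⁻¹ : G.Aˣ) : G.A) * a = a * ((u⁻¹ : G.Aˣ) : G.A) :=
    Hm_comm G hcev hch
  have huc : (u : G.A) * ((u⁻¹ : G.Aˣ) : G.A) = 1 := Units.mul_inv u
  have hus : G.s (u : G.A) = u := Hm_s_even G hev huh
  have hsΞ : G.s Ξ = -Ξ := Hm_s_odd G hg hh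
  have hpu : G.pd k (u : G.A) = 0 := by
    rw [hu]
    exact pd_sq G k Ξ
  have hpc : G.pd k ((u⁻¹ : G.Aˣ) : G.A) = 0 := by
    have h1 := G.pd_mul k (u : G.A) ((u⁻¹ : G.Aˣ) : G.A)
    rw [huc, pd_one, hpu, zero_mul, zero_add, hus] at h1
    have h2 := congrArg (fun t => ((u⁻¹ : G.Aˣ) : G.A) * t) h1
    simp only [mul_zero, Units.inv_mul_cancel_left] at h2
    exact h2.symm
  have hDc : (u : G.A) * G.D ((u⁻¹ : G.Aˣ) : G.A) = -(G.D (u : G.A) * ((u⁻¹ : G.Aˣ) : G.A)) := by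
    have h1 := G.D_mul (u : G.A) ((u⁻¹ : G.Aˣ) : G.A)
    rw [huc, D_one, hus] at h1
    exact (neg_eq_of_add_eq_zero_right h1.symm).symm
  have hcL : G.Lv L ((u⁻¹ : G.Aˣ) : G.A) := by
    have h1 := Lv_zpow G hev u huh huL (-1)
    rwa [zpow_neg_one] at h1
  have hev1 : (u : G.A) * (Ξ * ((u⁻¹ : G.Aˣ) : G.A)) = Ξ := by
    rw [← mul_assoc, hucomm Ξ, mul_assoc, huc, mul_one]
  have hvh : Ξ * ((u⁻¹ : G.Aˣ) : G.A) ∈ G.Hm (xd k) := by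
    have h1 := Hm_mul G hh hch
    rwa [show g + -(g - xd k) = xd k by ring] at h1
  rw [← hu]
  refine ⟨Ξ * ((u⁻¹ : G.Aˣ) : G.A), hev1, ?_, hvh, Hm_s_odd G (G.xd_odd k) hvh,
    Lv_mul G hL hcL, ?_, ?_⟩
  · rw [G.pd_mul, hpc, mul_zero, add_zero, ← hu, huc]
  · intro r hr
    unfold GA.rho
    rw [mul_sub, ← mul_assoc, hev1]
    refine G.R.sub_mem (G.R.mul_mem ?_ hr) (G.R.mul_mem hR (G.pd_mem k r hr))
    rw [hu]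
    exact G.pd_mem k Ξ hR
  · unfold GA.rho
    rw [G.D_mul, G.pd_D, ← hu, hsΞ, mul_add]
    rw [← mul_assoc, hucomm (G.D Ξ), mul_assoc (G.D Ξ), huc, mul_one]
    rw [← mul_assoc, hucomm (-Ξ), mul_assoc (-Ξ), hDc]
    rw [mul_assoc Ξ, hccomm]
    rw [neg_mul_neg, neg_mul, mul_neg, sub_neg_eq_add]

end AnWL
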