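import Pool.Agent.Helper48.WL.W02

/-!
W04. The contraction `y` after the elimination of the direction `k`.

`c = D v` (even, closed, `∂_k c = 0`, central), `a = D (X k)` (even, closed, central), `y₁ = ∂_k y` (even,
closed: `D ∂_k y = -∂_k D y = -∂_k 1 = 0`), `ξ = X k - v` (odd, `D ξ = a - c`).
`y' = rho y * Σ_{i<N} (c y₁)^i + (Y k - ξ * Σ_{i<N} c^i a^(N-1-i)) * y₁^N`.
`D (rho y) = rho 1 - c y₁ = 1 - c y₁` (`D_rho`, `rho_one`), and `Σ_{i<N} (c y₁)^i` is closed, so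
`D (rho y * Σ (c y₁)^i) = (1 - c y₁) Σ_{i<N} (c y₁)^i = 1 - (c y₁)^N` (`mul_neg_geom_sum` or the
commutative identity); `D (Y k) = a^N`; `D (ξ * Σ c^i a^(N-1-i)) = (a - c) Σ_{i<N} c^i a^(N-1-i) = a^N - c^N`
(`Commute.mul_geom_sum₂` and similar; `c`, `a` commute). So `D (Y k - ξ Σ) = c^N`, and
`D ((Y k - ξ Σ) * y₁^N) = c^N y₁^N` (`y₁^N` closed). Sum: `1`.
Degrees: `c ∈ Hm (xd k + 1)`, `y₁ ∈ Hm (-1 - xd k)`, `c y₁ ∈ Hm 0`; `Y k ∈ Hm (N (xd k + 1) - 1)`.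
Level `L.erase k`: `rho_lv`, `Lv_erase` (for `c`, `y₁`), `∂_k ξ = 1 - 1 = 0`, `Lv_X`, `Lv_Y`, `Lv_DX`.
-/

set_option autoImplicit false

namespace AnWL
variable {M : Type} {xd : M → ℤ} {N : ℕ} (G : GA M xd N)

/-- The new contraction. -/
noncomputable def yNew (G : GA M xd N) (k : M) (v y : G.A) : G.A :=
  G.rho k v y * ∑ i ∈ Finset.range N, (G.D v * G.pd k y) ^ i +
    (G.Y k - (G.X k - v) * ∑ i ∈ Finset.range N, G.D v ^ i * G.D (G.X k) ^ (N - 1 - i)) *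
      G.pd k y ^ N

private theorem D_pow_zero' {z : G.A} (hz : G.s z = z) (hD : G.D z = 0) (i : ℕ) :
    G.D (z ^ i) = 0 := by
  cases i with
  | zero => rw [pow_zero]; exact D_one G
  | succ i => rw [D_pow G hz i, hD, mul_zero, smul_zero]

theorem yNew_spec [DecidableEq M] {k : M} {L : Finset M} (hk : k ∈ L) {v y : G.A}
    (hv : v ∈ G.Hm (xd k)) (h1 : G.pd k v = 1) (hvL : G.Lv L v) (hy : y ∈ G.Hm (-1))
    (hyL : G.Lv L y) (hDy : G.D y = 1) :
    G.D (yNew G k v y) = 1 ∧ yNew G k v y ∈ G.Hm (-1) ∧ G.Lv (L.erase k) (yNew G k v y) := by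
  have hsv : G.s v = -v := Hm_s_odd G (G.xd_odd k) hv
  have hev : Even (xd k + 1) := (G.xd_odd k).add_one
  have hev2 : Even (-1 - xd k) := by
    have h := hev.neg
    have h2 : -(xd k + 1) = -1 - xd k := by ring
    rwa [h2] at h
  have hc : G.D v ∈ G.Hm (xd k + 1) := Hm_D G hv
  have ha : G.D (G.X k) ∈ G.Hm (xd k + 1) := Hm_D G (Hm_X G k)
  have hy1 : G.pd k y ∈ G.Hm (-1 - xd k) := Hm_pd G hy k
  have hsc : G.s (G.D v) = G.D v := Hm_s_even G hev hc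
  have hsa : G.s (G.D (G.X k)) = G.D (G.X k) := Hm_s_even G hev ha
  have hsy1 : G.s (G.pd k y) = G.pd k y := Hm_s_even G hev2 hy1
  have hDc : G.D (G.D v) = 0 := G.D_D v
  have hDa : G.D (G.D (G.X k)) = 0 := G.D_D _
  have hDy1 : G.D (G.pd k y) = 0 := by
    have h := G.pd_D k y
    rw [hDy, pd_one G k] at h
    exact neg_eq_zero.1 h.symm
  have hpc : G.pd k (G.D v) = 0 := (D_v G h1).2
  have hcy : G.D v * G.pd k y ∈ G.Hm 0 := by
    have h := Hm_mul G hc hy1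
    have h2 : xd k + 1 + (-1 - xd k) = 0 := by ring
    rwa [h2] at h
  have hscy : G.s (G.D v * G.pd k y) = G.D v * G.pd k y := Hm_s_even G (by decide) hcy
  have hDcy : G.D (G.D v * G.pd k y) = 0 := by
    rw [G.D_mul, hDc, hDy1, zero_mul, mul_zero, add_zero]
  have hcomm : G.D v * G.D (G.X k) = G.D (G.X k) * G.D v := Hm_comm G hev hc _
  have hcomm2 : G.D v * G.pd k y = G.pd k y * G.D v := Hm_comm G hev hc _
  -- the two sums
  have hDS1 : G.D (∑ i ∈ Finset.range N, (G.D v * G.pd k y) ^ i) = 0 := by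
    rw [map_sum]
    exact Finset.sum_eq_zero fun i _ => D_pow_zero' G hscy hDcy i
  have hDS2 : G.D (∑ i ∈ Finset.range N, G.D v ^ i * G.D (G.X k) ^ (N - 1 - i)) = 0 := by
    rw [map_sum]
    refine Finset.sum_eq_zero fun i _ => ?_
    rw [G.D_mul, D_pow_zero' G hsc hDc, D_pow_zero' G hsa hDa, zero_mul, mul_zero, add_zero]
  refine ⟨?_, ?_, ?_⟩
  · have e1 : G.D (G.rho k v y) = 1 - G.D v * G.pd k y := by
      rw [D_rho G hsv, hDy, rho_one]
    have e2 : G.D (G.rho k v y * ∑ i ∈ Finset.range N, (G.D v * G.pd k y) ^ i) =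
        1 - (G.D v * G.pd k y) ^ N := by
      rw [G.D_mul, hDS1, mul_zero, add_zero, e1, mul_neg_geom_sum]
    have e3 : G.D (G.X k - v) = G.D (G.X k) - G.D v := map_sub _ _ _
    have e4 : (G.D (G.X k) - G.D v) *
        ∑ i ∈ Finset.range N, G.D v ^ i * G.D (G.X k) ^ (N - 1 - i) =
        G.D (G.X k) ^ N - G.D v ^ N := by
      have hc1 : Commute (G.D v) (G.D (G.X k)) := hcomm
      have h := hc1.mul_geom_sum₂ N
      rw [← neg_sub (G.D v) (G.D (G.X k)), neg_mul, h, neg_sub]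
    have e5 : G.D (G.Y k - (G.X k - v) *
        ∑ i ∈ Finset.range N, G.D v ^ i * G.D (G.X k) ^ (N - 1 - i)) = G.D v ^ N := by
      rw [map_sub, G.D_Y, G.D_mul, hDS2, mul_zero, add_zero, e3, e4]
      abel
    have e6 : (G.D v * G.pd k y) ^ N = G.D v ^ N * G.pd k y ^ N := by
      have hc2 : Commute (G.D v) (G.pd k y) := hcomm2
      exact hc2.mul_pow N
    unfold yNew
    rw [map_add, e2, G.D_mul, e5, D_pow_zero' G hsy1 hDy1, mul_zero, add_zero, e6]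
    abel
  · have m1 : ∑ i ∈ Finset.range N, (G.D v * G.pd k y) ^ i ∈ G.Hm 0 := by
      refine Submodule.sum_mem _ fun i _ => ?_
      have h := Hm_pow G hcy i
      rwa [mul_zero] at h
    have m2 : G.rho k v y * ∑ i ∈ Finset.range N, (G.D v * G.pd k y) ^ i ∈ G.Hm (-1) := by
      have h := Hm_mul G (rho_hm G hv hy) m1
      rwa [add_zero] at h
    have m3 : ∑ i ∈ Finset.range N, G.D v ^ i * G.D (G.X k) ^ (N - 1 - i) ∈
        G.Hm (((N : ℤ) - 1) * (xd k + 1)) := by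
      refine Submodule.sum_mem _ fun i hi => ?_
      have hi' : i < N := Finset.mem_range.1 hi
      have h := Hm_mul G (Hm_pow G hc i) (Hm_pow G ha (N - 1 - i))
      have h2 : (i : ℤ) * (xd k + 1) + ((N - 1 - i : ℕ) : ℤ) * (xd k + 1) =
          ((N : ℤ) - 1) * (xd k + 1) := by
        have h3 : ((N - 1 - i : ℕ) : ℤ) = (N : ℤ) - 1 - i := by omega
        rw [h3]
        ring
      rwa [h2] at h
    have m4 : G.X k - v ∈ G.Hm (xd k) := Submodule.sub_mem _ (Hm_X G k) hv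
    have m5 : (G.X k - v) * ∑ i ∈ Finset.range N, G.D v ^ i * G.D (G.X k) ^ (N - 1 - i) ∈
        G.Hm ((N : ℤ) * (xd k + 1) - 1) := by
      have h := Hm_mul G m4 m3
      have h2 : xd k + ((N : ℤ) - 1) * (xd k + 1) = (N : ℤ) * (xd k + 1) - 1 := by ring
      rwa [h2] at h
    have m6 := Submodule.sub_mem _ (Hm_Y G k) m5
    have m7 := Hm_mul G m6 (Hm_pow G hy1 N)
    have h8 : (N : ℤ) * (xd k + 1) - 1 + (N : ℤ) * (-1 - xd k) = -1 := by ring
    rw [h8] at m7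
    exact Submodule.add_mem _ m2 m7
  · have l1 : G.Lv (L.erase k) (G.rho k v y) := rho_lv G hsv h1 hvL hyL
    have l2 : G.Lv (L.erase k) (G.D v) := Lv_erase G (Lv_D G hvL) hpc
    have l3 : G.Lv (L.erase k) (G.pd k y) := Lv_erase G (Lv_pd G hyL k) (pd_sq G k y)
    have l4 : G.Lv (L.erase k) (G.D (G.X k)) := Lv_DX G _ k
    have l5 : G.Lv (L.erase k) (G.X k - v) := by
      refine Lv_erase G (Lv_sub G (Lv_X G hk) hvL) ?_
      rw [map_sub, G.pd_X, h1, sub_self]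
    refine Lv_add G (Lv_mul G l1 (Lv_sum G _ _ fun i _ => Lv_pow G (Lv_mul G l2 l3) i)) ?_
    refine Lv_mul G (Lv_sub G (Lv_Y G _ k) (Lv_mul G l5 ?_)) (Lv_pow G l3 N)
    exact Lv_sum G _ _ fun i _ => Lv_mul G (Lv_pow G l2 i) (Lv_pow G l4 _)

end AnWL
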