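import Pool.Agent.Helper48.WL.W02

/-!
W05. Pole calculus and iterated derivatives.

`ε` is regular and central (`hε : ∀ a, ε * a = a * ε`). `Pl ε q w` means `ε^q * w ∈ R`.
`Pl_mul`: `ε^(p+q) (a b) = (ε^p a)(ε^q b)`. `Pl_pd`: `∂ (ε^(q) w) = q ε^(q-1) ∂ε w + ε^q ∂w` is regular,
multiply by `ε`: `ε^(q+1) ∂w = ε ∂(ε^q w) - q ∂ε (ε^q w)` (`pd_pow`; for `q = 0` trivial).
`pdl_pow` (`F` even homogeneous, hence central): induction on `l`: if `∂_l (F^M ψ) = F^(M-|l|) χ` with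
`|l| + 1 ≤ M` then, `j = M - |l| = j' + 1`, `∂_k (F^j χ) = F^j' (j ∂_k F χ + F ∂_k χ)`; pole orders: `∂_k F`: `q+1`,
`χ`: `p_l`, `F`: `q`, `∂_k χ`: `p_l + 1`; so `p_{l+1} = p_l + (q + 1)`.
`pdl_eps`: the same with `ε` in the place of `F`, everything regular.
-/

set_option autoImplicit false

namespace AnWL
variable {M : Type} {xd : M → ℤ} {N : ℕ} (G : GA M xd N)

theorem Pl_mono {ε w : G.A} (hε : ε ∈ G.R) {p q : ℕ} (h : p ≤ q) (hw : G.Pl ε p w) :
    G.Pl ε q w := by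
  obtain ⟨r, rfl⟩ := Nat.exists_eq_add_of_le h
  unfold GA.Pl at hw ⊢
  rw [add_comm p r, pow_add, mul_assoc]
  exact G.R.mul_mem (G.R.pow_mem hε r) hw

theorem Pl_of_mem {ε w : G.A} (hε : ε ∈ G.R) (q : ℕ) (hw : w ∈ G.R) : G.Pl ε q w :=
  G.R.mul_mem (G.R.pow_mem hε q) hw

theorem Pl_zero {ε w : G.A} : G.Pl ε 0 w ↔ w ∈ G.R := by
  unfold GA.Pl
  rw [pow_zero, one_mul]

theorem Pl_add {ε w w' : G.A} {q : ℕ} (hw : G.Pl ε q w) (hw' : G.Pl ε q w') :
    G.Pl ε q (w + w') := by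
  unfold GA.Pl at hw hw' ⊢
  rw [mul_add]
  exact G.R.add_mem hw hw'

theorem Pl_sub {ε w w' : G.A} {q : ℕ} (hw : G.Pl ε q w) (hw' : G.Pl ε q w') :
    G.Pl ε q (w - w') := by
  unfold GA.Pl at hw hw' ⊢
  rw [mul_sub]
  exact G.R.sub_mem hw hw'

theorem Pl_smul {ε w : G.A} {q : ℕ} (r : ℚ) (hw : G.Pl ε q w) : G.Pl ε q (r • w) := by
  unfold GA.Pl at hw ⊢
  rw [mul_smul_comm]
  exact G.R.smul_mem hw r

theorem Pl_sum {ε : G.A} {q : ℕ} {α : Type} (t : Finset α) (x : α → G.A)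
    (h : ∀ i ∈ t, G.Pl ε q (x i)) : G.Pl ε q (∑ i ∈ t, x i) := by
  unfold GA.Pl at h ⊢
  rw [Finset.mul_sum]
  exact G.R.sum_mem h

theorem Pl_mul {ε w w' : G.A} {p q : ℕ} (hε : ∀ a, ε * a = a * ε) (hw : G.Pl ε p w)
    (hw' : G.Pl ε q w') : G.Pl ε (p + q) (w * w') := by
  unfold GA.Pl at hw hw' ⊢
  have h1 : ε ^ q * w = w * ε ^ q := (Commute.pow_left (hε w) q).eq
  have h2 : ε ^ (p + q) * (w * w') = (ε ^ p * w) * (ε ^ q * w') := by
    rw [pow_add, mul_assoc (ε ^ p) (ε ^ q), ← mul_assoc (ε ^ q) w w', h1, mul_assoc w, ← mul_assoc]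
  rw [h2]
  exact G.R.mul_mem hw hw'

theorem Pl_pow {ε w : G.A} {p : ℕ} (hε : ∀ a, ε * a = a * ε) (hw : G.Pl ε p w) (j : ℕ) :
    G.Pl ε (j * p) (w ^ j) := by
  induction j with
  | zero =>
    rw [zero_mul, pow_zero, Pl_zero]
    exact G.R.one_mem
  | succ j ih =>
    rw [pow_succ, add_mul, one_mul]
    exact Pl_mul G hε ih hw

theorem Pl_pd {ε w : G.A} {q : ℕ} (hεR : ε ∈ G.R) (hεs : G.s ε = ε) (hw : G.Pl ε q w) (k : M) :
    G.Pl ε (q + 1) (G.pd k w) := by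
  have hc : ∀ a, ε * a = a * ε := fun a => G.even_comm ε a hεs
  unfold GA.Pl at hw ⊢
  cases q with
  | zero =>
    rw [pow_zero, one_mul] at hw
    rw [zero_add, pow_one]
    exact G.R.mul_mem hεR (G.pd_mem k _ hw)
  | succ j =>
    have h1 := G.pd_mul k (ε ^ (j + 1)) w
    rw [pd_pow G k hεs j, map_pow, hεs] at h1
    have h2 : ε ^ (j + 1) * G.pd k ε = G.pd k ε * ε ^ (j + 1) :=
      (Commute.pow_left (hc (G.pd k ε)) (j + 1)).eq
    have h3 : ε ^ (j + 1 + 1) * G.pd k w = ε * G.pd k (ε ^ (j + 1) * w) -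
        ((j + 1 : ℕ) : ℚ) • (G.pd k ε * (ε ^ (j + 1) * w)) := by
      have h4 : ε * (((j + 1 : ℕ) : ℚ) • (ε ^ j * G.pd k ε) * w) =
          ((j + 1 : ℕ) : ℚ) • (G.pd k ε * (ε ^ (j + 1) * w)) := by
        rw [smul_mul_assoc, mul_smul_comm, ← mul_assoc, ← mul_assoc, ← pow_succ', h2, mul_assoc]
      rw [h1, mul_add, h4, add_sub_cancel_left, ← mul_assoc, ← pow_succ']
    rw [h3]
    exact G.R.sub_mem (G.R.mul_mem hεR (G.pd_mem k _ hw))
      (G.R.smul_mem (G.R.mul_mem (G.pd_mem k _ hεR) hw) _)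

theorem pdl_mem {z : G.A} (hz : z ∈ G.R) (l : List M) : G.pdl l z ∈ G.R := by
  induction l with
  | nil => exact hz
  | cons k l ih => exact G.pd_mem k _ ih

theorem pdl_memI {z : G.A} (hz : z ∈ G.I) (l : List M) : G.pdl l z ∈ G.I := by
  induction l with
  | nil => exact hz
  | cons k l ih => exact G.pd_I k _ ih

theorem pdl_lv {L : Finset M} {z : G.A} (hz : G.Lv L z) (l : List M) : G.Lv L (G.pdl l z) := by
  induction l with
  | nil => exact hz
  | cons k l ih => exact Lv_pd G ih k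

theorem pdl_D (z : G.A) (l : List M) :
    G.D (G.pdl l z) = ((-1 : ℚ) ^ l.length) • G.pdl l (G.D z) := by
  induction l with
  | nil =>
    rw [List.length_nil, pow_zero, one_smul]
    rfl
  | cons k l ih =>
    have h1 : G.D (G.pd k (G.pdl l z)) = - G.pd k (G.D (G.pdl l z)) := by
      rw [G.pd_D, neg_neg]
    have h2 : G.D (G.pdl (k :: l) z) = G.D (G.pd k (G.pdl l z)) := rfl
    have h3 : G.pdl (k :: l) (G.D z) = G.pd k (G.pdl l (G.D z)) := rfl
    rw [h2, h3, h1, ih, map_smul, List.length_cons, pow_succ, mul_neg_one, neg_smul]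

theorem pdl_hm {g : ℤ} {z : G.A} (hz : z ∈ G.Hm g) (l : List M) :
    G.pdl l z ∈ G.Hm (g - (l.map xd).sum) := by
  induction l with
  | nil =>
    rw [List.map_nil, List.sum_nil, sub_zero]
    exact hz
  | cons k l ih =>
    have h1 := Hm_pd G ih k
    have h2 : g - (List.map xd (k :: l)).sum = g - (List.map xd l).sum - xd k := by
      rw [List.map_cons, List.sum_cons]
      ring
    rw [h2]
    exact h1

/-- The parity of the degree of `∂_l z`. -/
theorem sum_xd_parity (h : ∀ j, Odd (xd j)) (l : List M) :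
    Even ((l.map xd).sum - (l.length : ℤ)) := by
  induction l with
  | nil => simp
  | cons k l ih =>
    have h1 : (List.map xd (k :: l)).sum - ((k :: l).length : ℤ) =
        (xd k - 1) + ((List.map xd l).sum - (l.length : ℤ)) := by
      rw [List.map_cons, List.sum_cons, List.length_cons]
      push_cast
      ring
    rw [h1]
    exact ((h k).sub_odd odd_one).add ih

theorem pdl_pow {ε F ψ : G.A} {p q f : ℕ} {fd ed : ℤ} (hεR : ε ∈ G.R) (hed : Even ed)
    (hε : ε ∈ G.Hm ed) (hfd : Even fd) (hF : F ∈ G.Hm fd) (hFq : G.Pl ε q F) (hψ : G.Pl ε p ψ)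
    (l : List M) (hl : l.length ≤ f) :
    ∃ χ, G.pdl l (F ^ f * ψ) = F ^ (f - l.length) * χ ∧ G.Pl ε (p + l.length * (q + 1)) χ := by
  have hεs := Hm_s_even G hed hε
  have hFs := Hm_s_even G hfd hF
  have hc : ∀ a, ε * a = a * ε := fun a => G.even_comm ε a hεs
  induction l with
  | nil =>
    refine ⟨ψ, ?_, ?_⟩
    · rw [List.length_nil, Nat.sub_zero]
      rfl
    · rw [List.length_nil, zero_mul, add_zero]
      exact hψ
  | cons k l ih =>
    rw [List.length_cons] at hl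
    obtain ⟨χ, h1, h2⟩ := ih (by omega)
    obtain ⟨j, hj⟩ : ∃ j, f - l.length = j + 1 := ⟨f - (l.length + 1), by omega⟩
    have hj' : f - (k :: l).length = j := by
      rw [List.length_cons]
      omega
    have h3 : G.pdl (k :: l) (F ^ f * ψ) = G.pd k (G.pdl l (F ^ f * ψ)) := rfl
    refine ⟨((j + 1 : ℕ) : ℚ) • (G.pd k F * χ) + F * G.pd k χ, ?_, ?_⟩
    · rw [h3, h1, hj, hj', G.pd_mul, pd_pow G k hFs j, map_pow, hFs, mul_add, smul_mul_assoc,
        mul_smul_comm, mul_assoc, pow_succ, mul_assoc]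
    · have e1 : p + (k :: l).length * (q + 1) = (q + 1) + (p + l.length * (q + 1)) := by
        rw [List.length_cons]
        ring
      have e2 : p + (k :: l).length * (q + 1) = q + (p + l.length * (q + 1) + 1) := by
        rw [List.length_cons]
        ring
      apply Pl_add
      · apply Pl_smul
        rw [e1]
        exact Pl_mul G hc (Pl_pd G hεR hεs hFq k) h2
      · rw [e2]
        exact Pl_mul G hc hFq (Pl_pd G hεR hεs h2 k)

theorem pdl_eps {ε w : G.A} {P : ℕ} {ed : ℤ} (hεR : ε ∈ G.R) (hed : Even ed)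
    (hε : ε ∈ G.Hm ed) (hw : w ∈ G.R) (l : List M) (hl : l.length ≤ P) :
    ∃ χ ∈ G.R, G.pdl l (ε ^ P * w) = ε ^ (P - l.length) * χ := by
  have hεs := Hm_s_even G hed hε
  induction l with
  | nil =>
    refine ⟨w, hw, ?_⟩
    rw [List.length_nil, Nat.sub_zero]
    rfl
  | cons k l ih =>
    rw [List.length_cons] at hl
    obtain ⟨χ, h2, h1⟩ := ih (by omega)
    obtain ⟨j, hj⟩ : ∃ j, P - l.length = j + 1 := ⟨P - (l.length + 1), by omega⟩
    have hj' : P - (k :: l).length = j := by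
      rw [List.length_cons]
      omega
    have h3 : G.pdl (k :: l) (ε ^ P * w) = G.pd k (G.pdl l (ε ^ P * w)) := rfl
    refine ⟨((j + 1 : ℕ) : ℚ) • (G.pd k ε * χ) + ε * G.pd k χ, ?_, ?_⟩
    · exact G.R.add_mem (G.R.smul_mem (G.R.mul_mem (G.pd_mem k _ hεR) h2) _)
        (G.R.mul_mem hεR (G.pd_mem k _ h2))
    · rw [h3, h1, hj, hj', G.pd_mul, pd_pow G k hεs j, map_pow, hεs, mul_add, smul_mul_assoc,
        mul_smul_comm, mul_assoc, pow_succ, mul_assoc]

end AnWL
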