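import Pool.Agent.Helper48.WL.W06c

/-!
W06. The child world (assembly of W03, W04, W06a, W06b, W06c).

`l.length + 1 ≤ n`, `l` of even length, `z ∈ Hm (g - 1)`, `g` even: `Ξ = pdl l z ∈ Hm (odd)` (`pdl_hm`,
`sum_xd_parity`), `e = ∂_k Ξ` of even degree. If `e` is a unit: `exists_v` (with `Ξ` regular: `pdl_mem`,
level: `pdl_lv`) gives `v`; `Elim` holds (`e ∈ I`: `pd_I`, `pdl_memI`). `child_F` gives `q'`, `child_y` (with
`d'`, `q'`) gives `m'`, `q''`; the world has the parameters `d'`, `m'`, `q' + q''` (`Pl_mono`; for the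
`∃ u` clauses too). `F' = rho F` unit: `rho_unit`; degrees: `rho_hm`; levels: `rho_lv`; `ε'`: `eps'_facts`;
`y' = yNew G k v y`: `yNew_spec`.
-/

set_option autoImplicit false

namespace AnWL
variable {M : Type} {xd : M → ℤ} {N : ℕ}

theorem child [DecidableEq M] (n d m q T d' : ℕ) (hd : d' ≤ d) (hT : d' + n ≤ T) :
    ∃ m' q' : ℕ, ∀ (G : GA M xd N) (L : Finset M) (F ε y : G.A) (f ed : ℤ),
      World G L d m q F ε y f ed → ∀ (k : M) (l : List M) (g : ℤ) (z ψ : G.A), k ∈ L →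
      l.length + 1 ≤ n → Even l.length → Even g → z ∈ G.I → z ∈ G.Hm (g - 1) → G.Lv L z →
      ψ ∈ G.R → G.D z = F ^ T * ψ → IsUnit (G.pd k (G.pdl l z)) →
      ∃ (v y' : G.A) (ge : ℤ), Elim G L k (G.pd k (G.pdl l z)) v ge ∧
        World G (L.erase k) d' m' q' (G.rho k v F) (G.pd k (G.pdl l z) ^ 2 * G.rho k v ε) y' f
          (2 * ge + ed) ∧
        G.pd k (G.pdl l z) ^ 2 * G.rho k v ε ∈ G.I := by
  obtain ⟨q1, hq1⟩ := child_F (M := M) (xd := xd) (N := N) n d q T d' hd hT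
  obtain ⟨m', q2, hq2⟩ := child_y (M := M) (xd := xd) (N := N) m q d' q1
  refine ⟨m', q1 + q2, ?_⟩
  intro G L F ε y f ed W k l g z ψ hk hl hle hg hzI hz hzL hψ hDz hu
  have hzR : z ∈ G.R := G.I_le z hzI
  have hΞR : G.pdl l z ∈ G.R := pdl_mem G hzR l
  have hΞh := pdl_hm G hz l
  have hpar := sum_xd_parity G.xd_odd l
  have hodd : Odd (g - 1 - (l.map xd).sum) := by
    have h1 : Even ((l.length : ℤ)) := by exact_mod_cast hle
    have h2 : Even ((l.map xd).sum) := by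
      have := hpar.add h1
      rwa [sub_add_cancel] at this
    have h3 : g - 1 - (l.map xd).sum = (g - (l.map xd).sum) - 1 := by ring
    rw [h3]
    exact (hg.sub h2).sub_odd odd_one
  obtain ⟨v, ev, pdv, vh, vs, vL, hre, hcv⟩ := exists_v G hodd hΞR hΞh (pdl_lv G hzL l) hu
  have hE : Elim G L k (G.pd k (G.pdl l z)) v (g - 1 - (l.map xd).sum - xd k) :=
    { mem_L := hk
      e_unit := hu
      e_R := G.pd_mem k _ hΞR
      e_I := G.pd_I k _ (pdl_memI G hzI l)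
      g_even := hodd.sub_odd (G.xd_odd k)
      e_hm := Hm_pd G hΞh k
      e_lv := Lv_pd G (pdl_lv G hzL l) k
      pd_e := pd_sq G k _
      v_hm := vh
      v_s := vs
      v_lv := vL
      pd_v := pdv
      ev := by rw [ev]; exact hΞR
      he := hre }
  obtain ⟨e1, e2, e3, e4, e5, e6, _, _⟩ := eps'_facts G hE W.ε_unit W.ε_mem W.e_even W.ε_hm W.ε_lv
  obtain ⟨f1, ⟨u1, f2, f2'⟩, ⟨u2, f3, f3'⟩, f4⟩ := hq1 G L k _ v F ε z ψ _ f ed (g - 1) l hE W.F_unit
    W.f_even W.F_hm W.F_lv W.ε_unit W.ε_mem W.e_even W.ε_hm W.ε_lv W.F_pl W.DF W.Dε hl hle hzR hz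
    hψ hDz rfl hcv
  have y1 := hq2 G L k _ v F ε y _ f ed hE W.F_unit W.f_even W.F_hm W.F_lv W.ε_unit W.ε_mem
    W.e_even W.ε_hm W.ε_lv W.F_pl W.y_hm W.y_pl f4
  obtain ⟨y2, y3, y4⟩ := yNew_spec G hk vh pdv vL W.y_hm W.y_lv W.Dy
  refine ⟨v, yNew G k v y, _, hE, ?_, e3⟩
  exact
    { F_unit := rho_unit G vs W.F_unit
      f_even := W.f_even
      F_hm := rho_hm G vh W.F_hm
      F_lv := rho_lv G vs pdv vL W.F_lv
      ε_unit := e1
      ε_mem := e2
      e_even := e5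
      ε_hm := e4
      ε_lv := e6
      y_hm := y3
      y_lv := y4
      Dy := y2
      F_pl := Pl_mono G e2 (Nat.le_add_right _ _) f1
      DF := ⟨u1, Pl_mono G e2 (Nat.le_add_right _ _) f2, f2'⟩
      Dε := ⟨u2, Pl_mono G e2 (Nat.le_add_right _ _) f3, f3'⟩
      y_pl := Pl_mono G e2 (Nat.le_add_left _ _) y1 }

end AnWL
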