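import Pool.Agent.Helper48.WL.W03
import Pool.Agent.Helper48.WL.W05

/-!
W06a. Poles in the child world: `ε' = e^2 * rho ε`, `e = ∂_k Ξ`, `e v = Ξ`.

`he : ∀ r ∈ R, e * rho r ∈ R`. `ε' = e * (e * rho ε)` is regular, even, central, invertible.
(1) `e⁻¹`: `ε' e⁻¹ = e rho ε ∈ R`. (2) `(rho ε)⁻¹`: `ε' (rho ε)⁻¹ = e² ∈ R`.
(3) `r ∈ R`: `ε' rho r = (e rho ε)(e rho r) ∈ R`. (4) `Pl ε q w` ⟹ `Pl ε' (q+1) (rho w)`:
`ε'^(q+1) rho w = (ε' (rho ε)⁻¹)^q (ε' rho (ε^q w))`, since `rho (ε^q w) = (rho ε)^q rho w`.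
(5) `Pl ε q w` ⟹ `Pl ε' (q+2) (∂_k w)`: `rho (∂_k w) = ∂_k w` (`rho_pd`), `Pl_pd`, (4).
(6) `Pl ε' 1 v`: `ε' v = (e rho ε) Ξ`.
-/

set_option autoImplicit false

namespace AnWL
variable {M : Type} {xd : M → ℤ} {N : ℕ} (G : GA M xd N)

/-- The data of an elimination: `v` odd of degree `xd k`, `∂_k v = 1`, `e` invertible, even, regular, in
`I`, independent of `X_k`, `e v` regular, `e * rho r` regular for regular `r`. -/
structure Elim [DecidableEq M] (G : GA M xd N) (L : Finset M) (k : M) (e v : G.A) (g : ℤ) : Prop where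
  mem_L : k ∈ L
  e_unit : IsUnit e
  e_R : e ∈ G.R
  e_I : e ∈ G.I
  g_even : Even g
  e_hm : e ∈ G.Hm g
  e_lv : G.Lv L e
  pd_e : G.pd k e = 0
  v_hm : v ∈ G.Hm (xd k)
  v_s : G.s v = -v
  v_lv : G.Lv L v
  pd_v : G.pd k v = 1
  ev : e * v ∈ G.R
  he : ∀ r ∈ G.R, e * G.rho k v r ∈ G.R

variable [DecidableEq M] {L : Finset M} {k : M} {e v ε : G.A} {g ed : ℤ}

private theorem e_comm (h : Elim G L k e v g) (a : G.A) : e * a = a * e :=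
  Hm_comm G h.g_even h.e_hm a

private theorem r_comm (h : Elim G L k e v g) (hed : Even ed) (hh : ε ∈ G.Hm ed) (a : G.A) :
    G.rho k v ε * a = a * G.rho k v ε :=
  Hm_comm G hed (rho_hm G h.v_hm hh) a

theorem eps'_facts (h : Elim G L k e v g) (hu : IsUnit ε) (hR : ε ∈ G.R) (hed : Even ed)
    (hh : ε ∈ G.Hm ed) (hL : G.Lv L ε) :
    IsUnit (e ^ 2 * G.rho k v ε) ∧ e ^ 2 * G.rho k v ε ∈ G.R ∧ e ^ 2 * G.rho k v ε ∈ G.I ∧
    e ^ 2 * G.rho k v ε ∈ G.Hm (2 * g + ed) ∧ Even (2 * g + ed) ∧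
    G.Lv (L.erase k) (e ^ 2 * G.rho k v ε) ∧
    (∀ a, (e ^ 2 * G.rho k v ε) * a = a * (e ^ 2 * G.rho k v ε)) ∧
    (∀ b, e * b = 1 → G.Pl (e ^ 2 * G.rho k v ε) 1 b) := by
  have h1 : e ^ 2 * G.rho k v ε = e * (e * G.rho k v ε) := by rw [pow_two, mul_assoc]
  have h2 : e * G.rho k v ε ∈ G.R := h.he ε hR
  have h3 : Even (2 * g + ed) := (even_two_mul g).add hed
  have h4 : e ^ 2 * G.rho k v ε ∈ G.Hm (2 * g + ed) := by
    have h5 := Hm_mul G (Hm_pow G h.e_hm 2) (rho_hm G h.v_hm hh)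
    push_cast at h5
    exact h5
  refine ⟨(h.e_unit.pow 2).mul (rho_unit G h.v_s hu), ?_, ?_, h4, h3, ?_,
    fun a => Hm_comm G h3 h4 a, ?_⟩
  · rw [h1]
    exact G.R.mul_mem h.e_R h2
  · rw [h1]
    exact G.I_mul e h.e_I _ h2
  · exact Lv_mul G (Lv_pow G (Lv_erase G h.e_lv h.pd_e) 2)
      (rho_lv G h.v_s h.pd_v h.v_lv hL)
  · intro b hb
    unfold GA.Pl
    have h5 : (e ^ 2 * G.rho k v ε) ^ 1 * b = e * G.rho k v ε := by
      rw [pow_one, h1, e_comm G h (e * G.rho k v ε), mul_assoc, hb, mul_one]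
    rw [h5]
    exact h2

theorem Pl_rho (h : Elim G L k e v g) (hu : IsUnit ε) (hR : ε ∈ G.R) (hed : Even ed)
    (hh : ε ∈ G.Hm ed) (hL : G.Lv L ε) {q : ℕ} {w : G.A} (hw : G.Pl ε q w) :
    G.Pl (e ^ 2 * G.rho k v ε) (q + 1) (G.rho k v w) := by
  unfold GA.Pl at hw ⊢
  have h1 : e * G.rho k v (ε ^ q * w) ∈ G.R := h.he _ hw
  have h2 : e * G.rho k v ε ∈ G.R := h.he ε hR
  rw [rho_mul G h.v_s, rho_pow G h.v_s] at h1
  have hc : ∀ a, G.rho k v ε * a = a * G.rho k v ε := r_comm G h hed hh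
  have h3 : (e ^ 2 * G.rho k v ε) ^ (q + 1) * G.rho k v w =
      (e ^ 2) ^ q * ((e * G.rho k v ε) * (e * (G.rho k v ε ^ q * G.rho k v w))) := by
    have h4 : Commute (e ^ 2) (G.rho k v ε) := (hc (e ^ 2)).symm
    rw [h4.mul_pow, pow_succ (e ^ 2) q, pow_succ' (G.rho k v ε) q]
    simp only [mul_assoc]
    rw [← mul_assoc (G.rho k v ε) e, hc e, pow_two]
    simp only [mul_assoc]
  rw [h3]
  exact G.R.mul_mem (G.R.pow_mem (G.R.pow_mem h.e_R 2) q) (G.R.mul_mem h2 h1)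

theorem Pl_pd' (h : Elim G L k e v g) (hu : IsUnit ε) (hR : ε ∈ G.R) (hed : Even ed)
    (hh : ε ∈ G.Hm ed) (hL : G.Lv L ε) {q : ℕ} {w : G.A} (hw : G.Pl ε q w) :
    G.Pl (e ^ 2 * G.rho k v ε) (q + 2) (G.pd k w) := by
  have h1 := Pl_rho G h hu hR hed hh hL (Pl_pd G hR (Hm_s_even G hed hh) hw k)
  rwa [rho_pd] at h1

theorem Pl_v (h : Elim G L k e v g) (hu : IsUnit ε) (hR : ε ∈ G.R) (hed : Even ed)
    (hh : ε ∈ G.Hm ed) (hL : G.Lv L ε) : G.Pl (e ^ 2 * G.rho k v ε) 1 v := by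
  unfold GA.Pl
  have hc : ∀ a, G.rho k v ε * a = a * G.rho k v ε := r_comm G h hed hh
  have h1 : (e ^ 2 * G.rho k v ε) ^ 1 * v = (e * G.rho k v ε) * (e * v) := by
    rw [pow_one, pow_two, mul_assoc, mul_assoc, mul_assoc, ← mul_assoc (G.rho k v ε) e, hc e,
      mul_assoc]
  rw [h1]
  exact G.R.mul_mem (h.he ε hR) h.ev

end AnWL
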