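import Pool.Agent.Helper48.WL.W06a

/-!
W06b. The child world: `F' = rho F`, `ε' = e^2 * rho ε`.

Setting: `Ξ = pdl l z`, `|l|` even, `e = ∂_k Ξ`, `D z = F^M ψ`, `ψ` regular, `|l| + 1 ≤ n`, `d' + n ≤ M`,
`d' ≤ d`. `hcv : e * D v = rho (D Ξ)`.
(1) `D Ξ = pdl l (D z)` (`pdl_D`) `= F^(M-|l|) χ`, `Pl ε (|l|(q+1)) χ` (`pdl_pow`, `p = 0`). So
`c = D v = e⁻¹ rho (D Ξ) = F'^d' γ`, `γ = e⁻¹ F'^(M-|l|-d') rho χ`; pole order along `ε'` at most
`pγ = 1 + M (q+1) + (n (q+1) + 1)` (`Pl_rho`, `Pl_pow`, `Pl_mul`, `Pl_mono`).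
(2) `D e = -pdl (k :: l) (D z) = -F^(M-|l|-1) χ₂`; `∂_k (D e) = -D ∂_k e = 0`, so
`D e = rho (D e) = -F'^(M-|l|-1) rho χ₂ = F'^d' (..)`, pole order at most `M (q+1) + (n (q+1) + 1)`.
(3) `D F' = rho (D F) - c ∂_k F` (`D_rho`) `= F'^d' (F'^(d-d') rho u - γ ∂_k F)`.
(4) `D ε' = 2 e D e rho ε + e² (rho (D ε) - c ∂_k ε)`: `e rho ε ∈ R`, `e ∈ R`, `∂_k ε ∈ R`.
Take `q'` = the sum of all the pole orders which occur. `F'` commutes with everything.
-/

set_option autoImplicit false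

namespace AnWL
variable {M : Type} {xd : M → ℤ} {N : ℕ}

theorem child_F [DecidableEq M] (n d q T d' : ℕ) (hd : d' ≤ d) (hT : d' + n ≤ T) :
    ∃ q' : ℕ, ∀ (G : GA M xd N) (L : Finset M) (k : M) (e v F ε z ψ : G.A) (g f ed gz : ℤ)
      (l : List M), Elim G L k e v g → IsUnit F → Even f → F ∈ G.Hm f → G.Lv L F →
      IsUnit ε → ε ∈ G.R → Even ed → ε ∈ G.Hm ed → G.Lv L ε → G.Pl ε q F →
      (∃ u, G.Pl ε q u ∧ G.D F = F ^ d * u) → (∃ u, G.Pl ε q u ∧ G.D ε = F ^ d * u) →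
      l.length + 1 ≤ n → Even l.length → z ∈ G.R → z ∈ G.Hm gz → ψ ∈ G.R →
      G.D z = F ^ T * ψ → e = G.pd k (G.pdl l z) → e * G.D v = G.rho k v (G.D (G.pdl l z)) →
      G.Pl (e ^ 2 * G.rho k v ε) q' (G.rho k v F) ∧
      (∃ u, G.Pl (e ^ 2 * G.rho k v ε) q' u ∧ G.D (G.rho k v F) = G.rho k v F ^ d' * u) ∧
      (∃ u, G.Pl (e ^ 2 * G.rho k v ε) q' u ∧
        G.D (e ^ 2 * G.rho k v ε) = G.rho k v F ^ d' * u) ∧
      (∃ u, G.Pl (e ^ 2 * G.rho k v ε) q' u ∧ G.D v = G.rho k v F ^ d' * u) := by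
  refine ⟨(1 + T * (q + 1) + (n * (q + 1) + 1)) + d * (q + 1) + (q + 1) + (q + 2) +
    (T * (q + 1) + (n * (q + 1) + 1)) + 10, ?_⟩
  intro G L k e v F ε z ψ g f ed gz l hE _hFu hf hF _hFL hεu hεR hed hε hεL hFq hDF hDε hln hle
    _hzR _hz hψ hDz hedef hcv
  obtain ⟨u, hu, hDF⟩ := hDF
  obtain ⟨u', hu', hDε⟩ := hDε
  obtain ⟨_, hε'R, _, _, _, _, hε'c, hinv⟩ := eps'_facts G hE hεu hεR hed hε hεL
  obtain ⟨ub, hub⟩ := hE.e_unit
  have heb : e * ((ub⁻¹ : G.Aˣ) : G.A) = 1 := by rw [← hub, Units.mul_inv]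
  have hbe : ((ub⁻¹ : G.Aˣ) : G.A) * e = 1 := by rw [← hub, Units.inv_mul]
  have hb := hinv _ heb
  have hrhoPl : ∀ {q : ℕ} {w : G.A}, G.Pl ε q w →
      G.Pl (e ^ 2 * G.rho k v ε) (q + 1) (G.rho k v w) :=
    fun hw => Pl_rho G hE hεu hεR hed hε hεL hw
  have hpdF := Pl_pd' G hE hεu hεR hed hε hεL hFq
  generalize ((ub⁻¹ : G.Aˣ) : G.A) = b at heb hbe hb
  have hvs := hE.v_s
  have hF' : G.rho k v F ∈ G.Hm f := rho_hm G hE.v_hm hF
  have hl1 : l.length ≤ T := by omega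
  have hl2 : (k :: l).length ≤ T := by rw [List.length_cons]; omega
  obtain ⟨χ, hχ1, hχ2⟩ := pdl_pow G hεR hed hε hf hF hFq (Pl_zero G |>.2 hψ : G.Pl ε 0 ψ) l hl1
  obtain ⟨χ₂, hχ3, hχ4⟩ :=
    pdl_pow G hεR hed hε hf hF hFq (Pl_zero G |>.2 hψ : G.Pl ε 0 ψ) (k :: l) hl2
  have hDΞ : G.D (G.pdl l z) = G.pdl l (G.D z) := by
    rw [pdl_D, Even.neg_one_pow hle, one_smul]
  have hDe : G.D e = -(F ^ (T - (l.length + 1)) * χ₂) := by
    have h1 : G.pd k (G.D (G.pdl l z)) = -G.D (G.pd k (G.pdl l z)) := G.pd_D k _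
    rw [← hedef, hDΞ] at h1
    have h2 : G.pd k (G.pdl l (G.D z)) = G.pdl (k :: l) (G.D z) := rfl
    rw [h2, hDz, hχ3, List.length_cons] at h1
    rw [h1, neg_neg]
  -- generalise
  have hFpl : G.Pl (e ^ 2 * G.rho k v ε) (q + 1) (G.rho k v F) := hrhoPl hFq
  have hcent : ∀ x, G.rho k v F * x = x * G.rho k v F := fun x => Hm_comm G hf hF' x
  have hcp : ∀ (j : ℕ) (x : G.A), G.rho k v F ^ j * x = x * G.rho k v F ^ j := by
    intro j x
    exact (Commute.pow_left (hcent x) j).eq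
  have hDe' : G.D e = -(G.rho k v F ^ (T - (l.length + 1)) * G.rho k v χ₂) := by
    have h0 : G.pd k (G.D e) = 0 := by
      rw [G.pd_D, hE.pd_e, map_zero, neg_zero]
    have h1 : G.rho k v (G.D e) = G.D e := rho_of_pd G h0
    have h2 : G.rho k v (-(F ^ (T - (l.length + 1)) * χ₂)) =
        -(G.rho k v F ^ (T - (l.length + 1)) * G.rho k v χ₂) := by
      rw [← neg_one_smul ℚ (F ^ (T - (l.length + 1)) * χ₂), rho_smul, rho_mul G hvs,
        rho_pow G hvs, neg_one_smul]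
    rw [← h2, ← hDe, h1]
  have hDe2 : G.D e = G.rho k v F ^ d' *
      -(G.rho k v F ^ (T - (l.length + 1) - d') * G.rho k v χ₂) := by
    rw [hDe', mul_neg, ← mul_assoc, ← pow_add,
      show d' + (T - (l.length + 1) - d') = T - (l.length + 1) by omega]
  have hDv : G.D v = G.rho k v F ^ d' *
      (b * (G.rho k v F ^ (T - l.length - d') * G.rho k v χ)) := by
    have h1 : G.D v = b * (e * G.D v) := by rw [← mul_assoc, hbe, one_mul]
    have h2 : G.rho k v F ^ d' * (b * (G.rho k v F ^ (T - l.length - d') * G.rho k v χ)) =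
        b * (G.rho k v F ^ (T - l.length) * G.rho k v χ) := by
      rw [← mul_assoc (G.rho k v F ^ d') b, hcp d' b, mul_assoc b,
        ← mul_assoc (G.rho k v F ^ d') (G.rho k v F ^ (T - l.length - d')), ← pow_add,
        show d' + (T - l.length - d') = T - l.length by omega]
    rw [h2, h1, hcv, hDΞ, hDz, hχ1, rho_mul G hvs, rho_pow G hvs]
  -- pole orders
  have hn1 : (T - l.length - d') * (q + 1) ≤ T * (q + 1) :=
    Nat.mul_le_mul_right _ (by omega)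
  have hn2 : (T - (l.length + 1) - d') * (q + 1) ≤ T * (q + 1) :=
    Nat.mul_le_mul_right _ (by omega)
  have hn3 : l.length * (q + 1) ≤ n * (q + 1) := Nat.mul_le_mul_right _ (by omega)
  have hn4 : (l.length + 1) * (q + 1) ≤ n * (q + 1) := Nat.mul_le_mul_right _ (by omega)
  have hn5 : (d - d') * (q + 1) ≤ d * (q + 1) := Nat.mul_le_mul_right _ (by omega)
  rw [List.length_cons] at hχ4
  have hγ : G.Pl (e ^ 2 * G.rho k v ε) (1 + T * (q + 1) + (n * (q + 1) + 1))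
      (b * (G.rho k v F ^ (T - l.length - d') * G.rho k v χ)) := by
    refine Pl_mono G hε'R ?_ (Pl_mul G hε'c hb
      (Pl_mul G hε'c (Pl_pow G hε'c hFpl (T - l.length - d')) (hrhoPl hχ2)))
    omega
  have hδ : G.Pl (e ^ 2 * G.rho k v ε) (T * (q + 1) + (n * (q + 1) + 1))
      (-(G.rho k v F ^ (T - (l.length + 1) - d') * G.rho k v χ₂)) := by
    have h0 : G.Pl (e ^ 2 * G.rho k v ε) (T * (q + 1) + (n * (q + 1) + 1))
        (G.rho k v F ^ (T - (l.length + 1) - d') * G.rho k v χ₂) := by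
      refine Pl_mono G hε'R ?_
        (Pl_mul G hε'c (Pl_pow G hε'c hFpl (T - (l.length + 1) - d')) (hrhoPl hχ4))
      omega
    have h1 := Pl_smul G (-1 : ℚ) h0
    rwa [neg_one_smul] at h1
  generalize b * (G.rho k v F ^ (T - l.length - d') * G.rho k v χ) = γ at hDv hγ
  generalize -(G.rho k v F ^ (T - (l.length + 1) - d') * G.rho k v χ₂) = δ at hDe2 hδ
  have hFd : G.rho k v F ^ d = G.rho k v F ^ d' * G.rho k v F ^ (d - d') := by
    rw [← pow_add, show d' + (d - d') = d by omega]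
  refine ⟨Pl_mono G hε'R (by omega) hFpl, ?_, ?_, ⟨γ, Pl_mono G hε'R (by omega) hγ, hDv⟩⟩
  · refine ⟨G.rho k v F ^ (d - d') * G.rho k v u - γ * G.pd k F, ?_, ?_⟩
    · refine Pl_sub G ?_ ?_
      · refine Pl_mono G hε'R ?_ (Pl_mul G hε'c (Pl_pow G hε'c hFpl (d - d')) (hrhoPl hu))
        omega
      · refine Pl_mono G hε'R ?_ (Pl_mul G hε'c hγ hpdF)
        omega
    · rw [D_rho G hvs, hDF, rho_mul G hvs, rho_pow G hvs, hDv, hFd, mul_sub]
      simp only [mul_assoc]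
  · refine ⟨(2 : ℚ) • (e * δ * G.rho k v ε) +
      e ^ 2 * (G.rho k v F ^ (d - d') * G.rho k v u' - γ * G.pd k ε), ?_, ?_⟩
    · refine Pl_add G (Pl_smul G _ ?_) ?_
      · refine Pl_mono G hε'R ?_ (Pl_mul G hε'c (Pl_mul G hε'c (Pl_of_mem G hε'R 0 hE.e_R) hδ)
          (hrhoPl (Pl_of_mem G hεR 0 hεR)))
        omega
      · have he2 : e ^ 2 ∈ G.R := pow_mem hE.e_R 2
        have h3 : G.Pl (e ^ 2 * G.rho k v ε) (d * (q + 1) + (q + 1) +
            (1 + T * (q + 1) + (n * (q + 1) + 1)))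
            (G.rho k v F ^ (d - d') * G.rho k v u' - γ * G.pd k ε) := by
          refine Pl_sub G ?_ ?_
          · refine Pl_mono G hε'R ?_ (Pl_mul G hε'c (Pl_pow G hε'c hFpl (d - d')) (hrhoPl hu'))
            omega
          · refine Pl_mono G hε'R ?_
              (Pl_mul G hε'c hγ (Pl_of_mem G hε'R 0 (G.pd_mem k ε hεR)))
            omega
        refine Pl_mono G hε'R ?_ (Pl_mul G hε'c (Pl_of_mem G hε'R 0 he2) h3)
        omega
    · have hse : G.s e = e := Hm_s_even G hE.g_even hE.e_hm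
      have hDe3 : G.D (e ^ 2) = (2 : ℚ) • (e * G.D e) := by
        have := D_pow G hse 1
        simpa using this
      have hDρ : G.D (G.rho k v ε) = G.rho k v F ^ d' *
          (G.rho k v F ^ (d - d') * G.rho k v u' - γ * G.pd k ε) := by
        rw [D_rho G hvs, hDε, rho_mul G hvs, rho_pow G hvs, hDv, hFd, mul_sub]
        simp only [mul_assoc]
      have h5 : e ^ 2 * (G.rho k v F ^ d' *
          (G.rho k v F ^ (d - d') * G.rho k v u' - γ * G.pd k ε)) = G.rho k v F ^ d' *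
          (e ^ 2 * (G.rho k v F ^ (d - d') * G.rho k v u' - γ * G.pd k ε)) := by
        rw [← mul_assoc, ← hcp d' (e ^ 2), mul_assoc]
      have h6 : e * (G.rho k v F ^ d' * δ) * G.rho k v ε =
          G.rho k v F ^ d' * (e * δ * G.rho k v ε) := by
        rw [← mul_assoc e, ← hcp d' e]
        simp only [mul_assoc]
      rw [G.D_mul, hDe3, map_pow, hse, hDρ, h5, hDe2, smul_mul_assoc, h6, mul_add,
        mul_smul_comm]

end AnWL
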