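import Pool.Agent.Helper48.WL.W04
import Pool.Agent.Helper48.WL.W06b

/-!
W06c. The contraction of the child world.

`y₁ = ∂_k y`: from `w = F^m y`: `∂_k w = m F^(m-1) ∂_k F y + F^m y₁`, so
`F^(m+1) y₁ = F ∂_k w - m ∂_k F w`; `Pl ε (2q+1) (F^(m+1) y₁)`. `rho y₁ = y₁` (`rho_pd`), so
`F'^(m+1) y₁ = rho (F^(m+1) y₁)` has pole order `≤ 2q+2` along `ε'` (`Pl_rho`). `F'^m rho y = rho (F^m y)`:
`q+1`. `F'`: `q+1`. `c = D v = F'^d' u`, `Pl ε' q' u`: pole order `pc = d'(q+1) + q'`. `v`: `1` (`Pl_v`).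
`X k`, `Y k`, `D (X k)` regular. With `m' = m + N (m+1)`:
`F'^m' rho y (c y₁)^i = F'^(m'-m-i(m+1)) (F'^m rho y) c^i (F'^(m+1) y₁)^i` (`i ≤ N`), and
`F'^m' (Y k - (X k - v) Σ c^i a^(N-1-i)) y₁^N = F'^m (..) (F'^(m+1) y₁)^N`.
Everything except `y`, `v`, `X`, `Y` is even, hence central. Take `q''` = the sum of all orders.
-/

set_option autoImplicit false

namespace AnWL
variable {M : Type} {xd : M → ℤ} {N : ℕ}

theorem child_y [DecidableEq M] (m q d' q' : ℕ) :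
    ∃ m' q'' : ℕ, ∀ (G : GA M xd N) (L : Finset M) (k : M) (e v F ε y : G.A) (g f ed : ℤ),
      Elim G L k e v g → IsUnit F → Even f → F ∈ G.Hm f → G.Lv L F →
      IsUnit ε → ε ∈ G.R → Even ed → ε ∈ G.Hm ed → G.Lv L ε → G.Pl ε q F →
      y ∈ G.Hm (-1) → G.Pl ε q (F ^ m * y) →
      (∃ u, G.Pl (e ^ 2 * G.rho k v ε) q' u ∧ G.D v = G.rho k v F ^ d' * u) →
      G.Pl (e ^ 2 * G.rho k v ε) q'' (G.rho k v F ^ m' * yNew G k v y) := by
  refine ⟨m + N * (m + 1), (m + N * (m + 1)) * (q + 1) + (q + 1) + N * (d' * (q + 1) + q') +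
    N * (2 * q + 3) + 1, ?_⟩
  intro G L k e v F ε y g f ed hE _hFu hf hF _hFL hεu hεR hed hε hεL hFq hy hyq hDv
  obtain ⟨u, hu, hDv⟩ := hDv
  obtain ⟨_, hε'R, _, _, _, _, hε'c, _⟩ := eps'_facts G hE hεu hεR hed hε hεL
  have hrhoPl : ∀ {q : ℕ} {w : G.A}, G.Pl ε q w →
      G.Pl (e ^ 2 * G.rho k v ε) (q + 1) (G.rho k v w) :=
    fun hw => Pl_rho G hE hεu hεR hed hε hεL hw
  have hpdF := Pl_pd' G hE hεu hεR hed hε hεL hFq
  have hpdw := Pl_pd' G hE hεu hεR hed hε hεL hyq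
  have hvPl := Pl_v G hE hεu hεR hed hε hεL
  have hvs := hE.v_s
  have hF' : G.rho k v F ∈ G.Hm f := rho_hm G hE.v_hm hF
  have hcent : ∀ x, G.rho k v F * x = x * G.rho k v F := fun x => Hm_comm G hf hF' x
  have hFc : ∀ x, F * x = x * F := fun x => Hm_comm G hf hF x
  have hFs : G.s F = F := Hm_s_even G hf hF
  have hev : Even (xd k + 1) := (G.xd_odd k).add_one
  have hev2 : Even (-1 - xd k) := by
    have h := hev.neg
    have h2 : -(xd k + 1) = -1 - xd k := by ring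
    rwa [h2] at h
  have hcc : ∀ x, G.D v * x = x * G.D v := fun x => Hm_comm G hev (Hm_D G hE.v_hm) x
  have hyc : ∀ x, G.pd k y * x = x * G.pd k y := fun x => Hm_comm G hev2 (Hm_pd G hy k) x
  have hFpl : G.Pl (e ^ 2 * G.rho k v ε) (q + 1) (G.rho k v F) := hrhoPl hFq
  -- the pole order of `y₁`
  have e1 : F * G.pd k (F ^ m * y) =
      (m : ℚ) • (G.pd k F * (F ^ m * y)) + F ^ (m + 1) * G.pd k y := by
    cases m with
    | zero => simp
    | succ j =>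
      rw [G.pd_mul, pd_pow G k hFs j, map_pow, hFs, mul_add, smul_mul_assoc, mul_smul_comm,
        ← mul_assoc F (F ^ (j + 1)), ← pow_succ']
      congr 2
      rw [← mul_assoc, ← mul_assoc, ← pow_succ', mul_assoc, ← mul_assoc (G.pd k F),
        (Commute.pow_left (hFc (G.pd k F)) (j + 1)).eq.symm, mul_assoc]
  have e2 : G.rho k v F ^ (m + 1) * G.pd k y = G.rho k v F * G.pd k (F ^ m * y) -
      (m : ℚ) • (G.pd k F * G.rho k v (F ^ m * y)) := by
    have h := congrArg (G.rho k v) e1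
    rw [rho_add, rho_smul, rho_mul G hvs, rho_mul G hvs, rho_mul G hvs (F ^ (m + 1)), rho_pd,
      rho_pd, rho_pd, rho_pow G hvs] at h
    rw [h]
    abel
  have hy1 : G.Pl (e ^ 2 * G.rho k v ε) (2 * q + 3) (G.rho k v F ^ (m + 1) * G.pd k y) := by
    rw [e2]
    refine Pl_sub G ?_ (Pl_smul G _ ?_)
    · refine Pl_mono G hε'R ?_ (Pl_mul G hε'c hFpl hpdw)
      omega
    · refine Pl_mono G hε'R ?_ (Pl_mul G hε'c hpdF (hrhoPl hyq))
      omega
  have hy0 : G.Pl (e ^ 2 * G.rho k v ε) (q + 1) (G.rho k v F ^ m * G.rho k v y) := by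
    have h := hrhoPl hyq
    rwa [rho_mul G hvs, rho_pow G hvs] at h
  have hc : G.Pl (e ^ 2 * G.rho k v ε) (d' * (q + 1) + q') (G.D v) := by
    rw [hDv]
    exact Pl_mul G hε'c (Pl_pow G hε'c hFpl d') hu
  have hX : G.Pl (e ^ 2 * G.rho k v ε) 1 (G.X k) := Pl_of_mem G hε'R 1 (G.X_mem k)
  have hYk : G.Pl (e ^ 2 * G.rho k v ε) (1 + N * (d' * (q + 1) + q')) (G.Y k) :=
    Pl_of_mem G hε'R _ (G.Y_mem k)
  have hDX : G.Pl (e ^ 2 * G.rho k v ε) 0 (G.D (G.X k)) :=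
    Pl_of_mem G hε'R 0 (G.D_mem _ (G.X_mem k))
  unfold yNew
  generalize e ^ 2 * G.rho k v ε = ε' at *
  generalize G.rho k v F = F' at *
  generalize G.rho k v y = y0 at *
  generalize G.pd k y = y1 at *
  generalize G.D v = c at *
  generalize G.D (G.X k) = a at *
  generalize G.X k = X at *
  generalize G.Y k = Y at *
  have hcp : ∀ (j : ℕ) (x : G.A), F' ^ j * x = x * F' ^ j := by
    intro j x
    exact (Commute.pow_left (hcent x) j).eq
  have hFy : ∀ i : ℕ, (F' ^ (m + 1) * y1) ^ i = F' ^ (i * (m + 1)) * y1 ^ i := by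
    intro i
    have h : Commute (F' ^ (m + 1)) y1 := hcp (m + 1) y1
    rw [h.mul_pow, ← pow_mul, mul_comm (m + 1) i]
  rw [mul_add (F' ^ (m + N * (m + 1)))]
  refine Pl_add G ?_ ?_
  · rw [Finset.mul_sum, Finset.mul_sum]
    refine Pl_sum G _ _ fun i hi => ?_
    have hi' : i < N := Finset.mem_range.1 hi
    have hle : m + i * (m + 1) ≤ m + N * (m + 1) :=
      Nat.add_le_add_left (Nat.mul_le_mul_right _ hi'.le) _
    obtain ⟨r, hr⟩ := Nat.exists_eq_add_of_le hle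
    have h3 : F' ^ (m + N * (m + 1)) * (y0 * (c * y1) ^ i) =
        F' ^ r * ((F' ^ m * y0) * (c ^ i * (F' ^ (m + 1) * y1) ^ i)) := by
      have hcy : Commute c y1 := hcc y1
      have k1 : c ^ i * (F' ^ (i * (m + 1)) * y1 ^ i) = F' ^ (i * (m + 1)) * (c ^ i * y1 ^ i) := by
        rw [← mul_assoc, ← hcp (i * (m + 1)) (c ^ i), mul_assoc]
      have k2 : F' ^ m * y0 * (F' ^ (i * (m + 1)) * (c ^ i * y1 ^ i)) =
          F' ^ m * (F' ^ (i * (m + 1)) * (y0 * (c ^ i * y1 ^ i))) := by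
        rw [mul_assoc, ← mul_assoc y0, ← hcp (i * (m + 1)) y0, mul_assoc]
      rw [hcy.mul_pow, hFy, hr, k1, k2, ← mul_assoc (F' ^ m), ← pow_add, ← mul_assoc (F' ^ r),
        ← pow_add, add_comm r]
    rw [h3]
    refine Pl_mono G hε'R ?_ (Pl_mul G hε'c (Pl_pow G hε'c hFpl r) (Pl_mul G hε'c hy0
      (Pl_mul G hε'c (Pl_pow G hε'c hc i) (Pl_pow G hε'c hy1 i))))
    have b1 : r * (q + 1) ≤ (m + N * (m + 1)) * (q + 1) :=
      Nat.mul_le_mul_right _ (by omega)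
    have b2 : i * (d' * (q + 1) + q') ≤ N * (d' * (q + 1) + q') :=
      Nat.mul_le_mul_right _ hi'.le
    have b3 : i * (2 * q + 3) ≤ N * (2 * q + 3) := Nat.mul_le_mul_right _ hi'.le
    omega
  · have h3 : F' ^ (m + N * (m + 1)) *
        ((Y - (X - v) * ∑ i ∈ Finset.range N, c ^ i * a ^ (N - 1 - i)) * y1 ^ N) =
        F' ^ m * ((Y - (X - v) * ∑ i ∈ Finset.range N, c ^ i * a ^ (N - 1 - i)) *
          (F' ^ (m + 1) * y1) ^ N) := by
      rw [hFy, pow_add, mul_assoc, ← mul_assoc (F' ^ (N * (m + 1))), hcp (N * (m + 1)), mul_assoc]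
    rw [h3]
    have hS : G.Pl ε' (N * (d' * (q + 1) + q'))
        (∑ i ∈ Finset.range N, c ^ i * a ^ (N - 1 - i)) := by
      refine Pl_sum G _ _ fun i hi => ?_
      have hi' : i < N := Finset.mem_range.1 hi
      have b2 : i * (d' * (q + 1) + q') ≤ N * (d' * (q + 1) + q') :=
        Nat.mul_le_mul_right _ hi'.le
      refine Pl_mono G hε'R ?_
        (Pl_mul G hε'c (Pl_pow G hε'c hc i) (Pl_pow G hε'c hDX (N - 1 - i)))
      omega
    refine Pl_mono G hε'R ?_ (Pl_mul G hε'c (Pl_pow G hε'c hFpl m)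
      (Pl_mul G hε'c (Pl_sub G hYk (Pl_mul G hε'c (Pl_sub G hX hvPl) hS)) (Pl_pow G hε'c hy1 N)))
    have b1 : m * (q + 1) ≤ (m + N * (m + 1)) * (q + 1) :=
      Nat.mul_le_mul_right _ (by omega)
    omega

end AnWL
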