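import Pool.Agent.Helper48.WL.W01

/-!
W09. The flat system: algebra.

`u₁`, `u₂` invertible homogeneous of even degree (hence central), `x i j = u₁^(p-i) u₂^(r-j)`, `h₁ = D u₁`,
`h₂ = D u₂` (odd, closed), `S i j = x i j + (p-i) h₁ W (i+1) j + (r-j) h₂ W i (j+1)`.
(1) `D (x i j) = (p-i) h₁ x (i+1) j + (r-j) h₂ x i (j+1)`: `D_zpow`, `D_mul`.
(2) `D (S i j) = 0` if `D W (i+1) j = S (i+1) j`, `D W i (j+1) = S i (j+1)`: `D (h W) = -h D W` (`h` odd closed):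
`D S = (p-i) h₁ x(i+1) j + (r-j) h₂ x i (j+1) - (p-i) h₁ [x (i+1) j + (p-i-1) h₁ W(i+2) j + (r-j) h₂ W (i+1)(j+1)]
 - (r-j) h₂ [x i (j+1) + (p-i) h₁ W (i+1)(j+1) + (r-j-1) h₂ W i (j+2)]`, `h₁ h₁ = 0 = h₂ h₂`, `h₁ h₂ = -h₂ h₁`.
(3) `W = y x` satisfies `D W i j = S i j` (`D y = 1`, `y` odd, `h y = -y h`).
-/

set_option autoImplicit false

namespace AnWL
variable {M : Type} {xd : M → ℤ} {N : ℕ} (G : GA M xd N)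

/-- `x i j = u₁^(p-i) u₂^(r-j)`. -/
noncomputable def fx (G : GA M xd N) (u₁ u₂ : G.Aˣ) (p r : ℤ) (i j : ℕ) : G.A :=
  ((u₁ ^ (p - i) * u₂ ^ (r - j) : G.Aˣ) : G.A)

/-- The source `S i j`. -/
noncomputable def fS (G : GA M xd N) (u₁ u₂ : G.Aˣ) (p r : ℤ) (W : ℕ → ℕ → G.A) (i j : ℕ) : G.A :=
  fx G u₁ u₂ p r i j + ((p - i : ℤ) : ℚ) • (G.D u₁ * W (i + 1) j) +
    ((r - j : ℤ) : ℚ) • (G.D u₂ * W i (j + 1))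

variable {g₁ g₂ : ℤ} (u₁ u₂ : G.Aˣ) (p r : ℤ)

theorem fx_D (hg₁ : Even g₁) (hg₂ : Even g₂) (h₁ : (u₁ : G.A) ∈ G.Hm g₁)
    (h₂ : (u₂ : G.A) ∈ G.Hm g₂) (i j : ℕ) :
    G.D (fx G u₁ u₂ p r i j) = ((p - i : ℤ) : ℚ) • (G.D u₁ * fx G u₁ u₂ p r (i + 1) j) +
      ((r - j : ℤ) : ℚ) • (G.D u₂ * fx G u₁ u₂ p r i (j + 1)) := by
  have c₁ : ∀ k : ℤ, G.s ((u₁ ^ k : G.Aˣ) : G.A) = ((u₁ ^ k : G.Aˣ) : G.A) := fun k =>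
    Hm_s_even G (hg₁.mul_left k) (zpow_even G hg₁ u₁ h₁ k)
  have c₂ : ∀ k : ℤ, G.s ((u₂ ^ k : G.Aˣ) : G.A) = ((u₂ ^ k : G.Aˣ) : G.A) := fun k =>
    Hm_s_even G (hg₂.mul_left k) (zpow_even G hg₂ u₂ h₂ k)
  have e1 : (p - ((i + 1 : ℕ) : ℤ)) = p - i - 1 := by push_cast; ring
  have e2 : (r - ((j + 1 : ℕ) : ℤ)) = r - j - 1 := by push_cast; ring
  unfold fx
  rw [e1, e2]
  simp only [Units.val_mul]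
  rw [G.D_mul, c₁, D_zpow G hg₁ u₁ h₁, D_zpow G hg₂ u₂ h₂, smul_mul_assoc, mul_smul_comm]
  have a1 := G.even_comm _ (G.D u₁) (c₁ (p - i - 1))
  have a2 : ((u₁ ^ (p - i) : G.Aˣ) : G.A) * (((u₂ ^ (r - j - 1) : G.Aˣ) : G.A) * G.D u₂) =
      G.D u₂ * (((u₁ ^ (p - i) : G.Aˣ) : G.A) * ((u₂ ^ (r - j - 1) : G.Aˣ) : G.A)) := by
    rw [← mul_assoc]
    exact G.even_comm _ _ (by rw [map_mul, c₁, c₂])
  rw [a1, a2, mul_assoc]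

theorem fx_hm (hg₁ : Even g₁) (hg₂ : Even g₂) (h₁ : (u₁ : G.A) ∈ G.Hm g₁)
    (h₂ : (u₂ : G.A) ∈ G.Hm g₂) (i j : ℕ) :
    fx G u₁ u₂ p r i j ∈ G.Hm ((p - i) * g₁ + (r - j) * g₂) := by
  unfold fx
  rw [Units.val_mul]
  exact Hm_mul G (zpow_even G hg₁ u₁ h₁ _) (zpow_even G hg₂ u₂ h₂ _)

theorem fS_closed (hg₁ : Even g₁) (hg₂ : Even g₂) (h₁ : (u₁ : G.A) ∈ G.Hm g₁)
    (h₂ : (u₂ : G.A) ∈ G.Hm g₂) (W : ℕ → ℕ → G.A) (i j : ℕ)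
    (hW₁ : G.D (W (i + 1) j) = fS G u₁ u₂ p r W (i + 1) j)
    (hW₂ : G.D (W i (j + 1)) = fS G u₁ u₂ p r W i (j + 1)) :
    G.D (fS G u₁ u₂ p r W i j) = 0 := by
  have o₁ : Odd (g₁ + 1) := hg₁.add_one
  have o₂ : Odd (g₂ + 1) := hg₂.add_one
  have s₁ : G.s (G.D u₁) = -G.D u₁ := Hm_s_odd G o₁ (Hm_D G h₁)
  have s₂ : G.s (G.D u₂) = -G.D u₂ := Hm_s_odd G o₂ (Hm_D G h₂)
  have q₁ : ∀ w : G.A, G.D u₁ * (G.D u₁ * w) = 0 := fun w => by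
    rw [← mul_assoc, Hm_sq G o₁ (Hm_D G h₁), zero_mul]
  have q₂ : ∀ w : G.A, G.D u₂ * (G.D u₂ * w) = 0 := fun w => by
    rw [← mul_assoc, Hm_sq G o₂ (Hm_D G h₂), zero_mul]
  have q₃ : ∀ w : G.A, G.D u₁ * (G.D u₂ * w) = -(G.D u₂ * (G.D u₁ * w)) := fun w => by
    rw [← mul_assoc, ← mul_assoc, Hm_anti G o₁ o₂ (Hm_D G h₁) (Hm_D G h₂), neg_mul]
  have d₁ : ∀ w : G.A, G.D (G.D u₁ * w) = -(G.D u₁ * G.D w) := fun w => by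
    rw [G.D_mul, G.D_D, s₁, zero_mul, zero_add, neg_mul]
  have d₂ : ∀ w : G.A, G.D (G.D u₂ * w) = -(G.D u₂ * G.D w) := fun w => by
    rw [G.D_mul, G.D_D, s₂, zero_mul, zero_add, neg_mul]
  unfold fS
  rw [map_add, map_add, map_smul, map_smul, d₁, d₂, hW₁, hW₂, fx_D G u₁ u₂ p r hg₁ hg₂ h₁ h₂]
  unfold fS
  simp only [mul_add, mul_smul_comm, q₁, q₂, q₃, smul_zero]
  module

theorem fS_hm (hg₁ : Even g₁) (hg₂ : Even g₂) (h₁ : (u₁ : G.A) ∈ G.Hm g₁)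
    (h₂ : (u₂ : G.A) ∈ G.Hm g₂) (W : ℕ → ℕ → G.A) (i j : ℕ)
    (hW₁ : W (i + 1) j ∈ G.Hm ((p - (i + 1 : ℕ)) * g₁ + (r - j) * g₂ - 1))
    (hW₂ : W i (j + 1) ∈ G.Hm ((p - i) * g₁ + (r - (j + 1 : ℕ)) * g₂ - 1)) :
    fS G u₁ u₂ p r W i j ∈ G.Hm ((p - i) * g₁ + (r - j) * g₂) := by
  unfold fS
  refine add_mem (add_mem (fx_hm G u₁ u₂ p r hg₁ hg₂ h₁ h₂ i j) (Submodule.smul_mem _ _ ?_))
    (Submodule.smul_mem _ _ ?_)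
  · have := Hm_mul G (Hm_D G h₁) hW₁
    have e : g₁ + 1 + ((p - ((i + 1 : ℕ) : ℤ)) * g₁ + (r - j) * g₂ - 1) =
        (p - i) * g₁ + (r - j) * g₂ := by push_cast; ring
    rwa [e] at this
  · have := Hm_mul G (Hm_D G h₂) hW₂
    have e : g₂ + 1 + ((p - i) * g₁ + (r - ((j + 1 : ℕ) : ℤ)) * g₂ - 1) =
        (p - i) * g₁ + (r - j) * g₂ := by push_cast; ring
    rwa [e] at this

theorem yx_D (hg₁ : Even g₁) (hg₂ : Even g₂) (h₁ : (u₁ : G.A) ∈ G.Hm g₁)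
    (h₂ : (u₂ : G.A) ∈ G.Hm g₂) {y : G.A} (hy : y ∈ G.Hm (-1)) (hD : G.D y = 1) (i j : ℕ) :
    G.D (y * fx G u₁ u₂ p r i j) =
      fS G u₁ u₂ p r (fun i j => y * fx G u₁ u₂ p r i j) i j := by
  have o₁ : Odd (g₁ + 1) := hg₁.add_one
  have o₂ : Odd (g₂ + 1) := hg₂.add_one
  have om : Odd (-1 : ℤ) := ⟨-1, by norm_num⟩
  have sy : G.s y = -y := Hm_s_odd G om hy
  have q₁ : ∀ w : G.A, y * (G.D u₁ * w) = -(G.D u₁ * (y * w)) := fun w => by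
    rw [← mul_assoc, ← mul_assoc, Hm_anti G om o₁ hy (Hm_D G h₁), neg_mul]
  have q₂ : ∀ w : G.A, y * (G.D u₂ * w) = -(G.D u₂ * (y * w)) := fun w => by
    rw [← mul_assoc, ← mul_assoc, Hm_anti G om o₂ hy (Hm_D G h₂), neg_mul]
  unfold fS
  rw [G.D_mul, hD, sy, one_mul, fx_D G u₁ u₂ p r hg₁ hg₂ h₁ h₂, neg_mul]
  simp only [mul_add, mul_smul_comm, q₁, q₂]
  module

end AnWL
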