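import Pool.Agent.Helper48.WL.W05
import Pool.Agent.Helper48.WL.W09

/-!
W10. The flat system of a world: regularity. `u₁ = F^(-b) ε^λ`, `u₂ = F^(-2b) ε^λ`, `p = 2a`, `r = -a`,
`a = m + 2`: `x i j = F^(b(i+2j)) ε^(λ(a-i-j))`.

`F`, `ε` are central units (`Hm_comm`); `Fu`, `εu` the corresponding units of `G.A`.
`λ₀ = T + 2 q b (m+1) + q (b + 2) + q + 2` (or anything larger).
(x) `1 ≤ i + j ≤ m + 1`: `F^(b(i+2j)) = F^b F^(b(i+2j-1))`, and `ε^(λ(a-i-j))`, `a - i - j ≥ 1`, contains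
`ε^T ε^(q b (i+2j-1))`: `i + 2j - 1 ≤ 2 (m+1)`.
(h) `D F = F^(3b+1) u`, `D ε = F^(3b+1) u'`, `Pl ε q u`, `Pl ε q u'`:
`D u₁ = -b F^(-b-1) D F ε^λ + λ F^(-b) ε^(λ-1) D ε = -b F^(2b) ε^λ u + λ F^(2b+1) ε^(λ-1) u'`,
`D u₂ = -2b F^b ε^λ u + λ F^(b+1) ε^(λ-1) u'` (`D_zpow`), each of the form `F^b ε^T w`, `w` regular.
(y) `i + j = m + 1`: `b (i+2j) ≥ m + 1 > m`, `y x = (F^m y) F^(b(i+2j)-m) ε^λ` has no pole.
-/

set_option autoImplicit false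

namespace AnWL
variable {M : Type} {xd : M → ℤ} {N : ℕ}

private theorem uz (G : GA M xd N) (Fu εu : G.Aˣ) (hc : Commute Fu εu) (x y n : ℤ) :
    (Fu ^ x * εu ^ y) ^ n = Fu ^ (x * n) * εu ^ (y * n) := by
  rw [(hc.zpow_zpow x y).mul_zpow, ← zpow_mul, ← zpow_mul]

private theorem um (G : GA M xd N) (Fu εu : G.Aˣ) (hc : Commute Fu εu) (x y x' y' : ℤ) :
    (Fu ^ x * εu ^ y) * (Fu ^ x' * εu ^ y') = Fu ^ (x + x') * εu ^ (y + y') := by
  rw [zpow_add, zpow_add, mul_assoc, ← mul_assoc (εu ^ y), ← (hc.zpow_zpow x' y).eq]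
  simp only [mul_assoc]

private theorem fx_eq (G : GA M xd N) (Fu εu u₁ u₂ : G.Aˣ) (b lam a : ℕ) (hc : Commute Fu εu)
    (h₁ : u₁ = Fu ^ (-(b : ℤ)) * εu ^ (lam : ℤ))
    (h₂ : u₂ = Fu ^ (-(2 * b : ℤ)) * εu ^ (lam : ℤ)) (i j c : ℕ) (hij : i + j + c = a) :
    fx G u₁ u₂ (2 * (a : ℕ)) (-(a : ℕ)) i j =
      (Fu : G.A) ^ (b * (i + 2 * j)) * (εu : G.A) ^ (lam * c) := by
  have hu : u₁ ^ ((2 * (a : ℕ) : ℤ) - i) * u₂ ^ ((-(a : ℕ) : ℤ) - j) =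
      Fu ^ (b * (i + 2 * j)) * εu ^ (lam * c) := by
    rw [h₁, h₂, uz G Fu εu hc, uz G Fu εu hc, um G Fu εu hc, ← zpow_natCast, ← zpow_natCast]
    congr 2
    · push_cast
      ring
    · rw [← hij]
      push_cast
      ring
  unfold fx
  rw [hu]
  simp only [Units.val_mul, Units.val_pow_eq_pow_val]

theorem flat_reg (b m q T : ℕ) (hb : 1 ≤ b) :
    ∃ lam₀ : ℕ, ∀ lam ≥ lam₀, ∀ (G : GA M xd N) (L : Finset M) (F ε y : G.A) (f e : ℤ),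
      World G L (3 * b + 1) m q F ε y f e → ∀ (Fu εu u₁ u₂ : G.Aˣ), (Fu : G.A) = F →
      (εu : G.A) = ε → u₁ = Fu ^ (-(b : ℤ)) * εu ^ (lam : ℤ) →
      u₂ = Fu ^ (-(2 * b : ℤ)) * εu ^ (lam : ℤ) →
      Even (-(b : ℤ) * f + lam * e) ∧ (u₁ : G.A) ∈ G.Hm (-(b : ℤ) * f + lam * e) ∧
      G.Lv L u₁ ∧
      Even (-(2 * b : ℤ) * f + lam * e) ∧ (u₂ : G.A) ∈ G.Hm (-(2 * b : ℤ) * f + lam * e) ∧
      G.Lv L u₂ ∧
      fx G u₁ u₂ (2 * (m + 2 : ℕ)) (-(m + 2 : ℕ)) 0 0 = ε ^ (lam * (m + 2)) ∧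
      (∀ i j, 1 ≤ i + j → i + j ≤ m + 1 →
        ∃ w ∈ G.R, fx G u₁ u₂ (2 * (m + 2 : ℕ)) (-(m + 2 : ℕ)) i j = F ^ b * ε ^ T * w) ∧
      (∃ w ∈ G.R, G.D u₁ = F ^ b * ε ^ T * w) ∧ (∃ w ∈ G.R, G.D u₂ = F ^ b * ε ^ T * w) ∧
      (∀ i j, i + j = m + 1 → y * fx G u₁ u₂ (2 * (m + 2 : ℕ)) (-(m + 2 : ℕ)) i j ∈ G.R) := by
  refine ⟨T + 2 * q * b * (m + 1) + q * (b + 2) + q + 2, ?_⟩
  intro lam hlam G L F ε y f e hW Fu εu u₁ u₂ hFu hεu h₁ h₂
  have hlam1 : T + 2 * q * b * (m + 1) + q * (b + 2) + q + 2 ≤ lam := hlam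
  have hFh : (Fu : G.A) ∈ G.Hm f := hFu ▸ hW.F_hm
  have hεh : (εu : G.A) ∈ G.Hm e := hεu ▸ hW.ε_hm
  have hFL : G.Lv L (Fu : G.A) := hFu ▸ hW.F_lv
  have hεL : G.Lv L (εu : G.A) := hεu ▸ hW.ε_lv
  have hεR : ε ∈ G.R := hW.ε_mem
  have hFc : ∀ a, F * a = a * F := Hm_comm G hW.f_even hW.F_hm
  have hεc : ∀ a, ε * a = a * ε := Hm_comm G hW.e_even hW.ε_hm
  have hcu : Commute Fu εu := by
    apply Units.ext
    rw [Units.val_mul, Units.val_mul, hFu, hFc]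
  -- the unit `F^x ε^lam`
  have hgen : ∀ x : ℤ, (((Fu ^ x * εu ^ (lam : ℤ) : G.Aˣ) : G.A)) ∈ G.Hm (x * f + lam * e) ∧
      G.Lv L ((Fu ^ x * εu ^ (lam : ℤ) : G.Aˣ) : G.A) ∧ Even (x * f + lam * e) := by
    intro x
    rw [Units.val_mul]
    exact ⟨Hm_mul G (zpow_even G hW.f_even Fu hFh x) (zpow_even G hW.e_even εu hεh lam),
      Lv_mul G (Lv_zpow G hW.f_even Fu hFh hFL x) (Lv_zpow G hW.e_even εu hεh hεL lam),
      (hW.f_even.mul_left x).add (hW.e_even.mul_left lam)⟩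
  -- poles
  have hpow : ∀ k : ℕ, G.Pl ε (k * q) (F ^ k) := fun k => Pl_pow G hεc hW.F_pl k
  have hreg : ∀ (p n : ℕ) (w : G.A), G.Pl ε p w → p ≤ n → ε ^ n * w ∈ G.R := fun p n w hw hpn =>
    Pl_mono G hεR hpn hw
  -- the derivative of `F^x ε^lam`
  obtain ⟨u, hu, hDF⟩ := hW.DF
  obtain ⟨u', hu', hDε⟩ := hW.Dε
  have hD : ∀ x : ℕ, x ≤ 2 * b → ∃ w ∈ G.R,
      G.D ((Fu ^ (-(x : ℤ)) * εu ^ (lam : ℤ) : G.Aˣ) : G.A) = F ^ b * ε ^ T * w := by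
    intro x hx
    obtain ⟨k, hk⟩ : ∃ k, 2 * b = x + k := ⟨2 * b - x, by omega⟩
    obtain ⟨n, hn⟩ : ∃ n, lam = n + 1 + T := ⟨lam - 1 - T, by omega⟩
    have e1 : ((Fu ^ (-(x : ℤ) - 1) : G.Aˣ) : G.A) * F ^ (3 * b + 1) = F ^ b * F ^ k := by
      have : (Fu ^ (-(x : ℤ) - 1)) * Fu ^ (3 * b + 1) = Fu ^ b * Fu ^ k := by
        rw [← zpow_natCast, ← zpow_natCast, ← zpow_natCast, ← zpow_add, ← zpow_add]
        congr 1
        have : (2 * b : ℤ) = x + k := by exact_mod_cast hk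
        push_cast
        linarith
      rw [← hFu, ← Units.val_pow_eq_pow_val, ← Units.val_pow_eq_pow_val,
        ← Units.val_pow_eq_pow_val, ← Units.val_mul, ← Units.val_mul, this]
    have e2 : ((Fu ^ (-(x : ℤ)) : G.Aˣ) : G.A) * F ^ (3 * b + 1) = F ^ b * F ^ (k + 1) := by
      have : (Fu ^ (-(x : ℤ))) * Fu ^ (3 * b + 1) = Fu ^ b * Fu ^ (k + 1) := by
        rw [← zpow_natCast, ← zpow_natCast, ← zpow_natCast, ← zpow_add, ← zpow_add]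
        congr 1
        have : (2 * b : ℤ) = x + k := by exact_mod_cast hk
        push_cast
        linarith
      rw [← hFu, ← Units.val_pow_eq_pow_val, ← Units.val_pow_eq_pow_val,
        ← Units.val_pow_eq_pow_val, ← Units.val_mul, ← Units.val_mul, this]
    have e3 : ((εu ^ (lam : ℤ) : G.Aˣ) : G.A) = ε ^ T * ε ^ (n + 1) := by
      rw [zpow_natCast, Units.val_pow_eq_pow_val, hεu, ← pow_add]
      congr 1
      omega
    have e4 : ((εu ^ ((lam : ℤ) - 1) : G.Aˣ) : G.A) = ε ^ T * ε ^ n := by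
      have : (lam : ℤ) - 1 = ((T + n : ℕ) : ℤ) := by
        rw [hn]
        push_cast
        ring
      rw [this, zpow_natCast, Units.val_pow_eq_pow_val, hεu, ← pow_add]
    have hs : G.s ((Fu ^ (-(x : ℤ)) : G.Aˣ) : G.A) = ((Fu ^ (-(x : ℤ)) : G.Aˣ) : G.A) :=
      Hm_s_even G (hW.f_even.mul_left _) (zpow_even G hW.f_even Fu hFh _)
    have hFp : ∀ (j : ℕ) (a : G.A), F ^ j * a = a * F ^ j := fun j a =>
      (Commute.pow_left (hFc a) j).eq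
    have hεp : ∀ (j : ℕ) (a : G.A), ε ^ j * a = a * ε ^ j := fun j a =>
      (Commute.pow_left (hεc a) j).eq
    refine ⟨((-(x : ℤ) : ℤ) : ℚ) • (ε ^ (n + 1) * (F ^ k * u)) +
      ((lam : ℤ) : ℚ) • (ε ^ n * (F ^ (k + 1) * u')), ?_, ?_⟩
    · have hk' : k * q ≤ 2 * q * b * (m + 1) := by
        have h1 : k * q ≤ (2 * b) * q := Nat.mul_le_mul_right q (by omega)
        have h2 : (2 * b) * q ≤ (2 * b) * q * (m + 1) := Nat.le_mul_of_pos_right _ (by omega)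
        calc k * q ≤ (2 * b) * q * (m + 1) := h1.trans h2
          _ = 2 * q * b * (m + 1) := by ring
      have hq2 : q * (b + 2) = q * b + 2 * q := by ring
      refine G.R.add_mem (G.R.smul_mem (hreg (k * q + q) _ _ (Pl_mul G hεc (hpow k) hu) ?_) _)
        (G.R.smul_mem (hreg ((k + 1) * q + q) _ _ (Pl_mul G hεc (hpow (k + 1)) hu') ?_) _)
      · rw [hq2] at hlam1
        omega
      · have : (k + 1) * q = k * q + q := by ring
        rw [this]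
        rw [hq2] at hlam1
        omega
    · rw [Units.val_mul, G.D_mul, hs, D_zpow G hW.f_even Fu hFh, D_zpow G hW.e_even εu hεh, hFu,
        hεu, hDF, hDε, mul_add]
      congr 1
      · rw [smul_mul_assoc, mul_smul_comm]
        congr 1
        rw [← mul_assoc, e1, e3, mul_assoc (F ^ b), mul_assoc (F ^ b), mul_assoc (F ^ b),
          ← mul_assoc (F ^ k * u), ← hεp T (F ^ k * u), mul_assoc (ε ^ T), hεp (n + 1)]
      · rw [mul_smul_comm, mul_smul_comm]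
        congr 1
        rw [e4, hεp n (F ^ (k + 1) * u')]
        rw [← mul_assoc (ε ^ T * ε ^ n), ← hFp (3 * b + 1) (ε ^ T * ε ^ n), ← mul_assoc,
          ← mul_assoc, e2]
        rw [mul_assoc (F ^ b), mul_assoc (F ^ b), mul_assoc (F ^ b)]
        congr 1
        rw [mul_assoc (F ^ (k + 1)), hFp (k + 1) (ε ^ T * ε ^ n * u'), mul_assoc (ε ^ T),
          mul_assoc (ε ^ T)]
        congr 1
        rw [mul_assoc (ε ^ n), ← hFp (k + 1) u', hεp n]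
  obtain ⟨g1, g2, g3⟩ := hgen (-(b : ℤ))
  obtain ⟨g4, g5, g6⟩ := hgen (-(2 * b : ℤ))
  have hD1 := hD b (by omega)
  have hD2 := hD (2 * b) le_rfl
  rw [show (-((2 * b : ℕ) : ℤ)) = -(2 * b : ℤ) by push_cast; ring] at hD2
  rw [← h₁] at g1 g2 hD1
  rw [← h₂] at g4 g5 hD2
  have hFp : ∀ (j : ℕ) (a : G.A), F ^ j * a = a * F ^ j := fun j a =>
    (Commute.pow_left (hFc a) j).eq
  have hεp : ∀ (j : ℕ) (a : G.A), ε ^ j * a = a * ε ^ j := fun j a =>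
    (Commute.pow_left (hεc a) j).eq
  refine ⟨g3, g1, g2, g6, g4, g5, ?_, ?_, hD1, hD2, ?_⟩
  · rw [fx_eq G Fu εu u₁ u₂ b lam (m + 2) hcu h₁ h₂ 0 0 (m + 2) (by omega), hεu]
    simp
  · intro i j hij hij'
    obtain ⟨c, hc⟩ : ∃ c, i + j + (c + 1) = m + 2 := ⟨m + 1 - (i + j), by omega⟩
    obtain ⟨k, hk⟩ : ∃ k, i + 2 * j = k + 1 := ⟨i + 2 * j - 1, by omega⟩
    obtain ⟨n, hn⟩ : ∃ n, lam * (c + 1) = T + n ∧ lam ≤ T + n := by
      refine ⟨lam * (c + 1) - T, ?_, ?_⟩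
      · have : lam ≤ lam * (c + 1) := Nat.le_mul_of_pos_right _ (by omega)
        omega
      · have : lam ≤ lam * (c + 1) := Nat.le_mul_of_pos_right _ (by omega)
        omega
    refine ⟨ε ^ n * F ^ (b * k), ?_, ?_⟩
    · apply hreg (b * k * q) _ _ (hpow (b * k))
      have h1 : b * k * q ≤ 2 * q * b * (m + 1) := by
        have : k ≤ 2 * (m + 1) := by omega
        calc b * k * q ≤ b * (2 * (m + 1)) * q := by gcongr
          _ = 2 * q * b * (m + 1) := by ring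
      omega
    · rw [fx_eq G Fu εu u₁ u₂ b lam (m + 2) hcu h₁ h₂ i j (c + 1) hc, hεu, hFu, hk, hn.1,
        mul_add, mul_one, pow_add, pow_add, hFp (b * k) (F ^ b)]
      rw [mul_assoc, mul_assoc]
      congr 1
      rw [← mul_assoc, hFp (b * k), mul_assoc, hεp n (F ^ (b * k))]
  · intro i j hij
    rw [fx_eq G Fu εu u₁ u₂ b lam (m + 2) hcu h₁ h₂ i j 1 (by omega), hεu, hFu, mul_one]
    obtain ⟨k, hk⟩ : ∃ k, b * (i + 2 * j) = m + k := by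
      refine ⟨b * (i + 2 * j) - m, ?_⟩
      have h1 : 1 * (i + 2 * j) ≤ b * (i + 2 * j) := Nat.mul_le_mul_right _ hb
      omega
    have h2 : y * (F ^ (b * (i + 2 * j)) * ε ^ lam) = ε ^ lam * (F ^ m * y * F ^ k) := by
      rw [hk, pow_add, ← hεp lam, ← mul_assoc, ← hεp lam y, mul_assoc]
      congr 1
      rw [← mul_assoc, ← hFp m y]
    rw [h2]
    apply hreg (q + k * q) _ _ (Pl_mul G hεc hW.y_pl (hpow k))
    have h3 : k * q ≤ 2 * q * b * (m + 1) := by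
      have : k ≤ b * (2 * (m + 1)) := by
        have h4 : b * (i + 2 * j) ≤ b * (2 * (m + 1)) := by
          apply Nat.mul_le_mul_left
          omega
        omega
      calc k * q ≤ b * (2 * (m + 1)) * q := by gcongr
        _ = 2 * q * b * (m + 1) := by ring
    omega

end AnWL
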