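import Pool.Agent.Helper48.WL.W08
import Pool.Agent.Helper48.WL.W09

/-!
W11. The flat system: existence of the fields `W i j`, `1 ≤ i + j < t₀`, with `D (W i j) = S i j`, by
adding them one after the other (`EXT`), `i + j = t₀ - 1, …, 1`; `W i j = y x i j` for `i + j ≥ t₀`.

Induction on `t = t₀, t₀ - 1, …, 1`, and inside on subsets `Q` of `{(i, j) : i + j = t}`: the fields exist for
`i + j > t` and `(i, j) ∈ Q`. Step: in `H` the source `S i j` of the new field is closed (`fS_closed`; for the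
neighbours with `i + j + 1 ≥ t₀` use `yx_D`), homogeneous (`fS_hm`), of level `L`, and
`S i j = φ c * (w + (p-i) w₁ W (i+1) j + (r-j) w₂ W i (j+1))` with a regular bracket, so `S i j ∈ I^κ` (`hc`,
transported: `φ (c w) ∈ I^κ`; state the induction with `∀ w ∈ H.R, φ c * w ∈ H.I ^ κ`: from
`hc' : c = c₁ * c₂`, `c₁ ∈ I^κ`.. simpler: `hc : ∃ e₀ ∈ G.I, ∃ c₁ ∈ G.R, c = e₀ ^ κ * c₁`, and
`pow_mul_mem_I`). `EXT` gives `H'`, `φ'`, `z`; the new `W` is `φ' ∘ W` with the value `z` at `(i, j)` (and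
`0` where nothing is required). Regularity of `W` at `i + j = t₀`: hypothesis `hy`.
Generators: a new generator of `H'` is in the image of `H.Gen` or controlled by the components of `z`.
-/

set_option autoImplicit false

namespace AnWL
variable {M : Type} {xd : M → ℤ} {N : ℕ}

/-- The fields of the flat system in `H`. -/
structure Fields (K : Set (GA M xd N)) {G H : GA M xd N} (φ : Mor G H) (L : Finset M)
    (u₁ u₂ : G.Aˣ) (p r : ℤ) (g₁ g₂ : ℤ) (y c : G.A) (t₀ : ℕ) (W : ℕ → ℕ → H.A) : Prop where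
  bd : ∀ i j, t₀ ≤ i + j → W i j = φ.f (y * fx G u₁ u₂ p r i j)
  eq : ∀ i j, 1 ≤ i + j → H.D (W i j) = fS H (Units.map (φ.f : G.A →* H.A) u₁)
    (Units.map (φ.f : G.A →* H.A) u₂) p r W i j
  hm : ∀ i j : ℕ, 1 ≤ i + j → W i j ∈ H.Hm ((p - i) * g₁ + (r - j) * g₂ - 1)
  lv : ∀ i j, 1 ≤ i + j → H.Lv L (W i j)
  reg : ∀ i j, 1 ≤ i + j → i + j ≤ t₀ → W i j ∈ H.R
  memI : ∀ i j, 1 ≤ i + j → i + j < t₀ → W i j ∈ H.I
  div : ∀ i j, 1 ≤ i + j → i + j < t₀ → ∃ w ∈ H.R, H.D (W i j) = φ.f c * w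
  gen : ∀ t ∈ H.Gen, t ∈ φ.f '' G.Gen ∨ ∀ H' ∈ K, ∀ ψ : Mor H H',
    (∀ i j, 1 ≤ i + j → i + j < t₀ → ∀ l : List M, l.Nodup → Odd l.length → (∀ x ∈ l, x ∈ L) →
      ψ.f (H.pdl l (W i j)) ∈ H'.Nl) → ψ.f t ∈ H'.Nl

private theorem w11_fx_map {G H : GA M xd N} (φ : Mor G H) (u₁ u₂ : G.Aˣ) (p r : ℤ) (i j : ℕ) :
    φ.f (fx G u₁ u₂ p r i j) = fx H (Units.map (φ.f : G.A →* H.A) u₁)
      (Units.map (φ.f : G.A →* H.A) u₂) p r i j := by
  unfold fx
  have h : ∀ u : G.Aˣ, φ.f (u : G.A) = ((Units.map (φ.f : G.A →* H.A) u : H.Aˣ) : H.A) := fun _ => rfl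
  rw [h, map_mul, map_zpow, map_zpow]

private theorem w11_fS_map {G H : GA M xd N} (φ : Mor G H) (u₁ u₂ : G.Aˣ) (p r : ℤ)
    (W : ℕ → ℕ → G.A) (W' : ℕ → ℕ → H.A) (i j : ℕ) (h₁ : W' (i + 1) j = φ.f (W (i + 1) j))
    (h₂ : W' i (j + 1) = φ.f (W i (j + 1))) :
    φ.f (fS G u₁ u₂ p r W i j) = fS H (Units.map (φ.f : G.A →* H.A) u₁)
      (Units.map (φ.f : G.A →* H.A) u₂) p r W' i j := by
  have e : ∀ u : G.Aˣ, ((Units.map (φ.f : G.A →* H.A) u : H.Aˣ) : H.A) = φ.f (u : G.A) := fun _ => rfl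
  unfold fS
  rw [map_add, map_add, map_smul, map_smul, map_mul, map_mul, w11_fx_map, h₁, h₂, e, e, φ.D, φ.D]

private def W11Dn (t₀ : ℕ) (Q : Finset (ℕ × ℕ)) (i j : ℕ) : Prop := t₀ ≤ i + j ∨ (i, j) ∈ Q

private structure W11St (K : Set (GA M xd N)) {G H : GA M xd N} (φ : Mor G H) (L : Finset M)
    (u₁ u₂ : G.Aˣ) (p r : ℤ) (g₁ g₂ : ℤ) (y c : G.A) (t₀ : ℕ) (W : ℕ → ℕ → H.A)
    (Q : Finset (ℕ × ℕ)) : Prop where
  cl1 : ∀ i j, (i, j) ∈ Q → W11Dn t₀ Q (i + 1) j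
  cl2 : ∀ i j, (i, j) ∈ Q → W11Dn t₀ Q i (j + 1)
  bd : ∀ i j, t₀ ≤ i + j → W i j = φ.f (y * fx G u₁ u₂ p r i j)
  eq : ∀ i j, W11Dn t₀ Q i j → H.D (W i j) = fS H (Units.map (φ.f : G.A →* H.A) u₁)
    (Units.map (φ.f : G.A →* H.A) u₂) p r W i j
  hm : ∀ i j : ℕ, W11Dn t₀ Q i j → W i j ∈ H.Hm ((p - i) * g₁ + (r - j) * g₂ - 1)
  lv : ∀ i j, W11Dn t₀ Q i j → H.Lv L (W i j)
  reg : ∀ i j, W11Dn t₀ Q i j → i + j ≤ t₀ → W i j ∈ H.R
  memI : ∀ i j, (i, j) ∈ Q → i + j < t₀ → W i j ∈ H.I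
  div : ∀ i j, (i, j) ∈ Q → i + j < t₀ → ∃ w ∈ H.R, H.D (W i j) = φ.f c * w
  gen : ∀ t ∈ H.Gen, t ∈ φ.f '' G.Gen ∨ ∀ H' ∈ K, ∀ ψ : Mor H H',
    (∀ i j, (i, j) ∈ Q → ∀ l : List M, l.Nodup → Odd l.length → (∀ x ∈ l, x ∈ L) →
      ψ.f (H.pdl l (W i j)) ∈ H'.Nl) → ψ.f t ∈ H'.Nl

private theorem w11_step (K : Set (GA M xd N)) {κ : ℕ} (hκ : 1 ≤ κ) (hK : EXT K κ)
    {G : GA M xd N} (L : Finset M) (u₁ u₂ : G.Aˣ) (p r g₁ g₂ : ℤ) (y c : G.A)
    (t₀ : ℕ) (hg₁ : Even g₁) (hg₂ : Even g₂) (h₁ : (u₁ : G.A) ∈ G.Hm g₁)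
    (h₂ : (u₂ : G.A) ∈ G.Hm g₂) (hL₁ : G.Lv L u₁) (hL₂ : G.Lv L u₂)
    (hc : ∃ e₀ ∈ G.I, ∃ c₁ ∈ G.R, c = e₀ ^ κ * c₁)
    (hx : ∀ i j, 1 ≤ i + j → i + j ≤ t₀ → ∃ w ∈ G.R, fx G u₁ u₂ p r i j = c * w)
    (hu₁ : ∃ w ∈ G.R, G.D u₁ = c * w) (hu₂ : ∃ w ∈ G.R, G.D u₂ = c * w)
    {H : GA M xd N} (hH : H ∈ K) (φ : Mor G H) (W : ℕ → ℕ → H.A) (Q : Finset (ℕ × ℕ))
    (hS : W11St K φ L u₁ u₂ p r g₁ g₂ y c t₀ W Q) (i₀ j₀ : ℕ) (h0 : 1 ≤ i₀ + j₀)
    (h0' : i₀ + j₀ < t₀) (hn : (i₀, j₀) ∉ Q) (hd1 : W11Dn t₀ Q (i₀ + 1) j₀)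
    (hd2 : W11Dn t₀ Q i₀ (j₀ + 1)) :
    ∃ H' ∈ K, ∃ (φ' : Mor G H') (W' : ℕ → ℕ → H'.A),
      W11St K φ' L u₁ u₂ p r g₁ g₂ y c t₀ W' (insert (i₀, j₀) Q) := by
  classical
  set v₁ : H.Aˣ := Units.map (φ.f : G.A →* H.A) u₁ with hv₁
  set v₂ : H.Aˣ := Units.map (φ.f : G.A →* H.A) u₂ with hv₂
  have e₁ : (v₁ : H.A) = φ.f (u₁ : G.A) := rfl
  have e₂ : (v₂ : H.A) = φ.f (u₂ : G.A) := rfl
  have k₁ : (v₁ : H.A) ∈ H.Hm g₁ := by rw [e₁]; exact Mor_hm φ h₁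
  have k₂ : (v₂ : H.A) ∈ H.Hm g₂ := by rw [e₂]; exact Mor_hm φ h₂
  have l₁ : H.Lv L (v₁ : H.A) := by rw [e₁]; exact Mor_lv φ hL₁
  have l₂ : H.Lv L (v₂ : H.A) := by rw [e₂]; exact Mor_lv φ hL₂
  have hclosed : H.D (fS H v₁ v₂ p r W i₀ j₀) = 0 :=
    fS_closed H v₁ v₂ p r hg₁ hg₂ k₁ k₂ W i₀ j₀ (hS.eq _ _ hd1) (hS.eq _ _ hd2)
  have hhm : fS H v₁ v₂ p r W i₀ j₀ ∈ H.Hm ((p - i₀) * g₁ + (r - j₀) * g₂) :=
    fS_hm H v₁ v₂ p r hg₁ hg₂ k₁ k₂ W i₀ j₀ (hS.hm _ _ hd1) (hS.hm _ _ hd2)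
  have hev : Even ((p - (i₀ : ℤ)) * g₁ + (r - (j₀ : ℤ)) * g₂) :=
    (hg₁.mul_left _).add (hg₂.mul_left _)
  have hlv : H.Lv L (fS H v₁ v₂ p r W i₀ j₀) := by
    unfold fS fx
    rw [Units.val_mul]
    exact Lv_add H (Lv_add H (Lv_mul H (Lv_zpow H hg₁ v₁ k₁ l₁ _) (Lv_zpow H hg₂ v₂ k₂ l₂ _))
      (Lv_smul H _ (Lv_mul H (Lv_D H l₁) (hS.lv _ _ hd1))))
      (Lv_smul H _ (Lv_mul H (Lv_D H l₂) (hS.lv _ _ hd2)))
  have r1 : W (i₀ + 1) j₀ ∈ H.R := hS.reg _ _ hd1 (by omega)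
  have r2 : W i₀ (j₀ + 1) ∈ H.R := hS.reg _ _ hd2 (by omega)
  obtain ⟨w₀, hw₀, hw₀'⟩ := hx i₀ j₀ h0 h0'.le
  obtain ⟨w₁, hw₁, hw₁'⟩ := hu₁
  obtain ⟨w₂, hw₂, hw₂'⟩ := hu₂
  obtain ⟨e₀, he₀, c₁, hc₁, hcc⟩ := hc
  have hω : ∃ ω ∈ H.R, fS H v₁ v₂ p r W i₀ j₀ = φ.f c * ω := by
    refine ⟨φ.f w₀ + ((p - i₀ : ℤ) : ℚ) • (φ.f w₁ * W (i₀ + 1) j₀) +
      ((r - j₀ : ℤ) : ℚ) • (φ.f w₂ * W i₀ (j₀ + 1)), ?_, ?_⟩
    · exact H.R.add_mem (H.R.add_mem (φ.R _ hw₀) (H.R.smul_mem (H.R.mul_mem (φ.R _ hw₁) r1) _))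
        (H.R.smul_mem (H.R.mul_mem (φ.R _ hw₂) r2) _)
    · have a1 : H.D (v₁ : H.A) = φ.f c * φ.f w₁ := by rw [e₁, φ.D, hw₁', map_mul]
      have a2 : H.D (v₂ : H.A) = φ.f c * φ.f w₂ := by rw [e₂, φ.D, hw₂', map_mul]
      have a0 : fx H v₁ v₂ p r i₀ j₀ = φ.f c * φ.f w₀ := by
        rw [hv₁, hv₂, ← w11_fx_map, hw₀', map_mul]
      unfold fS
      rw [a0, a1, a2, mul_add, mul_add, mul_smul_comm, mul_smul_comm, mul_assoc, mul_assoc]
  obtain ⟨ω, hωR, hω'⟩ := hω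
  have hIκ : fS H v₁ v₂ p r W i₀ j₀ ∈ H.I ^ κ := by
    rw [hω', hcc, map_mul, map_pow, mul_assoc]
    exact pow_mul_mem_I H hκ (φ.I _ he₀) (H.R.mul_mem (φ.R _ hc₁) hωR)
  obtain ⟨H', hH', φ', z, hzR, hzI, hzh, hzL, hDz, hgen⟩ :=
    hK H hH L _ _ hev hhm hIκ hclosed hlv
  set W' : ℕ → ℕ → H'.A := fun i j => if (i, j) = (i₀, j₀) then z else φ'.f (W i j) with hW'
  have w0 : W' i₀ j₀ = z := by simp [hW']
  have wne : ∀ i j, (i, j) ≠ (i₀, j₀) → W' i j = φ'.f (W i j) := by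
    intro i j h
    simp only [hW']
    rw [if_neg h]
  have wt : ∀ i j, t₀ ≤ i + j → (i, j) ≠ (i₀, j₀) := by
    intro i j h h'
    rw [Prod.mk.injEq] at h'
    omega
  have wQ : ∀ i j, (i, j) ∈ Q → (i, j) ≠ (i₀, j₀) := by
    intro i j h h'
    rw [h'] at h
    exact hn h
  have wD : ∀ i j, W11Dn t₀ Q i j → (i, j) ≠ (i₀, j₀) := by
    intro i j h
    rcases h with h | h
    · exact wt i j h
    · exact wQ i j h
  have wins : ∀ i j, W11Dn t₀ Q i j → W11Dn t₀ (insert (i₀, j₀) Q) i j := by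
    intro i j h
    rcases h with h | h
    · exact Or.inl h
    · exact Or.inr (Finset.mem_insert_of_mem h)
  have wcase : ∀ i j, W11Dn t₀ (insert (i₀, j₀) Q) i j → (i, j) = (i₀, j₀) ∨ W11Dn t₀ Q i j := by
    intro i j h
    rcases h with h | h
    · exact Or.inr (Or.inl h)
    · rcases Finset.mem_insert.1 h with h | h
      · exact Or.inl h
      · exact Or.inr (Or.inr h)
  have d1 : ∀ i j, W11Dn t₀ Q i j → W11Dn t₀ Q (i + 1) j := by
    intro i j h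
    rcases h with h | h
    · exact Or.inl (by omega)
    · exact hS.cl1 i j h
  have d2 : ∀ i j, W11Dn t₀ Q i j → W11Dn t₀ Q i (j + 1) := by
    intro i j h
    rcases h with h | h
    · exact Or.inl (by omega)
    · exact hS.cl2 i j h
  have hU : ∀ u : G.Aˣ, Units.map ((φ.comp φ').f : G.A →* H'.A) u =
      Units.map (φ'.f : H.A →* H'.A) (Units.map (φ.f : G.A →* H.A) u) := by
    intro u
    ext
    rfl
  have hDold : ∀ i j, W11Dn t₀ Q i j → H'.D (W' i j) =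
      fS H' (Units.map ((φ.comp φ').f : G.A →* H'.A) u₁)
        (Units.map ((φ.comp φ').f : G.A →* H'.A) u₂) p r W' i j := by
    intro i j h
    rw [wne i j (wD i j h), φ'.D, hS.eq i j h, hU, hU]
    exact w11_fS_map φ' _ _ p r W W' i j (wne _ _ (wD _ _ (d1 i j h))) (wne _ _ (wD _ _ (d2 i j h)))
  have hDnew : H'.D z = fS H' (Units.map ((φ.comp φ').f : G.A →* H'.A) u₁)
        (Units.map ((φ.comp φ').f : G.A →* H'.A) u₂) p r W' i₀ j₀ := by
    rw [hDz, hU, hU]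
    exact w11_fS_map φ' _ _ p r W W' i₀ j₀ (wne _ _ (wD _ _ hd1)) (wne _ _ (wD _ _ hd2))
  refine ⟨H', hH', φ.comp φ', W', ?_⟩
  exact
    { cl1 := by
        intro i j h
        rcases Finset.mem_insert.1 h with h | h
        · rw [Prod.mk.injEq] at h
          obtain ⟨rfl, rfl⟩ := h
          exact wins _ _ hd1
        · exact wins _ _ (hS.cl1 i j h)
      cl2 := by
        intro i j h
        rcases Finset.mem_insert.1 h with h | h
        · rw [Prod.mk.injEq] at h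
          obtain ⟨rfl, rfl⟩ := h
          exact wins _ _ hd2
        · exact wins _ _ (hS.cl2 i j h)
      bd := by
        intro i j h
        rw [wne i j (wt i j h), hS.bd i j h]
        rfl
      eq := by
        intro i j h
        rcases wcase i j h with h | h
        · rw [Prod.mk.injEq] at h
          obtain ⟨rfl, rfl⟩ := h
          rw [w0]
          exact hDnew
        · exact hDold i j h
      hm := by
        intro i j h
        rcases wcase i j h with h | h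
        · rw [Prod.mk.injEq] at h
          obtain ⟨rfl, rfl⟩ := h
          rw [w0]
          exact hzh
        · rw [wne i j (wD i j h)]
          exact Mor_hm φ' (hS.hm i j h)
      lv := by
        intro i j h
        rcases wcase i j h with h | h
        · rw [Prod.mk.injEq] at h
          obtain ⟨rfl, rfl⟩ := h
          rw [w0]
          exact hzL
        · rw [wne i j (wD i j h)]
          exact Mor_lv φ' (hS.lv i j h)
      reg := by
        intro i j h hle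
        rcases wcase i j h with h | h
        · rw [Prod.mk.injEq] at h
          obtain ⟨rfl, rfl⟩ := h
          rw [w0]
          exact hzR
        · rw [wne i j (wD i j h)]
          exact φ'.R _ (hS.reg i j h hle)
      memI := by
        intro i j h hlt
        rcases Finset.mem_insert.1 h with h | h
        · rw [Prod.mk.injEq] at h
          obtain ⟨rfl, rfl⟩ := h
          rw [w0]
          exact hzI
        · rw [wne i j (wQ i j h)]
          exact φ'.I _ (hS.memI i j h hlt)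
      div := by
        intro i j h hlt
        rcases Finset.mem_insert.1 h with h | h
        · rw [Prod.mk.injEq] at h
          obtain ⟨rfl, rfl⟩ := h
          rw [w0]
          refine ⟨φ'.f ω, φ'.R _ hωR, ?_⟩
          rw [hDz, hω', map_mul]
          rfl
        · obtain ⟨w, hw, hw'⟩ := hS.div i j h hlt
          refine ⟨φ'.f w, φ'.R _ hw, ?_⟩
          rw [wne i j (wQ i j h), φ'.D, hw', map_mul]
          rfl
      gen := by
        intro t ht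
        rcases hgen t ht with ⟨t', ht', rfl⟩ | h
        · rcases hS.gen t' ht' with ⟨t₁, ht₁, rfl⟩ | h
          · exact Or.inl ⟨t₁, ht₁, rfl⟩
          · refine Or.inr ?_
            intro H'' hH'' ψ hψ
            refine h H'' hH'' (φ'.comp ψ) ?_
            intro i j hij l hl hodd hmem
            have h1 := hψ i j (Finset.mem_insert_of_mem hij) l hl hodd hmem
            rw [wne i j (wQ i j hij), Mor_pdl] at h1
            exact h1
        · refine Or.inr ?_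
          intro H'' hH'' ψ hψ
          refine h H'' hH'' ψ ?_
          intro l hl hodd hmem
          have h1 := hψ i₀ j₀ (Finset.mem_insert_self _ _) l hl hodd hmem
          rw [w0] at h1
          exact h1 }

theorem exists_fields (K : Set (GA M xd N)) {κ : ℕ} (hκ : 1 ≤ κ) (hK : EXT K κ)
    {G : GA M xd N} (hG : G ∈ K) (L : Finset M) (u₁ u₂ : G.Aˣ) (p r g₁ g₂ : ℤ) (y c : G.A)
    (t₀ : ℕ) (ht : 1 ≤ t₀) (hg₁ : Even g₁) (hg₂ : Even g₂) (h₁ : (u₁ : G.A) ∈ G.Hm g₁)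
    (h₂ : (u₂ : G.A) ∈ G.Hm g₂) (hL₁ : G.Lv L u₁) (hL₂ : G.Lv L u₂) (hy : y ∈ G.Hm (-1))
    (hyL : G.Lv L y) (hDy : G.D y = 1) (hc : ∃ e₀ ∈ G.I, ∃ c₁ ∈ G.R, c = e₀ ^ κ * c₁)
    (hx : ∀ i j, 1 ≤ i + j → i + j ≤ t₀ → ∃ w ∈ G.R, fx G u₁ u₂ p r i j = c * w)
    (hu₁ : ∃ w ∈ G.R, G.D u₁ = c * w) (hu₂ : ∃ w ∈ G.R, G.D u₂ = c * w)
    (hyx : ∀ i j, i + j = t₀ → y * fx G u₁ u₂ p r i j ∈ G.R) :
    ∃ H ∈ K, ∃ (φ : Mor G H) (W : ℕ → ℕ → H.A), Fields K φ L u₁ u₂ p r g₁ g₂ y c t₀ W := by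
  classical
  have hlast : ∀ Q : Finset (ℕ × ℕ), (∀ i j, 1 ≤ i + j → i + j < t₀ → (i, j) ∈ Q) →
      ∀ H ∈ K, ∀ (φ : Mor G H) (W : ℕ → ℕ → H.A), W11St K φ L u₁ u₂ p r g₁ g₂ y c t₀ W Q →
      (∀ x ∈ Q, 1 ≤ x.1 + x.2 ∧ x.1 + x.2 < t₀) →
      Fields K φ L u₁ u₂ p r g₁ g₂ y c t₀ W := by
    intro Q hQ H hH φ W hS hsub
    have hdn : ∀ i j, 1 ≤ i + j → W11Dn t₀ Q i j := by
      intro i j h
      rcases Nat.lt_or_ge (i + j) t₀ with h' | h'
      · exact Or.inr (hQ i j h h')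
      · exact Or.inl h'
    exact
      { bd := hS.bd
        eq := fun i j h => hS.eq i j (hdn i j h)
        hm := fun i j h => hS.hm i j (hdn i j h)
        lv := fun i j h => hS.lv i j (hdn i j h)
        reg := fun i j h h' => hS.reg i j (hdn i j h) h'
        memI := fun i j h h' => hS.memI i j (hQ i j h h') h'
        div := fun i j h h' => hS.div i j (hQ i j h h') h'
        gen := by
          intro t ht
          rcases hS.gen t ht with h | h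
          · exact Or.inl h
          · refine Or.inr ?_
            intro H' hH' ψ hψ
            refine h H' hH' ψ ?_
            intro i j hij
            have h2 := hsub _ hij
            exact hψ i j h2.1 h2.2 }
  have hmain : ∀ n : ℕ, ∀ Q : Finset (ℕ × ℕ), (∀ x ∈ Q, 1 ≤ x.1 + x.2 ∧ x.1 + x.2 < t₀) →
      (((Finset.range t₀ ×ˢ Finset.range t₀).filter
        (fun x => 1 ≤ x.1 + x.2 ∧ x.1 + x.2 < t₀)) \ Q).card = n →
      ∀ H ∈ K, ∀ (φ : Mor G H) (W : ℕ → ℕ → H.A), W11St K φ L u₁ u₂ p r g₁ g₂ y c t₀ W Q →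
      ∃ H' ∈ K, ∃ (φ' : Mor G H') (W' : ℕ → ℕ → H'.A),
        Fields K φ' L u₁ u₂ p r g₁ g₂ y c t₀ W' := by
    intro n
    induction n with
    | zero =>
      intro Q hsub hcard H hH φ W hS
      rw [Finset.card_eq_zero, Finset.sdiff_eq_empty_iff_subset] at hcard
      refine ⟨H, hH, φ, W, hlast Q ?_ H hH φ W hS hsub⟩
      intro i j h h'
      apply hcard
      rw [Finset.mem_filter, Finset.mem_product, Finset.mem_range, Finset.mem_range]
      exact ⟨⟨by simp only; omega, by simp only; omega⟩, h, h'⟩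
    | succ n ih =>
      intro Q hsub hcard H hH φ W hS
      have hne : (((Finset.range t₀ ×ˢ Finset.range t₀).filter
        (fun x => 1 ≤ x.1 + x.2 ∧ x.1 + x.2 < t₀)) \ Q).Nonempty := by
        rw [← Finset.card_pos, hcard]
        exact Nat.succ_pos n
      obtain ⟨⟨i₀, j₀⟩, hm, hmax⟩ := Finset.exists_max_image _ (fun x : ℕ × ℕ => x.1 + x.2) hne
      rw [Finset.mem_sdiff, Finset.mem_filter] at hm
      obtain ⟨⟨hmp, h0, h0'⟩, hn⟩ := hm
      simp only at h0 h0'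
      have hdn : ∀ i j, i₀ + j₀ < i + j → W11Dn t₀ Q i j := by
        intro i j h
        by_contra hcon
        unfold W11Dn at hcon
        push_neg at hcon
        obtain ⟨hc1, hc2⟩ := hcon
        have h3 := hmax (i, j) (by
          rw [Finset.mem_sdiff, Finset.mem_filter, Finset.mem_product, Finset.mem_range,
            Finset.mem_range]
          exact ⟨⟨⟨by simp only; omega, by simp only; omega⟩, by simp only; omega, hc1⟩, hc2⟩)
        simp only at h3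
        omega
      obtain ⟨H', hH', φ', W', hS'⟩ := w11_step K hκ hK L u₁ u₂ p r g₁ g₂ y c t₀ hg₁ hg₂ h₁ h₂
        hL₁ hL₂ hc hx hu₁ hu₂ hH φ W Q hS i₀ j₀ h0 h0' hn (hdn _ _ (by omega)) (hdn _ _ (by omega))
      refine ih (insert (i₀, j₀) Q) ?_ ?_ H' hH' φ' W' hS'
      · intro x hxm
        rcases Finset.mem_insert.1 hxm with rfl | h
        · exact ⟨h0, h0'⟩
        · exact hsub x h
      · rw [Finset.sdiff_insert, Finset.card_erase_of_mem, hcard]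
        · rfl
        · rw [Finset.mem_sdiff, Finset.mem_filter]
          exact ⟨⟨hmp, h0, h0'⟩, hn⟩
  refine hmain _ ∅ (by simp) rfl G hG (Mor.id G) (fun i j => y * fx G u₁ u₂ p r i j) ?_
  have hone : ∀ u : G.Aˣ, Units.map ((Mor.id G).f : G.A →* G.A) u = u := by
    intro u
    ext
    rfl
  have hdn : ∀ i j, W11Dn t₀ ∅ i j → t₀ ≤ i + j := by
    intro i j h
    rcases h with h | h
    · exact h
    · exact absurd h (Finset.notMem_empty _)
  exact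
    { cl1 := fun i j h => absurd h (Finset.notMem_empty _)
      cl2 := fun i j h => absurd h (Finset.notMem_empty _)
      bd := fun i j _ => rfl
      eq := by
        intro i j _
        rw [hone, hone]
        exact yx_D G u₁ u₂ p r hg₁ hg₂ h₁ h₂ hy hDy i j
      hm := by
        intro i j _
        have h := Hm_mul G hy (fx_hm G u₁ u₂ p r hg₁ hg₂ h₁ h₂ i j)
        have e : -1 + ((p - (i : ℤ)) * g₁ + (r - (j : ℤ)) * g₂) =
            (p - i) * g₁ + (r - j) * g₂ - 1 := by ring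
        rwa [e] at h
      lv := by
        intro i j _
        unfold fx
        rw [Units.val_mul]
        exact Lv_mul G hyL (Lv_mul G (Lv_zpow G hg₁ u₁ h₁ hL₁ _) (Lv_zpow G hg₂ u₂ h₂ hL₂ _))
      reg := by
        intro i j h h'
        exact hyx i j (le_antisymm h' (hdn i j h))
      memI := fun i j h => absurd h (Finset.notMem_empty _)
      div := fun i j h => absurd h (Finset.notMem_empty _)
      gen := fun t ht => Or.inl ⟨t, ht, rfl⟩ }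

end AnWL
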