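import Pool.Agent.Helper48.WL.W10
import Pool.Agent.Helper48.WL.W11

/-!
W13. `WL(ℓ)` from `KL(ℓ)` and `S(ℓ)`.

Given `m`, `q`: `b = bb n ℓ`, `dd n ℓ = 3 b + 1`; `KL(ℓ) m q` gives `P₁`; `T = P₁ + κ + q b`; `flat_reg b m q T`
gives `λ₀`, put `λ = λ₀`, `a = m + 2`, `t₀ = m + 1`. `R₀` from `S(ℓ)`. `P = 3 λ a R₀`.
Given the world with `ε ∈ I`: `c = F^b ε^T = ε^κ (ε^(P₁ + q b) F^b)` (regular factor: `Pl_pow` for `F`).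
`exists_fields` gives `H₁`, `φ₁`, `W`. For `1 ≤ i + j < t₀` and `l` (nodup, odd, in `L`): in every extension of
`H₁` in `K` the element `∂_l W i j` can be killed by `KL(ℓ)`: world = transported world (`Mor_world`),
`z = W i j`, `D z = c w = F^b (ε^T w) = ε^P₁ (ε^(T-P₁) F^b w)`, `g = (2a-i) g₁ + (-a-j) g₂` even. `kill_all`
for the finite set of the triples (`i, j ≤ t₀`, `l` nodup: `List.Nodup` lists over a `Fintype` form a finite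
set) gives `H₂`, `φ₂` tame over `H₁`; `φ₁.comp φ₂` is tame by `Fields.gen`.
`Ω = φ₂ (fS H₁ .. W 0 0) = ε^(λa) + 2a h₁ W 1 0 - a h₂ W 0 1`, closed (`fS_closed`), of level `L`, in `I`,
homogeneous of even degree `λ a e`; with `n = Ω - ε^(λa)`, `n³ = 0` (`n = A + B`, `A`, `B` even products of two odd
elements, `A² = B² = 0`, `AB = BA`), `n ∈ R`; so `Ω` is a unit and `ε^(3λa) Ω⁻¹ = ε^(2λa) - n ε^(λa) + n² ∈ R`.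
`S(ℓ)`: `H₃`, `φ₃` tame, `D z' = Ω^R₀`. `η = z' Ω^(-R₀)`: `D η = 1` (`Ω` closed), `ε^(3λaR₀) η ∈ R`,
degree `R₀ λ a e - 1 - R₀ λ a e = -1`.
-/

set_option autoImplicit false

namespace AnWL
variable {M : Type} {xd : M → ℤ} {N : ℕ}

private theorem w13_alg {A : Type} [Ring A] {E n : A} (hc : E * n = n * E)
    (h3 : n * n * n = 0) : (E + n) * (E * E - n * E + n * n) = E * E * E := by
  have e1 : (E + n) * (E * E - n * E + n * n) =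
      E * E * E + (n * E * E - E * n * E) + (E * n * n - n * n * E) + n * n * n := by
    noncomm_ring
  have e2 : E * n * n = n * n * E := by rw [hc, mul_assoc, hc, ← mul_assoc]
  rw [e1, h3, e2, hc, sub_self, sub_self, add_zero, add_zero, add_zero]

private theorem w13_nil {A : Type} [Ring A] {x y : A} (hx : x * x = 0) (hy : y * y = 0)
    (hc : x * y = y * x) : (x + y) * (x + y) * (x + y) = 0 := by
  have e1 : (x + y) * (x + y) = x * y + x * y := by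
    rw [add_mul, mul_add, mul_add, hx, hy, ← hc, zero_add, add_zero]
  have e2 : x * y * (x + y) = 0 := by
    rw [mul_add, hc, mul_assoc, hx, mul_zero, zero_add, ← hc, mul_assoc, hy, mul_zero]
  rw [e1, add_mul, e2, add_zero]

/-- a product of two odd elements, the first one of square zero -/
private theorem w13_sq (H : GA M xd N) {h w : H.A} {a : ℚ} (hh : H.s h = -h) (hw : H.s w = -w)
    (h2 : h * h = 0) : (a • (h * w)) * (a • (h * w)) = 0 := by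
  have e1 : w * h = -(h * w) := H.odd_anti _ _ hw hh
  have e2 : h * w * (h * w) = 0 := by
    have : h * w * (h * w) = h * (w * h) * w := by noncomm_ring
    rw [this, e1, mul_neg, ← mul_assoc, h2, zero_mul, neg_zero, zero_mul]
  rw [smul_mul_assoc, mul_smul_comm, e2, smul_zero, smul_zero]

private theorem w13_even (H : GA M xd N) {h w : H.A} {a : ℚ} (hh : H.s h = -h)
    (hw : H.s w = -w) : H.s (a • (h * w)) = a • (h * w) := by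
  rw [map_smul, map_mul, hh, hw, neg_mul_neg]

private theorem w13_omega (H : GA M xd N) {L : Finset M} {U₁ U₂ : H.Aˣ} {p r g₁ g₂ : ℤ}
    (hg₁ : Even g₁) (hg₂ : Even g₂) (h₁ : (U₁ : H.A) ∈ H.Hm g₁) (h₂ : (U₂ : H.A) ∈ H.Hm g₂)
    (hL₁ : H.Lv L U₁) (hL₂ : H.Lv L U₂) {W : ℕ → ℕ → H.A}
    (e10 : H.D (W 1 0) = fS H U₁ U₂ p r W 1 0) (e01 : H.D (W 0 1) = fS H U₁ U₂ p r W 0 1)
    (m10 : W 1 0 ∈ H.Hm ((p - (1 : ℕ)) * g₁ + (r - (0 : ℕ)) * g₂ - 1))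
    (m01 : W 0 1 ∈ H.Hm ((p - (0 : ℕ)) * g₁ + (r - (1 : ℕ)) * g₂ - 1))
    (l10 : H.Lv L (W 1 0)) (l01 : H.Lv L (W 0 1)) (r10 : W 1 0 ∈ H.R) (r01 : W 0 1 ∈ H.R)
    (i1 : H.D U₁ ∈ H.I) (i2 : H.D U₂ ∈ H.I) {E : H.A} (hE : fx H U₁ U₂ p r 0 0 = E)
    (hEI : E ∈ H.I) (hEu : IsUnit E) :
    H.D (fS H U₁ U₂ p r W 0 0) = 0 ∧ fS H U₁ U₂ p r W 0 0 ∈ H.Hm (p * g₁ + r * g₂) ∧
      H.Lv L (fS H U₁ U₂ p r W 0 0) ∧ fS H U₁ U₂ p r W 0 0 ∈ H.I ∧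
      (∃ Q ∈ H.R, fS H U₁ U₂ p r W 0 0 * Q = E * E * E) ∧ IsUnit (fS H U₁ U₂ p r W 0 0) := by
  have hev : Even (p * g₁ + r * g₂) := (hg₁.mul_left p).add (hg₂.mul_left r)
  have o₁ : Odd (g₁ + 1) := hg₁.add_one
  have o₂ : Odd (g₂ + 1) := hg₂.add_one
  have s₁ : H.s (H.D U₁) = -H.D U₁ := Hm_s_odd H o₁ (Hm_D H h₁)
  have s₂ : H.s (H.D U₂) = -H.D U₂ := Hm_s_odd H o₂ (Hm_D H h₂)
  have q₁ : (H.D U₁ : H.A) * H.D U₁ = 0 := Hm_sq H o₁ (Hm_D H h₁)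
  have q₂ : (H.D U₂ : H.A) * H.D U₂ = 0 := Hm_sq H o₂ (Hm_D H h₂)
  have ev1 : Even ((p - (1 : ℕ)) * g₁ + (r - (0 : ℕ)) * g₂) :=
    (hg₁.mul_left _).add (hg₂.mul_left _)
  have ev2 : Even ((p - (0 : ℕ)) * g₁ + (r - (1 : ℕ)) * g₂) :=
    (hg₁.mul_left _).add (hg₂.mul_left _)
  have t₁ : H.s (W 1 0) = -W 1 0 := Hm_s_odd H (ev1.sub_odd odd_one) m10
  have t₂ : H.s (W 0 1) = -W 0 1 := Hm_s_odd H (ev2.sub_odd odd_one) m01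
  have hm : fS H U₁ U₂ p r W 0 0 ∈ H.Hm (p * g₁ + r * g₂) := by
    have := fS_hm H U₁ U₂ p r hg₁ hg₂ h₁ h₂ W 0 0 m10 m01
    simpa using this
  have hcl : H.D (fS H U₁ U₂ p r W 0 0) = 0 :=
    fS_closed H U₁ U₂ p r hg₁ hg₂ h₁ h₂ W 0 0 e10 e01
  set a1 : H.A := ((p - (0 : ℕ) : ℤ) : ℚ) • (H.D U₁ * W 1 0) with ha1
  set a2 : H.A := ((r - (0 : ℕ) : ℤ) : ℚ) • (H.D U₂ * W 0 1) with ha2
  have hΩ : fS H U₁ U₂ p r W 0 0 = E + (a1 + a2) := by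
    rw [← hE]
    show fx H U₁ U₂ p r 0 0 + _ + _ = _
    rw [add_assoc]
  have A1 : a1 ∈ H.I := H.I.smul_mem _ (H.I_mul _ i1 _ r10)
  have A2 : a2 ∈ H.I := H.I.smul_mem _ (H.I_mul _ i2 _ r01)
  have c1 : H.s a1 = a1 := w13_even H s₁ t₁
  have c2 : H.s a2 = a2 := w13_even H s₂ t₂
  have hn : (a1 + a2) * (a1 + a2) * (a1 + a2) = 0 :=
    w13_nil (w13_sq H s₁ t₁ q₁) (w13_sq H s₂ t₂ q₂) (H.even_comm _ _ c1)
  have hc : E * (a1 + a2) = (a1 + a2) * E :=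
    (H.even_comm (a1 + a2) E (by rw [map_add, c1, c2])).symm
  have hER : E ∈ H.R := H.I_le _ hEI
  have hnR : a1 + a2 ∈ H.R := H.I_le _ (H.I.add_mem A1 A2)
  have hprod : fS H U₁ U₂ p r W 0 0 * (E * E - (a1 + a2) * E + (a1 + a2) * (a1 + a2)) =
      E * E * E := by
    rw [hΩ]
    exact w13_alg hc hn
  have hcen : ∀ x, fS H U₁ U₂ p r W 0 0 * x = x * fS H U₁ U₂ p r W 0 0 := Hm_comm H hev hm
  refine ⟨hcl, hm, ?_, ?_, ⟨E * E - (a1 + a2) * E + (a1 + a2) * (a1 + a2), ?_, hprod⟩, ?_⟩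
  · have f0 : H.Lv L E := by
      rw [← hE]
      unfold fx
      rw [Units.val_mul]
      exact Lv_mul H (Lv_zpow H hg₁ U₁ h₁ hL₁ _) (Lv_zpow H hg₂ U₂ h₂ hL₂ _)
    rw [hΩ]
    exact Lv_add H f0 (Lv_add H (Lv_smul H _ (Lv_mul H (Lv_D H hL₁) l10))
      (Lv_smul H _ (Lv_mul H (Lv_D H hL₂) l01)))
  · rw [hΩ]
    exact H.I.add_mem hEI (H.I.add_mem A1 A2)
  · exact H.R.add_mem (H.R.sub_mem (H.R.mul_mem hER hER) (H.R.mul_mem hnR hER))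
      (H.R.mul_mem hnR hnR)
  · obtain ⟨u, hu⟩ := (hEu.mul hEu).mul hEu
    refine ⟨⟨fS H U₁ U₂ p r W 0 0,
      (E * E - (a1 + a2) * E + (a1 + a2) * (a1 + a2)) * ((u⁻¹ : H.Aˣ) : H.A), ?_, ?_⟩, rfl⟩
    · rw [← mul_assoc, hprod, ← hu, Units.mul_inv]
    · rw [← hcen, ← mul_assoc, hprod, ← hu, Units.mul_inv]

private theorem w13_map_fx {G H : GA M xd N} (φ : Mor G H) (u₁ u₂ : G.Aˣ) (p r : ℤ) (i j : ℕ) :
    fx H (Units.map (φ.f : G.A →* H.A) u₁) (Units.map (φ.f : G.A →* H.A) u₂) p r i j =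
      φ.f (fx G u₁ u₂ p r i j) := by
  unfold fx
  rw [← map_zpow, ← map_zpow, ← map_mul]
  rfl

theorem WL_of [Fintype M] [DecidableEq M] (K : Set (GA M xd N)) {κ : ℕ} (hκ : 1 ≤ κ)
    (hK : EXT K κ) (ℓ : ℕ) (hKL : KLc (Fintype.card M) K ℓ) (hS : SSc K ℓ) :
    WLc (Fintype.card M) K ℓ := by
  classical
  intro m q
  obtain ⟨P₁, hP₁⟩ := hKL m q
  obtain ⟨R₀, hR₀, hSS⟩ := hS
  have hb : 1 ≤ bb (Fintype.card M) ℓ := by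
    cases ℓ with
    | zero => exact le_refl _
    | succ ℓ => show 1 ≤ 3 * bb _ ℓ + 1 + _; omega
  obtain ⟨b, hbdef⟩ : ∃ b, b = bb (Fintype.card M) ℓ := ⟨_, rfl⟩
  rw [← hbdef] at hb
  obtain ⟨lam₀, hlam⟩ := flat_reg (M := M) (xd := xd) (N := N) b m q (P₁ + κ + q * b) hb
  obtain ⟨lam, hlamd⟩ : ∃ lam, lam = lam₀ + 1 := ⟨_, rfl⟩
  refine ⟨3 * (lam * (m + 2)) * R₀, ?_⟩
  intro G hG L hL F ε y f e hw hεI
  have hd : dd (Fintype.card M) ℓ = 3 * b + 1 := by rw [hbdef]; rfl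
  have hw' := hw
  rw [hd] at hw'
  obtain ⟨Fu, hFu⟩ := hw.F_unit
  obtain ⟨εu, hεu⟩ := hw.ε_unit
  obtain ⟨u₁, hu₁⟩ : ∃ u : G.Aˣ, u = Fu ^ (-(b : ℤ)) * εu ^ (lam : ℤ) := ⟨_, rfl⟩
  obtain ⟨u₂, hu₂⟩ : ∃ u : G.Aˣ, u = Fu ^ (-(2 * b : ℤ)) * εu ^ (lam : ℤ) := ⟨_, rfl⟩
  obtain ⟨ge1, hm1, lv1, ge2, hm2, lv2, f00, hx, hD1, hD2, hyx⟩ :=
    hlam lam (by omega) G L F ε y f e hw' Fu εu u₁ u₂ hFu hεu hu₁ hu₂
  have hεc : ∀ x, ε * x = x * ε := Hm_comm G hw.e_even hw.ε_hm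
  -- the factor c
  have hFq : ε ^ (b * q) * F ^ b ∈ G.R := Pl_pow G hεc hw.F_pl b
  have hcc : F ^ b * ε ^ (P₁ + κ + q * b) = ε ^ κ * (ε ^ P₁ * (ε ^ (b * q) * F ^ b)) := by
    have e1 : F ^ b * ε ^ (P₁ + κ + q * b) = ε ^ (P₁ + κ + q * b) * F ^ b :=
      ((Commute.pow_left (show Commute ε (F ^ b) from hεc _) _).eq).symm
    rw [e1, ← mul_assoc, ← mul_assoc, ← pow_add, ← pow_add]
    congr 2
    ring
  have hcc' : F ^ b * ε ^ (P₁ + κ + q * b) = ε ^ P₁ * (ε ^ κ * (ε ^ (b * q) * F ^ b)) := by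
    have h1 : ε ^ κ * ε ^ P₁ = ε ^ P₁ * ε ^ κ := by rw [← pow_add, ← pow_add, add_comm]
    rw [hcc, ← mul_assoc, h1, mul_assoc]
  have hc : ∃ e₀ ∈ G.I, ∃ c₁ ∈ G.R, F ^ b * ε ^ (P₁ + κ + q * b) = e₀ ^ κ * c₁ :=
    ⟨ε, hεI, _, G.R.mul_mem (G.R.pow_mem hw.ε_mem _) hFq, hcc⟩
  obtain ⟨H₁, hH₁, φ₁, W, hF⟩ := exists_fields K hκ hK hG L u₁ u₂ (2 * (m + 2 : ℕ))
    (-(m + 2 : ℕ)) (-(b : ℤ) * f + lam * e) (-(2 * b : ℤ) * f + lam * e) y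
    (F ^ b * ε ^ (P₁ + κ + q * b)) (m + 1) (by omega) ge1 ge2 hm1 hm2 lv1 lv2 hw.y_hm hw.y_lv
    hw.Dy hc hx hD1 hD2 hyx
  -- killing the components
  let E : Finset (ℕ × ℕ × {l : List M // l.Nodup}) :=
    (Finset.range (m + 1) ×ˢ Finset.range (m + 1) ×ˢ Finset.univ).filter
      (fun a => 1 ≤ a.1 + a.2.1 ∧ a.1 + a.2.1 < m + 1 ∧ Odd a.2.2.1.length ∧ ∀ x ∈ a.2.2.1, x ∈ L)
  obtain ⟨H₂, hH₂, φ₂, hφ₂, hkill⟩ := kill_all K hH₁ E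
    (fun a => H₁.pdl a.2.2.1 (W a.1 a.2.1)) (by
      rintro ⟨i, j, l, hl⟩ ha H hH ψ
      obtain ⟨-, hij, hij', hlo, hlL⟩ := Finset.mem_filter.1 ha
      have hwH : World H L (dd (Fintype.card M) ℓ) m q (ψ.f (φ₁.f F)) (ψ.f (φ₁.f ε))
        (ψ.f (φ₁.f y)) f e := Mor_world ψ (Mor_world φ₁ hw)
      obtain ⟨w, hwR, hDw⟩ := hF.div i j hij hij'
      have hgev : Even (((2 * (m + 2 : ℕ) : ℤ) - i) * (-(b : ℤ) * f + lam * e) +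
          ((-(m + 2 : ℕ) : ℤ) - j) * (-(2 * b : ℤ) * f + lam * e)) :=
        (ge1.mul_left _).add (ge2.mul_left _)
      obtain ⟨H', hH', χ, hχ, hχl⟩ := hP₁ H hH L hL _ _ _ f e hwH _ (ψ.f (W i j))
        (ψ.f (φ₁.f (ε ^ (P₁ + κ + q * b))) * ψ.f w)
        (ψ.f (φ₁.f (ε ^ κ * (ε ^ (b * q) * F ^ b))) * ψ.f w) hgev
        (ψ.I _ (hF.memI i j hij hij')) (Mor_hm ψ (hF.hm i j hij)) (Mor_lv ψ (hF.lv i j hij))
        (H.R.mul_mem (ψ.R _ (φ₁.R _ (G.R.pow_mem hw.ε_mem _))) (ψ.R _ hwR)) (by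
          rw [← hbdef, ψ.D, hDw, map_mul, map_mul, map_mul, ← map_pow, ← map_pow, mul_assoc])
        (H.R.mul_mem (ψ.R _ (φ₁.R _ (G.R.mul_mem (G.R.pow_mem hw.ε_mem _) hFq))) (ψ.R _ hwR)) (by
          rw [ψ.D, hDw, hcc']
          simp only [map_mul, map_pow, mul_assoc])
        l hl hlo hlL
      refine ⟨H', hH', χ, hχ, ?_⟩
      rw [← Mor_pdl]
      exact hχl)
  have htame : (φ₁.comp φ₂).Tame := by
    intro t ht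
    rcases hφ₂ t ht with ⟨t', ht', rfl⟩ | h
    · rcases hF.gen t' ht' with ⟨t'', ht'', rfl⟩ | h
      · exact Or.inl ⟨t'', ht'', rfl⟩
      · refine Or.inr (h H₂ hH₂ φ₂ ?_)
        intro i j hij hij' l hl hlo hlL
        exact hkill (i, j, ⟨l, hl⟩) (Finset.mem_filter.2
          ⟨Finset.mem_product.2 ⟨Finset.mem_range.2 (by show i < m + 1; omega),
            Finset.mem_product.2 ⟨Finset.mem_range.2 (by show j < m + 1; omega),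
              Finset.mem_univ _⟩⟩, hij, hij', hlo, hlL⟩)
    · exact Or.inr h
  -- the closed unit
  have hD1I : H₁.D ((Units.map (φ₁.f : G.A →* H₁.A) u₁ : H₁.Aˣ) : H₁.A) ∈ H₁.I := by
    obtain ⟨w, hwR, hDw⟩ := hD1
    have e1 : H₁.D ((Units.map (φ₁.f : G.A →* H₁.A) u₁ : H₁.Aˣ) : H₁.A) = φ₁.f (G.D u₁) :=
      φ₁.D _
    rw [e1, hDw, hcc]
    exact φ₁.I _ (G.I_mul _ (G.I_mul _ (I_pow_mem G hκ hεI) _
      (G.R.mul_mem (G.R.pow_mem hw.ε_mem _) hFq)) _ hwR)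
  have hD2I : H₁.D ((Units.map (φ₁.f : G.A →* H₁.A) u₂ : H₁.Aˣ) : H₁.A) ∈ H₁.I := by
    obtain ⟨w, hwR, hDw⟩ := hD2
    have e1 : H₁.D ((Units.map (φ₁.f : G.A →* H₁.A) u₂ : H₁.Aˣ) : H₁.A) = φ₁.f (G.D u₂) :=
      φ₁.D _
    rw [e1, hDw, hcc]
    exact φ₁.I _ (G.I_mul _ (G.I_mul _ (I_pow_mem G hκ hεI) _
      (G.R.mul_mem (G.R.pow_mem hw.ε_mem _) hFq)) _ hwR)
  have hkpos : 1 ≤ lam * (m + 2) := Nat.mul_pos (by omega) (by omega)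
  obtain ⟨hc0, hc1, hc2, hc3, ⟨Q, hQR, hQ⟩, hc5⟩ := w13_omega H₁ ge1 ge2
    (show ((Units.map (φ₁.f : G.A →* H₁.A) u₁ : H₁.Aˣ) : H₁.A) ∈ H₁.Hm _ from Mor_hm φ₁ hm1)
    (show ((Units.map (φ₁.f : G.A →* H₁.A) u₂ : H₁.Aˣ) : H₁.A) ∈ H₁.Hm _ from Mor_hm φ₁ hm2)
    (show H₁.Lv L ((Units.map (φ₁.f : G.A →* H₁.A) u₁ : H₁.Aˣ) : H₁.A) from Mor_lv φ₁ lv1)
    (show H₁.Lv L ((Units.map (φ₁.f : G.A →* H₁.A) u₂ : H₁.Aˣ) : H₁.A) from Mor_lv φ₁ lv2)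
    (hF.eq 1 0 (by omega)) (hF.eq 0 1 (by omega)) (hF.hm 1 0 (by omega))
    (hF.hm 0 1 (by omega)) (hF.lv 1 0 (by omega)) (hF.lv 0 1 (by omega))
    (hF.reg 1 0 (by omega) (by omega)) (hF.reg 0 1 (by omega) (by omega)) hD1I hD2I
    (E := φ₁.f (ε ^ (lam * (m + 2)))) (by rw [w13_map_fx, f00])
    (φ₁.I _ (I_pow_mem G hkpos hεI)) ((hw.ε_unit.pow _).map φ₁.f)
  set Ω := fS H₁ (Units.map (φ₁.f : G.A →* H₁.A) u₁) (Units.map (φ₁.f : G.A →* H₁.A) u₂)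
    (2 * (m + 2 : ℕ)) (-(m + 2 : ℕ)) W 0 0 with hΩ
  have hdeg : (2 * (m + 2 : ℕ) : ℤ) * (-(b : ℤ) * f + lam * e) +
      (-(m + 2 : ℕ) : ℤ) * (-(2 * b : ℤ) * f + lam * e) = (lam * (m + 2) : ℕ) * e := by
    push_cast
    ring
  rw [hdeg] at hc1
  have hev : Even (((lam * (m + 2) : ℕ) : ℤ) * e) := hw.e_even.mul_left _
  obtain ⟨H₃, hH₃, φ₃, hφ₃, z, zR, zI, zH, zL, hDz⟩ := hSS H₂ hH₂ L hL _ (φ₂.f Ω) hev
    (φ₂.I _ hc3) (Mor_hm φ₂ hc1) (by rw [φ₂.D, hc0, map_zero]) (Mor_lv φ₂ hc2)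
    (hc5.map φ₂.f)
  obtain ⟨Ωu, hΩu⟩ := (hc5.map φ₂.f).map φ₃.f
  have hΩm : (Ωu : H₃.A) ∈ H₃.Hm (((lam * (m + 2) : ℕ) : ℤ) * e) := by
    rw [hΩu]
    exact Mor_hm φ₃ (Mor_hm φ₂ hc1)
  have hΩl : H₃.Lv L (Ωu : H₃.A) := by
    rw [hΩu]
    exact Mor_lv φ₃ (Mor_lv φ₂ hc2)
  have hΩD : H₃.D (Ωu : H₃.A) = 0 := by
    rw [hΩu, φ₃.D, φ₂.D, hc0, map_zero, map_zero]
  have hVD : H₃.D ((Ωu ^ (-(R₀ : ℤ)) : H₃.Aˣ) : H₃.A) = 0 := by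
    rw [D_zpow H₃ hev Ωu hΩm, hΩD, mul_zero, smul_zero]
  have hVm : ((Ωu ^ (-(R₀ : ℤ)) : H₃.Aˣ) : H₃.A) ∈
      H₃.Hm (-(R₀ : ℤ) * (((lam * (m + 2) : ℕ) : ℤ) * e)) := zpow_even H₃ hev Ωu hΩm _
  refine ⟨H₃, hH₃, (φ₁.comp φ₂).comp φ₃, Tame_comp htame hφ₃,
    z * ((Ωu ^ (-(R₀ : ℤ)) : H₃.Aˣ) : H₃.A), ?_, Lv_mul H₃ zL (Lv_zpow H₃ hev Ωu hΩm hΩl _), ?_, ?_⟩
  · have h := Hm_mul H₃ zH hVm
    have e1 : (R₀ : ℤ) * (((lam * (m + 2) : ℕ) : ℤ) * e) - 1 +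
        -(R₀ : ℤ) * (((lam * (m + 2) : ℕ) : ℤ) * e) = -1 := by ring
    rwa [e1] at h
  · rw [H₃.D_mul, hVD, mul_zero, add_zero, hDz, map_pow, ← hΩu, ← Units.val_pow_eq_pow_val,
      ← Units.val_mul, ← zpow_natCast, ← zpow_add, add_neg_cancel, zpow_zero, Units.val_one]
  · have e2 : (Ωu : H₃.A) * φ₃.f (φ₂.f Q) = (((φ₁.comp φ₂).comp φ₃).f ε ^ (lam * (m + 2))) ^ 3 := by
      rw [hΩu, ← map_mul, ← map_mul, hQ]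
      show φ₃.f (φ₂.f (φ₁.f (ε ^ (lam * (m + 2))) * φ₁.f (ε ^ (lam * (m + 2))) *
        φ₁.f (ε ^ (lam * (m + 2))))) = (φ₃.f (φ₂.f (φ₁.f ε)) ^ (lam * (m + 2))) ^ 3
      simp only [map_mul, map_pow]
      rw [pow_succ, pow_two]
    have hcen : ∀ x, (Ωu : H₃.A) * x = x * (Ωu : H₃.A) := Hm_comm H₃ hev hΩm
    have e3 : ((φ₁.comp φ₂).comp φ₃).f ε ^ (3 * (lam * (m + 2)) * R₀) =
        (Ωu : H₃.A) ^ R₀ * (φ₃.f (φ₂.f Q)) ^ R₀ := by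
      have e4 : 3 * (lam * (m + 2)) * R₀ = (lam * (m + 2)) * 3 * R₀ := by ring
      rw [e4, pow_mul, pow_mul, ← e2]
      exact (show Commute (Ωu : H₃.A) (φ₃.f (φ₂.f Q)) from hcen _).mul_pow R₀
    have e5 : ((φ₁.comp φ₂).comp φ₃).f ε ^ (3 * (lam * (m + 2)) * R₀) *
        (z * ((Ωu ^ (-(R₀ : ℤ)) : H₃.Aˣ) : H₃.A)) = (φ₃.f (φ₂.f Q)) ^ R₀ * z := by
      have hcV : ∀ x, ((Ωu ^ (-(R₀ : ℤ)) : H₃.Aˣ) : H₃.A) * x =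
          x * ((Ωu ^ (-(R₀ : ℤ)) : H₃.Aˣ) : H₃.A) := Hm_comm H₃ (hev.mul_left _) hVm
      have e6 : ((Ωu ^ (-(R₀ : ℤ)) : H₃.Aˣ) : H₃.A) * (Ωu : H₃.A) ^ R₀ = 1 := by
        rw [← Units.val_pow_eq_pow_val, ← Units.val_mul, ← zpow_natCast, ← zpow_add,
          neg_add_cancel, zpow_zero, Units.val_one]
      rw [e3, ← hcV, ← mul_assoc, ← hcV, ← mul_assoc, e6, one_mul]
    rw [e5]
    exact H₃.R.mul_mem (H₃.R.pow_mem (φ₃.R _ (φ₂.R _ hQR)) _) zR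

end AnWL
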